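import Pool.Agent.P.MP_a28d48_al.Cone

set_option autoImplicit false

namespace Pool.Agent.P.MP_a28d48_al

open Function Set

section Graph

variable {V E : Type*} (o t : E → V)

/-- joined by one edge of `S` -/
def Adj (S : Set E) (x y : V) : Prop := ∃ e ∈ S, (o e = x ∧ t e = y) ∨ (o e = y ∧ t e = x)

/-- connected through edges of `S` -/
def Conn (S : Set E) : V → V → Prop := Relation.ReflTransGen (Adj o t S)

variable {o t}

lemma Conn.refl (S : Set E) (x : V) : Conn o t S x x := Relation.ReflTransGen.refl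

lemma Conn.trans {S : Set E} {x y z : V} (h : Conn o t S x y) (h' : Conn o t S y z) :
    Conn o t S x z := Relation.ReflTransGen.trans h h'

/-- induction along a path -/
lemma Conn.ind {S : Set E} {x : V} {P : ∀ y, Conn o t S x y → Prop} (h0 : P x (Conn.refl S x))
    (h1 : ∀ e (he : e ∈ S) (h : Conn o t S x (o e)), P (o e) h →
      P (t e) (h.trans (Relation.ReflTransGen.single ⟨e, he, Or.inl ⟨rfl, rfl⟩⟩)))
    (h2 : ∀ e (he : e ∈ S) (h : Conn o t S x (t e)), P (t e) h →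
      P (o e) (h.trans (Relation.ReflTransGen.single ⟨e, he, Or.inr ⟨rfl, rfl⟩⟩)))
    {y : V} (h : Conn o t S x y) : P y h := by
  induction h with
  | refl => exact h0
  | tail h h' ih =>
    obtain ⟨e, he, ⟨rfl, rfl⟩ | ⟨rfl, rfl⟩⟩ := h'
    exacts [h1 e he h ih, h2 e he h ih]

lemma Conn.symm {S : Set E} {x y : V} (h : Conn o t S x y) : Conn o t S y x := by
  induction h using Conn.ind with
  | h0 => exact Conn.refl _ _
  | h1 e he _ ih => exact Relation.ReflTransGen.head ⟨e, he, Or.inr ⟨rfl, rfl⟩⟩ ih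
  | h2 e he _ ih => exact Relation.ReflTransGen.head ⟨e, he, Or.inl ⟨rfl, rfl⟩⟩ ih

lemma Conn.edge {S : Set E} {e : E} (he : e ∈ S) : Conn o t S (o e) (t e) := by
  exact Relation.ReflTransGen.single ⟨e, he, Or.inl ⟨rfl, rfl⟩⟩

lemma Conn.mono {S S' : Set E} (hS : S ⊆ S') {x y : V} (h : Conn o t S x y) : Conn o t S' x y := by
  induction h using Conn.ind with
  | h0 => exact Conn.refl _ _
  | h1 e he _ ih => exact ih.trans (Conn.edge (hS he))
  | h2 e he _ ih => exact ih.trans (Conn.edge (hS he)).symm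

lemma Conn.of_edges {S S' : Set E} (hS : ∀ e ∈ S, Conn o t S' (o e) (t e)) {x y : V}
    (h : Conn o t S x y) : Conn o t S' x y := by
  induction h using Conn.ind with
  | h0 => exact Conn.refl _ _
  | h1 e he _ ih => exact ih.trans (hS e he)
  | h2 e he _ ih => exact ih.trans (hS e he).symm

lemma Conn.finite {S : Set E} {x y : V} (h : Conn o t S x y) :
    ∃ S₀ ⊆ S, S₀.Finite ∧ Conn o t S₀ x y := by
  induction h using Conn.ind with
  | h0 => exact ⟨∅, empty_subset _, finite_empty, Conn.refl _ _⟩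
  | h1 e he _ ih =>
    obtain ⟨S₀, h1, h2, h3⟩ := ih
    exact ⟨insert e S₀, insert_subset he h1, h2.insert e,
      (h3.mono (subset_insert _ _)).trans (Conn.edge (mem_insert _ _))⟩
  | h2 e he _ ih =>
    obtain ⟨S₀, h1, h2, h3⟩ := ih
    exact ⟨insert e S₀, insert_subset he h1, h2.insert e,
      (h3.mono (subset_insert _ _)).trans (Conn.edge (mem_insert _ _)).symm⟩

lemma Conn.const {α : Type*} {S : Set E} (f : V → α) (hf : ∀ e ∈ S, f (o e) = f (t e)) {x y : V}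
    (h : Conn o t S x y) : f x = f y := by
  induction h using Conn.ind with
  | h0 => rfl
  | h1 e he _ ih => exact ih.trans (hf e he)
  | h2 e he _ ih => exact ih.trans (hf e he).symm

lemma Conn.eq_of_empty {x y : V} (h : Conn o t ∅ x y) : x = y := by
  exact h.const id fun _ he => he.elim

/-- only the edges in the component of `x` are used -/
lemma Conn.comp {S : Set E} {x y : V} (h : Conn o t S x y) :
    Conn o t {e | e ∈ S ∧ Conn o t S x (o e)} x y := by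
  induction h using Conn.ind with
  | h0 => exact Conn.refl _ _
  | h1 e he h ih => exact ih.trans (Conn.edge ⟨he, h⟩)
  | h2 e he h ih => exact ih.trans (Conn.symm (Conn.edge ⟨he, h.trans (Conn.edge he).symm⟩))

lemma Conn.map {S S' : Set E} (a : V → V) (b : E → E) (ho : ∀ e, o (b e) = a (o e))
    (ht : ∀ e, t (b e) = a (t e)) (hS : ∀ e ∈ S, b e ∈ S') {x y : V} (h : Conn o t S x y) :
    Conn o t S' (a x) (a y) := by
  induction h using Conn.ind with
  | h0 => exact Conn.refl _ _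
  | h1 e he _ ih =>
    rw [← ho] at ih
    rw [← ht]
    exact ih.trans (Conn.edge (hS e he))
  | h2 e he _ ih =>
    rw [← ht] at ih
    rw [← ho]
    exact ih.trans (Conn.edge (hS e he)).symm

/-- an edge that does not separate `x` from `y` can be dropped -/
lemma Conn.drop {α : Type*} {S : Set E} {w : E} (f : V → α) (hf : ∀ e ∈ S, e ≠ w → f (o e) = f (t e))
    (hw : f (o w) ≠ f (t w)) {x y : V} (hxy : f x = f y) (h : Conn o t S x y) :
    Conn o t (S \ {w}) x y := by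
  have key : Conn o t (S \ {w}) x y ∨
      (Conn o t (S \ {w}) x (o w) ∧ Conn o t (S \ {w}) (t w) y) ∨
      (Conn o t (S \ {w}) x (t w) ∧ Conn o t (S \ {w}) (o w) y) := by
    clear hxy
    induction h using Conn.ind with
    | h0 => exact Or.inl (Conn.refl _ _)
    | h1 e he _ ih =>
      by_cases hew : e = w
      · subst hew
        rcases ih with h | h | h
        · exact Or.inr (Or.inl ⟨h, Conn.refl _ _⟩)
        · exact Or.inr (Or.inl ⟨h.1, Conn.refl _ _⟩)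
        · exact Or.inl h.1
      · have h1 : Conn o t (S \ {w}) (o e) (t e) := Conn.edge ⟨he, hew⟩
        exact ih.imp (fun h => h.trans h1)
          (Or.imp (fun h => ⟨h.1, h.2.trans h1⟩) fun h => ⟨h.1, h.2.trans h1⟩)
    | h2 e he _ ih =>
      by_cases hew : e = w
      · subst hew
        rcases ih with h | h | h
        · exact Or.inr (Or.inr ⟨h, Conn.refl _ _⟩)
        · exact Or.inl h.1
        · exact Or.inr (Or.inr ⟨h.1, Conn.refl _ _⟩)
      · have h1 : Conn o t (S \ {w}) (t e) (o e) := Conn.symm (Conn.edge ⟨he, hew⟩)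
        exact ih.imp (fun h => h.trans h1)
          (Or.imp (fun h => ⟨h.1, h.2.trans h1⟩) fun h => ⟨h.1, h.2.trans h1⟩)
  have hc : ∀ {a b : V}, Conn o t (S \ {w}) a b → f a = f b := fun h' =>
    h'.const f fun e he => hf e he.1 he.2
  rcases key with h | h | h
  · exact h
  · exact absurd ((hc h.1).symm.trans (hxy.trans (hc h.2).symm)) hw
  · exact absurd ((hc h.2).trans (hxy.symm.trans (hc h.1))) hw

/-- first visit of an end of an edge of `B` -/
lemma Conn.first {S B : Set E} {x y : V} (h : Conn o t S x y) :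
    Conn o t (S \ B) x y ∨ ∃ w ∈ B, Conn o t (S \ B) x (o w) ∨ Conn o t (S \ B) x (t w) := by
  induction h using Conn.ind with
  | h0 => exact Or.inl (Conn.refl _ _)
  | h1 e he _ ih =>
    rcases ih with h | h
    · by_cases hB : e ∈ B
      · exact Or.inr ⟨e, hB, Or.inl h⟩
      · exact Or.inl (h.trans (Conn.edge ⟨he, hB⟩))
    · exact Or.inr h
  | h2 e he _ ih =>
    rcases ih with h | h
    · by_cases hB : e ∈ B
      · exact Or.inr ⟨e, hB, Or.inr h⟩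
      · exact Or.inl (h.trans (Conn.symm (Conn.edge ⟨he, hB⟩)))
    · exact Or.inr h

/-- a finite cycle that passes once through `e₀` -/
lemma Conn.of_cycle {k : Type*} [Field k] {S : Set E} (F : Finset E) (ζ : E → k) {e₀ : E}
    (h0 : e₀ ∈ F) (h1 : ζ e₀ ≠ 0) (h2 : ∀ e ∈ F, e ≠ e₀ → ζ e ≠ 0 → e ∈ S)
    (h3 : ∀ ψ : V → k, ∑ e ∈ F, ζ e * (ψ (t e) - ψ (o e)) = 0) : Conn o t S (o e₀) (t e₀) := by
  classical
  by_contra hc
  have h4 := h3 fun v => if Conn o t S (o e₀) v then 1 else 0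
  rw [Finset.sum_eq_single_of_mem e₀ h0, if_neg hc, if_pos (Conn.refl _ _)] at h4
  · exact h1 (by simpa using h4)
  · intro e he hne
    by_cases hz : ζ e = 0
    · rw [hz, zero_mul]
    have h5 : Conn o t S (o e) (t e) := Conn.edge (h2 e he hne hz)
    have h6 : Conn o t S (o e₀) (t e) ↔ Conn o t S (o e₀) (o e) :=
      ⟨fun h => h.trans h5.symm, fun h => h.trans h5⟩
    simp only [h6, sub_self, mul_zero]

end Graph

section Act

variable {Γ V E : Type*} [Group Γ] [MulAction Γ V] [MulAction Γ E]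

/-- union of the orbits of `R` under `H` -/
def Orb (H : Subgroup Γ) (R : Set E) : Set E := {e | ∃ h ∈ H, ∃ r ∈ R, e = h • r}

/-- representatives inside `Z` for a smaller group -/
lemma orb_shrink {H H₁ : Subgroup Γ} {Z R₀ : Set E} (hR : R₀.Finite) (hZ : Z ⊆ Orb H R₀)
    (h : ∀ g ∈ H, ∀ e ∈ Z, g • e ∈ Z → g ∈ H₁) : ∃ R ⊆ Z, R.Finite ∧ Z ⊆ Orb H₁ R := by
  classical
  have h1 : ∀ r : E, ∃ s : Set E, s ⊆ Z ∧ s.Finite ∧
      ∀ g ∈ H, g • r ∈ Z → ∃ g' ∈ H, g' • r ∈ s := by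
    intro r
    by_cases hr : ∃ g ∈ H, g • r ∈ Z
    · obtain ⟨g, hg, hgr⟩ := hr
      exact ⟨{g • r}, singleton_subset_iff.2 hgr, finite_singleton _, fun _ _ _ => ⟨g, hg, rfl⟩⟩
    · exact ⟨∅, empty_subset _, finite_empty, fun g hg hgr => absurd ⟨g, hg, hgr⟩ hr⟩
  choose s hs1 hs2 hs3 using h1
  refine ⟨⋃ r ∈ R₀, s r, iUnion₂_subset fun r _ => hs1 r, hR.biUnion fun r _ => hs2 r,
    fun e he => ?_⟩
  obtain ⟨g, hg, r, hr, rfl⟩ := hZ he
  obtain ⟨g', hg', h2⟩ := hs3 r g hg he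
  have h3 : (g * g'⁻¹) • g' • r = g • r := by rw [mul_smul, inv_smul_smul]
  exact ⟨g * g'⁻¹, h _ (H.mul_mem hg (H.inv_mem hg')) _ (hs1 r h2) (h3 ▸ he), g' • r,
    mem_biUnion hr h2, h3.symm⟩

lemma orb_inter (free : ∀ (g : Γ) (e : E), g • e = e → g = 1) {A B : Subgroup Γ} {R₁ R₂ : Set E}
    (h₁ : R₁.Finite) (h₂ : R₂.Finite) :
    ∃ R : Set E, R.Finite ∧ Orb A R₁ ∩ Orb B R₂ ⊆ Orb (A ⊓ B) R := by
  classical
  have h1 : ∀ r r' : E, ∃ s : Set E, s.Finite ∧ ∀ a ∈ A, ∀ b ∈ B, a • r = b • r' →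
      ∃ a' ∈ A, ∃ b' ∈ B, a' • r = b' • r' ∧ a' • r ∈ s := by
    intro r r'
    by_cases hr : ∃ a ∈ A, ∃ b ∈ B, a • r = b • r'
    · obtain ⟨a, ha, b, hb, hab⟩ := hr
      exact ⟨{a • r}, finite_singleton _, fun _ _ _ _ _ => ⟨a, ha, b, hb, hab, rfl⟩⟩
    · exact ⟨∅, finite_empty, fun a ha b hb hab => absurd ⟨a, ha, b, hb, hab⟩ hr⟩
  choose s hs1 hs2 using h1
  refine ⟨⋃ r ∈ R₁, ⋃ r' ∈ R₂, s r r', h₁.biUnion fun r _ => h₂.biUnion fun r' _ => hs1 r r', ?_⟩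
  rintro e ⟨⟨a, ha, r, hr, rfl⟩, b, hb, r', hr', hab⟩
  obtain ⟨a', ha', b', hb', hab', h2⟩ := hs2 r r' a ha b hb hab
  have h3 : (a * a'⁻¹) • a' • r = a • r := by rw [mul_smul, inv_smul_smul]
  have h4 : (b * b'⁻¹) • a' • r = a • r := by rw [hab', hab, mul_smul, inv_smul_smul]
  have h5 : (b * b'⁻¹)⁻¹ * (a * a'⁻¹) = 1 :=
    free _ (a' • r) (by rw [mul_smul, h3, ← h4, inv_smul_smul])
  refine ⟨a * a'⁻¹, ⟨A.mul_mem ha (A.inv_mem ha'), ?_⟩, a' • r,
    mem_biUnion hr (mem_biUnion hr' h2), h3.symm⟩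
  rw [← inv_mul_eq_one.1 h5]
  exact B.mul_mem hb (B.inv_mem hb')

/-- a uniform bound for the paths that replace an edge -/
lemma exists_push_bound {o t : E → V} (ho : ∀ (g : Γ) e, o (g • e) = g • o e)
    (ht : ∀ (g : Γ) e, t (g • e) = g • t e) {R : Set E} (hR : R.Finite) (orb : ∀ e, e ∈ Orb (⊤ : Subgroup Γ) R)
    (φ : Γ → ℤ) (lv : V → ℤ) (hlv : ∀ (g : Γ) x, lv (g • x) = φ g + lv x) {W : Set E}
    (hW : ∀ (g : Γ) e, e ∈ W → g • e ∈ W)
    (push : ∀ e, e ∉ W → Conn o t {e' | e' ∈ W ∨ lv (o e) < lv (o e')} (o e) (t e)) :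
    ∃ c₀ : ℕ, ∀ c : ℕ, c₀ ≤ c → ∀ e, e ∉ W → Conn o t
      {e' | (e' ∈ W ∨ lv (o e) < lv (o e')) ∧ |lv (o e') - lv (o e)| ≤ c} (o e) (t e) := by
  have h1 : ∀ r : E, ∃ c₀ : ℕ, ∀ c : ℕ, c₀ ≤ c → r ∉ W → Conn o t
      {e' | (e' ∈ W ∨ lv (o r) < lv (o e')) ∧ |lv (o e') - lv (o r)| ≤ c} (o r) (t r) := by
    intro r
    by_cases hr : r ∈ W
    · exact ⟨0, fun _ _ h => absurd hr h⟩
    obtain ⟨S₀, h1, h2, h3⟩ := (push r hr).finite
    obtain ⟨c₀, hc₀⟩ := (h2.image fun e' => (lv (o e') - lv (o r)).natAbs).bddAbove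
    refine ⟨c₀, fun c hc _ => h3.mono fun e' he' => ?_⟩
    refine ⟨h1 he', ?_⟩
    have h4 : (lv (o e') - lv (o r)).natAbs ≤ c₀ := hc₀ ⟨e', he', rfl⟩
    rw [Int.abs_eq_natAbs]
    exact_mod_cast h4.trans hc
  choose f hf using h1
  obtain ⟨c₀, hc₀⟩ := (hR.image f).bddAbove
  refine ⟨c₀, fun c hc e he => ?_⟩
  obtain ⟨g, -, r, hr, rfl⟩ := orb e
  have h2 := hf r c ((hc₀ ⟨r, hr, rfl⟩).trans hc) fun h => he (hW g r h)
  have h3 := h2.map (S' := {e' | (e' ∈ W ∨ lv (o (g • r)) < lv (o e')) ∧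
    |lv (o e') - lv (o (g • r))| ≤ c}) (g • ·) (g • ·) (ho g) (ht g) (by
      rintro e' ⟨h4, h5⟩
      refine ⟨h4.imp (hW g e') fun h => ?_, ?_⟩
      · rw [ho, ho, hlv, hlv]
        omega
      · rw [ho, ho, hlv, hlv, add_sub_add_left_eq_sub]
        exact h5)
  rwa [← ho, ← ht] at h3

/-- generation from a path -/
theorem gen {o t : E → V} (ho : ∀ (g : Γ) e, o (g • e) = g • o e)
    (ht : ∀ (g : Γ) e, t (g • e) = g • t e) (J : Subgroup Γ) {S R : Set E}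
    (hS : ∀ g ∈ J, ∀ e ∈ S, g • e ∈ S) {x : V} {s : Γ} (hs : s ∈ J)
    (h : Conn o t (S ∪ Orb J R) x (s • x)) :
    s ∈ Subgroup.closure {g | g ∈ J ∧ ∃ a ∈ insert x (o '' R ∪ t '' R),
      ∃ a' ∈ insert x (o '' R ∪ t '' R), Conn o t S a (g • a')} := by
  set A : Set V := insert x (o '' R ∪ t '' R) with hA
  set K := Subgroup.closure {g | g ∈ J ∧ ∃ a ∈ A, ∃ a' ∈ A, Conn o t S a (g • a')} with hK
  have hKJ : K ≤ J := (Subgroup.closure_le _).2 fun g hg => hg.1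
  have step : ∀ g ∈ K, ∀ a ∈ A, ∀ u ∈ J, ∀ a' ∈ A, Conn o t S (u • a') (g • a) → u ∈ K := by
    intro g hg a ha u hu a' ha' h1
    have h2 := h1.map (S' := S) (g⁻¹ • ·) (g⁻¹ • ·) (ho _) (ht _)
      (hS _ (J.inv_mem (hKJ hg)))
    rw [inv_smul_smul, ← mul_smul] at h2
    have h3 : g⁻¹ * u ∈ K := Subgroup.subset_closure
      ⟨J.mul_mem (J.inv_mem (hKJ hg)) hu, a, ha, a', ha', h2.symm⟩
    simpa using K.mul_mem hg h3
  have key : ∀ y, Conn o t (S ∪ Orb J R) x y → ∃ g ∈ K, ∃ a ∈ A, Conn o t S y (g • a) := by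
    intro y hy
    induction hy using Conn.ind with
    | h0 => exact ⟨1, K.one_mem, x, mem_insert _ _, by rw [one_smul]; exact Conn.refl _ _⟩
    | h1 e he _ ih =>
      obtain ⟨g, hg, a, ha, h1⟩ := ih
      rcases he with he | ⟨u, hu, r, hr, rfl⟩
      · exact ⟨g, hg, a, ha, (Conn.edge he).symm.trans h1⟩
      · rw [ho] at h1
        exact ⟨u, step g hg a ha u hu _ (Or.inr (Or.inl ⟨r, hr, rfl⟩)) h1, t r,
          Or.inr (Or.inr ⟨r, hr, rfl⟩), by rw [ht]; exact Conn.refl _ _⟩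
    | h2 e he _ ih =>
      obtain ⟨g, hg, a, ha, h1⟩ := ih
      rcases he with he | ⟨u, hu, r, hr, rfl⟩
      · exact ⟨g, hg, a, ha, (Conn.edge he).trans h1⟩
      · rw [ht] at h1
        exact ⟨u, step g hg a ha u hu _ (Or.inr (Or.inr ⟨r, hr, rfl⟩)) h1, o r,
          Or.inr (Or.inl ⟨r, hr, rfl⟩), by rw [ho]; exact Conn.refl _ _⟩
  obtain ⟨g, hg, a, ha, h1⟩ := key _ h
  exact step g hg a ha s hs x (mem_insert _ _) h1

/-- elements that relate two points of a finite set lie in a finitely generated subgroup -/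
theorem pairs_fg (J : Subgroup Γ) (r : V → V → Prop) (hr : Equivalence r)
    (hJ : ∀ g ∈ J, ∀ x y, r x y → r (g • x) (g • y)) {A A' : Set V} (hA : A.Finite)
    (hA' : A'.Finite) (St : V → Subgroup Γ) (hSt : ∀ a ∈ A, St a ≤ J ∧ (St a).FG)
    (hmem : ∀ a ∈ A, ∀ g ∈ J, r a (g • a) → g ∈ St a) :
    ∃ Q : Set Γ, Q.Finite ∧ Q ⊆ J ∧ ∀ g ∈ J, ∀ a ∈ A, ∀ a' ∈ A', r a (g • a') →
      g ∈ Subgroup.closure Q := by
  classical
  have h1 : ∀ p : V × V, ∃ g0 ∈ J, (∃ g ∈ J, r p.1 (g • p.2)) → r p.1 (g0 • p.2) := by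
    intro p
    by_cases h : ∃ g ∈ J, r p.1 (g • p.2)
    · obtain ⟨g, hg, h⟩ := h
      exact ⟨g, hg, fun _ => h⟩
    · exact ⟨1, J.one_mem, fun h' => absurd h' h⟩
  choose f hfJ hf using h1
  have h2 : ∀ a, ∃ Q : Set Γ, Q.Finite ∧ (a ∈ A → Subgroup.closure Q = St a) := by
    intro a
    by_cases ha : a ∈ A
    · obtain ⟨Q, hQ, hQ'⟩ := (Subgroup.fg_iff _).1 (hSt a ha).2
      exact ⟨Q, hQ', fun _ => hQ⟩
    · exact ⟨∅, finite_empty, fun h => absurd h ha⟩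
  choose Q hQ hQ' using h2
  refine ⟨f '' (A ×ˢ A') ∪ ⋃ a ∈ A, Q a, ((hA.prod hA').image _).union (hA.biUnion fun a _ => hQ a),
    ?_, fun g hg a ha a' ha' hc => ?_⟩
  · rintro q (⟨p, -, rfl⟩ | hq)
    · exact hfJ p
    · obtain ⟨a, ha, hq⟩ := mem_iUnion₂.1 hq
      exact (hSt a ha).1 (hQ' a ha ▸ Subgroup.subset_closure hq)
  · have h3 : r a (f (a, a') • a') := hf (a, a') ⟨g, hg, hc⟩
    have h4 : g * (f (a, a'))⁻¹ ∈ J := J.mul_mem hg (J.inv_mem (hfJ _))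
    have h5 := hJ _ h4 _ _ h3
    rw [← mul_smul, inv_mul_cancel_right] at h5
    have h6 : g * (f (a, a'))⁻¹ ∈ St a := hmem a ha _ h4 (hr.trans hc (hr.symm h5))
    rw [← hQ' a ha] at h6
    have h7 := Subgroup.mul_mem _
      (Subgroup.closure_mono (k := f '' (A ×ˢ A') ∪ ⋃ a ∈ A, Q a)
        (fun q hq => Or.inr (mem_iUnion₂.2 ⟨a, ha, hq⟩)) h6)
      (Subgroup.subset_closure (Or.inl ⟨(a, a'), ⟨ha, ha'⟩, rfl⟩))
    simpa using h7

end Act

end Pool.Agent.P.MP_a28d48_al
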