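import Pool.Agent.P.MP_a28d48_al.NDef
import Pool.Agent.P.MP_a28d48_al.HConn

set_option autoImplicit false

namespace Pool.Agent.P.MP_a28d48_al

open Function Set Ser

/-- edges of the Cayley graph -/
@[ext] structure Ed (G Y : Type*) where
  a : G
  y : Y

variable {G : Type*} [Group G] {Y : Type*}

instance (Γ : Subgroup G) : MulAction Γ (Ed G Y) where
  smul h e := ⟨h * e.a, e.y⟩
  one_smul e := Ed.ext (one_mul _) rfl
  mul_smul g h e := Ed.ext (mul_assoc _ _ _) rfl

@[simp] lemma Ed.smul_a {Γ : Subgroup G} (h : Γ) (e : Ed G Y) : (h • e).a = h * e.a := rfl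
@[simp] lemma Ed.smul_y {Γ : Subgroup G} (h : Γ) (e : Ed G Y) : (h • e).y = e.y := rfl

/-- end point of an edge -/
def Ed.t (gen : Y → G) (e : Ed G Y) : G := e.a * gen e.y

lemma conn_cayley {gen : Y → G} (hgen : Subgroup.closure (range gen) = ⊤) (x y : G) :
    Conn Ed.a (Ed.t gen) univ x y := by
  have : ∀ g ∈ Subgroup.closure (range gen), ∀ x, Conn Ed.a (Ed.t gen) univ x (x * g) := by
    intro g hg
    induction hg using Subgroup.closure_induction with
    | mem g hg =>
      obtain ⟨y, rfl⟩ := hg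
      exact fun x => Conn.edge (e := (⟨x, y⟩ : Ed G Y)) (mem_univ _)
    | one => exact fun x => by rw [mul_one]; exact Conn.refl _ _
    | mul g h _ _ ih ih' => exact fun x => by rw [← mul_assoc]; exact (ih x).trans (ih' _)
    | inv g _ ih => exact fun x => by simpa using (ih (x * g⁻¹)).symm
  simpa using this (x⁻¹ * y) (hgen ▸ Subgroup.mem_top _) x

/-- the level moves boundedly under right translation -/
lemma lv_lip {Γ : Subgroup G} [Γ.FiniteIndex] {φ lv : G → ℤ}
    (hlv : ∀ h ∈ Γ, ∀ g, lv (h * g) = φ h + lv g) {B : Set G} (hB : B.Finite) :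
    ∃ c : ℤ, ∀ g, ∀ b ∈ B, lv g ≤ lv (g * b) + c := by
  have hf : ((fun p : (G ⧸ Γ) × G => lv p.1.out⁻¹ - lv (p.1.out⁻¹ * p.2)) '' (univ ×ˢ B)).Finite :=
    (finite_univ.prod hB).image _
  obtain ⟨c, hc⟩ := hf.bddAbove
  refine ⟨c, fun g b hb => ?_⟩
  obtain ⟨h, hh⟩ := QuotientGroup.mk_out_eq_mul Γ g⁻¹
  have h1 := hc ⟨((g⁻¹ : G), b), ⟨mem_univ _, hb⟩, rfl⟩
  simp only [hh, mul_inv_rev, inv_inv] at h1
  rw [mul_assoc, hlv _ (Γ.inv_mem h.2), hlv _ (Γ.inv_mem h.2)] at h1
  omega

variable {k : Type*} [Field k] [Fintype Y] {gen : Y → G}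

/-- a cycle pairs to zero with every coboundary -/
lemma cycle_pair {z : Y → MonoidAlgebra k G} (hz : bd gen z = 0) (ψ : G → k) :
    ∑ y, ∑ b ∈ (z y).coeff.support, (z y).coeff b * (ψ (b * gen y) - ψ b) = 0 := by
  have h1 : ∀ (g : G) (c : MonoidAlgebra k G),
      Finsupp.linearCombination k ψ (c * (MonoidAlgebra.single g 1 - 1)).coeff =
        Finsupp.linearCombination k (fun b => ψ (b * g) - ψ b) c.coeff := by
    intro g c
    induction c using MonoidAlgebra.induction_linear with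
    | zero => simp
    | add x y hx hy =>
      rw [add_mul, MonoidAlgebra.coeff_add, MonoidAlgebra.coeff_add, map_add, map_add, hx, hy]
    | single b r => simp [mul_sub, MonoidAlgebra.single_mul_single]
  have h2 := congrArg (fun c : MonoidAlgebra k G => Finsupp.linearCombination k ψ c.coeff) hz
  simp only [bd, MonoidAlgebra.coeff_sum, map_sum, h1] at h2
  simpa [Finsupp.linearCombination_apply, Finsupp.sum] using h2

end Pool.Agent.P.MP_a28d48_al
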