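import Pool.Agent.P.MP_a28d48_al.HConn

set_option autoImplicit false

namespace Pool.Agent.P.MP_a28d48_al

open Function Set Ser

variable {Γ : Type*} [Group Γ] (C : Cones Γ) (E : Type*) [MulAction Γ E] (k : Type*) [Field k]

/-- functions on a `Γ`-set with admissible support on every orbit -/
def Ch : AddSubgroup (E → k) where
  carrier := {f | ∀ e : E, C.adm.mem (support fun g : Γ => f (g • e))}
  add_mem' := fun {f g} hf hg e => C.adm.mono (support_add _ _) (C.adm.union (hf e) (hg e))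
  zero_mem' := fun e => C.adm.of_finite (by simp)
  neg_mem' := fun {f} hf e => by simpa using hf e

namespace Ch

variable {C E k}

/-- component along the orbit of `e` -/
def cmp (e : E) (f : Ch C E k) : Ser C.adm k := ⟨fun g => f.1 (g • e), f.2 e⟩

@[simp] lemma cmp_c (e : E) (f : Ch C E k) (g : Γ) : (cmp e f).c g = f.1 (g • e) := rfl

lemma cmp_smul_pt (g : Γ) (e : E) (f : Ch C E k) : cmp (g • e) f = cmp e f * sg g⁻¹ 1 := by
  ext h
  rw [mul_sg_c, cmp_c, cmp_c, inv_inv, mul_smul, mul_one]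

lemma cmp_add (e : E) (f f' : Ch C E k) : cmp e (f + f') = cmp e f + cmp e f' := rfl

lemma ext_cmp {f f' : Ch C E k} (h : ∀ e, cmp e f = cmp e f') : f = f' :=
  Subtype.ext (funext fun e => by simpa using congrArg (fun z : Ser C.adm k => z.c 1) (h e))

lemma smul_aux (μ : Ser C.adm k) (f : Ch C E k) (e : E) (g : Γ) :
    (μ * cmp (g • e) f).c 1 = (μ * cmp e f).c g := by
  rw [cmp_smul_pt, ← mul_assoc, mul_sg_c, inv_inv, one_mul, mul_one]

noncomputable instance : SMul (Ser C.adm k) (Ch C E k) :=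
  ⟨fun μ f => ⟨fun e => (μ * cmp e f).c 1, fun e => by
    simp only [smul_aux]
    exact (μ * cmp e f).adm⟩⟩

lemma smul_apply (μ : Ser C.adm k) (f : Ch C E k) (e : E) : (μ • f).1 e = (μ * cmp e f).c 1 := rfl

lemma cmp_smul (e : E) (μ : Ser C.adm k) (f : Ch C E k) : cmp e (μ • f) = μ * cmp e f :=
  Ser.ext (funext fun g => smul_aux μ f e g)

noncomputable instance : Module (Ser C.adm k) (Ch C E k) where
  one_smul f := ext_cmp fun e => by rw [cmp_smul, one_mul]
  mul_smul a b f := ext_cmp fun e => by rw [cmp_smul, cmp_smul, cmp_smul, mul_assoc]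
  smul_zero a := ext_cmp fun e => by
    rw [cmp_smul]
    exact mul_zero a
  smul_add a f g := ext_cmp fun e => by rw [cmp_add, cmp_smul, cmp_smul, cmp_smul, cmp_add, mul_add]
  add_smul a b f := ext_cmp fun e => by rw [cmp_add, cmp_smul, cmp_smul, cmp_smul, add_mul]
  zero_smul f := ext_cmp fun e => by
    rw [cmp_smul]
    exact zero_mul _

/-- the component as a linear map -/
noncomputable def cmpL (e : E) : Ch C E k →ₗ[Ser C.adm k] Ser C.adm k where
  toFun := cmp e
  map_add' := cmp_add e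
  map_smul' := cmp_smul e

lemma sg_smul_apply (g : Γ) (f : Ch C E k) (e : E) :
    ((sg g 1 : Ser C.adm k) • f).1 e = f.1 (g⁻¹ • e) := by
  rw [smul_apply, sg_mul_c, one_mul, mul_one, cmp_c]

lemma exists_of_smul {μ : Ser C.adm k} {f : Ch C E k} {e : E} (h : (μ • f).1 e ≠ 0) :
    ∃ g, μ.c g ≠ 0 ∧ f.1 (g⁻¹ • e) ≠ 0 := by
  obtain ⟨a, b, ha, hb, hab⟩ := exists_of_mul_c h
  exact ⟨a, ha, by rwa [← eq_inv_of_mul_eq_one_right hab]⟩

open Classical in
/-- restriction to a set of points -/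
noncomputable def rs (Ω : Set E) : Ch C E k →+ Ch C E k where
  toFun f := ⟨fun e => if e ∈ Ω then f.1 e else 0, fun e =>
    C.adm.mono (fun g hg (hf : f.1 (g • e) = 0) => hg (by simp [hf])) (f.2 e)⟩
  map_zero' := Subtype.ext (funext fun e => by simp)
  map_add' f g := Subtype.ext (funext fun e => by
    simp only [AddSubgroup.coe_add, Pi.add_apply]
    split_ifs <;> simp)

open Classical in
lemma rs_apply (Ω : Set E) (f : Ch C E k) (e : E) : (rs Ω f).1 e = if e ∈ Ω then f.1 e else 0 := rfl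

/-- restriction to an invariant set is linear -/
lemma rs_smul {H : Subgroup Γ} {Ω : Set E} (hΩ : ∀ h ∈ H, ∀ e ∈ Ω, h • e ∈ Ω) {μ : Ser C.adm k}
    (hμ : μ ∈ subF C k H) (f : Ch C E k) : rs Ω (μ • f) = μ • rs Ω f := by
  refine Subtype.ext (funext fun e => ?_)
  rw [rs_apply, smul_apply, smul_apply,
    mul_c_sup μ (cmp e f) 1 μ.adm (cmp e f).adm subset_rfl subset_rfl,
    mul_c_sup μ (cmp e (rs Ω f)) 1 μ.adm (cmp e f).adm subset_rfl
      (fun y hy (hf : f.1 (y • e) = 0) => hy (by simp [rs_apply, hf]))]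
  split_ifs with he
  · refine Finset.sum_congr rfl fun p hp => ?_
    rw [mem_ad] at hp
    rw [cmp_c, cmp_c, rs_apply, if_pos]
    rw [eq_inv_of_mul_eq_one_right hp.2.2]
    exact hΩ _ (H.inv_mem (hμ hp.1)) _ he
  · refine (Finset.sum_eq_zero fun p hp => ?_).symm
    rw [mem_ad] at hp
    rw [cmp_c, rs_apply, if_neg, mul_zero]
    intro h
    have := hΩ _ (hμ hp.1) _ h
    rw [← mul_smul, hp.2.2, one_smul] at this
    exact he this

/-- restriction to a block -/
lemma rs_smul_block {H H₁ : Subgroup Γ} {Ω : Set E} (h₁ : ∀ h ∈ H₁, ∀ e ∈ Ω, h • e ∈ Ω)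
    (h₂ : ∀ h ∈ H, ∀ e ∈ Ω, h • e ∈ Ω → h ∈ H₁) {μ : Ser C.adm k} (hμ : μ ∈ subF C k H)
    {f : Ch C E k} (hf : ∀ e, f.1 e ≠ 0 → e ∈ Ω) : rs Ω (μ • f) = res H₁ μ • f := by
  refine Subtype.ext (funext fun e => ?_)
  rw [rs_apply, smul_apply, smul_apply,
    mul_c_sup μ (cmp e f) 1 μ.adm (cmp e f).adm subset_rfl subset_rfl,
    mul_c_sup (res H₁ μ) (cmp e f) 1 μ.adm (cmp e f).adm
      (fun y hy (hf : μ.c y = 0) => hy (by simp [res_c, hf])) subset_rfl]
  split_ifs with he
  · refine Finset.sum_congr rfl fun p hp => ?_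
    rw [mem_ad] at hp
    rw [res_c, if_pos]
    refine h₂ _ (hμ hp.1) _ (hf _ hp.2.1) ?_
    rwa [← mul_smul, hp.2.2, one_smul]
  · refine (Finset.sum_eq_zero fun p hp => ?_).symm
    rw [mem_ad] at hp
    rw [res_c, if_neg, zero_mul]
    intro h
    have := h₁ _ h _ (hf _ hp.2.1)
    rw [← mul_smul, hp.2.2, one_smul] at this
    exact he this

/-- independence over the stabiliser of a block gives independence over the whole group -/
theorem indep_block {H H₁ : Subgroup Γ} {Ω : Set E} (h₁ : ∀ h ∈ H₁, ∀ e ∈ Ω, h • e ∈ Ω)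
    (h₂ : ∀ h ∈ H, ∀ e ∈ Ω, h • e ∈ Ω → h ∈ H₁) {ι : Type*} {f : ι → Ch C E k}
    (hf : ∀ i e, (f i).1 e ≠ 0 → e ∈ Ω) (hi : LinearIndependent (subF C k H₁) f) :
    LinearIndependent (subF C k H) f := by
  rw [linearIndependent_iff'] at hi ⊢
  intro s g hs i his
  by_contra hne
  obtain ⟨h, hh⟩ : ∃ h, (g i).1.c h ≠ 0 := by
    by_contra hc
    push Not at hc
    exact hne (Subtype.ext (Ser.ext (funext hc)))
  have hH : h ∈ H := (g i).2 hh
  have hsg : (sg h⁻¹ 1 : Ser C.adm k) ∈ subF C k H := fun x hx => by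
    rw [eq_of_sg_c hx]
    exact H.inv_mem hH
  let g' : ι → subF C k H₁ := fun j => ⟨res H₁ (sg h⁻¹ 1 * (g j).1), fun x hx => by
    by_contra hc
    exact hx (by rw [res_c, if_neg (show x ∉ H₁ from hc)])⟩
  have h0 : ∑ j ∈ s, g' j • f j = 0 := by
    have h1 := congrArg (fun z => rs Ω ((sg h⁻¹ 1 : Ser C.adm k) • z)) hs
    simp only [Finset.smul_sum, map_sum, smul_zero, map_zero] at h1
    rw [← h1]
    refine Finset.sum_congr rfl fun j _ => ?_
    change res H₁ (sg h⁻¹ 1 * (g j).1) • f j = rs Ω ((sg h⁻¹ 1 : Ser C.adm k) • ((g j).1 • f j))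
    rw [smul_smul, rs_smul_block h₁ h₂ ((subF C k H).mul_mem hsg (g j).2) (hf j)]
  have h2 := congrArg (fun z : subF C k H₁ => z.1.c 1) (hi s g' h0 i his)
  change (res H₁ (sg h⁻¹ 1 * (g i).1)).c 1 = 0 at h2
  rw [res_c, if_pos H₁.one_mem, sg_mul_c, inv_inv, mul_one, one_mul] at h2
  exact hh h2

/-- supports in the span over `k((H))` -/
lemma support_span {H : Subgroup Γ} {Ω : Set E} (hΩ : ∀ h ∈ H, ∀ e ∈ Ω, h • e ∈ Ω)
    {B : Set (Ch C E k)} (hB : ∀ f ∈ B, ∀ e, f.1 e ≠ 0 → e ∈ Ω) {f : Ch C E k}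
    (hf : f ∈ Submodule.span (subF C k H) B) : ∀ e, f.1 e ≠ 0 → e ∈ Ω := by
  induction hf using Submodule.span_induction with
  | mem x hx => exact hB x hx
  | zero => exact fun e he => absurd rfl he
  | add x y _ _ hx hy =>
    intro e he
    by_contra hc
    refine he ?_
    change x.1 e + y.1 e = 0
    rw [not_not.1 (mt (hx e) hc), not_not.1 (mt (hy e) hc), add_zero]
  | smul a x _ hx =>
    intro e he
    obtain ⟨g, hg, hxg⟩ := exists_of_smul (μ := a.1) he
    have := hΩ _ (a.2 hg) _ (hx _ hxg)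
    rwa [smul_inv_smul] at this

end Ch

/-- a set without independent families of size `d` has a finite spanning subset -/
lemma exists_finite_span {D M : Type*} [DivisionRing D] [AddCommGroup M] [Module D M] {L : Set M}
    {d : ℕ} (h : ∀ f : Fin d → M, (∀ i, f i ∈ L) → ¬ LinearIndependent D f) :
    ∃ B ⊆ L, B.Finite ∧ L ⊆ Submodule.span D B := by
  obtain ⟨B, hBL, hsp, hli⟩ := exists_linearIndependent D L
  refine ⟨B, hBL, ?_, by rw [hsp]; exact Submodule.subset_span⟩
  by_contra hinf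
  have hinf' : B.Infinite := hinf
  let e := hinf'.natEmbedding
  refine h (fun i => (e i.1 : M)) (fun i => hBL (e i.1).2) ?_
  exact hli.comp (fun i : Fin d => e i.1) (fun i j hij => Fin.ext (e.injective hij))

lemma exists_bound_of_span {D M : Type*} [DivisionRing D] [AddCommGroup M] [Module D M] {B : Set M}
    (hB : B.Finite) : ∃ d : ℕ, ∀ f : Fin d → M, (∀ i, f i ∈ Submodule.span D B) →
      ¬ LinearIndependent D f := by
  classical
  have := hB.fintype
  refine ⟨Fintype.card B + 1, fun f hf hli => ?_⟩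
  have := linearIndependent_le_span' f hli B (by rintro _ ⟨i, rfl⟩; exact hf i)
  simp only [Cardinal.mk_fin, Nat.cast_le] at this
  omega

end Pool.Agent.P.MP_a28d48_al
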