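import Pool.Agent.P.MP_a28d48_al.HGeo
import Pool.Agent.P.MP_a28d48_al.HCh

set_option autoImplicit false

namespace Pool.Agent.P.MP_a28d48_al

open Function Set Ser

/-- sets with finitely many points below each level are admissible -/
lemma adm_of_nov {Γ : Type*} [Group Γ] (C : Cones Γ) (φ : Γ → ℤ)
    (φ_mul : ∀ a b, φ (a * b) = φ a + φ b) (φ_pos : ∀ g, 0 < φ g → g ∈ C.P 0) {s : Set Γ}
    (hs : ∀ n, (s ∩ {g | φ g ≤ n}).Finite) : C.adm.mem s := by
  refine ⟨0, partiallyWellOrderedOn_iff_exists_lt.2 fun f hf => ?_⟩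
  by_cases h : ∀ n, φ (f n) ≤ φ (f 0)
  · obtain ⟨m, n, hmn, e⟩ := Finite.exists_lt_map_eq_of_forall_mem (f := f)
      (fun n => mem_inter (hf n) (h n)) (hs (φ (f 0)))
    exact ⟨m, n, hmn, Or.inl e⟩
  · push Not at h
    obtain ⟨n, hn⟩ := h
    refine ⟨0, n, Nat.pos_of_ne_zero (by rintro rfl; exact lt_irrefl _ hn), Or.inr (φ_pos _ ?_)⟩
    have := φ_mul (f 0) ((f 0)⁻¹ * f n)
    rw [mul_inv_cancel_left] at this
    omega

/-- admissible sets are bounded below -/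
lemma bdd_of_adm {Γ : Type*} [Group Γ] (C : Cones Γ) (φ : Γ → ℤ)
    (φ_mul : ∀ a b, φ (a * b) = φ a + φ b) (φ_pos : ∀ g, 0 < φ g → g ∈ C.P 0) {s : Set Γ}
    (hs : C.adm.mem s) (hne : s.Nonempty) : ∃ g ∈ s, ∀ h ∈ s, φ g ≤ φ h := by
  obtain ⟨g, hg, j, hj⟩ := Cones.exists_min hs hne
  refine ⟨g, hg, fun h hh => ?_⟩
  by_contra hc
  rcases hj h hh with rfl | e
  · exact hc le_rfl
  have h1 := φ_mul h (h⁻¹ * g)
  rw [mul_inv_cancel_left] at h1
  have h2 := C.mul (φ_pos (h⁻¹ * g) (by omega)) e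
  rw [show h⁻¹ * g * (g⁻¹ * h) = 1 by group] at h2
  exact C.one _ h2

namespace Tr

variable {Γ V E k : Type*} [Group Γ] [MulAction Γ V] [MulAction Γ E] [Field k] (T : Tr Γ V E k)

open Classical in
lemma ch_mem (x y : V) : (fun w => if w ∈ T.W then T.χ w y - T.χ w x else 0) ∈ Ch T.C E k := by
  intro e
  refine adm_of_nov T.C T.φ T.φ_mul T.φ_pos fun n => ?_
  have hinj : Injective fun g : Γ => g • e := fun g h (hgh : g • e = h • e) =>
    (inv_mul_eq_one.1 (T.free_edge (h⁻¹ * g) e (by rw [mul_smul, hgh, inv_smul_smul]))).symm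
  refine ((T.sep_finite (n + T.le e) x y).preimage hinj.injOn).subset ?_
  rintro g ⟨h1, h2⟩
  have h2' : T.φ g ≤ n := h2
  have hw : g • e ∈ T.W := by
    by_contra h
    exact h1 (if_neg h)
  refine ⟨hw, by rw [le_smul]; omega, fun h => h1 ?_⟩
  simp only [if_pos hw, h, sub_self]

open Classical in
/-- the chain of walls between two points -/
noncomputable def ch (x y : V) : Ch T.C E k :=
  ⟨fun w => if w ∈ T.W then T.χ w y - T.χ w x else 0, T.ch_mem x y⟩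

/-- the chain from `x` to the formal fixed point of `s` -/
noncomputable def eta (x : V) (s : Γ) : Ch T.C E k :=
  (1 - sg s 1 : Ser T.C.adm k)⁻¹ • T.ch x (s • x)

/-- no support at level at most `n` -/
def Hi (n : ℤ) (σ : Ch T.C E k) : Prop := ∀ e, σ.1 e ≠ 0 → n < T.le e

/-- lines between formal fixed points -/
def Ls (H : Subgroup Γ) : Set (Ch T.C E k) :=
  {σ | ∃ s ∈ H, ∃ s' ∈ H, s ≠ 1 ∧ s' ≠ 1 ∧ σ = T.eta T.b s - T.eta T.b s'}

/-- no independent family of `d` lines -/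
def Bd (H : Subgroup Γ) (d : ℕ) : Prop :=
  ∀ f : Fin d → Ch T.C E k, (∀ i, f i ∈ T.Ls H) → ¬ LinearIndependent (subF T.C k H) f

/-- subgroups with a common formal fixed point are finitely generated -/
def Zc : Prop := ∀ H : Subgroup Γ,
  (∀ s ∈ H, ∀ s' ∈ H, s ≠ 1 → s' ≠ 1 → T.eta T.b s = T.eta T.b s') → H.FG

/-- walls inside the class of `a` -/
def Om (n : ℤ) (a : V) : Set E := {w | n < T.le w ∧ T.Sim n a (T.o w)}

lemma ch_ne_zero {x y : V} {w : E} : (T.ch x y).1 w ≠ 0 ↔ w ∈ T.W ∧ T.χ w x ≠ T.χ w y := by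
  by_cases h : w ∈ T.W
  · simp only [ch, if_pos h, sub_ne_zero]
    exact ⟨fun h' => ⟨h, h'.symm⟩, fun h' => h'.2.symm⟩
  · simp [ch, h]

lemma ch_add (x y z : V) : T.ch x y + T.ch y z = T.ch x z := by
  refine Subtype.ext (funext fun w => ?_)
  simp only [ch, AddSubgroup.coe_add, Pi.add_apply]
  split_ifs <;> ring

lemma ch_self (x : V) : T.ch x x = 0 := by
  simpa using T.ch_add x x x

lemma ch_neg (x y : V) : -T.ch x y = T.ch y x := by
  rw [neg_eq_iff_add_eq_zero, ch_add, ch_self]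

lemma sg_smul_ch (g : Γ) (x y : V) :
    (sg g 1 : Ser T.C.adm k) • T.ch x y = T.ch (g • x) (g • y) := by
  refine Subtype.ext (funext fun w => ?_)
  rw [Ch.sg_smul_apply]
  by_cases h : w ∈ T.W
  · simp only [ch, if_pos h, if_pos (T.W_smul g⁻¹ w h)]
    rw [← T.χ_smul g _ (T.W_smul g⁻¹ w h), smul_inv_smul]
  · simp only [ch, if_neg h, if_neg (mt (T.W_smul_iff g⁻¹ w).1 h)]

lemma one_sub_ne {s : Γ} (hs : s ≠ 1) : (1 - sg s 1 : Ser T.C.adm k) ≠ 0 := by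
  intro h
  have := congrArg (fun f : Ser T.C.adm k => f.c 1) h
  simp [one_def, sg_c_ne _ hs.symm] at this

lemma sg_mem_HEta {H : Subgroup Γ} {s : Γ} (hs : s ∈ H) :
    (sg s 1 : Ser T.C.adm k) ∈ subF T.C k H := fun x hx => by
  rw [eq_of_sg_c hx]
  exact hs

lemma one_sub_mem {H : Subgroup Γ} {s : Γ} (hs : s ∈ H) :
    (1 - sg s 1 : Ser T.C.adm k) ∈ subF T.C k H := by
  exact sub_mem (one_mem _) (T.sg_mem_HEta hs)

lemma eta_spec {s : Γ} (hs : s ≠ 1) (x : V) :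
    (1 - sg s 1 : Ser T.C.adm k) • T.eta x s = T.ch x (s • x) := by
  rw [eta, smul_smul, mul_inv_cancel₀ (T.one_sub_ne hs), one_smul]

lemma eta_eq {s : Γ} (hs : s ≠ 1) {x : V} {σ : Ch T.C E k}
    (h : (1 - sg s 1 : Ser T.C.adm k) • σ = T.ch x (s • x)) : T.eta x s = σ := by
  rw [eta, ← h, smul_smul, inv_mul_cancel₀ (T.one_sub_ne hs), one_smul]

lemma eta_base {s : Γ} (hs : s ≠ 1) (x y : V) : T.eta x s = T.ch x y + T.eta y s := by
  refine T.eta_eq hs ?_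
  rw [smul_add, T.eta_spec hs, sub_smul, one_smul, sg_smul_ch, sub_add_eq_add_sub, ch_add,
    ← T.ch_add x (s • x) (s • y), add_sub_cancel_right]

omit [MulAction Γ V] [MulAction Γ E] [Field k] in
lemma conj_ne_HEta {s : Γ} (hs : s ≠ 1) (g : Γ) : g * s * g⁻¹ ≠ 1 := fun h =>
  hs (by simpa [mul_inv_eq_one] using h)

lemma eta_conj {s : Γ} (hs : s ≠ 1) (g : Γ) (x : V) :
    T.eta (g • x) (g * s * g⁻¹) = (sg g 1 : Ser T.C.adm k) • T.eta x s := by
  refine T.eta_eq (conj_ne_HEta hs g) ?_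
  have e : (1 - sg (g * s * g⁻¹) 1 : Ser T.C.adm k) * sg g 1 = sg g 1 * (1 - sg s 1) := by
    rw [sub_mul, mul_sub, one_mul, mul_one, sg_mul_sg, sg_mul_sg, inv_mul_cancel_right]
  rw [smul_smul, e, mul_smul, T.eta_spec hs, sg_smul_ch, mul_smul, mul_smul, inv_smul_smul]

lemma eta_conj' {s : Γ} (hs : s ≠ 1) (g : Γ) (x : V) :
    T.eta x (g * s * g⁻¹) = T.ch x (g • x) + (sg g 1 : Ser T.C.adm k) • T.eta x s := by
  rw [T.eta_base (conj_ne_HEta hs g) x (g • x), T.eta_conj hs]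

variable {T}

lemma Hi.mono {m n : ℤ} (h : m ≤ n) {σ : Ch T.C E k} (hσ : T.Hi n σ) : T.Hi m σ :=
  fun e he => h.trans_lt (hσ e he)

lemma Hi.add {n : ℤ} {σ σ' : Ch T.C E k} (h : T.Hi n σ) (h' : T.Hi n σ') : T.Hi n (σ + σ') := by
  intro e he
  by_cases h0 : σ.1 e = 0
  · exact h' e (by simpa [h0] using he)
  · exact h e h0

lemma Hi.neg {n : ℤ} {σ : Ch T.C E k} (h : T.Hi n σ) : T.Hi n (-σ) := by
  intro e he
  exact h e (by simpa using he)

lemma Hi.sub {n : ℤ} {σ σ' : Ch T.C E k} (h : T.Hi n σ) (h' : T.Hi n σ') : T.Hi n (σ - σ') := by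
  rw [sub_eq_add_neg]
  exact h.add h'.neg

lemma Hi.smul {n m : ℤ} {σ : Ch T.C E k} (h : T.Hi n σ) {μ : Ser T.C.adm k}
    (hμ : ∀ g, μ.c g ≠ 0 → m ≤ T.φ g) : T.Hi (n + m) (μ • σ) := by
  intro e he
  obtain ⟨g, hg, h1⟩ := Ch.exists_of_smul he
  have h2 := h _ h1
  have h3 := hμ g hg
  rw [le_smul, φ_inv] at h2
  omega

lemma Hi.sg {n : ℤ} {σ : Ch T.C E k} (h : T.Hi n σ) (g : Γ) :
    T.Hi (n + T.φ g) ((sg g 1 : Ser T.C.adm k) • σ) := by
  exact h.smul fun x hx => by rw [eq_of_sg_c hx]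

lemma Hi.smul_N {n : ℤ} {σ : Ch T.C E k} (h : T.Hi n σ) {μ : Ser T.C.adm k}
    (hμ : μ ∈ subF T.C k T.N) : T.Hi n (μ • σ) := by
  simpa using h.smul (m := 0) fun g hg => (T.mem_N.1 (hμ hg)).ge

lemma eq_zero_of_hi {σ : Ch T.C E k} (h : ∀ n, T.Hi n σ) : σ = 0 := by
  refine Subtype.ext (funext fun e => ?_)
  by_contra he
  exact lt_irrefl _ (h (T.le e) e he)

lemma hi_ch {n : ℤ} {x y : V} : T.Hi n (T.ch x y) ↔ T.Sim n x y := by
  refine ⟨fun h w hw hn => ?_, fun h e he => ?_⟩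
  · by_contra hc
    exact (h w (T.ch_ne_zero.2 ⟨hw, hc⟩)).not_ge hn
  · obtain ⟨h1, h2⟩ := T.ch_ne_zero.1 he
    by_contra hc
    exact h2 (h e h1 (not_lt.1 hc))

lemma hi_eta {n : ℤ} {s : Γ} (hs : s ∈ T.N) (hs1 : s ≠ 1) {y : V} :
    T.Hi n (T.eta y s) ↔ T.Sim n y (s • y) := by
  rw [← hi_ch]
  refine ⟨fun h => ?_, fun h => h.smul_N (inv_mem (T.one_sub_mem hs))⟩
  rw [← T.eta_spec hs1]
  exact h.smul_N (T.one_sub_mem hs)

/-- lines do not depend on the base point -/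
lemma line_base {s s' : Γ} (hs : s ≠ 1) (hs' : s' ≠ 1) (x y : V) :
    T.eta x s - T.eta x s' = T.eta y s - T.eta y s' := by
  rw [T.eta_base hs x y, T.eta_base hs' x y, add_sub_add_left_eq_sub]

lemma ch_mem_span {H : Subgroup Γ} {s₀ s : Γ} (h₀ : s₀ ∈ H) (h₁ : s₀ ≠ 1) (hs : s ∈ H) (x : V) :
    T.ch x (s • x) ∈ Submodule.span (subF T.C k H) (insert (T.eta x s₀) (T.Ls H)) := by
  by_cases hs1 : s = 1
  · rw [hs1, one_smul, ch_self]
    exact zero_mem _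
  rw [← T.eta_spec hs1]
  refine Submodule.smul_mem _ (⟨_, T.one_sub_mem hs⟩ : subF T.C k H) ?_
  rw [← sub_add_cancel (T.eta x s) (T.eta x s₀), line_base hs1 h₁ x T.b]
  exact add_mem (Submodule.subset_span (Or.inr ⟨s, hs, s₀, h₀, hs1, h₁, rfl⟩))
    (Submodule.subset_span (Or.inl rfl))

lemma ls_subset_span {H : Subgroup Γ} {S : Set Γ} (hS : H ≤ Subgroup.closure S) :
    T.Ls H ⊆ Submodule.span (subF T.C k (Subgroup.closure S))
      ((fun s => T.ch T.b (s • T.b)) '' S) := by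
  have key : ∀ s ∈ Subgroup.closure S, T.ch T.b (s • T.b) ∈
      Submodule.span (subF T.C k (Subgroup.closure S)) ((fun s => T.ch T.b (s • T.b)) '' S) := by
    intro s hs
    induction hs using Subgroup.closure_induction with
    | mem x hx => exact Submodule.subset_span ⟨x, hx, rfl⟩
    | one =>
      rw [one_smul, ch_self]
      exact zero_mem _
    | mul x y hx _ ix iy =>
      rw [← T.ch_add T.b (x • T.b), mul_smul, ← sg_smul_ch]
      exact add_mem ix (Submodule.smul_mem _ (⟨_, T.sg_mem_HEta hx⟩ : subF T.C k _) iy)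
    | inv x hx ix =>
      have := Submodule.smul_mem _ (⟨_, T.sg_mem_HEta (inv_mem hx)⟩ : subF T.C k _) ix
      have e : (sg x⁻¹ 1 : Ser T.C.adm k) • T.ch T.b (x • T.b) = -T.ch T.b (x⁻¹ • T.b) := by
        rw [sg_smul_ch, inv_smul_smul, ch_neg]
      exact neg_mem_iff.1 (e ▸ this)
  have key2 : ∀ s ∈ H, T.eta T.b s ∈
      Submodule.span (subF T.C k (Subgroup.closure S)) ((fun s => T.ch T.b (s • T.b)) '' S) :=
    fun s hs => Submodule.smul_mem _ (⟨_, inv_mem (T.one_sub_mem (hS hs))⟩ : subF T.C k _)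
      (key s (hS hs))
  rintro _ ⟨s, hs, s', hs', -, -, rfl⟩
  exact sub_mem (key2 s hs) (key2 s' hs')

lemma bd_of_fg {H : Subgroup Γ} (hH : H.FG) : ∃ d, T.Bd H d := by
  obtain ⟨S, rfl, hfin⟩ := (Subgroup.fg_iff H).1 hH
  obtain ⟨d, hd⟩ := exists_bound_of_span (D := subF T.C k (Subgroup.closure S))
    (hfin.image fun s => T.ch T.b (s • T.b))
  exact ⟨d, fun f hf => hd f fun i => ls_subset_span le_rfl (hf i)⟩

lemma not_bd_zero (H : Subgroup Γ) : ¬ T.Bd H 0 :=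
  fun h => h Fin.elim0 (fun i => i.elim0) linearIndependent_empty_type

end Tr

end Pool.Agent.P.MP_a28d48_al
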