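import Pool.Agent.P.MP_a28d48_al.KDD

set_option autoImplicit false

namespace Pool.Agent.P.MP_a28d48_al

open Function Set Ser

variable {G : Type*} [Group G] {C : Cones G} {k : Type*} [Field k]

lemma exists_tv (Γ : Subgroup G) [Γ.FiniteIndex] : ∃ T, IsTv Γ T ∧ (1 : G) ∈ T := by
  classical
  have : Finite (Quotient (QuotientGroup.rightRel Γ)) :=
    Finite.of_equiv _ (QuotientGroup.quotientRightRelEquivQuotientLeftRel Γ).symm
  have := Fintype.ofFinite (Quotient (QuotientGroup.rightRel Γ))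
  let rep : Quotient (QuotientGroup.rightRel Γ) → G := fun q =>
    if q = Quotient.mk _ 1 then 1 else q.out
  have h1 : ∀ q, Quotient.mk _ (rep q) = q := fun q => by
    simp only [rep]
    split_ifs with h
    · exact h.symm
    · exact q.out_eq
  refine ⟨Finset.univ.image rep, fun g => ⟨rep (Quotient.mk _ g), ⟨?_, ?_⟩, ?_⟩, ?_⟩
  · exact Finset.mem_image_of_mem _ (Finset.mem_univ _)
  · exact QuotientGroup.rightRel_apply.1 (Quotient.exact (h1 (Quotient.mk _ g)))
  · rintro t ⟨ht, hg⟩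
    obtain ⟨q, -, rfl⟩ := Finset.mem_image.1 ht
    have h2 : Quotient.mk (QuotientGroup.rightRel Γ) (rep q) = Quotient.mk _ g :=
      Quotient.sound (QuotientGroup.rightRel_apply.2 hg)
    rw [← h2, h1]
  · exact Finset.mem_image.2 ⟨Quotient.mk _ 1, Finset.mem_univ _, if_pos rfl⟩

lemma IsTv.decomp {Γ : Subgroup G} {T : Finset G} (hT : IsTv Γ T) (x : Ser C.adm k) :
    x = ∑ t ∈ T, res Γ (x * sg t⁻¹ 1) * sg t 1 := by
  ext g
  obtain ⟨t, ⟨ht, hg⟩, hu⟩ := hT g
  rw [sum_c, Finset.sum_eq_single_of_mem t ht]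
  · rw [mul_sg_c, res_c, if_pos hg, mul_sg_c, inv_inv, inv_mul_cancel_right, mul_one, mul_one]
  · intro t' ht' hne
    rw [mul_sg_c, res_c, if_neg fun h => hne (hu t' ⟨ht', h⟩), zero_mul]

lemma res_mem_subF (Γ : Subgroup G) (x : Ser C.adm k) : res Γ x ∈ subF C k Γ := by
  intro g hg
  by_contra h
  exact hg (by rw [res_c, if_neg (show g ∉ Γ from h)])

lemma res_of_mem {Γ : Subgroup G} {x : Ser C.adm k} (hx : x ∈ subF C k Γ) : res Γ x = x := by
  ext g
  rw [res_c]
  split_ifs with h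
  · rfl
  · by_contra h'
    exact h (hx (Ne.symm h'))

lemma res_mul_right {Γ : Subgroup G} {a : Ser C.adm k} (ha : a ∈ subF C k Γ) (f : Ser C.adm k) :
    res Γ (f * a) = res Γ f * a := by
  ext x
  rw [res_c, mul_c_sup f a x f.adm a.adm subset_rfl subset_rfl,
    mul_c_sup (res Γ f) a x f.adm a.adm (fun y hy hf => hy (by simp [res_c, hf])) subset_rfl]
  split_ifs with hx
  · refine Finset.sum_congr rfl fun p hp => ?_
    rw [mem_ad] at hp
    rw [res_c, if_pos]
    exact (Γ.mul_mem_cancel_right (ha hp.2.1)).1 (hp.2.2 ▸ hx)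
  · refine (Finset.sum_eq_zero fun p hp => ?_).symm
    rw [mem_ad] at hp
    rw [res_c, if_neg, zero_mul]
    exact fun h => hx (hp.2.2 ▸ Γ.mul_mem h (ha hp.2.1))

/-- the series all of whose components lie in the division closure -/
def KTvV (C : Cones G) (k : Type*) [Field k] (Γ : Subgroup G) :
    Submodule (DD C k Γ) (Ser C.adm k) where
  carrier := {x | ∀ g : G, res Γ (x * sg g⁻¹ 1) ∈ DD C k Γ}
  add_mem' := fun {x y} hx hy g => by
    rw [add_mul, map_add]
    exact add_mem (hx g) (hy g)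
  zero_mem' := fun g => by
    rw [zero_mul, map_zero]
    exact zero_mem _
  smul_mem' := fun c x hx g => by
    change res Γ (c.1 * x * sg g⁻¹ 1) ∈ DD C k Γ
    rw [mul_assoc, res_mul Γ (DD_le_subF Γ c.2)]
    exact mul_mem c.2 (hx g)

lemma KTv_finite (Γ : Subgroup G) [Γ.FiniteIndex] :
    FiniteDimensional (DD C k Γ) (KTvV C k Γ) := by
  obtain ⟨T, hT, -⟩ := exists_tv Γ
  have : FiniteDimensional (DD C k Γ)
      (Submodule.span (DD C k Γ) ((fun t : G => (sg t 1 : Ser C.adm k)) '' T)) :=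
    FiniteDimensional.span_of_finite _ (T.finite_toSet.image _)
  refine Submodule.finiteDimensional_of_le
    (S₂ := Submodule.span (DD C k Γ) ((fun t : G => (sg t 1 : Ser C.adm k)) '' T)) fun x hx => ?_
  rw [hT.decomp x]
  refine Submodule.sum_mem _ fun t ht => ?_
  exact Submodule.smul_mem _ (⟨_, hx t⟩ : DD C k Γ) (Submodule.subset_span ⟨t, ht, rfl⟩)

/-- the right multipliers -/
def KTvS (C : Cones G) (k : Type*) [Field k] (Γ : Subgroup G) [Γ.FiniteIndex] :
    Subfield (Ser C.adm k) where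
  carrier := {y | ∀ v ∈ KTvV C k Γ, v * y ∈ KTvV C k Γ}
  mul_mem' := fun {x y} hx hy v hv => by
    rw [← mul_assoc]
    exact hy _ (hx v hv)
  one_mem' := fun v hv => by rwa [mul_one]
  add_mem' := fun {x y} hx hy v hv => by
    rw [mul_add]
    exact add_mem (hx v hv) (hy v hv)
  zero_mem' := fun v hv => by
    rw [mul_zero]
    exact zero_mem _
  neg_mem' := fun {x} hx v hv => by
    rw [mul_neg]
    exact neg_mem (hx v hv)
  inv_mem' := fun y hy v hv => by
    by_cases h0 : y = 0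
    · rw [h0, inv_zero, mul_zero]
      exact zero_mem _
    have := KTv_finite (C := C) (k := k) Γ
    let f : KTvV C k Γ →ₗ[DD C k Γ] KTvV C k Γ :=
      { toFun := fun w => ⟨w.1 * y, hy _ w.2⟩
        map_add' := fun a b => Subtype.ext (add_mul _ _ _)
        map_smul' := fun c a => Subtype.ext (mul_assoc c.1 a.1 y) }
    have hf : Injective f := fun a b h =>
      Subtype.ext (mul_right_cancel₀ h0 (congrArg Subtype.val h))
    obtain ⟨w, hw⟩ := LinearMap.injective_iff_surjective.1 hf ⟨v, hv⟩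
    have e : w.1 * y = v := congrArg Subtype.val hw
    rw [← e, mul_inv_cancel_right₀ h0]
    exact w.2

theorem res_mem_DD (Γ : Subgroup G) [Γ.FiniteIndex] {x : Ser C.adm k} (hx : x ∈ DD C k ⊤) :
    res Γ x ∈ DD C k Γ := by
  have h1 : DD C k ⊤ ≤ KTvS C k Γ := by
    refine Subfield.closure_le.2 ?_
    rintro _ ⟨h, -, r, rfl⟩ v hv g
    have e : v * sg h r * sg g⁻¹ 1 = v * sg (g * h⁻¹)⁻¹ 1 * sg 1 r := by
      rw [mul_assoc, mul_assoc, sg_mul_sg, sg_mul_sg, mul_one, mul_one, one_mul, mul_inv_rev,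
        inv_inv]
    rw [e, res_mul_right (DD_le_subF Γ (sg_mem_DD Γ.one_mem r))]
    exact mul_mem (hv _) (sg_mem_DD Γ.one_mem r)
  have h2 : (1 : Ser C.adm k) ∈ KTvV C k Γ := fun g => by
    rw [one_mul]
    by_cases hg : g⁻¹ ∈ Γ
    · rw [res_sg_of_mem Γ hg]
      exact sg_mem_DD hg 1
    · rw [res_sg_of_notMem Γ hg]
      exact zero_mem _
  have h3 := h1 hx 1 h2 1
  rwa [one_mul, inv_one, ← one_def, mul_one] at h3

end Pool.Agent.P.MP_a28d48_al
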