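import Pool.Agent.P.MP_a28d48_al.KEmb
import Pool.Agent.P.MP_a28d48_al.KTv

set_option autoImplicit false

namespace Pool.Agent.P.MP_a28d48_al

open Function Set Ser

variable {G : Type*} [Group G] (C : Cones G) (k : Type*) [Field k]

namespace Dat

variable (a : Dat G)

/-- matrix coefficient at the trivial coset -/
noncomputable def Y (x : Ser C.adm k) : a.MN C k := a.e C k (res a.Γ x)

/-- the expansion as a function on the whole group -/
noncomputable def X (x : Ser C.adm k) (g : G) : k := (a.Y C k (x * sg g⁻¹ 1)).c 1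

variable {C k a}

lemma res_DD {x : Ser C.adm k} (hx : x ∈ DD C k ⊤) : res a.Γ x ∈ DD C k a.Γ :=
  have := a.fi
  res_mem_DD a.Γ hx

lemma Y_of_mem {x : Ser C.adm k} (hx : x ∈ DD C k a.Γ) : a.Y C k x = a.e C k x := by
  rw [Y, res_of_mem (DD_le_subF _ hx)]

lemma Y_zero : a.Y C k 0 = 0 := by
  rw [Y, map_zero, e_zero]

lemma Y_add {x y : Ser C.adm k} (hx : x ∈ DD C k ⊤) (hy : y ∈ DD C k ⊤) :
    a.Y C k (x + y) = a.Y C k x + a.Y C k y := by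
  rw [Y, map_add, e_add (res_DD hx) (res_DD hy), Y, Y]

lemma Y_sub {x y : Ser C.adm k} (hx : x ∈ DD C k ⊤) (hy : y ∈ DD C k ⊤) :
    a.Y C k (x - y) = a.Y C k x - a.Y C k y := by
  rw [Y, map_sub, e_sub (res_DD hx) (res_DD hy), Y, Y]

lemma Y_sum {ι : Type*} (s : Finset ι) {x : ι → Ser C.adm k} (hx : ∀ i ∈ s, x i ∈ DD C k ⊤) :
    a.Y C k (∑ i ∈ s, x i) = ∑ i ∈ s, a.Y C k (x i) := by
  rw [Y, map_sum, e_sum s (fun i hi => res_DD (hx i hi))]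
  rfl

lemma Y_mul_left {d x : Ser C.adm k} (hd : d ∈ DD C k a.Γ) (hx : x ∈ DD C k ⊤) :
    a.Y C k (d * x) = a.e C k d * a.Y C k x := by
  rw [Y, res_mul a.Γ (DD_le_subF _ hd), e_mul hd (res_DD hx), Y]

lemma Y_mul_right {d x : Ser C.adm k} (hd : d ∈ DD C k a.Γ) (hx : x ∈ DD C k ⊤) :
    a.Y C k (x * d) = a.Y C k x * a.e C k d := by
  rw [Y, res_mul_right (DD_le_subF _ hd), e_mul (res_DD hx) hd, Y]

lemma Y_mul {T : Finset G} (hT : IsTv a.Γ T) {x y : Ser C.adm k} (hx : x ∈ DD C k ⊤)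
    (hy : y ∈ DD C k ⊤) :
    a.Y C k (x * y) = ∑ t ∈ T, a.Y C k (x * sg t⁻¹ 1) * a.Y C k (sg t 1 * y) := by
  have h1 : ∀ t : G, x * sg t⁻¹ 1 ∈ DD C k ⊤ := fun t =>
    mul_mem hx (sg_mem_DD (Subgroup.mem_top _) _)
  have h2 : ∀ t : G, sg t 1 * y ∈ DD C k ⊤ := fun t =>
    mul_mem (sg_mem_DD (Subgroup.mem_top _) _) hy
  conv_lhs => rw [hT.decomp x, Finset.sum_mul]
  simp only [mul_assoc]
  rw [Y_sum T (fun t _ => mul_mem (DD_mono le_top (res_DD (h1 t))) (h2 t))]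
  exact Finset.sum_congr rfl fun t _ => Y_mul_left (res_DD (h1 t)) (h2 t)

lemma Y_c_finite {x : Ser C.adm k} (hx : (support x.c).Finite) (h : a.Γ) :
    (a.Y C k x).c h = x.c h := by
  have h1 : support (res a.Γ x).c ⊆ support x.c := fun y hy (hf : x.c y = 0) =>
    hy (by simp [res_c, hf])
  rw [Y, e_c_finite (hx.subset h1) (res_mem_subF a.Γ x), res_c, if_pos h.2]

lemma Y_c {x : Ser C.adm k} (hx : x ∈ DD C k ⊤) (g : G) (h : a.Γ) :
    (a.Y C k (x * sg g⁻¹ 1)).c h = a.X C k x (h * g) := by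
  have h1 : x * sg ((h : G) * g)⁻¹ 1 = x * sg g⁻¹ 1 * sg ((h⁻¹ : a.Γ) : G) 1 := by
    rw [mul_assoc, sg_mul_sg, mul_one, mul_inv_rev]
    rfl
  rw [X, h1, Y_mul_right (sg_mem_DD (h⁻¹).2 _) (mul_mem hx (sg_mem_DD (Subgroup.mem_top _) _)),
    e_sg, mul_sg_c, inv_inv, one_mul, mul_one]

lemma X_add {x y : Ser C.adm k} (hx : x ∈ DD C k ⊤) (hy : y ∈ DD C k ⊤) (g : G) :
    a.X C k (x + y) g = a.X C k x g + a.X C k y g := by
  rw [X, add_mul, Y_add (mul_mem hx (sg_mem_DD (Subgroup.mem_top _) _))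
    (mul_mem hy (sg_mem_DD (Subgroup.mem_top _) _)), add_c, X, X]

lemma X_sub {x y : Ser C.adm k} (hx : x ∈ DD C k ⊤) (hy : y ∈ DD C k ⊤) (g : G) :
    a.X C k (x - y) g = a.X C k x g - a.X C k y g := by
  rw [X, sub_mul, Y_sub (mul_mem hx (sg_mem_DD (Subgroup.mem_top _) _))
    (mul_mem hy (sg_mem_DD (Subgroup.mem_top _) _)), sub_c, X, X]

lemma X_sum {ι : Type*} (s : Finset ι) {x : ι → Ser C.adm k} (hx : ∀ i ∈ s, x i ∈ DD C k ⊤) (g : G) :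
    a.X C k (∑ i ∈ s, x i) g = ∑ i ∈ s, a.X C k (x i) g := by
  rw [X, Finset.sum_mul,
    Y_sum s (fun i hi => mul_mem (hx i hi) (sg_mem_DD (Subgroup.mem_top _) _)), sum_c]
  rfl

lemma X_finite {x : Ser C.adm k} (hx : (support x.c).Finite) (g : G) : a.X C k x g = x.c g := by
  have h1 : (support (x * sg g⁻¹ 1 : Ser C.adm k).c).Finite := by
    refine (hx.image (· * g⁻¹)).subset fun y hy => ?_
    obtain ⟨u, v, hu, hv, rfl⟩ := exists_of_mul_c hy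
    exact ⟨u, hu, by rw [eq_of_sg_c hv]⟩
  rw [X, Y_c_finite h1, mul_sg_c, inv_inv, mul_one]
  simp

lemma X_mul_sg {x : Ser C.adm k} (hx : x ∈ DD C k ⊤) (g y : G) (r : k) :
    a.X C k (x * sg g r) y = a.X C k x (y * g⁻¹) * r := by
  have h1 : x * sg g r * sg y⁻¹ 1 = x * sg (y * g⁻¹)⁻¹ 1 * sg ((1 : a.Γ) : G) r := by
    rw [mul_assoc, mul_assoc, sg_mul_sg, sg_mul_sg]
    simp
  rw [X, h1, Y_mul_right (sg_mem_DD (1 : a.Γ).2 _) (mul_mem hx (sg_mem_DD (Subgroup.mem_top _) _)),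
    e_sg, mul_sg_c, inv_one, mul_one, X]

lemma X_mul_ofMA {x : Ser C.adm k} (hx : x ∈ DD C k ⊤) (z : MonoidAlgebra k G) (y : G) :
    a.X C k (x * ofMA C k z) y = ∑ b ∈ z.coeff.support, a.X C k x (y * b⁻¹) * z.coeff b := by
  classical
  have h1 : ofMA C k z = ∑ b ∈ z.coeff.support, sg b (z.coeff b) := by
    ext g
    rw [ofMA_c, sum_c]
    simp only [sg_c, Finset.sum_ite_eq]
    split_ifs with hg
    · rfl
    · simpa using hg
  rw [h1, Finset.mul_sum, X_sum _ (fun b _ => mul_mem hx (sg_mem_DD (Subgroup.mem_top _) _))]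
  exact Finset.sum_congr rfl fun b _ => X_mul_sg hx b y _

lemma X_sg_mul {x : Ser C.adm k} (hx : x ∈ DD C k ⊤) {h : G} (hh : h ∈ a.Γ) (g : G) :
    a.X C k (sg h 1 * x) (h * g) = a.X C k x g := by
  have h1 := e_sg (C := C) (k := k) (⟨h, hh⟩ : a.Γ) 1
  rw [X, mul_assoc, Y_mul_left (sg_mem_DD hh _) (mul_mem hx (sg_mem_DD (Subgroup.mem_top _) _)),
    h1, sg_mul_c, one_mul, mul_one, Y_c hx]
  simp

lemma eq_zero_of_X {x : Ser C.adm k} (hx : x ∈ DD C k ⊤) (h : ∀ g, a.X C k x g = 0) : x = 0 := by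
  have := a.fi
  obtain ⟨T, hT, -⟩ := exists_tv a.Γ
  rw [hT.decomp x]
  refine Finset.sum_eq_zero fun t _ => ?_
  have h1 : a.Y C k (x * sg t⁻¹ 1) = 0 := by
    ext u
    rw [Y_c hx, h, zero_c]
  rw [e_eq_zero (res_DD (mul_mem hx (sg_mem_DD (Subgroup.mem_top _) _))) h1, zero_mul]

lemma X_of_mem {x : Ser C.adm k} (hx : x ∈ DD C k a.Γ) (h : a.Γ) :
    a.X C k x h = (a.e C k x).c h := by
  have h1 := Y_c (a := a) (DD_mono le_top hx) 1 h
  rw [mul_one, inv_one, ← one_def, mul_one, Y_of_mem hx] at h1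
  exact h1.symm

end Dat

end Pool.Agent.P.MP_a28d48_al
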