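import Pool.Agent.P.MP_a28d48_al.BLam
import Pool.Agent.P.MP_a28d48_al.KY
import Pool.Agent.P.MP_a28d48_al.BCay
import Pool.Agent.P.MP_a28d48_al.HEta

set_option autoImplicit false

namespace Pool.Agent.P.MP_a28d48_al

open Function Set Ser

variable {G : Type*} [Group G] {Y : Type*} {C : Cones G} {k : Type*} [Field k] [Fintype Y]
  [DecidableEq Y] {gen : Y → G}

lemma BEta_cast {Γ : Type*} [Group Γ] {D D' : Cones Γ} (hD : D = D') (s s' : Γ)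
    {u u' : Ser D.adm k} {v v' : Ser D'.adm k} (h1 : u.c = v.c) (h2 : u'.c = v'.c)
    (h : (1 - sg s 1)⁻¹ * u = (1 - sg s' 1)⁻¹ * u') :
    (1 - sg s 1)⁻¹ * v = (1 - sg s' 1)⁻¹ * v' := by
  subst hD
  rw [← Ser.ext h1, ← Ser.ext h2]
  exact h

lemma BEta_mem (a : Dat G) (s : a.Γ) : (1 - sg (s : G) 1 : Ser C.adm k) ∈ DD C k a.Γ :=
  (DD C k a.Γ).sub_mem (DD C k a.Γ).one_mem (sg_mem_DD s.2 1)

lemma BEta_Y (a : Dat G) (s : a.Γ) {x : Ser C.adm k} (hx : x ∈ DD C k ⊤) :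
    a.Y C k ((1 - sg (s : G) 1)⁻¹ * x) = (1 - sg s 1)⁻¹ * a.Y C k x := by
  rw [Dat.Y_mul_left ((DD C k a.Γ).inv_mem (BEta_mem a s)) hx, Dat.e_inv (BEta_mem a s),
    Dat.e_sub (DD C k a.Γ).one_mem (sg_mem_DD s.2 1), Dat.e_one, Dat.e_sg]

theorem Lam.eta_eq (l : Lam C k gen) (a : Dat G) (T : Tr a.Γ G (Ed G Y) k) (h1 : T.C = a.cones C)
    (h2 : T.b = 1) (h3 : T.W = {e | e.y ∈ l.Fb}) (h4 : ∀ e x, T.χ e x = a.X C k (l.Λ x e.y) e.a)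
    {s s' : a.Γ} (h : T.eta T.b s = T.eta T.b s') :
    ∀ f ∈ l.Fb, (1 - sg (s : G) 1)⁻¹ * l.Λ s f = (1 - sg (s' : G) 1)⁻¹ * l.Λ s' f := by
  intro f hf
  have hsg : ∀ g : G, (sg g 1 : Ser C.adm k) ∈ DD C k ⊤ := fun g => sg_mem_DD (Subgroup.mem_top g) 1
  have hinv : ∀ r : a.Γ, (1 - sg (r : G) 1 : Ser C.adm k)⁻¹ ∈ DD C k ⊤ := fun r =>
    (DD C k ⊤).inv_mem ((DD C k ⊤).sub_mem (DD C k ⊤).one_mem (hsg r))
  have key : ∀ (g : G) (r : a.Γ), (Ch.cmp (⟨g, f⟩ : Ed G Y) (T.ch T.b (r • T.b))).c =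
      (a.Y C k (l.Λ r f * sg g⁻¹ 1)).c := by
    intro g r
    funext x
    have hW : x • (⟨g, f⟩ : Ed G Y) ∈ T.W := by
      rw [h3]
      exact hf
    have hb : r • T.b = (r : G) := by
      rw [h2]
      exact mul_one (r : G)
    have h0 : a.X C k 0 ((x : G) * g) = 0 := by
      rw [Dat.X, zero_mul, Dat.Y_zero, zero_c]
    rw [Ch.cmp_c, Dat.Y_c (l.Λ_mem r f), Tr.ch]
    dsimp only
    rw [if_pos hW, h4, h4, hb, h2, Ed.smul_y, Ed.smul_a, l.one, h0, sub_zero]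
  have hm : ∀ r : a.Γ, (1 - sg (r : G) 1)⁻¹ * l.Λ r f ∈ DD C k ⊤ := fun r =>
    (DD C k ⊤).mul_mem (hinv r) (l.Λ_mem r f)
  rw [← sub_eq_zero]
  refine Dat.eq_zero_of_X (a := a) ((DD C k ⊤).sub_mem (hm s) (hm s')) fun g => ?_
  have e1 := congrArg (Ch.cmp (⟨g, f⟩ : Ed G Y)) h
  rw [Tr.eta, Tr.eta, Ch.cmp_smul, Ch.cmp_smul] at e1
  have e2 := BEta_cast h1 s s' (key g s) (key g s') e1
  rw [Dat.X_sub (hm s) (hm s'), Dat.X, Dat.X, mul_assoc, mul_assoc,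
    BEta_Y a s ((DD C k ⊤).mul_mem (l.Λ_mem s f) (hsg _)),
    BEta_Y a s' ((DD C k ⊤).mul_mem (l.Λ_mem s' f) (hsg _)), e2, sub_self]

end Pool.Agent.P.MP_a28d48_al
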