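import Mathlib

set_option autoImplicit false

namespace Pool.Agent.P.MP_a28d48_al

open Function Set

variable {Y : Type*} [Fintype Y] [DecidableEq Y]

/-- a basis of a quotient space among the standard vectors -/
theorem exists_basis_mod {D : Type*} [DivisionRing D] (Z : Set (Y → D)) :
    ∃ (Fb : Finset Y) (lam : Y → Y → D) (m : ℕ) (z : Fin m → Y → D) (μ : Y → Fin m → D),
      (∀ i, z i ∈ Z) ∧ (∀ f ∈ Fb, ∀ f' ∈ Fb, lam f f' = if f = f' then 1 else 0) ∧
      (∀ c ∈ Z, ∀ f, ∑ y, c y * lam y f = 0) ∧
      ∀ y y', ∑ i, μ y i * z i y' = (if y = y' then 1 else 0) - if y' ∈ Fb then lam y y' else 0 := by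
  classical
  let π := (Submodule.span D Z).mkQ
  let v : Y → (Y → D) ⧸ Submodule.span D Z := fun y => π (Pi.single y 1)
  have hπ : ∀ c : Y → D, π c = ∑ y, c y • v y := fun c => by
    conv_lhs => rw [pi_eq_sum_univ' c, map_sum]
    exact Finset.sum_congr rfl fun y _ => map_smul π _ _
  obtain ⟨κ, a, ha, hsp, hli⟩ := exists_linearIndependent' D v
  have : Fintype κ := Fintype.ofInjective a ha
  let b : Module.Basis κ D ((Y → D) ⧸ Submodule.span D Z) := Module.Basis.mk hli (by
    rw [hsp]
    intro q _
    obtain ⟨c, rfl⟩ := (Submodule.span D Z).mkQ_surjective q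
    rw [show (Submodule.span D Z).mkQ c = _ from hπ c]
    exact Submodule.sum_mem _ fun y _ =>
      Submodule.smul_mem _ _ (Submodule.subset_span (mem_range_self y)))
  have hb : ∀ i, v (a i) = b i := fun i => by simp [b]
  let lam : Y → Y → D := fun y => Function.extend a (b.repr (v y)) 0
  have hl : ∀ y i, lam y (a i) = b.repr (v y) i := fun y i => ha.extend_apply _ _ _
  have hw : ∀ y, (Pi.single y 1 - fun y' => if y' ∈ Finset.univ.image a then lam y y' else 0) ∈
      Submodule.span D Z := fun y => by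
    rw [← Submodule.Quotient.mk_eq_zero]
    change π _ = 0
    rw [map_sub, sub_eq_zero, hπ fun y' => if y' ∈ Finset.univ.image a then lam y y' else 0]
    simp only [ite_smul, zero_smul]
    rw [Finset.sum_ite_mem, Finset.univ_inter, Finset.sum_image fun _ _ _ _ h => ha h]
    simp only [hl, hb]
    exact (b.sum_repr (v y)).symm
  choose T hT hT' using fun y => Submodule.mem_span_finite_of_mem_span (hw y)
  have hU : ∀ y, ∃ f : (Y → D) → D, ∑ x ∈ Finset.univ.biUnion T, f x • x =
      Pi.single y 1 - fun y' => if y' ∈ Finset.univ.image a then lam y y' else 0 := fun y => by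
    obtain ⟨f, -, hf⟩ := Submodule.mem_span_finset.1 (Submodule.span_mono (Finset.coe_subset.2
      (Finset.subset_biUnion_of_mem T (Finset.mem_univ y))) (hT' y))
    exact ⟨f, hf⟩
  choose μ hμ using hU
  let e := (Finset.univ.biUnion T).equivFin.symm
  refine ⟨Finset.univ.image a, lam, _, fun i => e i, fun y i => μ y (e i), fun i => ?_, ?_,
    fun c hc f => ?_, fun y y' => ?_⟩
  · obtain ⟨y, -, hy⟩ := Finset.mem_biUnion.1 (e i).2
    exact hT y hy
  · intro f hf f' hf'
    obtain ⟨i, -, rfl⟩ := Finset.mem_image.1 hf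
    obtain ⟨i', -, rfl⟩ := Finset.mem_image.1 hf'
    rw [hl, hb, b.repr_self, Finsupp.single_apply]
    simp only [ha.eq_iff]
  · by_cases hf : ∃ i, a i = f
    · obtain ⟨i, rfl⟩ := hf
      have h0 : π c = 0 := (Submodule.Quotient.mk_eq_zero _).2 (Submodule.subset_span hc)
      have h1 := congrArg (fun q => b.repr q i) (hπ c)
      simp only [h0, map_zero, map_sum, map_smul, Finsupp.coe_zero, Pi.zero_apply,
        Finsupp.finsetSum_apply, Finsupp.smul_apply, smul_eq_mul] at h1
      simp only [hl]
      exact h1.symm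
    · simp [lam, Function.extend_apply' _ _ _ hf]
  · have h1 := congrFun (hμ y) y'
    rw [← Finset.sum_coe_sort, ← Equiv.sum_comp e, Finset.sum_apply] at h1
    simpa [Pi.single_apply, eq_comm] using h1

end Pool.Agent.P.MP_a28d48_al
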