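import Pool.Agent.P.MP_a28d48_al.KDef

set_option autoImplicit false

namespace Pool.Agent.P.MP_a28d48_al

open Function Set Ser

variable {G : Type*} [Group G] {C : Cones G} {k : Type*} [Field k]

lemma sg_mem_DD {H : Subgroup G} {h : G} (hh : h ∈ H) (r : k) : sg h r ∈ DD C k H :=
  Subfield.subset_closure ⟨h, hh, r, rfl⟩

lemma DD_le_subF (H : Subgroup G) : DD C k H ≤ subF C k H := by
  refine Subfield.closure_le.2 ?_
  rintro _ ⟨h, hh, r, rfl⟩ x hx
  rw [eq_of_sg_c hx]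
  exact hh

lemma DD_mono {H H' : Subgroup G} (h : H ≤ H') : DD C k H ≤ DD C k H' :=
  Subfield.closure_mono fun _ ⟨g, hg, r, e⟩ => ⟨g, h hg, r, e⟩

lemma sg_inv (g : G) : (sg g 1 : Ser C.adm k)⁻¹ = sg g⁻¹ 1 :=
  inv_eq_of_mul_eq_one_right (by rw [sg_mul_sg, mul_inv_cancel, mul_one, one_def])

lemma KDD_cancel (g : G) : (sg g⁻¹ 1 : Ser C.adm k) * sg g 1 = 1 := by
  rw [sg_mul_sg, inv_mul_cancel, mul_one, one_def]

lemma conj_mem_DD {N : Subgroup G} (hN : N.Normal) {x : Ser C.adm k} (hx : x ∈ DD C k N) (g : G) :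
    sg g 1 * x * sg g⁻¹ 1 ∈ DD C k N := by
  let f : Ser C.adm k →+* Ser C.adm k :=
    { toFun := fun x => sg g 1 * x * sg g⁻¹ 1
      map_one' := by rw [mul_one, sg_mul_sg, mul_inv_cancel, mul_one, one_def]
      map_mul' := fun x y => by
        calc sg g 1 * (x * y) * sg g⁻¹ 1
            = sg g 1 * (x * (sg g⁻¹ 1 * sg g 1) * y) * sg g⁻¹ 1 := by rw [KDD_cancel, mul_one]
          _ = _ := by simp only [mul_assoc]
      map_zero' := by rw [mul_zero, zero_mul]
      map_add' := fun x y => by rw [mul_add, add_mul] }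
  have h : DD C k N ≤ (DD C k N).comap f := by
    refine Subfield.closure_le.2 ?_
    rintro _ ⟨h, hh, r, rfl⟩
    change sg g 1 * sg h r * sg g⁻¹ 1 ∈ DD C k N
    rw [sg_mul_sg, sg_mul_sg]
    exact sg_mem_DD (hN.conj_mem h hh g) _
  exact h hx

lemma KDD_sum {x : Ser C.adm k} (hx : (support x.c).Finite) :
    x = ∑ g ∈ hx.toFinset, sg g (x.c g) := by
  ext y
  rw [sum_c, Finset.sum_eq_single y, sg_c_self]
  · exact fun b _ hb => sg_c_ne _ hb.symm
  · intro hy
    rw [sg_c_self]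
    by_contra h
    exact hy (hx.mem_toFinset.2 h)

lemma mem_DD_of_finite {H : Subgroup G} {x : Ser C.adm k} (hx : (support x.c).Finite)
    (hH : support x.c ⊆ H) : x ∈ DD C k H := by
  rw [KDD_sum hx]
  exact sum_mem fun g hg => sg_mem_DD (hH (hx.mem_toFinset.1 hg)) _

lemma ofMA_mem_DD (x : MonoidAlgebra k G) : ofMA C k x ∈ DD C k ⊤ := by
  induction x using MonoidAlgebra.induction_linear with
  | zero => rw [map_zero]; exact zero_mem _
  | add x y hx hy => rw [map_add]; exact add_mem hx hy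
  | single a r => rw [ofMA_single]; exact sg_mem_DD (Subgroup.mem_top a) r

lemma mem_CP_of_DD {N M : Subgroup G} {x : Ser C.adm k} (hx : x ∈ DD C k N) : x ∈ CP C k N M :=
  Subring.subset_closure (Or.inl hx)

lemma sg_mem_CP {N M : Subgroup G} {h : G} (hh : h ∈ M) (r : k) : sg h r ∈ CP C k N M := by
  have e : (sg h r : Ser C.adm k) = sg 1 r * sg h 1 := by rw [sg_mul_sg, one_mul, mul_one]
  rw [e]
  exact mul_mem (mem_CP_of_DD (sg_mem_DD N.one_mem r))
    (Subring.subset_closure (Or.inr ⟨h, hh, rfl⟩))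

lemma KDD_closure {N M : Subgroup G} (hN : N.Normal) {x : Ser C.adm k} (hx : x ∈ CP C k N M) :
    x ∈ AddSubmonoid.closure {y : Ser C.adm k | ∃ d ∈ DD C k N, ∃ h ∈ M, y = d * sg h 1} := by
  set A := AddSubmonoid.closure {y : Ser C.adm k | ∃ d ∈ DD C k N, ∃ h ∈ M, y = d * sg h 1}
    with hA
  have gen : ∀ d ∈ DD C k N, ∀ h ∈ M, d * sg h 1 ∈ A := fun d hd h hh =>
    AddSubmonoid.subset_closure ⟨d, hd, h, hh, rfl⟩
  have gd : ∀ d ∈ DD C k N, d ∈ A := fun d hd => by
    have := gen d hd 1 M.one_mem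
    rwa [← one_def, mul_one] at this
  have hm : ∀ x ∈ A, ∀ y ∈ A, x * y ∈ A := fun x hx y hy => by
    induction hx using AddSubmonoid.closure_induction with
    | zero => rw [zero_mul]; exact zero_mem _
    | add a b _ _ ha hb => rw [add_mul]; exact add_mem ha hb
    | mem a ha =>
      induction hy using AddSubmonoid.closure_induction with
      | zero => rw [mul_zero]; exact zero_mem _
      | add a b _ _ ha hb => rw [mul_add]; exact add_mem ha hb
      | mem b hb =>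
        obtain ⟨d, hd, h, hh, rfl⟩ := ha
        obtain ⟨d', hd', h', hh', rfl⟩ := hb
        have e : d * sg h 1 * (d' * sg h' 1) = d * (sg h 1 * d' * sg h⁻¹ 1) * sg (h * h') 1 := by
          simp only [mul_assoc, sg_mul_sg, inv_mul_cancel_left, mul_one]
        rw [e]
        exact gen _ (mul_mem hd (conj_mem_DD hN hd' h)) _ (M.mul_mem hh hh')
  induction hx using Subring.closure_induction with
  | mem x hx =>
    rcases hx with hx | ⟨h, hh, rfl⟩
    · exact gd x hx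
    · have := gen 1 (one_mem _) h hh
      rwa [one_mul] at this
  | zero => exact zero_mem _
  | one => exact gd 1 (one_mem _)
  | add a b _ _ ha hb => exact add_mem ha hb
  | neg a _ ha =>
    rw [← neg_one_mul]
    exact hm _ (gd _ (neg_mem (one_mem _))) _ ha
  | mul a b _ _ ha hb => exact hm _ ha _ hb

/-- induction over finite sums of homogeneous elements -/
lemma CP_induction {N M : Subgroup G} (hN : N.Normal) {p : Ser C.adm k → Prop} (h0 : p 0)
    (h1 : ∀ d ∈ DD C k N, ∀ h ∈ M, p (d * sg h 1)) (h2 : ∀ x y, x ∈ CP C k N M → y ∈ CP C k N M →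
      p x → p y → p (x + y)) {x : Ser C.adm k} (hx : x ∈ CP C k N M) : p x := by
  have h := KDD_closure hN hx
  clear hx
  suffices h3 : x ∈ CP C k N M ∧ p x from h3.2
  induction h using AddSubmonoid.closure_induction with
  | zero => exact ⟨zero_mem _, h0⟩
  | add a b _ _ ha hb => exact ⟨add_mem ha.1 hb.1, h2 a b ha.1 hb.1 ha.2 hb.2⟩
  | mem a ha =>
    obtain ⟨d, hd, h, hh, rfl⟩ := ha
    exact ⟨mul_mem (mem_CP_of_DD hd) (sg_mem_CP hh 1), h1 d hd h hh⟩

lemma CP_le_DD {N M : Subgroup G} (h : N ≤ M) {x : Ser C.adm k} (hx : x ∈ CP C k N M) :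
    x ∈ DD C k M := by
  have h1 : CP C k N M ≤ (DD C k M).toSubring := by
    refine Subring.closure_le.2 ?_
    rintro y (hy | ⟨g, hg, rfl⟩)
    · exact DD_mono h hy
    · exact sg_mem_DD hg 1
  exact h1 hx

lemma CP_mono {N M M' : Subgroup G} (h : M ≤ M') : CP C k N M ≤ CP C k N M' :=
  Subring.closure_mono (union_subset_union_right _ fun _ ⟨g, hg, e⟩ => ⟨g, h hg, e⟩)

lemma closure_CP {N M : Subgroup G} (h : N ≤ M) :
    Subfield.closure (CP C k N M : Set (Ser C.adm k)) = DD C k M := by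
  refine le_antisymm (Subfield.closure_le.2 fun x hx => CP_le_DD h hx) (Subfield.closure_mono ?_)
  rintro _ ⟨g, hg, r, rfl⟩
  exact sg_mem_CP hg r

lemma KDD_rep (N : Subgroup G) (F : Finset G) : ∃ T : Finset G, T ⊆ F ∧
    (∀ t ∈ T, ∀ t' ∈ T, t * t'⁻¹ ∈ N → t = t') ∧ ∀ t ∈ F, ∃ t' ∈ T, t * t'⁻¹ ∈ N := by
  classical
  induction F using Finset.induction_on with
  | empty => exact ⟨∅, subset_rfl, by simp, by simp⟩
  | insert a F _ ih =>
    obtain ⟨T, h1, h2, h3⟩ := ih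
    by_cases ha : ∃ t' ∈ T, a * t'⁻¹ ∈ N
    · refine ⟨T, h1.trans (Finset.subset_insert _ _), h2, fun t ht => ?_⟩
      rcases Finset.mem_insert.1 ht with rfl | ht
      exacts [ha, h3 t ht]
    · refine ⟨insert a T, Finset.insert_subset_insert _ h1, fun t ht t' ht' h => ?_,
        fun t ht => ?_⟩
      · rcases Finset.mem_insert.1 ht with e | hu <;>
          rcases Finset.mem_insert.1 ht' with e' | hu'
        · rw [e, e']
        · exact absurd ⟨t', hu', e ▸ h⟩ ha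
        · exact absurd ⟨t, hu, by simpa [e'] using N.inv_mem h⟩ ha
        · exact h2 t hu t' hu' h
      · rcases Finset.mem_insert.1 ht with rfl | ht
        · exact ⟨t, Finset.mem_insert_self _ _, by simp⟩
        · obtain ⟨t', ht', h⟩ := h3 t ht
          exact ⟨t', Finset.mem_insert_of_mem ht', h⟩

/-- normal form: distinct cosets, coefficients given by restriction -/
lemma CP_normal {N M : Subgroup G} (hN : N.Normal) (h : N ≤ M) {x : Ser C.adm k}
    (hx : x ∈ CP C k N M) : ∃ T : Finset G, (∀ t ∈ T, t ∈ M) ∧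
      (∀ t ∈ T, ∀ t' ∈ T, t * t'⁻¹ ∈ N → t = t') ∧
      (∀ t ∈ T, res N (x * sg t⁻¹ 1) ∈ DD C k N ∧ res N (x * sg t⁻¹ 1) ≠ 0) ∧
      x = ∑ t ∈ T, res N (x * sg t⁻¹ 1) * sg t 1 := by
  classical
  have h1 : (∀ t, res N (x * sg t⁻¹ 1) ∈ DD C k N) ∧ ∃ F : Finset G, (∀ t ∈ F, t ∈ M) ∧
      ∀ g, x.c g ≠ 0 → ∃ t ∈ F, g * t⁻¹ ∈ N := by
    refine CP_induction hN (p := fun x => (∀ t, res N (x * sg t⁻¹ 1) ∈ DD C k N) ∧
      ∃ F : Finset G, (∀ t ∈ F, t ∈ M) ∧ ∀ g, x.c g ≠ 0 → ∃ t ∈ F, g * t⁻¹ ∈ N) ?_ ?_ ?_ hx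
    · refine ⟨fun t => ?_, ∅, by simp, fun g hg => absurd rfl hg⟩
      rw [zero_mul, map_zero]
      exact zero_mem _
    · intro d hd g hg
      refine ⟨fun t => ?_, {g}, by simpa using hg, fun y hy => ⟨g, by simp, ?_⟩⟩
      · rw [mul_assoc, sg_mul_sg, res_mul N (DD_le_subF N hd)]
        by_cases ht : g * t⁻¹ ∈ N
        · rw [res_sg_of_mem N ht]
          exact mul_mem hd (sg_mem_DD ht _)
        · rw [res_sg_of_notMem N ht, mul_zero]
          exact zero_mem _
      · rw [mul_sg_c, mul_one] at hy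
        exact DD_le_subF N hd hy
    · rintro a b - - ⟨ha, F, hF, hF'⟩ ⟨hb, F', hG, hG'⟩
      refine ⟨fun t => ?_, F ∪ F', fun t ht => (Finset.mem_union.1 ht).elim (hF t) (hG t),
        fun g hg => ?_⟩
      · rw [add_mul, map_add]
        exact add_mem (ha t) (hb t)
      · by_cases h0 : a.c g = 0
        · obtain ⟨t, ht, h'⟩ := hG' g (by simpa [h0] using hg)
          exact ⟨t, Finset.mem_union_right _ ht, h'⟩
        · obtain ⟨t, ht, h'⟩ := hF' g h0
          exact ⟨t, Finset.mem_union_left _ ht, h'⟩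
  obtain ⟨h2, F, hF, hF'⟩ := h1
  obtain ⟨T, t1, t2, t3⟩ := KDD_rep N F
  have hc : ∀ t g, (res N (x * sg t⁻¹ 1)).c (g * t⁻¹) = if g * t⁻¹ ∈ N then x.c g else 0 :=
    fun t g => by rw [res_c, mul_sg_c, inv_inv, inv_mul_cancel_right, mul_one]
  refine ⟨T.filter fun t => res N (x * sg t⁻¹ 1) ≠ 0,
    fun t ht => hF t (t1 (Finset.mem_filter.1 ht).1),
    fun t ht t' ht' => t2 t (Finset.mem_filter.1 ht).1 t' (Finset.mem_filter.1 ht').1,
    fun t ht => ⟨h2 t, (Finset.mem_filter.1 ht).2⟩, ?_⟩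
  ext g
  rw [sum_c]
  simp only [mul_sg_c, mul_one, hc]
  by_cases h0 : x.c g = 0
  · simp [h0]
  obtain ⟨t, ht, h3⟩ := hF' g h0
  obtain ⟨t', ht', h4⟩ := t3 t ht
  have h5 : g * t'⁻¹ ∈ N := by simpa [mul_assoc] using N.mul_mem h3 h4
  rw [Finset.sum_eq_single t', if_pos h5]
  · intro b hb hne
    refine if_neg fun h6 => hne (t2 b (Finset.mem_filter.1 hb).1 t' ht' ?_)
    simpa [mul_assoc] using N.mul_mem (N.inv_mem h6) h5
  · intro hn
    refine absurd (Finset.mem_filter.2 ⟨ht', fun h6 => h0 ?_⟩) hn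
    have := hc t' g
    rw [h6, if_pos h5] at this
    exact this.symm

end Pool.Agent.P.MP_a28d48_al
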