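import Pool.Agent.P.MP_a28d48_al.NDef
import Pool.Agent.P.MP_a28d48_al.KDD
import Pool.Agent.P.MP_a28d48_al.BLin

set_option autoImplicit false

namespace Pool.Agent.P.MP_a28d48_al

open Function Set Ser

variable {G : Type*} [Group G] (C : Cones G) (k : Type*) [Field k] {Y : Type*} [Fintype Y]
  [DecidableEq Y] (gen : Y → G)

/-- coordinates of the universal derivation in a basis of generators -/
structure Lam where
  Fb : Finset Y
  Λ : G → Y → Ser C.adm k
  m : ℕ
  z : Fin m → Y → MonoidAlgebra k G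
  μ : Y → Fin m → Ser C.adm k
  Λ_mem : ∀ g f, Λ g f ∈ DD C k ⊤
  μ_mem : ∀ y i, μ y i ∈ DD C k ⊤
  der : ∀ g h f, Λ (g * h) f = Λ g f + sg g 1 * Λ h f
  bas : ∀ f ∈ Fb, ∀ f' ∈ Fb, Λ (gen f) f' = if f = f' then 1 else 0
  cyc : ∀ i, bd gen (z i) = 0
  rel : ∀ y y', ∑ i, μ y i * ofMA C k (z i y') =
    (if y = y' then 1 else 0) - if y' ∈ Fb then Λ (gen y) y' else 0
  fox : ∀ g, ∃ c : Y → MonoidAlgebra k G, bd gen c = MonoidAlgebra.single g 1 - 1 ∧
    ∀ f, Λ g f = ∑ y, ofMA C k (c y) * Λ (gen y) f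

omit [DecidableEq Y] in
lemma BLam_bd_add (c c' : Y → MonoidAlgebra k G) (u : MonoidAlgebra k G) :
    bd gen (fun y => c y + u * c' y) = bd gen c + u * bd gen c' := by
  simp only [bd, add_mul, Finset.sum_add_distrib, mul_assoc, Finset.mul_sum]

lemma exists_bd (hgen : Subgroup.closure (range gen) = ⊤) (g : G) :
    ∃ c : Y → MonoidAlgebra k G, bd gen c = MonoidAlgebra.single g 1 - 1 := by
  have hg : g ∈ Subgroup.closure (range gen) := by rw [hgen]; exact Subgroup.mem_top g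
  induction hg using Subgroup.closure_induction with
  | mem x hx =>
    obtain ⟨i, rfl⟩ := hx
    exact ⟨Pi.single i 1, by simp [bd, Pi.single_apply]⟩
  | one => exact ⟨0, by simp [bd, MonoidAlgebra.one_def]⟩
  | mul x y hx hy ihx ihy =>
    obtain ⟨J, h2⟩ := ihx
    obtain ⟨J', h2'⟩ := ihy
    refine ⟨fun i => J i + MonoidAlgebra.single x 1 * J' i, ?_⟩
    rw [BLam_bd_add, h2, h2']
    simp [mul_sub, MonoidAlgebra.single_mul_single]
  | inv x hx ihx =>
    obtain ⟨J, h2⟩ := ihx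
    refine ⟨fun i => (0 : Y → MonoidAlgebra k G) i + (-MonoidAlgebra.single x⁻¹ 1) * J i, ?_⟩
    rw [BLam_bd_add, h2]
    simp [bd, mul_sub, MonoidAlgebra.single_mul_single, MonoidAlgebra.one_def, neg_add_eq_sub]

theorem exists_lam (hgen : Subgroup.closure (range gen) = ⊤) : Nonempty (Lam C k gen) := by
  let D := DD C k (⊤ : Subgroup G)
  let φ : (Y → MonoidAlgebra k G) → Y → D := fun c y => ⟨ofMA C k (c y), ofMA_mem_DD _⟩
  obtain ⟨Fb, lam, m, z, μ, hz, hbas, hZ, hrel⟩ := exists_basis_mod (φ '' {c | bd gen c = 0})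
  choose z' hz1 hz2 using hz
  choose cg hcg using exists_bd k gen hgen
  let L : (Y → MonoidAlgebra k G) → Y → Ser C.adm k := fun c f =>
    ∑ y, ofMA C k (c y) * (lam y f : Ser C.adm k)
  have hL0 : ∀ c, bd gen c = 0 → ∀ f, L c f = 0 := fun c hc f => by
    have h := congrArg (Subtype.val : D → Ser C.adm k) (hZ (φ c) ⟨c, hc, rfl⟩ f)
    simpa [φ, L] using h
  have hLadd : ∀ c c' u f, L (fun y => c y + u * c' y) f = L c f + ofMA C k u * L c' f :=
    fun c c' u f => by
      simp only [L, map_add, map_mul, add_mul, Finset.sum_add_distrib, mul_assoc, Finset.mul_sum]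
  have hLeq : ∀ c c', bd gen c = bd gen c' → ∀ f, L c f = L c' f := fun c c' h f => by
    have h1 := hL0 (fun y => c y + (-1) * c' y) (by rw [BLam_bd_add, h]; simp) f
    rw [hLadd] at h1
    simpa [← sub_eq_add_neg, sub_eq_zero] using h1
  have hgen1 : ∀ y f, L (cg (gen y)) f = lam y f := fun y f => by
    rw [hLeq _ (Pi.single y 1) (by rw [hcg]; simp [bd, Pi.single_apply])]
    simp [L, Pi.single_apply, apply_ite (ofMA C k)]
  refine ⟨⟨Fb, fun g => L (cg g), m, z', fun y i => μ y i, fun g f => ?_, fun y i => (μ y i).2,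
    fun g h f => ?_, fun f hf f' hf' => ?_, hz1, fun y y' => ?_, fun g => ⟨cg g, hcg g, fun f => ?_⟩⟩⟩
  · exact sum_mem fun y _ => mul_mem (ofMA_mem_DD _) (lam y f).2
  · rw [← ofMA_single, ← hLadd]
    refine hLeq _ _ ?_ f
    rw [BLam_bd_add, hcg, hcg, hcg]
    simp [mul_sub, MonoidAlgebra.single_mul_single]
  · rw [hgen1, hbas f hf f' hf']
    split_ifs <;> rfl
  · have h := congrArg (Subtype.val : D → Ser C.adm k) (hrel y y')
    simp only [← hz2] at h
    rw [hgen1]
    simpa [φ, apply_ite (Subtype.val : D → Ser C.adm k)] using h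
  · simp only [hgen1]
    rfl

variable {C k gen}

lemma Lam.one (l : Lam C k gen) (f : Y) : l.Λ 1 f = 0 := by
  simpa [← one_def] using l.der 1 1 f

lemma Lam.ker (l : Lam C k gen) (v : Y → Ser C.adm k)
    (hv : ∀ f ∈ l.Fb, ∑ y, v y * l.Λ (gen y) f = 0) (y' : Y) :
    v y' = ∑ i, (∑ y, v y * l.μ y i) * ofMA C k (l.z i y') := by
  simp only [Finset.sum_mul, mul_assoc]
  rw [Finset.sum_comm]
  simp only [← Finset.mul_sum, l.rel, mul_sub, Finset.sum_sub_distrib]
  by_cases h : y' ∈ l.Fb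
  · simp [h, hv y' h]
  · simp [h]

end Pool.Agent.P.MP_a28d48_al
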