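import Pool.Agent.P.MP_a28d48_al.BLam
import Pool.Agent.P.MP_a28d48_al.KY
import Pool.Agent.P.MP_a28d48_al.BCay

set_option autoImplicit false

namespace Pool.Agent.P.MP_a28d48_al

open Function Set Ser

variable {G : Type*} [Group G] {Y : Type*} {C : Cones G} {k : Type*} [Field k] [Fintype Y]
  [DecidableEq Y] {gen : Y → G}

omit [DecidableEq Y] in
/-- a translated cycle pairs to zero with every coboundary -/
lemma BPush_cycle {z : Y → MonoidAlgebra k G} (hz : bd gen z = 0) (ψ : G → k) (u : G)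
    {F : Finset G} (hF : ∀ y b, (z y).coeff b ≠ 0 → u * b ∈ F) :
    ∑ y, ∑ x ∈ F, (z y).coeff (u⁻¹ * x) * (ψ (x * gen y) - ψ x) = 0 := by
  rw [← cycle_pair hz fun x => ψ (u * x)]
  refine Finset.sum_congr rfl fun y _ => (Finset.sum_bij_ne_zero (fun b _ _ => u * b)
    (fun b hb _ => hF y b (Finsupp.mem_support_iff.1 hb))
    (fun _ _ _ _ _ _ h => mul_left_cancel h) (fun x _ hx => ?_) fun b _ _ => ?_).symm
  · refine ⟨u⁻¹ * x, Finsupp.mem_support_iff.2 (left_ne_zero_of_mul hx), ?_, by simp⟩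
    simpa [← mul_assoc] using hx
  · rw [inv_mul_cancel_left, mul_assoc]

/-- the relation of `l` read at one point -/
lemma BPush_rel (l : Lam C k gen) (a : Dat G) (g x : G) (y : Y) {y' : Y} (hy : y' ∉ l.Fb) :
    ∑ i, a.X C k (sg g 1 * l.μ y i * ofMA C k (l.z i y')) x =
      if y = y' then (sg g 1 : Ser C.adm k).c x else 0 := by
  rw [← Dat.X_sum _ fun i _ => mul_mem (mul_mem (sg_mem_DD (Subgroup.mem_top g) 1) (l.μ_mem y i))
    (ofMA_mem_DD _)]
  simp only [mul_assoc]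
  rw [← Finset.mul_sum, l.rel, if_neg hy, sub_zero]
  split_ifs
  · rw [mul_one]
    exact Dat.X_finite ((finite_singleton g).subset fun _ h => eq_of_sg_c h) x
  · rw [mul_zero]
    exact Dat.X_finite (finite_empty.subset fun _ h => h rfl) x

theorem Lam.push (l : Lam C k gen) (a : Dat G) {φ lv : G → ℤ}
    (hlv : ∀ h ∈ a.Γ, ∀ g, lv (h * g) = φ h + lv g)
    (hnov : ∀ y i g n, {u | a.X C k (sg g 1 * l.μ y i) u ≠ 0 ∧ lv u ≤ n}.Finite) (e : Ed G Y)
    (he : e.y ∉ l.Fb) :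
    Conn Ed.a (Ed.t gen) {e' | e'.y ∈ l.Fb ∨ lv e.a < lv e'.a} e.a (e.t gen) := by
  classical
  have := a.fi
  let B : Finset G := Finset.univ.biUnion fun p : Fin l.m × Y => (l.z p.1 p.2).coeff.support
  have hB : ∀ i y b, (l.z i y).coeff b ≠ 0 → b ∈ B := fun i y b hb =>
    Finset.mem_biUnion.2 ⟨(i, y), Finset.mem_univ _, Finsupp.mem_support_iff.2 hb⟩
  obtain ⟨c, hc⟩ := lv_lip hlv B.finite_toSet
  let v : Fin l.m → G → k := fun i u => a.X C k (sg e.a 1 * l.μ e.y i) u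
  let A : Finset G := Finset.univ.biUnion fun i => (hnov e.y i e.a (lv e.a + c)).toFinset
  have hA : ∀ i u, v i u ≠ 0 → lv u ≤ lv e.a + c → u ∈ A := fun i u h1 h2 =>
    Finset.mem_biUnion.2 ⟨i, Finset.mem_univ _, (Finite.mem_toFinset _).2 ⟨h1, h2⟩⟩
  let ζ : Ed G Y → k := fun e' => ∑ i, ∑ u ∈ A, v i u * (l.z i e'.y).coeff (u⁻¹ * e'.a)
  have key : ∀ e' : Ed G Y, e'.y ∉ l.Fb → lv e'.a ≤ lv e.a →
      ζ e' = if e.y = e'.y then (sg e.a 1 : Ser C.adm k).c e'.a else 0 := by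
    intro e' h1 h2
    rw [← BPush_rel l a e.a e'.a e.y h1]
    refine Finset.sum_congr rfl fun i _ => ?_
    rw [Dat.X_mul_ofMA (mul_mem (sg_mem_DD (Subgroup.mem_top _) 1) (l.μ_mem _ i))]
    refine (Finset.sum_bij_ne_zero (fun b _ _ => e'.a * b⁻¹) (fun b hb h => ?_)
      (fun _ _ _ _ _ _ h => inv_injective (mul_left_cancel h)) (fun u _ hu => ?_)
      fun b _ _ => ?_).symm
    · refine hA i _ (left_ne_zero_of_mul h) ?_
      have := hc (e'.a * b⁻¹) b (hB i _ b (Finsupp.mem_support_iff.1 hb))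
      rw [inv_mul_cancel_right] at this
      omega
    · refine ⟨u⁻¹ * e'.a, Finsupp.mem_support_iff.2 (right_ne_zero_of_mul hu), ?_, by simp⟩
      simpa [v] using hu
    · simp [v]
  let F₀ : Finset G := insert e.a ((A ×ˢ B).image fun p => p.1 * p.2)
  let ι : G × Y ↪ Ed G Y := ⟨fun p => ⟨p.1, p.2⟩, fun p q h =>
    Prod.ext (congrArg Ed.a h) (congrArg Ed.y h)⟩
  refine Conn.of_cycle ((F₀ ×ˢ Finset.univ).map ι) ζ ?_ ?_ (fun e' _ hne hζ => ?_) fun ψ => ?_
  · exact Finset.mem_map.2 ⟨(e.a, e.y),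
      Finset.mem_product.2 ⟨Finset.mem_insert_self _ _, Finset.mem_univ _⟩, rfl⟩
  · rw [key e he le_rfl, if_pos rfl, sg_c_self]
    exact one_ne_zero
  · by_contra hcon
    simp only [mem_ofPred_eq, not_or, not_lt] at hcon
    rw [key e' hcon.1 hcon.2] at hζ
    split_ifs at hζ with h
    · exact hne (Ed.ext (eq_of_sg_c hζ) h.symm)
    · exact hζ rfl
  · rw [Finset.sum_map, Finset.sum_product_right]
    have h0 : ∀ i, ∀ u ∈ A, v i u * ∑ y, ∑ x ∈ F₀,
        (l.z i y).coeff (u⁻¹ * x) * (ψ (x * gen y) - ψ x) = 0 := fun i u hu => by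
      rw [BPush_cycle (l.cyc i) ψ u fun y b hb => Finset.mem_insert_of_mem
        (Finset.mem_image.2 ⟨(u, b), Finset.mem_product.2 ⟨hu, hB i y b hb⟩, rfl⟩), mul_zero]
    calc _ = ∑ y, ∑ x ∈ F₀, ∑ i, ∑ u ∈ A,
          v i u * ((l.z i y).coeff (u⁻¹ * x) * (ψ (x * gen y) - ψ x)) := by
          refine Finset.sum_congr rfl fun y _ => Finset.sum_congr rfl fun x _ => ?_
          simp only [← mul_assoc, ← Finset.sum_mul]
          rfl
      _ = ∑ i, ∑ u ∈ A, v i u * ∑ y, ∑ x ∈ F₀,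
          (l.z i y).coeff (u⁻¹ * x) * (ψ (x * gen y) - ψ x) := by
          simp only [Finset.mul_sum]
          exact (Finset.sum_congr rfl fun y _ => Finset.sum_comm).trans (Finset.sum_comm.trans
            (Finset.sum_congr rfl fun i _ =>
              (Finset.sum_congr rfl fun y _ => Finset.sum_comm).trans Finset.sum_comm))
      _ = 0 := Finset.sum_eq_zero fun i _ => Finset.sum_eq_zero (h0 i)

end Pool.Agent.P.MP_a28d48_al
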