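import Pool.Agent.P.MP_a28d48_al.HT3

set_option autoImplicit false

namespace Pool.Agent.P.MP_a28d48_al

theorem Tr.howson {Γ V E k : Type*} [Group Γ] [MulAction Γ V] [MulAction Γ E] [Field k]
    (T : Tr Γ V E k) (hZ : T.Zc) {A B : Subgroup Γ} (hA : A.FG) (hB : B.FG) : (A ⊓ B).FG := by
  obtain ⟨a, ha⟩ := Tr.bd_of_fg (T := T) hA
  obtain ⟨b, hb⟩ := Tr.bd_of_fg (T := T) hB
  obtain ⟨d, hd⟩ := Tr.bd_inter ha hb
  exact Tr.fg_of_bd hZ hd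

end Pool.Agent.P.MP_a28d48_al
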