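import Pool.Agent.P.MP_a28d48_al.KInv

set_option autoImplicit false

namespace Pool.Agent.P.MP_a28d48_al

open Function Set Ser

variable {G : Type*} [Group G] {C : Cones G} {k : Type*} [Field k]

namespace Chain

variable {c : Chain G}

variable (c)

theorem exists_pp {x : Ser C.adm k} (hx : x ∈ DD C k ⊤) : ∃ j, (c.a j).Pp x := by
  unfold DD at hx
  induction hx using Subfield.closure_induction with
  | mem x hx =>
    obtain ⟨h, -, r, rfl⟩ := hx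
    exact ⟨0, Dat.pp_sg h r⟩
  | one => exact ⟨0, Dat.pp_sg 1 1⟩
  | add x y _ _ hx hy =>
    obtain ⟨i, hi⟩ := hx
    obtain ⟨j, hj⟩ := hy
    exact ⟨max i j, (pp_up (le_max_left i j) hi).1.add (pp_up (le_max_right i j) hj).1⟩
  | neg x _ hx =>
    obtain ⟨i, hi⟩ := hx
    exact ⟨i, hi.neg⟩
  | inv x _ hx =>
    obtain ⟨i, hi⟩ := hx
    exact pp_inv hi
  | mul x y _ _ hx hy =>
    obtain ⟨i, hi⟩ := hx
    obtain ⟨j, hj⟩ := hy
    exact ⟨max i j, (pp_up (le_max_left i j) hi).1.mul (pp_up (le_max_right i j) hj).1⟩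

include c in
theorem novikov {ι : Type*} [Finite ι] (μ : ι → Ser C.adm k) (hμ : ∀ i, μ i ∈ DD C k ⊤) :
    ∃ (a : Dat G) (φ lv : G → ℤ), IsChar a.Γ φ ∧ (∀ n ∈ a.N, φ n = 0) ∧
      (∀ h ∈ a.Γ, ∀ g, lv (h * g) = φ h + lv g) ∧
      ∀ i g n, {y | a.X C k (sg g 1 * μ i) y ≠ 0 ∧ lv y ≤ n}.Finite := by
  choose j hj using fun i => c.exists_pp (hμ i)
  obtain ⟨J, hJ⟩ := (Set.finite_range j).bddAbove
  have hP : ∀ i, (c.a J).Pp (μ i) := fun i => (pp_up (hJ ⟨i, rfl⟩) (hj i)).1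
  generalize c.a J = a at hP
  have := a.fi
  obtain ⟨T, hT, -⟩ := exists_tv a.Γ
  have hI : ((univ : Set ι) ×ˢ (T : Set G)).Finite := Set.finite_univ.prod T.finite_toSet
  obtain ⟨S, F, hS, hF, hp, hs⟩ := Dat.Cn.biUnion (a := a) hI
    (s := fun q => support (a.X C k (sg q.2 1 * μ q.1))) (fun q _ => (hP q.1).2 q.2)
  obtain ⟨φ, hφ, hN, hpos⟩ := Dat.exists_phi (a := a) hS fun u hu => (hp u hu).2
  obtain ⟨lv, hlv⟩ := Dat.exists_lv hφ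
  refine ⟨a, φ, lv, hφ, hN, hlv, fun i g n => ?_⟩
  obtain ⟨t, ⟨ht, hh⟩, -⟩ := hT g
  generalize hg : g * t⁻¹ = h at hh
  obtain rfl : g = h * t := by rw [← hg, inv_mul_cancel_right]
  refine ((Dat.finite_of_phi hφ hlv hS hF (fun u hu => ⟨(hp u hu).1, hpos u hu⟩)
    (n - φ h)).image (h * ·)).subset ?_
  rintro y ⟨hy, hn⟩
  obtain ⟨y, rfl⟩ : ∃ y', y = h * y' := ⟨h⁻¹ * y, by rw [mul_inv_cancel_left]⟩
  have e : (sg (h * t) 1 : Ser C.adm k) * μ i = sg h 1 * (sg t 1 * μ i) := by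
    rw [← mul_assoc, sg_mul_sg, one_mul]
  rw [e, Dat.X_sg_mul ((DD C k ⊤).mul_mem (sg_mem_DD (Subgroup.mem_top t) 1) (hμ i)) hh] at hy
  refine ⟨y, ⟨hs y (mem_iUnion₂.2 ⟨(i, t), ⟨mem_univ _, ht⟩, hy⟩), ?_⟩, rfl⟩
  rw [hlv h hh] at hn
  omega

end Chain

end Pool.Agent.P.MP_a28d48_al
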