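import Pool.Agent.P.MP_a28d48_al.NAb

set_option autoImplicit false

namespace Pool.Agent.P.MP_a28d48_al

open Function Set Ser

universe u

variable {p : ℕ} [hp : Fact p.Prime]

/-- elements of `Γ` all of whose character values are divisible by `d` -/
def nxt {G : Type*} [Group G] (d : ℤ) (Γ : Subgroup G) : Subgroup G where
  carrier := {g | g ∈ Γ ∧ ∀ χ, IsChar Γ χ → d ∣ χ g}
  one_mem' := ⟨Γ.one_mem, fun χ h => by simp [h.one]⟩
  mul_mem' := fun {a b} ha hb => ⟨Γ.mul_mem ha.1 hb.1, fun χ h => by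
    rw [h a ha.1 b hb.1]
    exact dvd_add (ha.2 χ h) (hb.2 χ h)⟩
  inv_mem' := fun {a} ha => ⟨Γ.inv_mem ha.1, fun χ h => by
    rw [h.inv ha.1]
    exact (ha.2 χ h).neg_right⟩

omit hp in
lemma mem_nxt {G : Type*} [Group G] {d : ℤ} {Γ : Subgroup G} {g : G} :
    g ∈ nxt d Γ ↔ g ∈ Γ ∧ ∀ χ, IsChar Γ χ → d ∣ χ g := Iff.rfl

omit hp in
lemma nxt_normal {G : Type*} [Group G] (d : ℤ) {Γ : Subgroup G} (h : Γ.Normal) :
    (nxt d Γ).Normal := by
  refine ⟨fun g hg x => ⟨h.conj_mem g hg.1 x, fun χ hχ => ?_⟩⟩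
  refine hg.2 (fun y => χ (x * y * x⁻¹)) fun a ha b hb => ?_
  rw [← hχ _ (h.conj_mem a ha x) _ (h.conj_mem b hb x)]
  exact congrArg χ (by group)

omit hp in
lemma nxt_fi {G : Type*} [Group G] {d : ℤ} (hd : d ≠ 0) {Γ : Subgroup G} (hΓ : Γ.FG)
    (h : Γ.FiniteIndex) : (nxt d Γ).FiniteIndex := by
  obtain ⟨B, hB, hB'⟩ := exists_char_list hΓ
  have : NeZero d.natAbs := ⟨Int.natAbs_ne_zero.2 hd⟩
  let f : Γ →* Multiplicative (Fin B.length → ZMod d.natAbs) :=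
    MonoidHom.mk' (fun g => Multiplicative.ofAdd fun i => ((B.get i g : ℤ) : ZMod d.natAbs))
      fun a b => by
        rw [← ofAdd_add]
        congr 1
        funext i
        rw [Pi.add_apply, ← Int.cast_add, Subgroup.coe_mul,
          hB _ (List.get_mem B i) _ a.2 _ b.2]
  have hle : f.ker ≤ (nxt d Γ).subgroupOf Γ := by
    intro g hg
    refine Subgroup.mem_subgroupOf.2 ⟨g.2, fun χ hχ => hB' χ hχ d g g.2 fun b hb => ?_⟩
    obtain ⟨i, rfl⟩ := List.get_of_mem hb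
    have h1 : ((B.get i g : ℤ) : ZMod d.natAbs) = 0 :=
      congrFun (congrArg Multiplicative.toAdd (MonoidHom.mem_ker.1 hg)) i
    exact Int.natAbs_dvd.1 ((ZMod.intCast_zmod_eq_zero_iff_dvd _ _).1 h1)
  have : f.ker.FiniteIndex := Subgroup.finiteIndex_ker f
  have h2 : ((nxt d Γ).subgroupOf Γ).FiniteIndex := Subgroup.finiteIndex_of_le hle
  refine ⟨?_⟩
  rw [← Subgroup.relIndex_mul_index (show nxt d Γ ≤ Γ from fun g hg => hg.1)]
  exact mul_ne_zero h2.index_ne_zero h.index_ne_zero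

lemma Nice.nxt_lt {G : Type u} [Group G] {Q : Type u} [Group Q] [Finite Q] (hQ : IsPGroup p Q)
    (θ : G →* Q) (hθ : ∀ (K : Subgroup Q) (ψ : K →* Multiplicative (ZMod p)) (m : ℕ),
      ∃ ψ' : K.comap θ →* Multiplicative (ZMod (p ^ (m + 1))), ∀ u : K.comap θ,
        (ψ ⟨θ u, u.2⟩).toAdd = ZMod.castHom (dvd_pow_self p m.succ_ne_zero) (ZMod p) (ψ' u).toAdd)
    {Γ : Subgroup G} (hΓ : Γ.FG) (h : Γ.map θ ≠ ⊥) : (nxt p Γ).map θ < Γ.map θ := by
  classical
  have hne : (⊥ : Subgroup (Γ.map θ)) ≠ ⊤ := by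
    intro e
    refine h (eq_bot_iff.2 fun x hx => ?_)
    have : (⟨x, hx⟩ : Γ.map θ) ∈ (⊥ : Subgroup (Γ.map θ)) := e ▸ Subgroup.mem_top _
    exact Subgroup.mem_bot.2 (congrArg Subtype.val (Subgroup.mem_bot.1 this))
  obtain ⟨ψ, -, hψ⟩ := exists_char (hQ.to_subgroup (Γ.map θ)) hne
  refine lt_of_le_of_ne (Subgroup.map_mono fun g hg => hg.1) fun e => hψ ?_
  rw [eq_top_iff]
  rintro ⟨x, hx⟩ -
  obtain ⟨g, hg, rfl⟩ : x ∈ (nxt p Γ).map θ := e ▸ hx
  refine char_lift_zero ((Group.fg_iff_subgroup_fg Γ).2 hΓ) (ψ.comp (θ.subgroupMap Γ))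
    (fun m => ?_) (g := ⟨g, hg.1⟩) fun χ => ?_
  · obtain ⟨ψ', h'⟩ := hθ (Γ.map θ) ψ m
    exact ⟨ψ'.comp (Subgroup.inclusion (Subgroup.le_comap_map θ Γ)),
      fun u => h' ⟨u, Subgroup.le_comap_map θ Γ u.2⟩⟩
  · have := hg.2 (fun y => if hy : y ∈ Γ then (χ ⟨y, hy⟩).toAdd else 0) fun a ha b hb => by
      simp only [dif_pos ha, dif_pos hb, dif_pos (Γ.mul_mem ha hb)]
      rw [← toAdd_mul, ← map_mul]
      rfl
    simpa only [dif_pos hg.1] using this

theorem Nice.chain {G : Type u} [Group G] (Γ : Nice p G) (hG : Group.FG G) :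
    Nonempty (Chain G) := by
  let H : ℕ → Subgroup G := fun j => (nxt (p : ℤ))^[j] ⊤
  have hs : ∀ j, H (j + 1) = nxt p (H j) := fun j => Function.iterate_succ_apply' _ _ _
  have hp0 : (p : ℤ) ≠ 0 := Int.natCast_ne_zero.2 hp.out.ne_zero
  have fg : ∀ K : Subgroup G, K.FiniteIndex → K.FG := fun K hK =>
    (Group.fg_iff_subgroup_fg K).1 (Subgroup.fg_of_index_ne_zero K)
  have hfi : ∀ j, (H j).FiniteIndex := by
    intro j
    induction j with
    | zero => exact (inferInstance : (⊤ : Subgroup G).FiniteIndex)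
    | succ j ih => rw [hs]; exact nxt_fi hp0 (fg _ ih) ih
  have hn : ∀ j, (H j).Normal := by
    intro j
    induction j with
    | zero => exact (inferInstance : (⊤ : Subgroup G).Normal)
    | succ j ih => rw [hs]; exact nxt_normal _ ih
  have hle : ∀ j, H (j + 1) ≤ H j := fun j g hg => by rw [hs] at hg; exact hg.1
  choose B hB hB' using fun j => exists_char_list (fg _ (hfi j))
  let L : ℕ → List (G → ℤ) := fun j => Nat.rec (B 0) (fun j L => L ++ B (j + 1)) j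
  have hL : ∀ j, L (j + 1) = L j ++ B (j + 1) := fun j => rfl
  have hc : ∀ j, ∀ χ ∈ L j, IsChar (H j) χ := by
    intro j
    induction j with
    | zero => exact hB 0
    | succ j ih =>
      intro χ hχ
      rcases List.mem_append.1 (hL j ▸ hχ) with h | h
      exacts [(ih χ h).mono (hle j), hB _ χ h]
  have hBL : ∀ j, ∀ χ ∈ B j, χ ∈ L j := by
    intro j χ hχ
    cases j with
    | zero => exact hχ
    | succ j => rw [hL]; exact List.mem_append_right _ hχ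
  refine ⟨⟨fun j => ⟨H j, nxt 0 (H j), L j, hfi j, nxt_normal _ (hn j), hc j, fun g =>
    ⟨fun hg => ⟨hg.1, fun χ hχ => zero_dvd_iff.1 (hg.2 χ (hc j χ hχ))⟩, fun hg =>
      ⟨hg.1, fun χ hχ => hB' j χ hχ 0 g hg.1 fun b hb => zero_dvd_iff.2 (hg.2 b (hBL j b hb))⟩⟩⟩,
    rfl, hn, hle, fun j g hg => ?_, fun j => ⟨B (j + 1), rfl⟩, fun g hg => ?_⟩⟩
  · change g ∈ H (j + 1)
    rw [hs]
    exact ⟨hg.1, fun χ hχ => (zero_dvd_iff.1 (hg.2 χ hχ)).symm ▸ dvd_zero _⟩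
  · obtain ⟨Q, _, _, θ, hQ, hg1, hθ⟩ := Γ.rf g hg
    obtain ⟨j, hj⟩ : ∃ j, (H j).map θ = ⊥ := by
      by_contra hcon
      rw [not_exists] at hcon
      have hanti : StrictAnti fun j => (H j).map θ := strictAnti_nat_of_succ_lt fun j => by
        rw [hs]
        exact Nice.nxt_lt hQ θ hθ (fg _ (hfi j)) (hcon j)
      have : Finite ℕ := Finite.of_injective _ hanti.injective
      exact not_finite ℕ
    refine ⟨j, fun hgN => hg1 ?_⟩
    have : θ g ∈ (H j).map θ := Subgroup.mem_map_of_mem θ hgN.1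
    rw [hj] at this
    exact Subgroup.mem_bot.1 this

end Pool.Agent.P.MP_a28d48_al
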