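import Pool.Agent.P.MP_a28d48_al.NDesc

set_option autoImplicit false

namespace Pool.Agent.P.MP_a28d48_al

open Function Set Ser

universe u

variable {p : ℕ} [hp : Fact p.Prime]

section Aux

variable {G : Type u} [Group G] {k : Type*} [Field k]

open Classical in
/-- component along a right coset -/
noncomputable def nR2_cmp (U : Subgroup G) (t : G) : MonoidAlgebra k G →+ MonoidAlgebra k G :=
  lext k fun g => if g * t⁻¹ ∈ U then MonoidAlgebra.single (g * t⁻¹) 1 else 0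

lemma nR2_cmp_res (C : Cones G) (U : Subgroup G) (t : G) (x : MonoidAlgebra k G) :
    ofMA C k (nR2_cmp U t x) = res U (ofMA C k x * sg t⁻¹ 1) := by
  induction x using MonoidAlgebra.induction_linear with
  | zero => simp
  | add x y hx hy => rw [map_add, map_add, hx, hy, map_add, add_mul, map_add]
  | single g r =>
    rw [nR2_cmp, lext_single, ofMA_single, sg_mul_sg, mul_one]
    split_ifs with h
    · rw [res_sg_of_mem U h, MonoidAlgebra.single_mul_single, one_mul, mul_one, ofMA_single]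
    · rw [res_sg_of_notMem U h, mul_zero, map_zero]

lemma nR2_tv (U : Subgroup G) [U.FiniteIndex] : ∃ (t : G → G) (T : Finset G), t 1 = 1 ∧
    (∀ g, t g ∈ T) ∧ (∀ g, g * (t g)⁻¹ ∈ U) ∧ (∀ u ∈ U, ∀ g, t (u * g) = t g) ∧
    ∀ g, ∀ τ ∈ T, g * τ⁻¹ ∈ U → τ = t g := by
  obtain ⟨t, t1, t2, t3⟩ := exists_rep U
  have hfin : (range t).Finite := by
    refine (finite_range fun q : G ⧸ U => t q.out⁻¹).subset ?_
    rintro _ ⟨g, rfl⟩
    refine ⟨((g⁻¹ : G) : G ⧸ U), (t2 _ _ ?_).symm⟩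
    have := QuotientGroup.eq.1 (QuotientGroup.out_eq' ((g⁻¹ : G) : G ⧸ U)).symm
    simpa using this
  refine ⟨t, hfin.toFinset, t3, fun g => by simp, t1, fun u hu g => t2 _ _ (by simpa using hu), ?_⟩
  intro g τ hτ h
  obtain ⟨x, rfl⟩ := (hfin.mem_toFinset).1 hτ
  exact (t2 _ _ (t1 x)).trans (t2 _ _ h).symm

lemma nR2_split (C : Cones G) {U : Subgroup G} {t : G → G} {T : Finset G} (h1 : ∀ g, t g ∈ T)
    (h2 : ∀ g, g * (t g)⁻¹ ∈ U) (h3 : ∀ g, ∀ τ ∈ T, g * τ⁻¹ ∈ U → τ = t g) (f : Ser C.adm k) :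
    ∑ τ ∈ T, res U (f * sg τ⁻¹ 1) * sg τ 1 = f := by
  ext x
  refine (map_sum (coef x) _ _).trans ?_
  rw [Finset.sum_eq_single_of_mem (t x) (h1 x)]
  · change (res U (f * sg (t x)⁻¹ 1) * sg (t x) 1).c x = _
    rw [mul_sg_c, res_c, if_pos (h2 x), mul_sg_c]
    simp
  · intro τ hτ hne
    change (res U (f * sg τ⁻¹ 1) * sg τ 1).c x = _
    rw [mul_sg_c, res_c, if_neg fun h => hne (h3 x τ hτ h), zero_mul]

lemma nR2_der {Q : Type*} [Group Q] (θ : G →* Q) (δ : G → MonoidAlgebra k Q) {U : Subgroup G}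
    {t : G → G} {T : Finset G} (h1 : ∀ g, t g ∈ T) (h2 : ∀ g, g * (t g)⁻¹ ∈ U)
    (h4 : ∀ u ∈ U, ∀ g, t (u * g) = t g) (h3 : ∀ g, ∀ τ ∈ T, g * τ⁻¹ ∈ U → τ = t g)
    (hδ : ∀ a ∈ U, ∀ b ∈ U, δ (a * b) = δ a + MonoidAlgebra.single (θ a) 1 * δ b)
    (x : MonoidAlgebra k G) (y : G) :
    lext k (fun g => δ (g * (t g)⁻¹)) (x * (MonoidAlgebra.single y 1 - 1)) =
      ∑ τ ∈ T, MonoidAlgebra.mapDomainRingHom k θ (nR2_cmp U τ x) *
        (δ (τ * y * (t (τ * y))⁻¹) - δ (τ * (t τ)⁻¹)) := by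
  have key : ∀ u ∈ U, ∀ z, δ (u * z * (t (u * z))⁻¹) =
      δ u + MonoidAlgebra.single (θ u) 1 * δ (z * (t z)⁻¹) := fun u hu z => by
    rw [h4 u hu, mul_assoc, hδ u hu _ (h2 z)]
  induction x using MonoidAlgebra.induction_linear with
  | zero => simp
  | add x y hx hy => simp only [add_mul, map_add, hx, hy, Finset.sum_add_distrib]
  | single g r =>
    rw [Finset.sum_eq_single_of_mem (t g) (h1 g)]
    · have e1 := key _ (h2 g) (t g * y)
      have e2 := key _ (h2 g) (t g)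
      rw [← mul_assoc (g * (t g)⁻¹), inv_mul_cancel_right] at e1
      rw [inv_mul_cancel_right] at e2
      have e3 : δ (g * y * (t (g * y))⁻¹) - δ (g * (t g)⁻¹) =
          MonoidAlgebra.single (θ (g * (t g)⁻¹)) 1 *
            (δ (t g * y * (t (t g * y))⁻¹) - δ (t g * (t (t g))⁻¹)) := by
        rw [mul_sub, e1, ← sub_eq_iff_eq_add'.2 e2]
        abel
      rw [mul_sub, MonoidAlgebra.single_mul_single, mul_one, mul_one, map_sub, lext_single,
        lext_single, nR2_cmp, lext_single, if_pos (h2 g), ← mul_sub, e3, ← mul_assoc]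
      simp only [MonoidAlgebra.mapDomainRingHom_apply, MonoidAlgebra.mapDomain_single,
        MonoidAlgebra.single_mul_single, one_mul]
    · intro τ hτ hne
      rw [nR2_cmp, lext_single, if_neg fun h => hne (h3 g τ hτ h), mul_zero, map_zero, zero_mul]

end Aux

theorem Nice.r2 {G : Type u} [Group G] (Γ : Nice p G) {Y : Type*} [Fintype Y] (gen : Y → G) {g h : G}
    {cg ch : Y → MonoidAlgebra (ZMod p) G} (hg : bd gen cg = MonoidAlgebra.single g 1 - 1)
    (hh : bd gen ch = MonoidAlgebra.single h 1 - 1) {m : ℕ}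
    {z : Fin m → Y → MonoidAlgebra (ZMod p) G} (hz : ∀ i, bd gen (z i) = 0)
    (μ : Fin m → Ser Γ.C.adm (ZMod p)) {κ₁ κ₂ : Ser Γ.C.adm (ZMod p)}
    (h₁ : κ₁ ∈ subF Γ.C (ZMod p) (Subgroup.closure {g, h}))
    (h₂ : κ₂ ∈ subF Γ.C (ZMod p) (Subgroup.closure {g, h})) (h0 : κ₁ ≠ 0)
    (hrel : ∀ y, κ₁ * ofMA Γ.C (ZMod p) (cg y) + κ₂ * ofMA Γ.C (ZMod p) (ch y) =
      ∑ i, μ i * ofMA Γ.C (ZMod p) (z i y)) : Commute g h := by
  classical
  by_contra hc
  obtain ⟨U, hU, hgU, hhU, hder⟩ := Γ.der g h hc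
  obtain ⟨t, T, t0, t1, t2, t3, t4⟩ := nR2_tv U
  have hle : Subgroup.closure {g, h} ≤ U := (Subgroup.closure_le _).2 (by
    rintro _ (rfl | rfl) <;> assumption)
  let ω : Bool ⊕ (Fin m × T) → Y → MonoidAlgebra (ZMod p) G :=
    Sum.elim (fun b => if b then cg else ch) fun q y => MonoidAlgebra.single q.2.1 1 * z q.1 y
  let κ : Bool ⊕ (Fin m × T) → Ser Γ.C.adm (ZMod p) :=
    Sum.elim (fun b => if b then κ₁ else κ₂) fun q => -res U (μ q.1 * sg q.2.1⁻¹ 1)
  have hκ : ∀ l, support (κ l).c ⊆ U := by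
    rintro ((_ | _) | q) x hx
    · exact hle (h₂ hx)
    · exact hle (h₁ hx)
    · by_contra hx'
      simp [κ, res_c, show x ∉ U from hx'] at hx
  have hsum : ∀ y, ∑ l, κ l * ofMA Γ.C (ZMod p) (ω l y) = 0 := fun y => by
    rw [Fintype.sum_sum_type, Fintype.sum_bool, Fintype.sum_prod_type]
    simp only [κ, ω, Sum.elim_inl, Sum.elim_inr, if_true, Bool.false_eq_true, if_false, hrel,
      ← Finset.sum_add_distrib]
    refine Finset.sum_eq_zero fun i _ => ?_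
    simp only [map_mul, ofMA_single, neg_mul, ← mul_assoc, Finset.sum_neg_distrib,
      ← Finset.sum_mul]
    rw [Finset.sum_coe_sort T fun τ => res U (μ i * sg τ⁻¹ 1) * sg τ 1,
      nR2_split Γ.C t1 t2 t4, add_neg_cancel]
  obtain ⟨j, Z, H⟩ := Γ.desc (fun l (q : T × Y) => nR2_cmp U q.1.1 (ω l q.2)) κ (fun q => by
    simp only [nR2_cmp_res, ← res_mul U (hκ _), ← mul_assoc]
    rw [← map_sum, ← Finset.sum_mul, hsum, zero_mul, map_zero]) (Sum.inl true) h0
  obtain ⟨Q, _, θ, δ, q1, q2, q3, q4, q5⟩ := hder j Z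
  obtain ⟨κ', k1, k2⟩ := H Q θ q1 q2
  have hδ1 : δ 1 = 0 := by
    simpa [← MonoidAlgebra.one_def] using q3 1 U.one_mem 1 U.one_mem
  have ht : ∀ u ∈ U, t u = 1 := fun u hu => by simpa [t0] using t3 u hu 1
  let D := lext (ZMod p) fun g => δ (g * (t g)⁻¹)
  have hD : ∀ u ∈ U, D (MonoidAlgebra.single u 1 - 1) = δ u := fun u hu => by
    rw [map_sub, MonoidAlgebra.one_def, lext_single, lext_single, ← MonoidAlgebra.one_def]
    simp [ht u hu, t0, hδ1]
  have e1 : ∑ l, κ' l * D (bd gen (ω l)) = κ' (Sum.inl true) := by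
    have : ∀ q : Fin m × T, bd gen (ω (Sum.inr q)) = 0 := fun q => by
      have := hz q.1
      simp only [bd] at this
      simp only [bd, ω, Sum.elim_inr, mul_assoc, ← Finset.mul_sum, this, mul_zero]
    rw [Fintype.sum_sum_type, Fintype.sum_bool]
    simp only [this, map_zero, mul_zero, Finset.sum_const_zero, add_zero]
    simp [ω, hg, hh, hD g hgU, hD h hhU, q4, q5]
  refine k2 (e1.symm.trans ?_)
  simp only [bd, map_sum, D, nR2_der θ δ t1 t2 t3 t4 q3, Finset.mul_sum]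
  rw [Finset.sum_comm]
  refine Finset.sum_eq_zero fun y _ => ?_
  rw [Finset.sum_comm]
  refine Finset.sum_eq_zero fun τ hτ => ?_
  simp only [← mul_assoc]
  rw [← Finset.sum_mul, k1 (⟨τ, hτ⟩, y), zero_mul]

end Pool.Agent.P.MP_a28d48_al
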