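import Pool.Agent.P.MP_a28d48_al.NComm
import Pool.Agent.P.MP_a28d48_al.NChain
import Pool.Agent.P.MP_a28d48_al.NR2

set_option autoImplicit false

namespace Pool.Agent.P.MP_a28d48_al

open Function Set Ser

universe u

variable {p : ℕ} [hp : Fact p.Prime]

theorem nice_of_parafree {P : Type u} [Group P] (h0 : ⨅ n, lcs P n = ⊥) {X : Type u}
    (θ : ∀ n, P ⧸ lcs P n ≃* FreeGroup X ⧸ lcs (FreeGroup X) n) (G : Subgroup P) :
    Nonempty (Nice p G) := by
  obtain ⟨Γ⟩ := good_of_parafree (p := p) h0 θ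
  refine ⟨⟨⟨fun j => {g | (g : P) ∈ Γ.C.P j}, fun h _ hg => Γ.C.mono h hg,
    fun hg hh => Γ.C.mul hg hh, fun x hg => Γ.C.conj (x : P) hg, Γ.C.one,
    fun g hg => Γ.C.total g (by simpa using hg)⟩, fun j => (Γ.N j).subgroupOf G,
    fun j => (Γ.normal j).subgroupOf G, fun j g => Γ.mem j g,
    fun j => (Γ.nil j).imp fun c h _ hg => h (lcs_map G.subtype c hg), Γ.der_sub G, Γ.rf_sub G,
    fun H hH => ?_⟩⟩
  have h1 : (H.map G.subtype).FG := comm_fg (p := p) h0 θ _ (by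
    rintro _ ⟨a, ha, rfl⟩ _ ⟨b, hb, rfl⟩
    exact (hH a ha b hb).map G.subtype)
  have := fg_comap h1 G.subtype G.subtype_injective (Subgroup.map_le_range _ _)
  rwa [Subgroup.comap_map_eq_self_of_injective G.subtype_injective] at this

end Pool.Agent.P.MP_a28d48_al
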