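import Pool.Agent.P.MP_a28d48_al.BTr
import Pool.Agent.P.MP_a28d48_al.BEta
import Pool.Agent.P.MP_a28d48_al.BPush
import Pool.Agent.P.MP_a28d48_al.KTop
import Pool.Agent.P.MP_a28d48_al.NTop
import Pool.Agent.P.MP_a28d48_al.HTop

set_option autoImplicit false

namespace Pool.Agent.P.MP_a28d48_al

open Function Set Ser

universe u

variable {p : ℕ} [hp : Fact p.Prime] {G : Type u} [Group G]

lemma fg_of_finiteIndex {G : Type*} [Group G] {K : Subgroup G} (Γ : Subgroup G) [Γ.FiniteIndex]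
    (h : (K ⊓ Γ).FG) : K.FG := by
  classical
  obtain ⟨T, hT, -⟩ := exists_tv (Γ.subgroupOf K)
  obtain ⟨S, hS⟩ := h
  refine ⟨S ∪ T.image Subtype.val, le_antisymm ((Subgroup.closure_le _).2 ?_) fun g hg => ?_⟩
  · intro x hx
    rcases Finset.mem_union.1 hx with hx | hx
    · have : x ∈ K ⊓ Γ := hS ▸ Subgroup.subset_closure hx
      exact this.1
    · obtain ⟨t, -, rfl⟩ := Finset.mem_image.1 hx
      exact t.2
  · obtain ⟨t, ⟨ht, hgt⟩, -⟩ := hT ⟨g, hg⟩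
    have h1 : g * (t : G)⁻¹ ∈ K ⊓ Γ := ⟨K.mul_mem hg (K.inv_mem t.2), hgt⟩
    rw [← hS] at h1
    have h2 := Subgroup.mul_mem _
      (Subgroup.closure_mono (k := ((S ∪ T.image Subtype.val : Finset G) : Set G)) (by simp) h1)
      (Subgroup.subset_closure (k := ((S ∪ T.image Subtype.val : Finset G) : Set G))
        (show (t : G) ∈ _ by simp [ht]))
    simpa using h2

lemma fg_inf_finiteIndex {G : Type*} [Group G] {K : Subgroup G} (Γ : Subgroup G) [Γ.FiniteIndex]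
    (h : K.FG) : (K ⊓ Γ).FG := by
  have := (Group.fg_iff_subgroup_fg K).2 h
  rw [inf_comm, ← Subgroup.subgroupOf_map_subtype]
  exact fg_map ((Group.fg_iff_subgroup_fg _).1 inferInstance) _

lemma one_sub_sg_ne {G k : Type*} [Group G] [Field k] {C : Cones G} {s : G} (hs : s ≠ 1) :
    (1 - sg s 1 : Ser C.adm k) ≠ 0 := by
  intro h
  have := congrArg (fun f : Ser C.adm k => f.c 1) h
  simp [one_def, sg_c_ne _ hs.symm] at this

theorem Nice.commute (Γ : Nice p G) {Y : Type*} [Fintype Y] [DecidableEq Y] {gen : Y → G}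
    (l : Lam Γ.C (ZMod p) gen) {s s' : G} (hs : s ≠ 1)
    (h : ∀ f ∈ l.Fb, (1 - sg s 1)⁻¹ * l.Λ s f = (1 - sg s' 1)⁻¹ * l.Λ s' f) : Commute s s' := by
  obtain ⟨c, hc, hc'⟩ := l.fox s
  obtain ⟨c', hd, hd'⟩ := l.fox s'
  have m1 : ∀ g ∈ Subgroup.closure {s, s'}, (1 - sg g 1 : Ser Γ.C.adm (ZMod p))⁻¹ ∈
      subF Γ.C (ZMod p) (Subgroup.closure {s, s'}) := fun g hg =>
    Subfield.inv_mem _ (Subfield.sub_mem _ (Subfield.one_mem _) (sg_mem_subF _ _ hg 1))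
  refine Γ.r2 gen hc hd l.cyc (κ₁ := (1 - sg s 1)⁻¹) (κ₂ := -(1 - sg s' 1)⁻¹) _
    (m1 s (Subgroup.subset_closure (by simp)))
    (Subfield.neg_mem _ (m1 s' (Subgroup.subset_closure (by simp))))
    (inv_ne_zero (one_sub_sg_ne hs))
    (l.ker (fun y => (1 - sg s 1)⁻¹ * ofMA Γ.C (ZMod p) (c y) +
      -(1 - sg s' 1)⁻¹ * ofMA Γ.C (ZMod p) (c' y)) fun f hf => ?_)
  simp only [add_mul, Finset.sum_add_distrib, mul_assoc, ← Finset.mul_sum]
  rw [← hc', ← hd', h f hf, neg_mul, add_neg_cancel]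

theorem Nice.howson (Γ : Nice p G) (hG : Group.FG G) {A B : Subgroup G} (hA : A.FG) (hB : B.FG) :
    (A ⊓ B).FG := by
  obtain ⟨s, gen, hgen⟩ := exists_range hG.out
  obtain ⟨c⟩ := Γ.chain hG
  obtain ⟨l⟩ := exists_lam Γ.C (ZMod p) gen hgen
  obtain ⟨a, φ, lv, hφ, h0, hlv, hnov⟩ :=
    c.novikov (fun q : Fin s × Fin l.m => l.μ q.1 q.2) fun q => l.μ_mem _ _
  have push := l.push a hlv fun y i => hnov (y, i)
  obtain ⟨T, h1, h2, h3, h4⟩ := l.exists_tr hgen (a.cons φ hφ h0) hφ (fun g _ hg => Or.inl hg) hlv push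
  have hfi : a.Γ.FiniteIndex := a.fi
  have hZ : T.Zc := by
    intro H hH
    have := Γ.comm (H.map a.Γ.subtype) (by
      rintro _ ⟨x, hx, rfl⟩ _ ⟨y, hy, rfl⟩
      by_cases hx1 : x = 1
      · simp [hx1]
      by_cases hy1 : y = 1
      · simp [hy1]
      exact Γ.commute l (fun h => hx1 (Subtype.ext h))
        (l.eta_eq (a.cons φ hφ h0) T h1 h2 h3 h4 (hH x hx y hy hx1 hy1)))
    have h5 := fg_comap this a.Γ.subtype a.Γ.subtype_injective (Subgroup.map_le_range _ _)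
    exact (Subgroup.comap_map_eq_self_of_injective a.Γ.subtype_injective H) ▸ h5
  have key : ∀ {K : Subgroup G}, K.FG → ((K ⊓ a.Γ).comap a.Γ.subtype).FG := fun hK =>
    fg_comap (fg_inf_finiteIndex a.Γ hK) _ a.Γ.subtype_injective (by simp)
  have h6 := fg_map (T.howson hZ (key hA) (key hB)) a.Γ.subtype
  refine fg_of_finiteIndex a.Γ ?_
  have e : A ⊓ B ⊓ a.Γ = (A ⊓ a.Γ) ⊓ (B ⊓ a.Γ) := inf_inf_distrib_right _ _ _
  rw [e, ← Subgroup.map_comap_eq_self (f := a.Γ.subtype) (H := (A ⊓ a.Γ) ⊓ (B ⊓ a.Γ)) (by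
    rw [Subgroup.range_subtype]; exact inf_le_left.trans inf_le_right), Subgroup.comap_inf]
  exact h6

theorem howson_parafree {P : Type u} [Group P] (h0 : ⨅ n, lcs P n = ⊥) {X : Type u}
    (θ : ∀ n, P ⧸ lcs P n ≃* FreeGroup X ⧸ lcs (FreeGroup X) n) {A B : Subgroup P} (hA : A.FG)
    (hB : B.FG) : (A ⊓ B).FG := by
  have : Fact (Nat.Prime 2) := ⟨Nat.prime_two⟩
  obtain ⟨Γ⟩ := nice_of_parafree (p := 2) h0 θ (A ⊔ B)
  have h := Γ.howson ((Group.fg_iff_subgroup_fg _).2 (hA.sup hB))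
    (fg_comap hA (A ⊔ B).subtype (A ⊔ B).subtype_injective (by simp))
    (fg_comap hB (A ⊔ B).subtype (A ⊔ B).subtype_injective (by simp))
  have := fg_map h (A ⊔ B).subtype
  rwa [← Subgroup.comap_inf, Subgroup.map_comap_eq_self (by
    rw [Subgroup.range_subtype]; exact inf_le_left.trans le_sup_left)] at this

end Pool.Agent.P.MP_a28d48_al
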