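import Pool.Agent.P.MP_a28d48_al.BLam
import Pool.Agent.P.MP_a28d48_al.KY
import Pool.Agent.P.MP_a28d48_al.BCay
import Pool.Agent.P.MP_a28d48_al.HEta

set_option autoImplicit false

namespace Pool.Agent.P.MP_a28d48_al

open Function Set Ser

variable {G : Type*} [Group G] {Y : Type*} {C : Cones G} {k : Type*} [Field k] [Fintype Y]
  [DecidableEq Y] {gen : Y → G}

lemma Dat.X_far (a : Dat G) {φ lv : G → ℤ} (hφ : IsChar a.Γ φ)
    (hpos : ∀ g ∈ a.Γ, 0 < φ g → lexpos a.L g) (hlv : ∀ h ∈ a.Γ, ∀ g, lv (h * g) = φ h + lv g)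
    {x : Ser C.adm k} (hx : x ∈ DD C k ⊤) :
    ∃ c : ℕ, ∀ g u, lv u + c < lv g → a.X C k (sg g 1 * x) u = 0 := by
  have := a.fi
  obtain ⟨T, hT, -⟩ := exists_tv a.Γ
  have m : ∀ g : G, sg g 1 * x ∈ DD C k ⊤ := fun g =>
    Subfield.mul_mem _ (sg_mem_DD (Subgroup.mem_top g) 1) hx
  have h1 : ∀ t t' : G, ∃ c : ℕ, ∀ n : a.Γ, a.X C k (sg t 1 * x) (n * t') ≠ 0 →
      lv t ≤ φ n + lv t' + c := by
    intro t t'
    by_cases hne : (support (a.Y C k (sg t 1 * x * sg t'⁻¹ 1)).c).Nonempty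
    · obtain ⟨g, -, hg⟩ := bdd_of_adm (a.cones C) (fun g => φ g) (fun g h => hφ g g.2 h h.2)
        (fun g hg => Or.inl (hpos g g.2 hg)) (a.Y C k (sg t 1 * x * sg t'⁻¹ 1)).adm hne
      refine ⟨(lv t - φ g - lv t').toNat, fun n hn => ?_⟩
      have := hg n (by rwa [mem_support, Dat.Y_c (m t)])
      omega
    · exact ⟨0, fun n hn => (hne ⟨n, by rwa [mem_support, Dat.Y_c (m t)]⟩).elim⟩
  choose f hf using h1
  refine ⟨T.sup fun t => T.sup (f t), fun g u hgu => ?_⟩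
  obtain ⟨t, ⟨ht, hg⟩, -⟩ := hT g
  obtain ⟨t', ⟨ht', hu⟩, -⟩ := hT u
  by_contra hne
  have hn : (g * t⁻¹)⁻¹ * (u * t'⁻¹) ∈ a.Γ := a.Γ.mul_mem (a.Γ.inv_mem hg) hu
  have e : a.X C k (sg g 1 * x) u = a.X C k (sg t 1 * x) ((g * t⁻¹)⁻¹ * (u * t'⁻¹) * t') := by
    rw [← Dat.X_sg_mul (m t) hg, ← mul_assoc (sg _ _), sg_mul_sg]
    simp [mul_assoc]
  have h2 := hf t t' ⟨_, hn⟩ (e ▸ hne)
  have h3 : f t t' ≤ T.sup fun t => T.sup (f t) :=
    (Finset.le_sup (f := f t) ht').trans (Finset.le_sup (f := fun t => T.sup (f t)) ht)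
  have h4 := hlv _ hg t
  have h5 := hlv _ hu t'
  rw [inv_mul_cancel_right] at h4 h5
  have h6 := hφ _ (a.Γ.inv_mem hg) _ hu
  rw [hφ.inv hg] at h6
  simp only at h2
  omega

theorem Lam.exists_tr (l : Lam C k gen) (hgen : Subgroup.closure (range gen) = ⊤) (a : Dat G)
    {φ lv : G → ℤ} (hφ : IsChar a.Γ φ) (hpos : ∀ g ∈ a.Γ, 0 < φ g → lexpos a.L g)
    (hlv : ∀ h ∈ a.Γ, ∀ g, lv (h * g) = φ h + lv g)
    (push : ∀ e : Ed G Y, e.y ∉ l.Fb →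
      Conn Ed.a (Ed.t gen) {e' | e'.y ∈ l.Fb ∨ lv e.a < lv e'.a} e.a (e.t gen)) :
    ∃ T : Tr a.Γ G (Ed G Y) k, T.C = a.cones C ∧ T.b = 1 ∧ T.W = {e | e.y ∈ l.Fb} ∧
      ∀ e x, T.χ e x = a.X C k (l.Λ x e.y) e.a := by
  have := a.fi
  obtain ⟨T, hT, -⟩ := exists_tv a.Γ
  have m : ∀ (g : G) x f, sg g 1 * l.Λ x f ∈ DD C k ⊤ := fun g x f =>
    Subfield.mul_mem _ (sg_mem_DD (Subgroup.mem_top g) 1) (l.Λ_mem x f)
  have hR : {e : Ed G Y | e.a ∈ T}.Finite :=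
    ((T.finite_toSet.prod (finite_univ (α := Y))).image fun q => (⟨q.1, q.2⟩ : Ed G Y)).subset
      fun e he => ⟨(e.a, e.y), ⟨he, mem_univ _⟩, rfl⟩
  have orb : ∀ e : Ed G Y, e ∈ Orb (⊤ : Subgroup a.Γ) {e : Ed G Y | e.a ∈ T} := fun e => by
    obtain ⟨t, ⟨ht, hg⟩, -⟩ := hT e.a
    exact ⟨⟨_, hg⟩, Subgroup.mem_top _, ⟨t, e.y⟩, ht, Ed.ext (by simp) rfl⟩
  have ht : ∀ (g : a.Γ) (e : Ed G Y), Ed.t gen (g • e) = g • Ed.t gen e := fun g e => mul_assoc _ _ _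
  obtain ⟨c₀, hc₀⟩ := exists_push_bound (Γ := a.Γ) (o := Ed.a) (t := Ed.t gen) (fun _ _ => rfl) ht hR orb
    (fun g => φ g) lv (fun g x => hlv g g.2 x) (W := {e | e.y ∈ l.Fb}) (fun _ _ h => h) push
  choose f hf using fun y y' => a.X_far hφ hpos hlv (l.Λ_mem (gen y) y')
  have d : ∀ (w e : Ed G Y), a.X C k (l.Λ (e.t gen) w.y) w.a =
      a.X C k (l.Λ e.a w.y) w.a + a.X C k (sg e.a 1 * l.Λ (gen e.y) w.y) w.a := fun w e => by
    rw [Ed.t, l.der, Dat.X_add (l.Λ_mem _ _) (m _ _ _)]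
  have fin : ∀ g : G, (support (sg g 1 : Ser C.adm k).c).Finite := fun g =>
    (finite_singleton g).subset fun _ h => eq_of_sg_c h
  refine ⟨{
    C := a.cones C
    φ := fun g => φ g
    φ_mul := fun g h => hφ g g.2 h h.2
    φ_pos := fun g hg => Or.inl (hpos g g.2 hg)
    o := Ed.a
    t := Ed.t gen
    o_smul := fun _ _ => rfl
    t_smul := ht
    free := fun g x h => Subtype.ext (mul_eq_right.1 h)
    b := 1
    R := {e | e.a ∈ T}
    R_fin := hR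
    orb := orb
    lv := lv
    lv_smul := fun g x => hlv g g.2 x
    W := {e | e.y ∈ l.Fb}
    W_smul := fun _ _ h => h
    c := max c₀ (Finset.univ.sup fun y => Finset.univ.sup (f y))
    conn := conn_cayley hgen
    push := hc₀ _ (le_max_left _ _)
    χ := fun e x => a.X C k (l.Λ x e.y) e.a
    χ_self := fun w hw => ?_
    χ_wall := fun w hw w' hw' hne => ?_
    χ_far := fun w _ e _ h => ?_
    χ_smul := fun g w _ x y => ?_ }, rfl, rfl, rfl, fun _ _ => rfl⟩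
  · rw [d, l.bas _ hw _ hw, if_pos rfl, mul_one, Dat.X_finite (fin _), sg_c_self]
    simp
  · rw [d, l.bas _ hw' _ hw]
    split_ifs with h
    · rw [mul_one, Dat.X_finite (fin _), sg_c_ne _ fun h' => hne (Ed.ext h'.symm h), add_zero]
    · rw [mul_zero, Dat.X_finite (x := 0) (by simp [support]), zero_c, add_zero]
  · have h3 : f e.y w.y ≤ Finset.univ.sup fun y => Finset.univ.sup (f y) :=
      (Finset.le_sup (f := f e.y) (Finset.mem_univ _)).trans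
        (Finset.le_sup (f := fun y => Finset.univ.sup (f y)) (Finset.mem_univ _))
    rw [d, hf e.y w.y e.a w.a (by omega), add_zero]
  · change a.X C k (l.Λ (g * y) w.y) (g * w.a) - a.X C k (l.Λ (g * x) w.y) (g * w.a) = _
    rw [l.der, l.der, Dat.X_add (l.Λ_mem _ _) (m _ _ _), Dat.X_add (l.Λ_mem _ _) (m _ _ _),
      Dat.X_sg_mul (l.Λ_mem _ _) g.2, Dat.X_sg_mul (l.Λ_mem _ _) g.2]
    ring

end Pool.Agent.P.MP_a28d48_al
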