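import Pool.Agent.P.MP_a28d48_al.Ser

set_option autoImplicit false

namespace Pool.Agent.P.MP_a28d48_al

open Function Set Pointwise

/-- an increasing chain of conjugation invariant positive cones -/
structure Cones (G : Type*) [Group G] where
  P : ℕ → Set G
  mono : ∀ {i j : ℕ}, i ≤ j → P i ⊆ P j
  mul : ∀ {j l : ℕ} {g h : G}, g ∈ P j → h ∈ P l → g * h ∈ P j
  conj : ∀ {j : ℕ} {g : G} (x : G), g ∈ P j → x * g * x⁻¹ ∈ P j
  one : ∀ j, (1 : G) ∉ P j
  total : ∀ g : G, g ≠ 1 → ∃ j, g ∈ P j ∨ g⁻¹ ∈ P j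

namespace Cones

variable {G : Type*} [Group G] (𝒞 : Cones G)

lemma mul' {j l : ℕ} {g h : G} (hh : h ∈ 𝒞.P l) (hg : g ∈ 𝒞.P j) : h * g ∈ 𝒞.P j := by
  have := 𝒞.mul hg (𝒞.conj g⁻¹ hh)
  simpa [mul_assoc] using this

def le (j : ℕ) (x y : G) : Prop := x = y ∨ x⁻¹ * y ∈ 𝒞.P j

instance (j : ℕ) : IsPreorder G (𝒞.le j) where
  refl _ := Or.inl rfl
  trans x y z := by
    rintro (rfl | h1) h2
    · exact h2
    rcases h2 with rfl | h2
    · exact Or.inr h1
    · exact Or.inr (by simpa [mul_assoc] using 𝒞.mul h1 h2)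

variable {𝒞}

lemma le.mono {i j : ℕ} (h : i ≤ j) {x y : G} (hxy : 𝒞.le i x y) : 𝒞.le j x y :=
  hxy.imp id fun h' => 𝒞.mono h h'

lemma le.mul_cases {j : ℕ} {a a' b b' : G} (ha : 𝒞.le j a a') (hb : 𝒞.le j b b') :
    (a = a' ∧ b = b') ∨ (a * b)⁻¹ * (a' * b') ∈ 𝒞.P j := by
  have e : (a * b)⁻¹ * (a' * b') = (b⁻¹ * (a⁻¹ * a') * b⁻¹⁻¹) * (b⁻¹ * b') := by group
  rcases ha with rfl | ha <;> rcases hb with rfl | hb
  · exact Or.inl ⟨rfl, rfl⟩
  · right; simpa [mul_assoc] using hb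
  · right; rw [e]; simpa using 𝒞.conj b⁻¹ ha
  · right; rw [e]; exact 𝒞.mul (𝒞.conj b⁻¹ ha) hb

lemma le.mul {j : ℕ} {a a' b b' : G} (ha : 𝒞.le j a a') (hb : 𝒞.le j b b') :
    𝒞.le j (a * b) (a' * b') := by
  rcases ha.mul_cases hb with ⟨rfl, rfl⟩ | h
  exacts [Or.inl rfl, Or.inr h]

lemma pwo_mono {i j : ℕ} (h : i ≤ j) {s : Set G} (hs : s.PartiallyWellOrderedOn (𝒞.le i)) :
    s.PartiallyWellOrderedOn (𝒞.le j) := by
  simpa using hs.image_of_monotone_on (f := id) (r' := 𝒞.le j) (fun _ _ _ _ h' => h'.mono h)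

lemma pwo_mul {j : ℕ} {s t : Set G} (hs : s.PartiallyWellOrderedOn (𝒞.le j))
    (ht : t.PartiallyWellOrderedOn (𝒞.le j)) : (s * t).PartiallyWellOrderedOn (𝒞.le j) := by
  rw [← image_mul_prod]
  exact (hs.prod ht).image_of_monotone_on (fun _ _ _ _ h => h.1.mul h.2)

variable (𝒞)

def adm : Adm G where
  mem s := ∃ j, s.PartiallyWellOrderedOn (𝒞.le j)
  mono h := fun ⟨j, hj⟩ => ⟨j, hj.mono h⟩
  union := fun ⟨i, hi⟩ ⟨j, hj⟩ =>
    ⟨max i j, (pwo_mono (le_max_left _ _) hi).union (pwo_mono (le_max_right _ _) hj)⟩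
  single a := ⟨0, partiallyWellOrderedOn_singleton a⟩
  mul := fun ⟨i, hi⟩ ⟨j, hj⟩ =>
    ⟨max i j, pwo_mul (pwo_mono (le_max_left _ _) hi) (pwo_mono (le_max_right _ _) hj)⟩
  fin := fun ⟨i, hi⟩ ⟨j, hj⟩ x => by
    have h := (pwo_mono (le_max_left i j) hi).prod (pwo_mono (le_max_right i j) hj)
    refine IsAntichain.finite_of_partiallyWellOrderedOn ?_ (h.mono fun p hp => ⟨hp.1, hp.2.1⟩)
    rintro p hp q hq hpq ⟨h1, h2⟩
    rcases h1.mul_cases h2 with ⟨e1, e2⟩ | h3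
    · exact hpq (Prod.ext e1 e2)
    · rw [hp.2.2, hq.2.2, inv_mul_cancel] at h3
      exact 𝒞.one _ h3

variable {𝒞}

lemma exists_min_aux {s : Set G} (hs : 𝒞.adm.mem s) (hne : s.Nonempty) :
    ∃ g ∈ s, ∀ h ∈ s, ∃ j, 𝒞.le j g h := by
  obtain ⟨i, hi⟩ := hs
  let r : G → G → Prop := fun x y => ∃ j, 𝒞.le j x y
  haveI : IsPreorder G r :=
    { refl := fun x => ⟨0, Or.inl rfl⟩
      trans := fun x y z ⟨a, ha⟩ ⟨b, hb⟩ =>
        ⟨max a b, _root_.trans (ha.mono (le_max_left _ _)) (hb.mono (le_max_right _ _))⟩ }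
  have h1 : s.PartiallyWellOrderedOn r := by
    simpa using hi.image_of_monotone_on (f := id) (r' := r) (fun _ _ _ _ h' => ⟨i, h'⟩)
  have h2 := wellFoundedOn_iff.1 h1.wellFoundedOn
  obtain ⟨g, hg, hmin⟩ := h2.has_min s hne
  refine ⟨g, hg, fun h hh => ?_⟩
  by_contra hc
  refine hmin h hh ⟨⟨?_, hc⟩, hh, hg⟩
  have hne : g⁻¹ * h ≠ 1 := fun e => hc ⟨0, Or.inl (inv_mul_eq_one.1 e)⟩
  obtain ⟨j, hj | hj⟩ := 𝒞.total _ hne
  · exact absurd ⟨j, Or.inr hj⟩ hc
  · exact ⟨j, Or.inr (by simpa using hj)⟩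

lemma exists_min {s : Set G} (hs : 𝒞.adm.mem s) (hne : s.Nonempty) :
    ∃ g ∈ s, ∃ j, ∀ h ∈ s, 𝒞.le j g h := by
  obtain ⟨g, hg, hmin⟩ := exists_min_aux hs hne
  refine ⟨g, hg, ?_⟩
  rcases (s \ {g}).eq_empty_or_nonempty with he | he
  · refine ⟨0, fun h hh => Or.inl ?_⟩
    by_contra hc
    exact (he ▸ (⟨hh, fun e => hc e.symm⟩ : h ∈ s \ {g}) : h ∈ (∅ : Set G))
  · obtain ⟨g', hg', hmin'⟩ := exists_min_aux (𝒞.adm.mono diff_subset hs) he
    obtain ⟨j, hj⟩ := hmin g' hg'.1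
    have hj' := hj.resolve_left fun e => hg'.2 e.symm
    refine ⟨j, fun h hh => ?_⟩
    by_cases e : g = h
    · exact Or.inl e
    obtain ⟨l, rfl | hl⟩ := hmin' h ⟨hh, fun e' => e e'.symm⟩
    · exact hj
    · exact Or.inr (by simpa [mul_assoc] using 𝒞.mul hj' hl)

lemma prod_pos {j : ℕ} (l : List G) (hl : ∀ x ∈ l, x ∈ 𝒞.P j) : 𝒞.le j 1 l.prod := by
  induction l with
  | nil => exact Or.inl rfl
  | cons a l ih =>
    have h1 : 𝒞.le j 1 a := Or.inr (by simpa using hl a (by simp))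
    simpa using h1.mul (ih fun x hx => hl x (by simp [hx]))

lemma prod_mono {j : ℕ} {l l' : List G} (h : List.SublistForall₂ (𝒞.le j) l l')
    (hl : ∀ x ∈ l', x ∈ 𝒞.P j) : 𝒞.le j l.prod l'.prod := by
  induction h with
  | nil => exact prod_pos _ hl
  | cons h1 _ ih => simpa using h1.mul (ih fun x hx => hl x (by simp [hx]))
  | @cons_right a _ _ _ ih =>
    have h1 : 𝒞.le j 1 a := Or.inr (by simpa using hl a (by simp))
    simpa using h1.mul (ih fun x hx => hl x (by simp [hx]))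

end Cones

namespace Ser

variable {G : Type*} [Group G] {𝒜 : Adm G} {k : Type*} [Ring k]

lemma sg_mul_c (a : G) (r : k) (f : Ser 𝒜 k) (x : G) : (sg a r * f).c x = r * f.c (a⁻¹ * x) := by
  conv_lhs => rw [← mul_inv_cancel_left a x]
  rw [mul_c_unique, sg_c_self]
  intro a' b' ha _ hab
  obtain rfl := eq_of_sg_c ha
  exact ⟨rfl, mul_left_cancel hab⟩

lemma mul_sg_c (a : G) (r : k) (f : Ser 𝒜 k) (x : G) : (f * sg a r).c x = f.c (x * a⁻¹) * r := by
  conv_lhs => rw [← inv_mul_cancel_right x a]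
  rw [mul_c_unique, sg_c_self]
  intro a' b' _ hb hab
  obtain rfl := eq_of_sg_c hb
  exact ⟨mul_right_cancel hab, rfl⟩

open Classical in
/-- restriction to a subgroup -/
noncomputable def res (A : Subgroup G) : Ser 𝒜 k →+ Ser 𝒜 k where
  toFun f := ⟨fun x => if x ∈ A then f.c x else 0,
    𝒜.mono (fun x hx (hf : f.c x = 0) => hx (by simp [hf])) f.adm⟩
  map_zero' := by ext x; simp
  map_add' f g := by
    ext x
    simp only [add_c]
    split_ifs <;> simp

open Classical in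
lemma res_c (A : Subgroup G) (f : Ser 𝒜 k) (x : G) :
    (res A f).c x = if x ∈ A then f.c x else 0 := rfl

lemma res_mul (A : Subgroup G) {a : Ser 𝒜 k} (ha : support a.c ⊆ A) (f : Ser 𝒜 k) :
    res A (a * f) = a * res A f := by
  ext x
  rw [res_c, mul_c_sup a f x a.adm f.adm subset_rfl subset_rfl,
    mul_c_sup a (res A f) x a.adm f.adm subset_rfl (fun y hy hf => hy (by simp [res_c, hf]))]
  split_ifs with hx
  · refine Finset.sum_congr rfl fun p hp => ?_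
    rw [mem_ad] at hp
    rw [res_c, if_pos]
    exact (A.mul_mem_cancel_left (ha hp.1)).1 (hp.2.2 ▸ hx)
  · refine (Finset.sum_eq_zero fun p hp => ?_).symm
    rw [mem_ad] at hp
    rw [res_c, if_neg, mul_zero]
    exact fun h => hx (hp.2.2 ▸ A.mul_mem (ha hp.1) h)

lemma res_sg_of_mem (A : Subgroup G) {a : G} (ha : a ∈ A) (r : k) :
    res A (sg a r : Ser 𝒜 k) = sg a r := by
  ext x
  rw [res_c]
  split_ifs with h
  · rfl
  · exact (sg_c_ne _ fun (e : x = a) => h (e ▸ ha)).symm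

lemma res_sg_of_notMem (A : Subgroup G) {a : G} (ha : a ∉ A) (r : k) :
    res A (sg a r : Ser 𝒜 k) = 0 := by
  ext x
  rw [res_c]
  split_ifs with h
  · exact sg_c_ne _ fun e => ha (e ▸ h)
  · rfl

end Ser

section Div

variable {G : Type*} [Group G] (𝒞 : Cones G) (k : Type*) [Field k]

open Ser

theorem exists_right_inv (f : Ser 𝒞.adm k) (hf : f ≠ 0) : ∃ y, f * y = 1 := by
  have hne : (support f.c).Nonempty := by
    rw [support_nonempty_iff]
    exact fun h => hf (Ser.ext h)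
  obtain ⟨g, hg, j0, hmin⟩ := Cones.exists_min f.adm hne
  set v : Ser 𝒞.adm k := 1 - sg g⁻¹ (f.c g)⁻¹ * f with hv
  obtain ⟨i, hi⟩ := v.adm
  set j := max i j0
  have hP : ∀ x, v.c x ≠ 0 → x ∈ 𝒞.P j := by
    intro x hx
    rw [hv, sub_c, sg_mul_c, inv_inv] at hx
    have hx1 : x ≠ 1 := by
      rintro rfl
      exact hx (by rw [mul_one, inv_mul_cancel₀ hg, one_def, sg_c_self, sub_self])
    rw [one_def, sg_c_ne _ hx1] at hx
    rcases hmin (g * x) (fun e => hx (by simp [e])) with e | e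
    · exact absurd (by simpa using e) hx1
    · exact 𝒞.mono (le_max_right _ _) (by simpa using e)
  let T : Set G := List.prod '' {l : List G | ∀ x, x ∈ l → x ∈ support v.c}
  have hT : T.PartiallyWellOrderedOn (𝒞.le j) :=
    (PartiallyWellOrderedOn.partiallyWellOrderedOn_sublistForall₂ (𝒞.le j)
      (Cones.pwo_mono (le_max_left _ _) hi)).image_of_monotone_on
      (fun l _ l' hl' h => Cones.prod_mono h fun x hx => hP x (hl' x hx))
  have hm : ∀ a b, v.c a ≠ 0 → b ∈ T → a * b ∈ T := by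
    rintro a _ ha ⟨l, hl, rfl⟩
    refine ⟨a :: l, fun x hx => ?_, by simp⟩
    rcases List.mem_cons.1 hx with rfl | hx
    exacts [ha, hl x hx]
  obtain ⟨y, -, hy⟩ := exists_inv v T ⟨j, hT⟩ ⟨[], by simp, rfl⟩ hm (by
    refine Subrelation.wf ?_ (wellFoundedOn_iff.1 hT.wellFoundedOn)
    rintro b _ ⟨hb, a, ha, rfl⟩
    have h1 : b⁻¹ * (a * b) ∈ 𝒞.P j := by simpa [mul_assoc] using 𝒞.conj b⁻¹ (hP a ha)
    refine ⟨⟨Or.inr h1, ?_⟩, hb, hm a b ha hb⟩
    rintro (e | e)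
    · rw [e, inv_mul_cancel] at h1
      exact 𝒞.one _ h1
    · have := 𝒞.mul h1 e
      rw [show b⁻¹ * (a * b) * ((a * b)⁻¹ * b) = 1 by group] at this
      exact 𝒞.one _ this)
  rw [hv, sub_sub_cancel] at hy
  refine ⟨y * sg g⁻¹ (f.c g)⁻¹, ?_⟩
  have e1 : (sg g (f.c g) : Ser 𝒞.adm k) * sg g⁻¹ (f.c g)⁻¹ = 1 := by
    rw [sg_mul_sg, mul_inv_cancel, mul_inv_cancel₀ hg, one_def]
  calc f * (y * sg g⁻¹ (f.c g)⁻¹)
      = sg g (f.c g) * (sg g⁻¹ (f.c g)⁻¹ * f * y) * sg g⁻¹ (f.c g)⁻¹ := by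
        simp only [← mul_assoc, e1, one_mul]
    _ = 1 := by rw [hy, mul_one, e1]

instance : Nontrivial (Ser 𝒞.adm k) :=
  ⟨⟨0, 1, fun h => by simpa [one_def] using congrArg (fun f : Ser 𝒞.adm k => f.c 1) h⟩⟩

noncomputable instance : DivisionRing (Ser 𝒞.adm k) :=
  DivisionRing.ofIsUnitOrEqZero fun f => by
    by_cases hf : f = 0
    · exact Or.inr hf
    obtain ⟨y, hy⟩ := exists_right_inv 𝒞 k f hf
    obtain ⟨z, hz⟩ := exists_right_inv 𝒞 k y (fun h => by simp [h] at hy)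
    have : f = z := by rw [← mul_one f, ← hz, ← mul_assoc, hy, one_mul]
    exact Or.inl ⟨⟨f, y, hy, this ▸ hz⟩, rfl⟩

/-- series supported in a subgroup -/
def subF (A : Subgroup G) : Subfield (Ser 𝒞.adm k) where
  carrier := {f | support f.c ⊆ A}
  mul_mem' := fun {f g} hf hg x hx => by
    obtain ⟨a, b, ha, hb, rfl⟩ := exists_of_mul_c hx
    exact A.mul_mem (hf ha) (hg hb)
  one_mem' := fun x hx => by rw [eq_of_sg_c hx]; exact A.one_mem
  add_mem' := fun {f g} hf hg x hx => (support_add _ _ hx).elim (fun h => hf h) (fun h => hg h)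
  zero_mem' := fun x hx => absurd rfl hx
  neg_mem' := fun {f} hf x hx => hf (by simpa using hx)
  inv_mem' := fun f hf => by
    by_cases h0 : f = 0
    · rw [h0, inv_zero]
      exact fun x hx => absurd rfl hx
    have h1 : f * res A f⁻¹ = 1 := by
      rw [← res_mul A hf, mul_inv_cancel₀ h0, one_def, res_sg_of_mem A A.one_mem]
    rw [inv_eq_of_mul_eq_one_right h1]
    intro x hx
    by_contra h
    exact hx (by rw [res_c, if_neg (show x ∉ A from h)])

/-- the group algebra inside the series -/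
noncomputable def ofMA : MonoidAlgebra k G →+* Ser 𝒞.adm k :=
  MonoidAlgebra.liftNCRingHom
    { toFun := fun r => sg 1 r
      map_one' := rfl
      map_mul' := fun r s => by rw [sg_mul_sg, one_mul]
      map_zero' := sg_zero _
      map_add' := sg_add _ }
    { toFun := fun g => sg g 1
      map_one' := rfl
      map_mul' := fun a b => by rw [sg_mul_sg, one_mul] }
    (fun r g => by simp [Commute, SemiconjBy, sg_mul_sg])

@[simp] lemma ofMA_single (g : G) (r : k) : ofMA 𝒞 k (MonoidAlgebra.single g r) = sg g r := by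
  simp [ofMA, sg_mul_sg]

lemma ofMA_c (x : MonoidAlgebra k G) (g : G) : (ofMA 𝒞 k x).c g = x.coeff g := by
  classical
  induction x using MonoidAlgebra.induction_linear with
  | zero => simp
  | add x y hx hy => simp [hx, hy]
  | single a r => simp [sg_c, Finsupp.single_apply, eq_comm]

lemma ofMA_injective : Injective (ofMA 𝒞 k) := fun x y h => by
  ext g
  rw [← ofMA_c 𝒞 k, h, ofMA_c]

end Div

end Pool.Agent.P.MP_a28d48_al
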