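import Pool.Agent.P.MP_a28d48_al.Push

set_option autoImplicit false

namespace Pool.Agent.P.MP_a28d48_al

open Function Set Ser MonoidAlgebra

universe u

variable {G : Type u} [Group G] (𝒞 : Cones G) (k : Type*) [Field k]

lemma sg_mem_subF {A : Subgroup G} {g : G} (hg : g ∈ A) (r : k) : sg g r ∈ subF 𝒞 k A :=
  fun x hx => by rw [eq_of_sg_c hx]; exact hg

lemma fox {s : ℕ} (a : Fin s → G) {g : G} (hg : g ∈ Subgroup.closure (range a)) :
    ∃ J : Fin s → MonoidAlgebra k G, (∀ i, ofMA 𝒞 k (J i) ∈ subF 𝒞 k (Subgroup.closure (range a))) ∧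
      single g 1 - 1 = ∑ i, J i * (single (a i) 1 - 1) := by
  classical
  induction hg using Subgroup.closure_induction with
  | mem x hx =>
    obtain ⟨i, rfl⟩ := hx
    refine ⟨Pi.single i 1, fun i' => ?_, by simp [Pi.single_apply]⟩
    rw [Pi.single_apply]
    split_ifs <;> simp
  | one => exact ⟨0, fun i => by simp, by simp [MonoidAlgebra.one_def]⟩
  | mul x y hx hy ihx ihy =>
    obtain ⟨J, h1, h2⟩ := ihx
    obtain ⟨J', h1', h2'⟩ := ihy
    refine ⟨fun i => J i + single x 1 * J' i, fun i => ?_, ?_⟩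
    · rw [map_add, map_mul, ofMA_single]
      exact add_mem (h1 i) (mul_mem (sg_mem_subF 𝒞 k hx 1) (h1' i))
    · simp only [add_mul, Finset.sum_add_distrib, mul_assoc, ← Finset.mul_sum, ← h2, ← h2']
      simp [mul_sub, single_mul_single]
  | inv x hx ihx =>
    obtain ⟨J, h1, h2⟩ := ihx
    refine ⟨fun i => -(single x⁻¹ 1 * J i), fun i => ?_, ?_⟩
    · rw [map_neg, map_mul, ofMA_single]
      exact neg_mem (mul_mem (sg_mem_subF 𝒞 k (inv_mem hx) 1) (h1 i))
    · simp only [neg_mul, Finset.sum_neg_distrib, mul_assoc, ← Finset.mul_sum, ← h2]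
      simp [mul_sub, single_mul_single, MonoidAlgebra.one_def]

/-- linear extension -/
noncomputable def lext {Q : Type*} [Group Q] (δ : G → MonoidAlgebra k Q) :
    MonoidAlgebra k G →+ MonoidAlgebra k Q :=
  liftNC (singleOneRingHom (R := k) (M := Q)).toAddMonoidHom δ

@[simp] lemma lext_single {Q : Type*} [Group Q] (δ : G → MonoidAlgebra k Q) (g : G) (r : k) :
    lext k δ (single g r) = single 1 r * δ g := by simp [lext]

lemma lext_der {Q : Type*} [Group Q] (φ : G →* Q) (δ : G → MonoidAlgebra k Q)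
    (hδ : ∀ x y, δ (x * y) = δ x + single (φ x) 1 * δ y) (x : MonoidAlgebra k G) (g : G) :
    lext k δ (x * (single g 1 - 1)) = mapDomainRingHom k φ x * δ g := by
  induction x using MonoidAlgebra.induction_linear with
  | zero => simp
  | add x y hx hy => rw [add_mul, map_add, hx, hy, map_add, add_mul]
  | single h r =>
    simp [mul_sub, single_mul_single, hδ, mul_add, ← mul_assoc]

lemma der_eq {Q : Type*} [Group Q] (φ : G →* Q) (δ : G → MonoidAlgebra k Q)
    (hδ : ∀ x y, δ (x * y) = δ x + single (φ x) 1 * δ y) {s : ℕ} {a : Fin s → G} {g : G}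
    {J : Fin s → MonoidAlgebra k G} (h : single g 1 - 1 = ∑ i, J i * (single (a i) 1 - 1)) :
    δ g = ∑ i, mapDomainRingHom k φ (J i) * δ (a i) := by
  have h1 := lext_der k φ δ hδ 1 g
  rw [one_mul, map_one, one_mul, h, map_sum] at h1
  rw [← h1]
  exact Finset.sum_congr rfl fun i _ => lext_der k φ δ hδ _ _

lemma exists_rep (C : Subgroup G) : ∃ t : G → G, (∀ g, g * (t g)⁻¹ ∈ C) ∧
    (∀ g h, g * h⁻¹ ∈ C → t g = t h) ∧ t 1 = 1 := by
  classical
  let q : G → Quotient (QuotientGroup.rightRel C) := Quotient.mk _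
  have hq : ∀ g h, q g = q h ↔ h * g⁻¹ ∈ C := fun g h =>
    Quotient.eq.trans QuotientGroup.rightRel_apply
  refine ⟨fun g => if q g = q 1 then 1 else (q g).out, fun g => ?_, fun g h hgh => ?_, by simp⟩
  · dsimp only
    split_ifs with h
    · simpa using (hq 1 g).1 h.symm
    · exact (hq _ _).1 (Quotient.out_eq _)
  · dsimp only
    rw [(hq h g).2 hgh]

theorem kappa_zero {A B : Subgroup G} {r m : ℕ} (b : Fin r → G) (c : Fin m → G)
    (hc : ∀ l, c l ∈ A ⊓ B) (J : Fin m → Fin r → MonoidAlgebra k G)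
    (hJ : ∀ l i, ofMA 𝒞 k (J l i) ∈ subF 𝒞 k B)
    (hJ' : ∀ l, single (c l) 1 - 1 = ∑ i, J l i * (single (b i) 1 - 1))
    (D : Fin m → G → MonoidAlgebra k G)
    (hD : ∀ l, ∀ x ∈ A ⊓ B, ∀ y ∈ A ⊓ B, D l (x * y) = D l x + single x 1 * D l y)
    (hDc : ∀ l l', D l (c l') = if l' = l then 1 else 0)
    (κ : Fin m → Ser 𝒞.adm k) (hκ : ∀ l, κ l ∈ subF 𝒞 k A)
    (h0 : ∀ i, ∑ l, κ l * ofMA 𝒞 k (J l i) = 0) (l' : Fin m) : κ l' = 0 := by
  classical
  obtain ⟨t, t1, t2, t3⟩ := exists_rep (A ⊓ B)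
  let ψ := lext k fun g => D l' (g * (t g)⁻¹)
  have hψ : ∀ x ∈ A ⊓ B, ∀ (ρ : k) (u v : G),
      ψ (single (x * u) ρ - single (x * v) ρ) = single x ρ * ψ (single u 1 - single v 1) := by
    intro x hx ρ u v
    have e : ∀ u, t (x * u) = t u := fun u => t2 _ _ (by simpa using hx)
    simp only [ψ, map_sub, lext_single, e, mul_assoc x, hD l' x hx _ (t1 _)]
    simp [mul_add, mul_sub, ← mul_assoc, single_mul_single]
  have hD1 : D l' 1 = 0 := by simpa [← MonoidAlgebra.one_def] using hD l' 1 (one_mem _) 1 (one_mem _)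
  have hψc : ∀ l, ψ (single (c l) 1 - 1) = if l = l' then 1 else 0 := by
    intro l
    have e : t (c l) = 1 := (t2 _ 1 (by simpa using hc l)).trans t3
    simp [ψ, MonoidAlgebra.one_def, e, t3, hD1, hDc]
  let T : Finset G := (Finset.univ.biUnion fun p : Fin m × Fin r => (J p.1 p.2).coeff.support).image t
  have hT : ∀ τ ∈ T, τ ∈ B ∧ t τ = τ := by
    intro τ hτ
    obtain ⟨g, hg, rfl⟩ := Finset.mem_image.1 hτ
    obtain ⟨p, -, hp⟩ := Finset.mem_biUnion.1 hg
    have hgB : g ∈ B := hJ p.1 p.2 (by simpa [ofMA_c] using hp)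
    exact ⟨(B.inv_mem_iff).1 ((B.mul_mem_cancel_left hgB).1 (t1 g).2), (t2 _ _ (t1 g)).symm⟩
  have key : ∀ l i, ∑ τ ∈ T, res A (ofMA 𝒞 k (J l i) * sg τ⁻¹ 1) *
      ofMA 𝒞 k (ψ (single (τ * b i) 1 - single τ 1)) =
      ofMA 𝒞 k (ψ (J l i * (single (b i) 1 - 1))) := by
    intro l i
    have hx : J l i = ∑ g ∈ (J l i).coeff.support, single g ((J l i).coeff g) :=
      (sum_coeff_single (J l i)).symm
    rw [hx]
    simp only [map_sum, Finset.sum_mul]
    rw [Finset.sum_comm]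
    refine Finset.sum_congr rfl fun g hg => ?_
    have hgB : g ∈ B := hJ l i (by simpa [ofMA_c] using hg)
    have hgT : t g ∈ T := Finset.mem_image_of_mem _ (Finset.mem_biUnion.2 ⟨(l, i), by simp, hg⟩)
    rw [Finset.sum_eq_single_of_mem (t g) hgT]
    · rw [ofMA_single, sg_mul_sg, res_sg_of_mem A (t1 g).1, mul_one, ← ofMA_single, ← map_mul,
        ← hψ _ (t1 g)]
      simp [mul_sub, single_mul_single, mul_assoc]
    · intro τ hτ hne
      rw [ofMA_single, sg_mul_sg, res_sg_of_notMem, zero_mul]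
      intro hA
      exact hne ((hT τ hτ).2.symm.trans (t2 _ _ ⟨hA, B.mul_mem hgB (B.inv_mem (hT τ hτ).1)⟩).symm)
  calc κ l' = ∑ l, κ l * ofMA 𝒞 k (ψ (single (c l) 1 - 1)) := by
        simp [hψc, apply_ite (ofMA 𝒞 k)]
    _ = ∑ l, ∑ i, ∑ τ ∈ T, res A (κ l * ofMA 𝒞 k (J l i) * sg τ⁻¹ 1) *
          ofMA 𝒞 k (ψ (single (τ * b i) 1 - single τ 1)) := by
        refine Finset.sum_congr rfl fun l _ => ?_
        rw [hJ', map_sum, map_sum, Finset.mul_sum]
        refine Finset.sum_congr rfl fun i _ => ?_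
        rw [← key, Finset.mul_sum]
        refine Finset.sum_congr rfl fun τ _ => ?_
        rw [mul_assoc (κ l), res_mul A (hκ l), mul_assoc]
    _ = 0 := by
        rw [Finset.sum_comm]
        refine Finset.sum_eq_zero fun i _ => ?_
        rw [Finset.sum_comm]
        refine Finset.sum_eq_zero fun τ _ => ?_
        rw [← Finset.sum_mul, ← map_sum, ← Finset.sum_mul, h0, zero_mul, map_zero, zero_mul]

theorem core (N : ℕ → Subgroup G) [∀ j, (N j).Normal]
    (hN : ∀ j g, g ∈ N j ↔ g ∉ 𝒞.P j ∧ g⁻¹ ∉ 𝒞.P j)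
    (hnil : ∀ j, ∃ c, (⊤ : Subgroup G).lowerCentralSeries c ≤ N j)
    {r s m : ℕ} (b : Fin r → G) (a : Fin s → G)
    (hder : ∀ (j : ℕ) (Z : Finset G) (i : Fin r), ∃ (Q : Type u) (_ : Group Q) (φ : G →* Q)
      (δ : G → MonoidAlgebra k Q), N j ≤ φ.ker ∧ (∀ x ∈ Z, ∀ y ∈ Z, φ x = φ y → x⁻¹ * y ∈ N j) ∧
      (∀ x y, δ (x * y) = δ x + single (φ x) 1 * δ y) ∧ ∀ l, δ (b l) = if l = i then 1 else 0)
    (c : Fin m → G) (hc : ∀ l, c l ∈ Subgroup.closure (range a) ⊓ Subgroup.closure (range b))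
    (D : Fin m → G → MonoidAlgebra k G)
    (hD : ∀ l, ∀ x ∈ Subgroup.closure (range a) ⊓ Subgroup.closure (range b),
      ∀ y ∈ Subgroup.closure (range a) ⊓ Subgroup.closure (range b),
        D l (x * y) = D l x + single x 1 * D l y)
    (hDc : ∀ l l', D l (c l') = if l' = l then 1 else 0) : m ≤ s := by
  classical
  by_contra hms
  choose JA hA1 hA2 using fun l => fox 𝒞 k a (hc l).1
  choose JB hB1 hB2 using fun l => fox 𝒞 k b (hc l).2
  have hdep : ¬ LinearIndependent (subF 𝒞 k (Subgroup.closure (range a)))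
      (fun l i => (⟨ofMA 𝒞 k (JA l i), hA1 l i⟩ : subF 𝒞 k (Subgroup.closure (range a)))) :=
    fun h => hms (by simpa using h.fintype_card_le_finrank)
  obtain ⟨κ', hκ1, l0, hl0⟩ := Fintype.not_linearIndependent_iff.1 hdep
  let κ : Fin m → Ser 𝒞.adm k := fun l => κ' l
  have hκA : ∀ i, ∑ l, κ l * ofMA 𝒞 k (JA l i) = 0 := fun i => by
    simpa [κ, Finset.sum_apply] using congrArg Subtype.val (congrFun hκ1 i)
  obtain ⟨i, hi⟩ : ∃ i, ∑ l, κ l * ofMA 𝒞 k (JB l i) ≠ 0 := by
    by_contra h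
    push Not at h
    exact hl0 (Subtype.ext (kappa_zero 𝒞 k b c hc JB hB1 hB2 D hD hDc κ (fun l => (κ' l).2) h l0))
  set e := ∑ l, κ l * ofMA 𝒞 k (JB l i) with he
  obtain ⟨g, hg, j0, hmin⟩ := Cones.exists_min e.adm (by
    rw [support_nonempty_iff]
    exact fun h => hi (Ser.ext h))
  choose lv hlv using fun l => (κ l).adm
  let j := max j0 (Finset.univ.sup lv)
  have hL : ∀ l, Lv j (κ l) := fun l =>
    Cones.pwo_mono ((Finset.le_sup (Finset.mem_univ l)).trans (le_max_right _ _)) (hlv l)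
  let π := mapDomainRingHom k (QuotientGroup.mk' (N j))
  have hpush : ∀ v : Fin m → MonoidAlgebra k G, push (hN j) (∑ l, κ l * ofMA 𝒞 k (v l)) =
      ∑ l, push (hN j) (κ l) * ofMA (quotC (hN j)) k (π (v l)) := fun v => by
    rw [push_sum (hN j) _ fun l => (hL l).mul (Lv.ofMA _)]
    exact Finset.sum_congr rfl fun l _ => push_mul (hN j) (hL l) _
  obtain ⟨n, hn⟩ := hnil j
  have hn' : (⊤ : Subgroup (G ⧸ N j)).lowerCentralSeries n = ⊥ := by
    rw [← Subgroup.map_top_of_surjective _ (QuotientGroup.mk'_surjective (N j)),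
      ← Subgroup.map_lowerCentralSeries, Subgroup.map_eq_bot_iff, QuotientGroup.ker_mk']
    exact hn
  have := (ofMA_injective (quotC (hN j)) k).noZeroDivisors _ (map_zero _) (map_mul _)
  obtain ⟨κ'', h1, h2⟩ := descend (ofMA (quotC (hN j)) k) (ofMA_injective _ _) (ore k hn')
    (fun l i => π (JA l i)) (fun l => π (JB l i)) (fun l => push (hN j) (κ l))
    (fun i => by rw [← hpush, hκA, push_zero]) (by
      rw [← hpush]
      exact push_ne_zero (hN j) (Lv.sum _ fun l => (hL l).mul (Lv.ofMA _)) hg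
        fun h hh => (hmin h hh).mono (le_max_left _ _))
  set w := ∑ l, κ'' l * π (JB l i) with hw
  obtain ⟨Q, _, φ, δ, q1, q2, q3, q4⟩ := hder j (w.coeff.support.image Quotient.out) i
  let φ' : G ⧸ N j →* Q := QuotientGroup.lift _ φ q1
  have hφ : ∀ x, mapDomainRingHom k φ' (π x) = mapDomainRingHom k φ x := fun x => by
    induction x using MonoidAlgebra.induction_linear with
    | zero => simp
    | add x y hx hy => rw [map_add, map_add, hx, hy, map_add]
    | single g r => simp [π, φ']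
  have hz : mapDomainRingHom k φ' w = 0 := by
    have e1 : ∀ l, mapDomainRingHom k φ (JB l i) =
        ∑ i', mapDomainRingHom k φ (JA l i') * δ (a i') := fun l => by
      rw [← der_eq k φ δ q3 (hA2 l), der_eq k φ δ q3 (hB2 l)]
      simp [q4]
    rw [hw, map_sum]
    simp only [map_mul, hφ, e1, Finset.mul_sum]
    rw [Finset.sum_comm]
    refine Finset.sum_eq_zero fun i' _ => ?_
    simp only [← mul_assoc, ← hφ, ← map_mul]
    rw [← Finset.sum_mul, ← map_sum, h1, map_zero, zero_mul]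
  obtain ⟨y, hy⟩ : ∃ y, w.coeff y ≠ 0 := by
    by_contra h
    push Not at h
    exact h2 (by ext y; simp [h])
  have hinj : InjOn φ' w.coeff.support := by
    intro x hx y hy hxy
    rw [← Quotient.out_eq x, ← Quotient.out_eq y] at hxy ⊢
    exact QuotientGroup.eq.2 (q2 _ (Finset.mem_image_of_mem _ hx) _
      (Finset.mem_image_of_mem _ hy) hxy)
  have := Finsupp.mapDomain_apply' _ w.coeff subset_rfl hinj (Finsupp.mem_support_iff.2 hy)
  refine hy ?_
  rw [← this]
  exact congrArg (fun z : MonoidAlgebra k Q => z.coeff (φ' y)) hz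

end Pool.Agent.P.MP_a28d48_al
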