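import Pool.Agent.P.MP_a28d48_al.HEta

set_option autoImplicit false

namespace Pool.Agent.P.MP_a28d48_al

open Function Set Ser

namespace Tr

variable {Γ V E k : Type*} [Group Γ] [MulAction Γ V] [MulAction Γ E] [Field k] {T : Tr Γ V E k}

lemma eta_supp_HFF {H : Subgroup Γ} {Ω : Set E} (hΩ : ∀ h ∈ H, ∀ e ∈ Ω, h • e ∈ Ω) {s : Γ}
    (hs : s ∈ H) {x : V} (h : ∀ e, (T.ch x (s • x)).1 e ≠ 0 → e ∈ Ω) :
    ∀ e, (T.eta x s).1 e ≠ 0 → e ∈ Ω := by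
  intro e he
  obtain ⟨g, hg, hg'⟩ := Ch.exists_of_smul he
  have h1 : g ∈ H := (subF T.C k H).inv_mem (T.one_sub_mem hs) hg
  have h2 := hΩ g h1 _ (h _ hg')
  rwa [smul_inv_smul] at h2

lemma sub_supp_HFF {σ σ' : Ch T.C E k} {e : E} (h : (σ - σ').1 e ≠ 0) :
    σ.1 e ≠ 0 ∨ σ'.1 e ≠ 0 := by
  by_contra hc
  rw [not_or, not_not, not_not] at hc
  apply h
  change σ.1 e - σ'.1 e = 0
  rw [hc.1, hc.2, sub_zero]

lemma hi_inv_HFF {H : Subgroup Γ} (hH : H ≤ T.N) (n : ℤ) :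
    ∀ h ∈ H, ∀ e ∈ {e | n < T.le e}, h • e ∈ {e | n < T.le e} := by
  intro h hh e he
  change n < T.le (h • e)
  rw [T.le_smul, T.mem_N.1 (hH hh), zero_add]
  exact he

lemma ls_mono_HFF {H H' : Subgroup Γ} (h : H ≤ H') : T.Ls H ⊆ T.Ls H' := by
  rintro σ ⟨s, hs, s', hs', h1, h2, e⟩
  exact ⟨s, h hs, s', h hs', h1, h2, e⟩

lemma stab_le_HFF {H : Subgroup Γ} {n : ℤ} {a : V} : T.Stab H n a ≤ H :=
  fun _ hg => (T.mem_Stab.1 hg).1

lemma om_smul {H : Subgroup Γ} {n : ℤ} {a : V} :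
    ∀ h ∈ T.Stab H n a, ∀ e ∈ T.Om n a, h • e ∈ T.Om n a := by
  rintro h ⟨-, hN, hs⟩ e ⟨h1, h2⟩
  refine ⟨?_, ?_⟩
  · rw [T.le_smul, T.mem_N.1 hN, zero_add]
    exact h1
  · rw [T.o_smul]
    exact hs.trans (h2.smul_N hN)

lemma ls_om {H : Subgroup Γ} {n : ℤ} {a : V} {σ : Ch T.C E k} (hσ : σ ∈ T.Ls (T.Stab H n a)) :
    ∀ e, σ.1 e ≠ 0 → e ∈ T.Om n a := by
  obtain ⟨s, hs, s', hs', h1, h2, rfl⟩ := hσ
  have key : ∀ u ∈ T.Stab H n a, ∀ e, (T.eta a u).1 e ≠ 0 → e ∈ T.Om n a := fun u hu =>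
    eta_supp_HFF om_smul hu fun e he =>
      hu.2.2.origin (T.ch_ne_zero.1 he).1 (T.ch_ne_zero.1 he).2
  intro e he
  rw [line_base h1 h2 T.b a] at he
  exact (sub_supp_HFF he).elim (key s hs e) (key s' hs' e)

theorem bd_stab {H : Subgroup Γ} {n : ℤ} {a : V} {d : ℕ} (hd : T.Bd H d)
    (h : ∀ g ∈ H, ∀ e ∈ T.Om n a, g • e ∈ T.Om n a → g ∈ T.Stab H n a) :
    T.Bd (T.Stab H n a) d := by
  intro f hf hi
  exact hd f (fun i => ls_mono_HFF stab_le_HFF (hf i))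
    (Ch.indep_block om_smul h (fun i => ls_om (hf i)) hi)

theorem ff {H : Subgroup Γ} (hH : H ≤ T.N) {n : ℤ} {a : V} {d : ℕ} (hd : T.Bd H (d + 1))
    {s g : Γ} (hs : s ∈ T.Stab H n a) (hs1 : s ≠ 1) (hg : g ∈ H) (hg' : ¬ T.Sim n a (g • a)) :
    T.Bd (T.Stab H n a) d := by
  intro f hf hi
  have hblock : ∀ u ∈ H, ∀ e ∈ T.Om n a, u • e ∈ T.Om n a → u ∈ T.Stab H n a := by
    intro u hu e he he'
    refine ⟨hu, hH hu, ?_⟩
    have h1 := he'.2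
    rw [T.o_smul] at h1
    exact h1.trans (he.2.smul_N (hH hu)).symm
  have hi' : LinearIndependent (subF T.C k H) f :=
    Ch.indep_block om_smul hblock (fun i => ls_om (hf i)) hi
  have hc1 : g * s * g⁻¹ ≠ 1 := fun h0 => hs1 (by
    have : s = g⁻¹ * (g * s * g⁻¹) * g := by group
    rw [this, h0]; group)
  have hc : g * s * g⁻¹ ∈ H := H.mul_mem (H.mul_mem hg hs.1) (H.inv_mem hg)
  refine hd (Fin.cons (T.eta T.b (g * s * g⁻¹) - T.eta T.b s) f) (fun i => ?_) ?_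
  · refine Fin.cases ?_ (fun j => ?_) i
    · exact ⟨_, hc, s, hs.1, hc1, hs1, rfl⟩
    · exact ls_mono_HFF stab_le_HFF (hf j)
  · refine linearIndependent_finCons.2 ⟨hi', fun hm => hg' ?_⟩
    have h1 : T.Hi n (T.eta T.b (g * s * g⁻¹) - T.eta T.b s) :=
      Ch.support_span (Ω := {e | n < T.le e}) (hi_inv_HFF hH n) (by
        rintro _ ⟨i, rfl⟩ e he
        exact (ls_om (hf i) e he).1) hm
    have h2 : T.Hi n (T.eta a s) := (hi_eta hs.2.1 hs1).2 hs.2.2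
    have h3 : T.Hi n ((sg g 1 : Ser T.C.adm k) • T.eta a s) := by
      have := h2.sg g
      rwa [T.mem_N.1 (hH hg), add_zero] at this
    rw [line_base hc1 hs1 T.b a, T.eta_conj' hs1 g a] at h1
    have h4 := (h1.add h2).sub h3
    have e : T.ch a (g • a) + (sg g 1 : Ser T.C.adm k) • T.eta a s - T.eta a s + T.eta a s -
        (sg g 1 : Ser T.C.adm k) • T.eta a s = T.ch a (g • a) := by abel
    rw [e] at h4
    exact hi_ch.1 h4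

lemma orb_inv_HFF {H : Subgroup Γ} (hH : H ≤ T.N) (n : ℤ) (R : Set E) :
    ∀ h ∈ H, ∀ e ∈ {e | n < T.le e} ∪ Orb H R, h • e ∈ {e | n < T.le e} ∪ Orb H R := by
  rintro h hh e (he | ⟨u, hu, r, hr, rfl⟩)
  · exact Or.inl (hi_inv_HFF hH n h hh e he)
  · exact Or.inr ⟨h * u, H.mul_mem hh hu, r, hr, (mul_smul h u r).symm⟩

lemma eta_orb_HFF {H : Subgroup Γ} (hH : H ≤ T.N) (n : ℤ) (x : V) {s : Γ} (hs : s ∈ H)
    {R : Set E} (hR : T.Sep n x (s • x) ⊆ R) :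
    ∀ e, (T.eta x s).1 e ≠ 0 → e ∈ {e | n < T.le e} ∪ Orb H R := by
  refine eta_supp_HFF (orb_inv_HFF hH n R) hs fun e he => ?_
  obtain ⟨h1, h2⟩ := T.ch_ne_zero.1 he
  by_cases h3 : n < T.le e
  · exact Or.inl h3
  · exact Or.inr ⟨1, H.one_mem, e, hR ⟨h1, not_lt.1 h3, h2⟩, (one_smul _ _).symm⟩

theorem orb_sep {H : Subgroup Γ} (hH : H ≤ T.N) {d : ℕ} (hd : T.Bd H d) (n : ℤ) (x : V) :
    ∃ R : Set E, R.Finite ∧ ∀ s ∈ H, T.Sep n x (s • x) ⊆ Orb H R := by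
  by_cases h0 : ∃ s₀ ∈ H, s₀ ≠ 1
  swap
  · refine ⟨∅, finite_empty, fun s hs w hw => ?_⟩
    have h1 : s = 1 := by
      by_contra h1
      exact h0 ⟨s, hs, h1⟩
    rw [h1, one_smul] at hw
    exact absurd rfl hw.2.2
  obtain ⟨s₀, hs₀, hs₁⟩ := h0
  obtain ⟨B, hB, hBf, hsp⟩ := exists_finite_span hd
  choose u hu u' hu' h1 h2 h3 using fun σ : B => hB σ.2
  have : Finite B := hBf
  let R : Set E := T.Sep n x (s₀ • x) ∪
    ⋃ σ : B, (T.Sep n x (u σ • x) ∪ T.Sep n x (u' σ • x))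
  have hR : ∀ σ : B, T.Sep n x (u σ • x) ⊆ R ∧ T.Sep n x (u' σ • x) ⊆ R := fun σ =>
    ⟨fun z hz => Or.inr (mem_iUnion.2 ⟨σ, Or.inl hz⟩),
      fun z hz => Or.inr (mem_iUnion.2 ⟨σ, Or.inr hz⟩)⟩
  refine ⟨R, (T.sep_finite _ _ _).union
    (finite_iUnion fun σ => (T.sep_finite _ _ _).union (T.sep_finite _ _ _)), fun s hs w hw => ?_⟩
  have hm : T.ch x (s • x) ∈ Submodule.span (subF T.C k H) (insert (T.eta x s₀) B) := by
    refine Submodule.span_le.2 ?_ (ch_mem_span hs₀ hs₁ hs x)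
    rintro σ (rfl | hσ)
    · exact Submodule.subset_span (mem_insert _ _)
    · exact Submodule.span_mono (subset_insert _ _) (hsp hσ)
  have h4 := Ch.support_span (orb_inv_HFF hH n R) (by
    rintro σ (rfl | hσ) e he
    · exact eta_orb_HFF hH n x hs₀ subset_union_left e he
    · have e1 : σ = T.eta x (u ⟨σ, hσ⟩) - T.eta x (u' ⟨σ, hσ⟩) :=
        (h3 ⟨σ, hσ⟩).trans (line_base (h1 _) (h2 _) T.b x)
      rw [e1] at he
      rcases sub_supp_HFF he with he | he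
      · exact eta_orb_HFF hH n x (hu _) (hR ⟨σ, hσ⟩).1 e he
      · exact eta_orb_HFF hH n x (hu' _) (hR ⟨σ, hσ⟩).2 e he) hm w
    (T.ch_ne_zero.2 ⟨hw.1, hw.2.2⟩)
  exact h4.resolve_left (not_lt.2 hw.2.1)

end Tr

end Pool.Agent.P.MP_a28d48_al
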