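import Pool.Agent.P.MP_a28d48_al.HEta

set_option autoImplicit false

namespace Pool.Agent.P.MP_a28d48_al

open Function Set Ser

lemma adm_iUnion_HFin {M ι : Type*} [Monoid M] (𝒜 : Adm M) (s : Finset ι) (f : ι → Set M)
    (hf : ∀ i, 𝒜.mem (f i)) : 𝒜.mem (⋃ i ∈ s, f i) := by
  classical
  induction s using Finset.induction_on with
  | empty => exact 𝒜.of_finite (by simp)
  | insert a s _ ih =>
    rw [Finset.set_biUnion_insert]
    exact 𝒜.union (hf a) ih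

namespace Tr

variable {Γ V E k : Type*} [Group Γ] [MulAction Γ V] [MulAction Γ E] [Field k] {T : Tr Γ V E k}

/-- restriction to the band of levels at most `p` -/
lemma rs_band {p : ℤ} {μ : Ser T.C.adm k} (hμ : ∀ g, μ.c g ≠ 0 → T.φ g = 0 ∨ p ≤ T.φ g)
    {σ : Ch T.C E k} (hσ : T.Hi 0 σ) :
    Ch.rs {e | T.le e ≤ p} (μ • σ) = res T.N μ • Ch.rs {e | T.le e ≤ p} σ := by
  refine Subtype.ext (funext fun e => ?_)
  have hs : support (Ch.cmp e (Ch.rs {e | T.le e ≤ p} σ)).c ⊆ support (Ch.cmp e σ).c :=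
    fun g hg hf => hg (by rw [Ch.cmp_c] at hf; simp [Ch.rs_apply, hf])
  have hs' : support (res T.N μ).c ⊆ support μ.c := fun g hg hf => hg (by simp [res_c, hf])
  rw [Ch.rs_apply, Ch.smul_apply, Ch.smul_apply,
    mul_c_sup μ (Ch.cmp e σ) 1 μ.adm (Ch.cmp e σ).adm subset_rfl subset_rfl,
    mul_c_sup (res T.N μ) (Ch.cmp e (Ch.rs {e | T.le e ≤ p} σ)) 1 μ.adm (Ch.cmp e σ).adm hs' hs]
  have key : ∀ a b : Γ, a * b = 1 → T.le (b • e) = T.le e - T.φ a := fun a b hab => by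
    have h1 := T.φ_mul a b
    rw [hab, T.φ_one] at h1
    rw [T.le_smul]
    omega
  split_ifs with he
  · refine Finset.sum_congr rfl fun q hq => ?_
    rw [mem_ad] at hq
    have h1 := key _ _ hq.2.2
    have h2 : 0 < T.le (q.2 • e) := hσ _ hq.2.1
    have h3 : T.le e ≤ p := he
    have h4 : T.φ q.1 = 0 := (hμ _ hq.1).resolve_right (by omega)
    rw [res_c, if_pos (T.mem_N.2 h4), Ch.cmp_c, Ch.cmp_c, Ch.rs_apply, if_pos]
    change T.le (q.2 • e) ≤ p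
    omega
  · refine (Finset.sum_eq_zero fun q hq => ?_).symm
    rw [mem_ad] at hq
    have h1 := key _ _ hq.2.2
    have h3 : ¬ T.le e ≤ p := he
    by_cases h4 : q.1 ∈ T.N
    · rw [Ch.cmp_c, Ch.rs_apply, if_neg, mul_zero]
      have h5 := T.mem_N.1 h4
      change ¬ T.le (q.2 • e) ≤ p
      omega
    · rw [res_c, if_neg h4, zero_mul]

/-- dependent high chains have dependent bands -/
theorem lead {H : Subgroup Γ} {p : ℤ} (hp : ∀ h ∈ H, 0 < T.φ h → p ≤ T.φ h) {d : ℕ}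
    {σ : Fin d → Ch T.C E k} (hσ : ∀ i, T.Hi 0 (σ i)) (h : ¬ LinearIndependent (subF T.C k H) σ) :
    ¬ LinearIndependent (subF T.C k (H ⊓ T.N)) fun i => Ch.rs {e | T.le e ≤ p} (σ i) := by
  rw [Fintype.not_linearIndependent_iff] at h ⊢
  obtain ⟨μ, hμ, i₁, hi₁⟩ := h
  have hne : (⋃ i ∈ (Finset.univ : Finset (Fin d)), support (μ i).1.c).Nonempty := by
    have : (support (μ i₁).1.c).Nonempty := by
      rw [support_nonempty_iff]
      exact fun h => hi₁ (Subtype.ext (Ser.ext h))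
    exact this.mono (subset_iUnion₂_of_subset i₁ (Finset.mem_univ _) subset_rfl)
  obtain ⟨g, hg, hmin⟩ := bdd_of_adm T.C T.φ T.φ_mul T.φ_pos
    (adm_iUnion_HFin T.C.adm Finset.univ _ fun i => (μ i).1.adm) hne
  obtain ⟨i, -, hi⟩ := mem_iUnion₂.1 hg
  have hh : g ∈ H := (μ i).2 hi
  have h1 : ∀ j, (sg g⁻¹ 1 : Ser T.C.adm k) * (μ j).1 ∈ subF T.C k H := fun j =>
    (subF T.C k H).mul_mem (fun x hx => by rw [eq_of_sg_c hx]; exact H.inv_mem hh) (μ j).2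
  have h2 : ∀ j, res T.N ((sg g⁻¹ 1 : Ser T.C.adm k) * (μ j).1) ∈ subF T.C k (H ⊓ T.N) :=
    fun j x hx => by
      by_cases h' : x ∈ T.N
      · refine ⟨h1 j fun h0 => hx ?_, h'⟩
        rw [res_c, if_pos h', h0]
      · exact absurd (by rw [res_c, if_neg h']) hx
  have h3 : ∀ j x, ((sg g⁻¹ 1 : Ser T.C.adm k) * (μ j).1).c x ≠ 0 → T.φ x = 0 ∨ p ≤ T.φ x := by
    intro j x hx
    have h4 := hp x (h1 j hx)
    rw [sg_mul_c, inv_inv, one_mul] at hx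
    have h5 := hmin (g * x) (mem_iUnion₂.2 ⟨j, Finset.mem_univ _, hx⟩)
    rw [T.φ_mul] at h5
    omega
  refine ⟨fun j => ⟨_, h2 j⟩, ?_, i, fun h0 => hi ?_⟩
  · have h4 : ∑ j, (μ j).1 • σ j = 0 := hμ
    have h5 := congrArg (fun z => Ch.rs {e | T.le e ≤ p} ((sg g⁻¹ 1 : Ser T.C.adm k) • z)) h4
    simp only [Finset.smul_sum, smul_zero, map_zero, map_sum, ← mul_smul] at h5
    refine Eq.trans (Finset.sum_congr rfl fun j _ => ?_) h5
    exact (rs_band (h3 j) (hσ j)).symm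
  · have h6 : (res T.N (sg g⁻¹ 1 * (μ i).1)).c 1 = 0 :=
      congrArg (fun z : subF T.C k (H ⊓ T.N) => z.1.c 1) h0
    rwa [res_c, if_pos T.N.one_mem, sg_mul_c, inv_inv, mul_one, one_mul] at h6

lemma rs_ch_HFin {p : ℤ} {x y : V} {w : E} :
    (Ch.rs {e | T.le e ≤ p} (T.ch x y)).1 w ≠ 0 ↔ w ∈ T.Sep p x y := by
  rw [Ch.rs_apply]
  split_ifs with h
  · rw [ch_ne_zero]
    exact ⟨fun h' => ⟨h'.1, h, h'.2⟩, fun h' => ⟨h'.1, h'.2.2⟩⟩
  · exact ⟨fun h' => absurd rfl h', fun h' => absurd h'.2.1 h⟩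

theorem fin_sep {H : Subgroup Γ} {d : ℕ} (hd : T.Bd H d) (x : V) {p : ℤ}
    (hp : ∀ h ∈ H, 0 < T.φ h → p ≤ T.φ h) :
    ∃ R : Set E, R.Finite ∧ ∀ s ∈ H, T.Sim 0 x (s • x) → T.Sep p x (s • x) ⊆ Orb (H ⊓ T.N) R := by
  by_cases h0 : ∀ s ∈ H, s = 1
  · refine ⟨∅, finite_empty, fun s hs _ w hw => ?_⟩
    rw [h0 s hs, one_smul] at hw
    exact absurd rfl hw.2.2
  push Not at h0
  obtain ⟨s₀, h₀, h₁⟩ := h0
  obtain ⟨B, -, hB, hLB⟩ := exists_finite_span hd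
  obtain ⟨d', hd'⟩ := exists_bound_of_span (D := subF T.C k H) (hB.insert (T.eta x s₀))
  have hle : Submodule.span (subF T.C k H) (insert (T.eta x s₀) (T.Ls H)) ≤
      Submodule.span (subF T.C k H) (insert (T.eta x s₀) B) := by
    rw [Submodule.span_le]
    rintro σ (rfl | hσ)
    · exact Submodule.subset_span (mem_insert _ _)
    · exact Submodule.span_mono (subset_insert _ _) (hLB hσ)
  obtain ⟨B', h1, hB', h2⟩ := exists_finite_span (D := subF T.C k (H ⊓ T.N)) (d := d')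
    (L := {σ | ∃ s, s ∈ H ∧ T.Sim 0 x (s • x) ∧ σ = Ch.rs {e | T.le e ≤ p} (T.ch x (s • x))}) (by
      intro f hf
      choose s hs hs' e using hf
      rw [show f = fun i => Ch.rs {e | T.le e ≤ p} (T.ch x (s i • x)) from funext e]
      exact lead hp (fun i => hi_ch.2 (hs' i))
        (hd' _ fun i => hle (ch_mem_span h₀ h₁ (hs i) x)))
  refine ⟨⋃ f ∈ B', {e | f.1 e ≠ 0}, hB'.biUnion fun f hf => ?_, fun s hs hs' w hw => ?_⟩
  · obtain ⟨s, -, -, rfl⟩ := h1 hf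
    exact (T.sep_finite p x (s • x)).subset fun w hw => rs_ch_HFin.1 hw
  · refine Ch.support_span (H := H ⊓ T.N) (B := B') ?_ ?_ (h2 ⟨s, hs, hs', rfl⟩) w (rs_ch_HFin.2 hw)
    · rintro h hh _ ⟨h', hh', r, hr, rfl⟩
      exact ⟨h * h', Subgroup.mul_mem _ hh hh', r, hr, (mul_smul _ _ _).symm⟩
    · intro f hf e he
      exact ⟨1, Subgroup.one_mem _, e, mem_iUnion₂.2 ⟨f, hf, he⟩, (one_smul _ _).symm⟩

end Tr

end Pool.Agent.P.MP_a28d48_al
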