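import Pool.Agent.P.MP_a28d48_al.HGeo

set_option autoImplicit false

namespace Pool.Agent.P.MP_a28d48_al

open Function Set

namespace Tr

variable {Γ V E k : Type*} [Group Γ] [MulAction Γ V] [MulAction Γ E] [Field k] {T : Tr Γ V E k}

variable (T) in
/-- finitely many orbits of edges of bounded level under the kernel -/
lemma orb_window (n M : ℤ) : ∃ R : Set E, R.Finite ∧ {e | n < T.le e ∧ T.le e ≤ M} ⊆ Orb T.N R := by
  classical
  have key : ∀ p : E × ℤ, ∃ g₀ : Γ, ∀ g : Γ, T.le (g • p.1) = p.2 → T.le (g₀ • p.1) = p.2 := by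
    intro p
    by_cases h : ∃ g : Γ, T.le (g • p.1) = p.2
    · obtain ⟨g, hg⟩ := h
      exact ⟨g, fun _ _ => hg⟩
    · exact ⟨1, fun g hg => (h ⟨g, hg⟩).elim⟩
  choose G hG using key
  refine ⟨(fun p : E × ℤ => G p • p.1) '' (T.R ×ˢ Set.Ioc n M),
    (T.R_fin.prod (Set.finite_Ioc n M)).image _, ?_⟩
  intro e he
  obtain ⟨g, -, r, hr, rfl⟩ := T.orb e
  have h1 := hG (r, T.le (g • r)) g rfl
  refine ⟨g * (G (r, T.le (g • r)))⁻¹, ?_, G (r, T.le (g • r)) • r,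
    ⟨(r, T.le (g • r)), ⟨hr, he⟩, rfl⟩, ?_⟩
  · rw [mem_N, T.φ_mul, φ_inv]
    have h2 := T.le_smul g r
    have h3 := T.le_smul (G (r, T.le (g • r))) r
    dsimp only at h1
    omega
  · rw [mul_smul, inv_smul_smul]

lemma moves_finite_HGen (T : Tr Γ V E k) {A : Set V} (hA : A.Finite) :
    {g : Γ | ∃ a ∈ A, ∃ a' ∈ A, a = g • a'}.Finite := by
  have h1 : ∀ a a' : V, {g : Γ | a = g • a'}.Finite := by
    intro a a'
    refine Set.Subsingleton.finite ?_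
    intro g hg h hh
    have h2 : (h⁻¹ * g) • a' = a' := by
      rw [mul_smul, ← (show a = g • a' from hg), (show a = h • a' from hh), inv_smul_smul]
    have h3 := T.free _ _ h2
    rw [inv_mul_eq_one] at h3
    exact h3.symm
  refine (hA.biUnion fun a _ => hA.biUnion fun a' _ => h1 a a').subset ?_
  rintro g ⟨a, ha, a', ha', hg⟩
  exact Set.mem_biUnion ha (Set.mem_biUnion ha' hg)

variable (T) in
theorem phi_fg (n M : ℤ) (x : V) : (T.Phi n M x).FG := by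
  obtain ⟨R₀, hR₀, hW⟩ := T.orb_window n M
  have hZ : {e | e ∈ T.X n M ∧ T.Cn (T.X n M) x (T.o e)} ⊆ Orb T.N R₀ := by
    intro e he
    refine hW ⟨?_, he.1.2⟩
    rcases he.1.1 with h | h
    · exact h.2
    · have := h.2
      omega
  have hsh : ∀ g ∈ T.N, ∀ e ∈ {e | e ∈ T.X n M ∧ T.Cn (T.X n M) x (T.o e)},
      g • e ∈ {e | e ∈ T.X n M ∧ T.Cn (T.X n M) x (T.o e)} → g ∈ T.Phi n M x := by
    intro g hg e he hge
    refine ⟨hg, ?_⟩
    have h1 : T.Cn (T.X n M) (g • x) (g • T.o e) := cn_smul_N he.2 hg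
    have h2 : T.Cn (T.X n M) x (T.o (g • e)) := hge.2
    rw [T.o_smul] at h2
    exact h2.trans h1.symm
  obtain ⟨R, -, hR, hZR⟩ := orb_shrink hR₀ hZ hsh
  rw [Subgroup.fg_iff]
  refine ⟨{g | g ∈ T.Phi n M x ∧ ∃ a ∈ insert x (T.o '' R ∪ T.t '' R),
      ∃ a' ∈ insert x (T.o '' R ∪ T.t '' R), Conn T.o T.t ∅ a (g • a')}, ?_, ?_⟩
  · refine le_antisymm ((Subgroup.closure_le _).2 fun g hg => hg.1) ?_
    intro s hs
    refine gen T.o_smul T.t_smul (T.Phi n M x) (fun _ _ _ he => he.elim) hs ?_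
    exact (Conn.comp hs.2).mono fun e he => Or.inr (hZR he)
  · refine (T.moves_finite_HGen (T.ends_finite x hR)).subset ?_
    rintro g ⟨-, a, ha, a', ha', h⟩
    exact ⟨a, ha, a', ha', h.eq_of_empty⟩

/-- finitely many orbits of separating walls and finitely generated stabilisers -/
theorem fg_of_stab {J : Subgroup Γ} (hJ : J ≤ T.N) {n : ℤ} {x : V} {R : Set E} (hR : R.Finite)
    (h : ∀ s ∈ J, T.Sep n x (s • x) ⊆ Orb J R) (hf : ∀ a, (T.Stab J n a).FG) : J.FG := by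
  have hsim : ∀ a b : V, Conn T.o T.t {e | ∃ M, e ∈ T.X n M} a b → T.Sim n a b := by
    intro a b hab w hw hn
    refine Conn.const (T.χ w) ?_ hab
    rintro e ⟨M, he⟩
    exact chi_X hw hn he
  obtain ⟨Q, hQ, hQJ, hgen⟩ := pairs_fg J (T.Sim n) ⟨Sim.refl n, Sim.symm, Sim.trans⟩
    (fun g hg _ _ hxy => hxy.smul_N (hJ hg)) (T.ends_finite x hR) (T.ends_finite x hR)
    (T.Stab J n) (fun a _ => ⟨fun g hg => hg.1, hf a⟩)
    (fun a _ g hg hr => ⟨hg, hJ hg, hr⟩)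
  rw [Subgroup.fg_iff]
  refine ⟨Q, le_antisymm ((Subgroup.closure_le _).2 hQJ) ?_, hQ⟩
  intro s hs
  obtain ⟨M, hM⟩ := geo' (T := T) n x (s • x)
  have h1 : Conn T.o T.t ({e | ∃ M, e ∈ T.X n M} ∪ Orb J R) x (s • x) :=
    hM.mono fun e he => he.imp (fun h' => ⟨M, h'⟩) (fun h' => h s hs h')
  have h2 := gen T.o_smul T.t_smul J
    (fun g hg e he => by
      obtain ⟨M', hM'⟩ := he
      exact ⟨M', smul_mem_X_N hM' (hJ hg)⟩) hs h1
  refine (Subgroup.closure_le _).2 ?_ h2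
  rintro g ⟨hg, a, ha, a', ha', hc⟩
  exact hgen g hg a ha a' ha' (hsim _ _ hc)

end Tr

end Pool.Agent.P.MP_a28d48_al
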