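import Pool.Agent.P.MP_a28d48_al.HTr

set_option autoImplicit false

namespace Pool.Agent.P.MP_a28d48_al

open Function Set

namespace Tr

variable {Γ V E k : Type*} [Group Γ] [MulAction Γ V] [MulAction Γ E] [Field k] {T : Tr Γ V E k}

lemma chi_X {n M : ℤ} {w e : E} (hw : w ∈ T.W) (hn : T.le w ≤ n) (he : e ∈ T.X n M) :
    T.χ w (T.o e) = T.χ w (T.t e) := by
  rcases he.1 with ⟨h1, h2⟩ | ⟨h1, h2⟩
  · exact T.χ_wall w hw e h1 (by rintro rfl; omega)
  · exact T.χ_far w hw e h1 (by simp only [le] at hn h2; omega)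

lemma sim_of_cn {n M : ℤ} {x y : V} (h : T.Cn (T.X n M) x y) : T.Sim n x y := by
  exact fun w hw hn => h.const (T.χ w) fun e he => chi_X hw hn he

lemma exists_cn (x y : V) (m : ℤ) : ∃ n ≤ m, ∃ M, T.Cn (T.X n M) x y := by
  obtain ⟨S, -, hS, h⟩ := (T.conn x y).finite
  obtain ⟨M, hM⟩ := (hS.image T.le).bddAbove
  obtain ⟨l, hl⟩ := (hS.image T.le).bddBelow
  refine ⟨min m (l - T.c - 1), min_le_left _ _, M, h.mono fun e he => ?_⟩
  refine ⟨?_, hM (mem_image_of_mem _ he)⟩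
  have h1 : l ≤ T.le e := hl ⟨e, he, rfl⟩
  by_cases hw : e ∈ T.W
  · exact Or.inl ⟨hw, by omega⟩
  · exact Or.inr ⟨hw, by omega⟩

lemma exists_sim (x y : V) : ∃ n, T.Sim n x y := by
  obtain ⟨n, -, M, h⟩ := exists_cn (T := T) x y 0
  exact ⟨n, sim_of_cn h⟩

/-- pushing the edges that are not walls up -/
lemma step {n n' M : ℤ} (hn : n ≤ n') {x y : V} (h : T.Cn (T.X n M) x y) :
    T.Cn (T.X n' (max M (n' + 2 * T.c)) ∪ {w | w ∈ T.W ∧ T.le w ≤ n'}) x y := by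
  have wall (e : E) (hw : e ∈ T.W) (hM : T.le e ≤ max M (n' + 2 * T.c)) :
      T.Cn (T.X n' (max M (n' + 2 * T.c)) ∪ {w | w ∈ T.W ∧ T.le w ≤ n'}) (T.o e) (T.t e) := by
    by_cases h1 : n' < T.le e
    · exact Conn.edge (Or.inl ⟨Or.inl ⟨hw, h1⟩, hM⟩)
    · exact Conn.edge (Or.inr ⟨hw, not_lt.1 h1⟩)
  have key (m : ℕ) : ∀ e, e ∉ T.W → n' + T.c - m < T.le e → T.le e ≤ max M (n' + 2 * T.c) →
      T.Cn (T.X n' (max M (n' + 2 * T.c)) ∪ {w | w ∈ T.W ∧ T.le w ≤ n'}) (T.o e) (T.t e) := by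
    induction m with
    | zero => exact fun e hw h1 h2 => Conn.edge (Or.inl ⟨Or.inr ⟨hw, by omega⟩, h2⟩)
    | succ m ih =>
      intro e hw h1 h2
      by_cases h3 : n' + T.c < T.le e
      · exact Conn.edge (Or.inl ⟨Or.inr ⟨hw, h3⟩, h2⟩)
      refine (T.push e hw).of_edges fun e' he' => ?_
      have h4 : T.le e' - T.le e ≤ T.c := (abs_le.1 he'.2).2
      by_cases hw' : e' ∈ T.W
      · exact wall e' hw' (by omega)
      · have h5 : T.le e < T.le e' := he'.1.resolve_left hw'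
        exact ih e' hw' (by omega) (by omega)
  refine h.of_edges fun e he => ?_
  have h2 : T.le e ≤ max M (n' + 2 * T.c) := he.2.trans (le_max_left _ _)
  rcases he.1 with ⟨h0, -⟩ | ⟨h0, h1⟩
  · exact wall e h0 h2
  · exact key (n' - n).toNat e h0 (by omega) h2

theorem geo {n n' M : ℤ} (hn : n ≤ n') {x y : V} (h : T.Cn (T.X n M) x y) :
    T.Cn (T.X n' (max M (n' + 2 * T.c)) ∪ T.Sep n' x y) x y := by
  obtain ⟨S, hS, hf, h1⟩ := (step hn h).finite
  have key (D : Set E) (hD : D.Finite) : (∀ w ∈ D, w ∈ T.W ∧ T.le w ≤ n' ∧ T.χ w x = T.χ w y) →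
      T.Cn (T.X n' (max M (n' + 2 * T.c)) ∪ T.Sep n' x y ∪ D) x y →
      T.Cn (T.X n' (max M (n' + 2 * T.c)) ∪ T.Sep n' x y) x y := by
    induction D, hD using Set.Finite.induction_on with
    | empty => exact fun _ h => by rwa [union_empty] at h
    | @insert w D _ _ ih =>
      intro hD h2
      obtain ⟨a1, a2, a3⟩ := hD w (mem_insert _ _)
      refine ih (fun e he => hD e (mem_insert_of_mem _ he))
        ((h2.drop (T.χ w) ?_ (T.χ_self w a1) a3).mono ?_)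
      · rintro e ((he | he) | he) hne
        · exact chi_X a1 a2 he
        · exact T.χ_wall w a1 e he.1 hne
        · exact T.χ_wall w a1 e (hD e he).1 hne
      · rintro e ⟨he | he | he, hne⟩
        exacts [Or.inl he, absurd he hne, Or.inr he]
  refine key (S \ (T.X n' (max M (n' + 2 * T.c)) ∪ T.Sep n' x y)) (hf.subset sdiff_subset) ?_
    (h1.mono fun e he => ?_)
  · rintro w ⟨h2, h3⟩
    have h4 := (hS h2).resolve_left fun h => h3 (Or.inl h)
    exact ⟨h4.1, h4.2, by_contra fun h => h3 (Or.inr ⟨h4.1, h4.2, h⟩)⟩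
  · by_cases h2 : e ∈ T.X n' (max M (n' + 2 * T.c)) ∪ T.Sep n' x y
    exacts [Or.inl h2, Or.inr ⟨he, h2⟩]

lemma geo' (n : ℤ) (x y : V) : ∃ M, T.Cn (T.X n M ∪ T.Sep n x y) x y := by
  obtain ⟨m, hm, M, h⟩ := exists_cn (T := T) x y n
  exact ⟨_, geo hm h⟩

lemma Sim.cn {n : ℤ} {x y : V} (h : T.Sim n x y) : ∃ M, T.Cn (T.X n M) x y := by
  obtain ⟨M, h1⟩ := geo' (T := T) n x y
  refine ⟨M, h1.mono ?_⟩
  rintro e (he | he)
  exacts [he, absurd (h e he.1 he.2.1) he.2.2]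

variable (T) in
lemma sep_finite (n : ℤ) (x y : V) : (T.Sep n x y).Finite := by
  obtain ⟨M, h⟩ := geo' (T := T) n x y
  obtain ⟨S, hS, hf, h1⟩ := h.finite
  refine hf.subset fun w hw => by_contra fun hn => hw.2.2 (h1.const (T.χ w) fun e he => ?_)
  rcases hS he with h2 | h2
  · exact chi_X hw.1 hw.2.1 h2
  · exact T.χ_wall w hw.1 e h2.1 fun e0 => hn (e0 ▸ he)

/-- a wall that separates two points of a class has its origin in the class -/
lemma Sim.origin {n : ℤ} {x y : V} (h : T.Sim n x y) {w : E} (hw : w ∈ T.W)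
    (hxy : T.χ w x ≠ T.χ w y) : n < T.le w ∧ T.Sim n x (T.o w) := by
  have hn : n < T.le w := lt_of_not_ge fun hn => hxy (h w hw hn)
  obtain ⟨M, h1⟩ := h.cn
  have h2 := (geo hn.le h1).comp
  refine ⟨hn, by_contra fun hc => hxy (h2.const (T.χ w) fun e he => ?_)⟩
  rcases he.1 with h3 | h3
  · exact chi_X hw le_rfl h3
  refine T.χ_wall w hw e h3.1 fun e0 => hc ?_
  rw [← e0]
  refine sim_of_cn (M := max M (T.le w + 2 * T.c)) (he.2.mono ?_)
  rintro e' (h4 | h4)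
  · exact ⟨h4.1.imp (fun h => ⟨h.1, by omega⟩) fun h => ⟨h.1, by omega⟩, h4.2⟩
  · have h5 := h4.2.1
    exact ⟨Or.inl ⟨h4.1, lt_of_not_ge fun hn => h4.2.2 (h e' h4.1 hn)⟩, by omega⟩

end Tr

end Pool.Agent.P.MP_a28d48_al
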