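import Pool.Agent.P.MP_a28d48_al.HFF
import Pool.Agent.P.MP_a28d48_al.HGen

set_option autoImplicit false

namespace Pool.Agent.P.MP_a28d48_al

open Function Set Ser

namespace Tr

variable {Γ V E k : Type*} [Group Γ] [MulAction Γ V] [MulAction Γ E] [Field k] {T : Tr Γ V E k}

lemma eta_const {H : Subgroup Γ} (hH : H ≤ T.N) (h : ∀ n, ∃ y, ∀ s ∈ H, T.Sim n y (s • y)) :
    ∀ s ∈ H, ∀ s' ∈ H, s ≠ 1 → s' ≠ 1 → T.eta T.b s = T.eta T.b s' := by
  intro s hs s' hs' hs1 hs1'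
  refine sub_eq_zero.1 (eq_zero_of_hi fun n => ?_)
  obtain ⟨y, hy⟩ := h n
  rw [line_base hs1 hs1' T.b y]
  exact Hi.sub ((hi_eta (hH hs) hs1).2 (hy s hs)) ((hi_eta (hH hs') hs1').2 (hy s' hs'))

theorem fg_of_le (hZ : T.Zc) {H : Subgroup Γ} (hH : H ≤ T.N) {d : ℕ} (hd : T.Bd H d) : H.FG := by
  induction d generalizing H with
  | zero => exact (not_bd_zero H hd).elim
  | succ d ih =>
    by_cases h : ∀ n, ∃ y, ∀ s ∈ H, T.Sim n y (s • y)
    · exact hZ H (eta_const hH h)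
    · simp only [not_forall, not_exists] at h
      obtain ⟨n, hn⟩ := h
      obtain ⟨R, hR, hR'⟩ := orb_sep hH hd n T.b
      refine fg_of_stab hH hR hR' fun a => ?_
      by_cases hb : ∀ s ∈ T.Stab H n a, s = 1
      · have hbot : T.Stab H n a = ⊥ := (Subgroup.eq_bot_iff_forall _).2 hb
        rw [hbot]
        exact ⟨∅, by simp⟩
      · simp only [not_forall] at hb
        obtain ⟨s, hs, hs1⟩ := hb
        obtain ⟨g, hg, hg'⟩ := hn a
        exact ih (fun x hx => hx.2.1) (ff hH hd hs hs1 hg hg')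

end Tr

end Pool.Agent.P.MP_a28d48_al
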