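import Pool.Agent.P.MP_a28d48_al.HEta

set_option autoImplicit false

namespace Pool.Agent.P.MP_a28d48_al

open Function Set Ser

section Scalar

variable {Γ : Type*} [Group Γ] {C : Cones Γ} {k : Type*} [Field k]

/-- `g` is the least element of the support -/
def IsLead (v : Ser C.adm k) (g : Γ) : Prop := v.c g ≠ 0 ∧ ∃ j, ∀ h, v.c h ≠ 0 → C.le j g h

lemma exists_isLead {v : Ser C.adm k} (hv : v ≠ 0) : ∃ g, IsLead v g := by
  have hne : (support v.c).Nonempty := by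
    rw [support_nonempty_iff]
    exact fun h => hv (Ser.ext h)
  obtain ⟨g, hg, j, hj⟩ := Cones.exists_min v.adm hne
  exact ⟨g, hg, j, fun h hh => hj h hh⟩

lemma le_antisymm_HVL {i j : ℕ} {x y : Γ} (h1 : C.le i x y) (h2 : C.le j y x) : x = y := by
  rcases h1 with h1 | h1
  · exact h1
  rcases h2 with h2 | h2
  · exact h2.symm
  have := C.mul h1 h2
  rw [show x⁻¹ * y * (y⁻¹ * x) = 1 by group] at this
  exact absurd this (C.one _)

lemma lead_mul_HVL {a v : Ser C.adm k} {g h : Γ} (ha : IsLead a g) (hv : IsLead v h) :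
    IsLead (a * v) (g * h) := by
  obtain ⟨ha0, i, hi⟩ := ha
  obtain ⟨hv0, j, hj⟩ := hv
  refine ⟨?_, max i j, fun x hx => ?_⟩
  · rw [mul_c_unique]
    · exact mul_ne_zero ha0 hv0
    · intro a' b' h1 h2 h3
      rcases ((hi a' h1).mono (le_max_left i j)).mul_cases ((hj b' h2).mono (le_max_right i j))
        with ⟨e1, e2⟩ | e
      · exact ⟨e1.symm, e2.symm⟩
      · rw [h3, inv_mul_cancel] at e
        exact absurd e (C.one _)
  · obtain ⟨a', b', h1, h2, rfl⟩ := exists_of_mul_c hx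
    exact ((hi a' h1).mono (le_max_left i j)).mul ((hj b' h2).mono (le_max_right i j))

lemma indep_of_lead {A : Subgroup Γ} {ι : Type*} {v : ι → Ser C.adm k} {g : ι → Γ}
    (h : ∀ i, IsLead (v i) (g i)) (hg : ∀ i j, g i * (g j)⁻¹ ∈ A → i = j) :
    LinearIndependent (subF C k A) v := by
  classical
  rw [linearIndependent_iff']
  intro s c hs i hi
  by_contra hc
  have h1 : ∀ i, ∃ a : Γ, c i ≠ 0 → IsLead (c i : Ser C.adm k) a := fun i => by
    by_cases h0 : c i = 0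
    · exact ⟨1, fun h => absurd h0 h⟩
    · obtain ⟨a, ha⟩ := exists_isLead (v := (c i : Ser C.adm k)) fun e => h0 (Subtype.ext e)
      exact ⟨a, fun _ => ha⟩
  choose a ha using h1
  have hfin : ((fun i => a i * g i) '' {i | i ∈ s ∧ c i ≠ 0}).Finite :=
    (s.finite_toSet.subset fun i hi => hi.1).image _
  obtain ⟨_, ⟨i₀, hi₀, rfl⟩, j, hj⟩ := Cones.exists_min (C.adm.of_finite hfin)
    ⟨_, i, ⟨hi, hc⟩, rfl⟩
  have h2 := congrArg (fun z : Ser C.adm k => z.c (a i₀ * g i₀)) hs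
  simp only [sum_c, zero_c] at h2
  rw [Finset.sum_eq_single_of_mem i₀ hi₀.1] at h2
  · exact (lead_mul_HVL (ha i₀ hi₀.2) (h i₀)).1 h2
  · intro l hl hne
    by_cases h0 : c l = 0
    · rw [h0, zero_smul, zero_c]
    by_contra h3
    obtain ⟨-, j', hj'⟩ := lead_mul_HVL (ha l h0) (h l)
    have e := le_antisymm_HVL (hj' _ h3) (hj _ ⟨l, ⟨hl, h0⟩, rfl⟩)
    refine hne (hg l i₀ ?_)
    have e' : g l * (g i₀)⁻¹ = (a l)⁻¹ * a i₀ := by
      rw [mul_inv_eq_iff_eq_mul, mul_assoc, eq_inv_mul_iff_mul_eq]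
      exact e
    rw [e']
    exact A.mul_mem (A.inv_mem ((c l).2 (ha l h0).1)) ((c i₀).2 (ha i₀ hi₀.2).1)

lemma lead_finite (A : Subgroup Γ) {B : Set (Ser C.adm k)} (hB : B.Finite) :
    ∃ F : Set Γ, F.Finite ∧ ∀ v ∈ Submodule.span (subF C k A) B, ∀ g, IsLead v g →
      ∃ f ∈ F, g * f⁻¹ ∈ A := by
  obtain ⟨d, hd⟩ := exists_bound_of_span (D := subF C k A) hB
  let Q : Set (Quotient (QuotientGroup.rightRel A)) :=
    {q | ∃ v ∈ Submodule.span (subF C k A) B, ∃ g, IsLead v g ∧ Quotient.mk _ g = q}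
  have hQ : Q.Finite := by
    by_contra hQ
    let e := Set.Infinite.natEmbedding Q hQ
    have h1 : ∀ i : Fin d, ∃ v ∈ Submodule.span (subF C k A) B, ∃ g, IsLead v g ∧
        Quotient.mk _ g = (e i).1 := fun i => (e i).2
    choose v hv g hg hq using h1
    refine hd v hv (indep_of_lead hg fun i j hij => ?_)
    have h2 : (e j).1 = (e i).1 := by
      rw [← hq, ← hq]
      exact Quotient.sound (QuotientGroup.rightRel_apply.2 hij)
    exact Fin.ext (e.injective (Subtype.ext h2)).symm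
  refine ⟨Quotient.out '' Q, hQ.image _, fun v hv g hg => ⟨_, ⟨_, ⟨v, hv, g, hg, rfl⟩, rfl⟩, ?_⟩⟩
  exact QuotientGroup.rightRel_apply.1 (Quotient.mk_out (s := QuotientGroup.rightRel A) g)

theorem vl_scalar (A A' : Subgroup Γ) {B B' : Set (Ser C.adm k)} (hB : B.Finite) (hB' : B'.Finite) :
    ∃ F : Set Γ, F.Finite ∧ ∀ v ∈ Submodule.span (subF C k A) B,
      v ∈ Submodule.span (subF C k A') B' → (∀ f ∈ F, res (A ⊓ A') (v * sg f⁻¹ 1) = 0) → v = 0 := by
  obtain ⟨F, hF, h1⟩ := lead_finite A hB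
  obtain ⟨F', hF', h2⟩ := lead_finite A' hB'
  have h3 : ∀ p : Γ × Γ, ∃ u : Γ, ∀ g, g * p.1⁻¹ ∈ A → g * p.2⁻¹ ∈ A' → g * u⁻¹ ∈ A ⊓ A' := by
    intro p
    by_cases h : ∃ u, u * p.1⁻¹ ∈ A ∧ u * p.2⁻¹ ∈ A'
    · obtain ⟨u, hu, hu'⟩ := h
      refine ⟨u, fun g hg hg' => ⟨?_, ?_⟩⟩
      · have := A.mul_mem hg (A.inv_mem hu)
        rwa [show g * p.1⁻¹ * (u * p.1⁻¹)⁻¹ = g * u⁻¹ by group] at this
      · have := A'.mul_mem hg' (A'.inv_mem hu')
        rwa [show g * p.2⁻¹ * (u * p.2⁻¹)⁻¹ = g * u⁻¹ by group] at this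
    · exact ⟨1, fun g hg hg' => absurd ⟨g, hg, hg'⟩ h⟩
  choose u hu using h3
  refine ⟨u '' (F ×ˢ F'), (hF.prod hF').image _, fun v hv hv' h0 => ?_⟩
  by_contra hne
  obtain ⟨g, hg⟩ := exists_isLead hne
  obtain ⟨f, hf, hgf⟩ := h1 v hv g hg
  obtain ⟨f', hf', hgf'⟩ := h2 v hv' g hg
  have h4 := congrArg (fun z : Ser C.adm k => z.c (g * (u (f, f'))⁻¹))
    (h0 _ ⟨(f, f'), ⟨hf, hf'⟩, rfl⟩)
  simp only [zero_c] at h4
  rw [res_c, if_pos (hu (f, f') g hgf hgf'), mul_sg_c, inv_inv, inv_mul_cancel_right, mul_one] at h4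
  exact hg.1 h4

lemma res_mem_HVL (A : Subgroup Γ) (v : Ser C.adm k) : res A v ∈ subF C k A := by
  intro x hx
  by_contra h
  exact hx (by rw [res_c, if_neg (show x ∉ A from h)])

lemma span_mono_HVL {M : Type*} [AddCommGroup M] [Module (Ser C.adm k) M] {K A : Subgroup Γ}
    (hK : K ≤ A) {S B : Set M} (hS : S ⊆ Submodule.span (subF C k A) B) {σ : M}
    (hσ : σ ∈ Submodule.span (subF C k K) S) : σ ∈ Submodule.span (subF C k A) B := by
  induction hσ using Submodule.span_induction with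
  | mem x hx => exact hS hx
  | zero => exact zero_mem _
  | add x y _ _ hx hy => exact add_mem hx hy
  | smul a x _ hx =>
    exact Submodule.smul_mem _ (⟨a.1, fun y hy => hK (a.2 hy)⟩ : subF C k A) hx

end Scalar

namespace Tr

variable {Γ V E k : Type*} [Group Γ] [MulAction Γ V] [MulAction Γ E] [Field k] {T : Tr Γ V E k}

lemma ls_mono_HVL {K A : Subgroup Γ} (hK : K ≤ A) : T.Ls K ⊆ T.Ls A := by
  rintro _ ⟨s, hs, s', hs', h1, h2, rfl⟩
  exact ⟨s, hK hs, s', hK hs', h1, h2, rfl⟩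

lemma cmp_span_HVL (A : Subgroup Γ) (r : E) {B : Set (Ch T.C E k)} {σ : Ch T.C E k}
    (hσ : σ ∈ Submodule.span (subF T.C k A) B) :
    Ch.cmp r σ ∈ Submodule.span (subF T.C k A) (Ch.cmp r '' B) := by
  induction hσ using Submodule.span_induction with
  | mem x hx => exact Submodule.subset_span ⟨x, hx, rfl⟩
  | zero => exact zero_mem _
  | add x y _ _ hx hy => exact add_mem hx hy
  | smul a x _ hx =>
    have e : Ch.cmp r (a • x) = a • Ch.cmp r x := Ch.cmp_smul r a.1 x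
    rw [e]
    exact Submodule.smul_mem _ a hx

theorem bd_inter {A B : Subgroup Γ} {a b : ℕ} (hA : T.Bd A a) (hB : T.Bd B b) :
    ∃ d, T.Bd (A ⊓ B) d := by
  classical
  obtain ⟨SA, -, hSA, hLA⟩ := exists_finite_span hA
  obtain ⟨SB, -, hSB, hLB⟩ := exists_finite_span hB
  choose F hF h0 using fun r : E => vl_scalar A B (hSA.image (Ch.cmp r)) (hSB.image (Ch.cmp r))
  let I : Set (E × Γ) := {p | p.1 ∈ T.R ∧ p.2 ∈ F p.1}
  have hI : I.Finite := by
    refine (T.R_fin.biUnion fun r _ => (hF r).image (Prod.mk r)).subset ?_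
    rintro ⟨r, f⟩ ⟨h1, h2⟩
    exact mem_biUnion h1 ⟨f, h2, rfl⟩
  have : Fintype I := hI.fintype
  let Ψ : Ch T.C E k →ₗ[subF T.C k (A ⊓ B)] (I → subF T.C k (A ⊓ B)) :=
    { toFun := fun σ p => ⟨res (A ⊓ B) (Ch.cmp p.1.1 σ * sg p.1.2⁻¹ 1), res_mem_HVL _ _⟩
      map_add' := fun x y => funext fun p => Subtype.ext (by
        change res (A ⊓ B) (Ch.cmp p.1.1 (x + y) * sg p.1.2⁻¹ 1) =
          res (A ⊓ B) (Ch.cmp p.1.1 x * sg p.1.2⁻¹ 1) + res (A ⊓ B) (Ch.cmp p.1.1 y * sg p.1.2⁻¹ 1)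
        rw [Ch.cmp_add, add_mul, map_add])
      map_smul' := fun c x => funext fun p => Subtype.ext (by
        change res (A ⊓ B) (Ch.cmp p.1.1 (c.1 • x) * sg p.1.2⁻¹ 1) =
          c.1 * res (A ⊓ B) (Ch.cmp p.1.1 x * sg p.1.2⁻¹ 1)
        rw [Ch.cmp_smul, mul_assoc, res_mul _ c.2]) }
  refine ⟨Fintype.card I + 1, fun f hf hi => ?_⟩
  have h1 : LinearIndependent (subF T.C k (A ⊓ B)) (Ψ ∘ f) := by
    refine hi.map (Submodule.disjoint_def.2 fun σ hσ hk => ?_)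
    have hσA : σ ∈ Submodule.span (subF T.C k A) SA :=
      span_mono_HVL inf_le_left (by
        rintro _ ⟨i, rfl⟩
        exact hLA (ls_mono_HVL inf_le_left (hf i))) hσ
    have hσB : σ ∈ Submodule.span (subF T.C k B) SB :=
      span_mono_HVL inf_le_right (by
        rintro _ ⟨i, rfl⟩
        exact hLB (ls_mono_HVL inf_le_right (hf i))) hσ
    have h2 : ∀ r ∈ T.R, Ch.cmp r σ = 0 := fun r hr =>
      h0 r _ (cmp_span_HVL A r hσA) (cmp_span_HVL B r hσB) fun g hg =>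
        congrArg Subtype.val (congrFun (LinearMap.mem_ker.1 hk) ⟨(r, g), hr, hg⟩)
    refine Ch.ext_cmp fun e => ?_
    obtain ⟨g, -, r, hr, rfl⟩ := T.orb e
    rw [Ch.cmp_smul_pt, h2 r hr, zero_mul]
    rfl
  have h3 := h1.fintype_card_le_finrank
  rw [Module.finrank_fintype_fun_eq_card, Fintype.card_fin] at h3
  omega

end Tr

end Pool.Agent.P.MP_a28d48_al
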