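import Pool.Agent.P.MP_a28d48_al.HT1
import Pool.Agent.P.MP_a28d48_al.HVL

set_option autoImplicit false

namespace Pool.Agent.P.MP_a28d48_al

open Function Set Ser

namespace Tr

variable {Γ V E k : Type*} [Group Γ] [MulAction Γ V] [MulAction Γ E] [Field k] {T : Tr Γ V E k}

lemma exists_hi_HT2 (σ : Ch T.C E k) : ∃ m, T.Hi m σ := by
  have h1 : ∀ r : E, ∃ m : ℤ, ∀ g : Γ, σ.1 (g • r) ≠ 0 → m < T.le (g • r) := by
    intro r
    by_cases hne : (support fun g : Γ => σ.1 (g • r)).Nonempty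
    · obtain ⟨g₀, -, hg₀⟩ := bdd_of_adm T.C T.φ T.φ_mul T.φ_pos (σ.2 r) hne
      refine ⟨T.φ g₀ + T.le r - 1, fun g hg => ?_⟩
      have := hg₀ g hg
      rw [T.le_smul]
      omega
    · exact ⟨0, fun g hg => absurd ⟨g, hg⟩ hne⟩
  choose m hm using h1
  obtain ⟨b, hb⟩ := (T.R_fin.image m).bddBelow
  refine ⟨b, fun e he => ?_⟩
  obtain ⟨g, -, r, hr, rfl⟩ := T.orb e
  exact (hb ⟨r, hr, rfl⟩).trans_lt (hm r g he)

lemma ne_one_HT2 {α : Γ} (hα : 0 < T.φ α) : α ≠ 1 := by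
  rintro rfl
  rw [T.φ_one] at hα
  exact lt_irrefl _ hα

lemma en_smul_HT2 {α : Γ} (hα : 0 < T.φ α) {n : ℤ} {y : V} (h : T.Hi n (T.eta y α)) (i : ℤ) :
    T.Hi (n + i * T.φ α) (T.eta (α ^ i • y) α) := by
  have h1 := T.eta_conj (ne_one_HT2 hα) (α ^ i) y
  have h2 : α ^ i * α * (α ^ i)⁻¹ = α := by group
  rw [h2] at h1
  rw [h1, ← T.φ_zpow]
  exact h.sg _

lemma en_pow {α : Γ} (hα : 0 < T.φ α) (n : ℤ) (y : V) :
    ∃ M₀ : ℕ, ∀ M : ℕ, M₀ ≤ M → T.Hi n (T.eta (α ^ M • y) α) := by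
  obtain ⟨m, hm⟩ := exists_hi_HT2 (T.eta y α)
  refine ⟨(n - m).toNat, fun M hM => ?_⟩
  have h1 := en_smul_HT2 hα hm (M : ℤ)
  rw [zpow_natCast] at h1
  refine h1.mono ?_
  have h2 : n - m ≤ (M : ℤ) := by omega
  have h3 : (0 : ℤ) ≤ M := Int.natCast_nonneg M
  nlinarith

lemma en_sim {α : Γ} (hα : 0 < T.φ α) {n : ℤ} {y y' : V} (h : T.Hi n (T.eta y α)) :
    T.Hi n (T.eta y' α) ↔ T.Sim n y y' := by
  have h1 := T.eta_base (ne_one_HT2 hα) y y'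
  constructor
  · intro h'
    have h2 : T.ch y y' = T.eta y α - T.eta y' α := by rw [h1, add_sub_cancel_right]
    rw [← hi_ch, h2]
    exact h.sub h'
  · intro h'
    have h2 : T.eta y' α = T.eta y α - T.ch y y' := by rw [h1, add_sub_cancel_left]
    rw [h2]
    exact h.sub (hi_ch.2 h')

lemma en_smul {α : Γ} (hα : 0 < T.φ α) {n : ℤ} {y : V} (h : T.Hi n (T.eta y α)) (i : ℤ) :
    T.Hi (n + i * T.φ α) (T.eta (α ^ i • y) α) := by
  exact en_smul_HT2 hα h i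

/-- classes that are not translates of the class of the attracting end -/
theorem stab_fg (hZ : T.Zc) {H : Subgroup Γ} {d : ℕ} (hd : T.Bd H d) {α : Γ} (hαH : α ∈ H)
    (hα : 0 < T.φ α) (hdiv : ∀ h ∈ H, T.φ α ∣ T.φ h) {n : ℤ} {a : V}
    (ha : ∀ g ∈ H ⊓ T.N, ¬ T.Hi n (T.eta (g⁻¹ • a) α)) : (T.Stab H n a).FG := by
  have key : ∀ g ∈ H, 0 < T.φ g → ∀ e ∈ T.Om n a, g • e ∉ T.Om n a := by
    intro g hg hpos e he hge
    have h1 : T.Sim n a (g • a) := by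
      have h2 := hge.2
      rw [T.o_smul] at h2
      exact h2.trans ((he.2.smul g).mono (by omega)).symm
    have h2 : ∀ i : ℕ, T.Sim n a (g ^ i • a) := by
      intro i
      induction i with
      | zero => rw [pow_zero, one_smul]; exact Sim.refl _ _
      | succ i ih =>
        rw [pow_succ', mul_smul]
        exact h1.trans ((ih.smul g).mono (by omega))
    obtain ⟨q, hq⟩ := hdiv g hg
    have hq0 : 0 < q := by
      rw [hq] at hpos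
      exact (mul_pos_iff_of_pos_left hα).1 hpos
    obtain ⟨M₀, hM₀⟩ := en_pow hα n a
    obtain ⟨q', rfl⟩ := Int.eq_ofNat_of_zero_le hq0.le
    have hq1 : 0 < q' := by exact_mod_cast hq0
    have h3 := hM₀ (M₀ * q') (Nat.le_mul_of_pos_right _ hq1)
    have hN : g ^ M₀ * (α ^ (M₀ * q'))⁻¹ ∈ T.N := by
      rw [T.mem_N, T.φ_mul, T.φ_inv, T.φ_pow, T.φ_pow, hq]
      push_cast
      ring
    have hH : g ^ M₀ * (α ^ (M₀ * q'))⁻¹ ∈ H :=
      H.mul_mem (H.pow_mem hg _) (H.inv_mem (H.pow_mem hαH _))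
    refine ha _ ⟨hH, hN⟩ ((en_sim hα h3).2 ?_)
    have h4 := (h2 M₀).smul_N (T.N.inv_mem hN)
    have h5 : (g ^ M₀ * (α ^ (M₀ * q'))⁻¹)⁻¹ • g ^ M₀ • a = α ^ (M₀ * q') • a := by
      rw [← mul_smul]
      congr 1
      group
    rw [h5] at h4
    exact h4.symm
  refine fg_of_le hZ (fun h hh => hh.2.1) (bd_stab hd fun g hg e he hge => ?_)
  rcases lt_trichotomy (T.φ g) 0 with hlt | h0 | hgt
  · refine absurd ?_ (key g⁻¹ (H.inv_mem hg) (by rw [T.φ_inv]; omega) _ hge)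
    rwa [inv_smul_smul]
  · refine ⟨hg, h0, ?_⟩
    have h2 := hge.2
    rw [T.o_smul] at h2
    exact h2.trans (he.2.smul_N h0).symm
  · exact absurd hge (key g hg hgt e he)

theorem phase2 (hZ : T.Zc) {H : Subgroup Γ} {d : ℕ} (hd : T.Bd H d) (n M : ℤ) (x : V) :
    (H ⊓ T.Phi n M x).FG := by
  obtain ⟨d', hd'⟩ := bd_of_fg (T := T) (T.phi_fg n M x)
  obtain ⟨d'', hd''⟩ := bd_inter hd hd'
  exact fg_of_le hZ (fun h hh => hh.2.1) hd''

lemma conj_mem_phi {α : Γ} (hα : 0 < T.φ α) {x : V} (hx : T.Hi 0 (T.eta x α)) {s : Γ}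
    (hs : s ∈ T.N) : ∃ (i : ℕ) (M : ℤ), α ^ i * s * (α ^ i)⁻¹ ∈ T.Phi 0 M x := by
  obtain ⟨n₀, hn₀⟩ := exists_sim (T := T) x (s • x)
  have h0 : -n₀ ≤ ((-n₀).toNat : ℤ) := Int.self_le_toNat _
  have h0' : (0 : ℤ) ≤ (-n₀).toNat := Int.natCast_nonneg _
  refine ⟨(-n₀).toNat, ?_⟩
  generalize (-n₀).toNat = i at h0 h0'
  have h1 := en_smul hα hx (-(i : ℤ))
  rw [zpow_neg, zpow_natCast, zero_add] at h1
  have h2 : T.Hi (-(i : ℤ) * T.φ α) (T.eta x α) := hx.mono (by nlinarith)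
  have h3 := (en_sim hα h2).1 h1
  have h4 : T.Sim (-(i : ℤ) * T.φ α) x (s • x) := hn₀.mono (by nlinarith)
  have h5 := ((h3.symm.trans h4).trans (h3.smul_N hs)).smul (α ^ i)
  rw [smul_inv_smul, T.φ_pow, ← mul_smul, ← mul_smul] at h5
  have h6 : -(i : ℤ) * T.φ α + i * T.φ α = 0 := by ring
  rw [h6] at h5
  obtain ⟨M, hM⟩ := h5.cn
  exact ⟨M, T.conj_mem_N hs _, hM⟩

end Tr

end Pool.Agent.P.MP_a28d48_al
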