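import Pool.Agent.P.MP_a28d48_al.HT2
import Pool.Agent.P.MP_a28d48_al.HFin

set_option autoImplicit false

namespace Pool.Agent.P.MP_a28d48_al

open Function Set Ser

namespace Tr

variable {Γ V E k : Type*} [Group Γ] [MulAction Γ V] [MulAction Γ E] [Field k] {T : Tr Γ V E k}

theorem phase1 (hZ : T.Zc) {H : Subgroup Γ} {d : ℕ} (hd : T.Bd H d) {α : Γ} (hαH : α ∈ H)
    (hα : 0 < T.φ α) (hdiv : ∀ h ∈ H, T.φ α ∣ T.φ h) {x : V} (hx : T.Hi 0 (T.eta x α)) :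
    ∃ Q : Set Γ, Q.Finite ∧ Q ⊆ H ∧ ∃ M₁ : ℤ, ∀ M : ℤ, H ⊓ T.Phi 0 M x ≤
      Subgroup.closure (insert α Q) ⊔ (H ⊓ T.Phi 0 (max M M₁ - T.φ α) x) := by
  classical
  obtain ⟨R, hR, hsep⟩ := fin_sep hd x (p := T.φ α) fun h hh h0 => Int.le_of_dvd h0 (hdiv h hh)
  have hA := T.ends_finite x hR
  have hαx : T.Hi (T.φ α) (T.eta (α • x) α) := by simpa using en_smul hα hx 1
  obtain ⟨Q₁, hQ₁, hQJ, hQ⟩ := pairs_fg (H ⊓ T.N) (T.Sim (T.φ α))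
    ⟨Sim.refl _, Sim.symm, Sim.trans⟩ (fun g hg _ _ h => h.smul_N hg.2)
    (A := {a | a ∈ T.Ends x R ∧ ∀ g ∈ H ⊓ T.N, ¬ T.Hi (T.φ α) (T.eta (g⁻¹ • a) α)})
    (hA.subset fun _ h => h.1) hA (T.Stab H (T.φ α))
    (fun a ha => ⟨fun g hg => ⟨hg.1, hg.2.1⟩, stab_fg hZ hd hαH hα hdiv ha.2⟩)
    fun a _ g hg h => ⟨hg.1, hg.2, h⟩
  have hch : ∀ a : V, ∃ (g : Γ) (m : ℤ), g ∈ H ⊓ T.N ∧
      ((∃ g' ∈ H ⊓ T.N, T.Hi (T.φ α) (T.eta (g'⁻¹ • a) α)) →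
        T.Cn (T.X (T.φ α) m) (g⁻¹ • a) (α • x)) := fun a => by
    by_cases h : ∃ g' ∈ H ⊓ T.N, T.Hi (T.φ α) (T.eta (g'⁻¹ • a) α)
    · obtain ⟨g, hg, h1⟩ := h
      obtain ⟨m, hm⟩ := ((en_sim hα h1).1 hαx).cn
      exact ⟨g, m, hg, fun _ => hm⟩
    · exact ⟨1, 0, one_mem _, fun h' => absurd h' h⟩
  choose ga ma hga hma using hch
  obtain ⟨M₀, hM₀⟩ := (hA.image ma).bddAbove
  refine ⟨Q₁ ∪ ga '' T.Ends x R, hQ₁.union (hA.image _), ?_, max M₀ (T.φ α + 2 * T.c),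
    fun M s hs => ?_⟩
  · rintro g (hg | ⟨a, -, rfl⟩)
    exacts [(hQJ hg).1, (hga a).1]
  set M' := max M (max M₀ (T.φ α + 2 * T.c)) with hM'
  have h1 : T.Cn (T.X (T.φ α) M' ∪ Orb (H ⊓ T.N) R) x (s • x) :=
    (geo hα.le hs.2.2).mono (union_subset_union
      (X_mono (max_le_max_left _ (le_max_right _ _))) (hsep s hs.1 (sim_of_cn hs.2.2)))
  refine (Subgroup.closure_le _).2 ?_ (gen T.o_smul T.t_smul (H ⊓ T.N)
    (fun g hg e he => smul_mem_X_N he hg.2) ⟨hs.1, hs.2.1⟩ h1)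
  rintro g ⟨hg, a, ha, a', ha', hc⟩
  have hin : ∀ z ∈ insert α (Q₁ ∪ ga '' T.Ends x R), z ∈ Subgroup.closure
      (insert α (Q₁ ∪ ga '' T.Ends x R)) ⊔ (H ⊓ T.Phi 0 (M' - T.φ α) x) := fun z hz =>
    Subgroup.mem_sup_left (Subgroup.subset_closure hz)
  by_cases he : ∃ g' ∈ H ⊓ T.N, T.Hi (T.φ α) (T.eta (g'⁻¹ • a) α)
  · have he' : ∃ g' ∈ H ⊓ T.N, T.Hi (T.φ α) (T.eta (g'⁻¹ • a') α) := by
      obtain ⟨g', hg', h2⟩ := he
      refine ⟨g⁻¹ * g', mul_mem (inv_mem hg) hg', (en_sim hα h2).2 ?_⟩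
      rw [mul_inv_rev, inv_inv, mul_smul]
      exact (sim_of_cn hc).smul_N (inv_mem hg'.2)
    have hb : ∀ z ∈ T.Ends x R, T.X (T.φ α) (ma z) ⊆ T.X (T.φ α) M' := fun z hz =>
      X_mono ((hM₀ (mem_image_of_mem _ hz)).trans ((le_max_left _ _).trans (le_max_right _ _)))
    have hu : (ga a)⁻¹ * g * ga a' ∈ H ⊓ T.N := mul_mem (mul_mem (inv_mem (hga a)) hg) (hga a')
    have h2 := cn_smul_N ((hma a' he').mono (hb a' ha')) hu.2
    rw [smul_smul, mul_inv_cancel_right, mul_smul] at h2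
    have h3 := cn_smul ((((hma a he).mono (hb a ha)).symm.trans
      (cn_smul_N hc (T.N.inv_mem (hga a).2))).trans h2) α⁻¹
    rw [T.φ_inv, add_neg_cancel, inv_smul_smul, ← sub_eq_add_neg, smul_smul, smul_smul] at h3
    have h4 : α⁻¹ * ((ga a)⁻¹ * g * ga a') * α ∈ H ⊓ T.Phi 0 (M' - T.φ α) x :=
      ⟨H.mul_mem (H.mul_mem (H.inv_mem hαH) hu.1) hαH, by simpa using T.conj_mem_N hu.2 α⁻¹, h3⟩
    have e : g = ga a * α * (α⁻¹ * ((ga a)⁻¹ * g * ga a') * α) * α⁻¹ * (ga a')⁻¹ := by group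
    have hα' := hin α (mem_insert _ _)
    have hg' := fun z hz => hin (ga z) (mem_insert_of_mem _ (Or.inr (mem_image_of_mem _ hz)))
    rw [SetLike.mem_coe, e]
    exact mul_mem (mul_mem (mul_mem (mul_mem (hg' a ha) hα') (Subgroup.mem_sup_right h4))
      (inv_mem hα')) (inv_mem (hg' a' ha'))
  · exact Subgroup.mem_sup_left (Subgroup.closure_mono
      (subset_union_left.trans (subset_insert _ _))
      (hQ g hg a ⟨ha, fun g' hg' h => he ⟨g', hg', h⟩⟩ a' ha' (sim_of_cn hc)))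

theorem fg_of_not_le (hZ : T.Zc) {H : Subgroup Γ} (hH : ¬ H ≤ T.N) {d : ℕ} (hd : T.Bd H d) :
    H.FG := by
  obtain ⟨p, ⟨hp, α, hαH, rfl⟩, hmin⟩ := Int.exists_least_of_bdd
    (P := fun z => 0 < z ∧ ∃ h ∈ H, T.φ h = z) ⟨0, fun z hz => hz.1.le⟩ (by
      obtain ⟨h, hh, h0⟩ := SetLike.not_le_iff_exists.1 hH
      rcases lt_or_gt_of_ne (show T.φ h ≠ 0 from h0) with h1 | h1
      · exact ⟨_, by rw [T.φ_inv]; omega, h⁻¹, inv_mem hh, rfl⟩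
      · exact ⟨_, h1, h, hh, rfl⟩)
  have hq : ∀ h q, T.φ (h * (α ^ q)⁻¹) = T.φ h - q * T.φ α := fun h (q : ℤ) => by
    rw [T.φ_mul, T.φ_inv, T.φ_zpow, sub_eq_add_neg]
  have hdiv : ∀ h ∈ H, T.φ α ∣ T.φ h := fun h hh => by
    refine Int.dvd_of_emod_eq_zero (by_contra fun h0 => ?_)
    have h1 := Int.emod_nonneg (T.φ h) hp.ne'
    have h2 := Int.emod_lt_of_pos (T.φ h) hp
    have h3 := hmin (T.φ h % T.φ α) ⟨by omega, h * (α ^ (T.φ h / T.φ α))⁻¹,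
      mul_mem hh (inv_mem (zpow_mem hαH _)), by rw [hq, Int.emod_def, mul_comm]⟩
    omega
  obtain ⟨M₀, hM₀⟩ := en_pow hp 0 T.b
  have hx := hM₀ M₀ le_rfl
  generalize α ^ M₀ • T.b = x at hx
  obtain ⟨Q, hQ, hQH, M₁, h1⟩ := phase1 hZ hd hαH hp hdiv hx
  have h2 : ∀ (m : ℕ) (M : ℤ), M ≤ M₁ + m → H ⊓ T.Phi 0 M x ≤
      Subgroup.closure (insert α Q) ⊔ (H ⊓ T.Phi 0 M₁ x) := by
    intro m
    induction m with
    | zero =>
      intro M hM s hs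
      have h0 : s ∈ H ⊓ T.Phi 0 M₁ x := ⟨hs.1, hs.2.1, hs.2.2.mono (X_mono (by simpa using hM))⟩
      exact Subgroup.mem_sup_right h0
    | succ m ih =>
      refine fun M hM => (h1 M).trans (sup_le le_sup_left (ih _ ?_))
      push_cast at hM
      rcases le_total M M₁ with h | h
      · rw [max_eq_right h]; omega
      · rw [max_eq_left h]; omega
  have h3 : Subgroup.closure (insert α Q) ⊔ (H ⊓ T.Phi 0 M₁ x) = H := by
    refine le_antisymm (sup_le ((Subgroup.closure_le _).2 (insert_subset hαH hQH)) inf_le_left)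
      fun h hh => ?_
    have hα : α ∈ Subgroup.closure (insert α Q) ⊔ (H ⊓ T.Phi 0 M₁ x) :=
      Subgroup.mem_sup_left (Subgroup.subset_closure (mem_insert _ _))
    obtain ⟨q, hq'⟩ := hdiv h hh
    obtain ⟨i, M, hM⟩ := conj_mem_phi hp hx (s := h * (α ^ q)⁻¹)
      (by rw [mem_N, hq, hq', mul_comm, sub_self])
    have h4 := h2 (M - M₁).toNat M (by omega) ⟨H.mul_mem (H.mul_mem (H.pow_mem hαH i)
      (H.mul_mem hh (H.inv_mem (H.zpow_mem hαH q)))) (H.inv_mem (H.pow_mem hαH i)), hM⟩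
    have e : h = (α ^ i)⁻¹ * (α ^ i * (h * (α ^ q)⁻¹) * (α ^ i)⁻¹) * α ^ i * α ^ q := by group
    rw [e]
    exact mul_mem (mul_mem (mul_mem (inv_mem (pow_mem hα i)) h4) (pow_mem hα i)) (zpow_mem hα q)
  obtain ⟨S, hS, hS'⟩ := (Subgroup.fg_iff _).1 (phase2 hZ hd 0 M₁ x)
  rw [← h3, ← hS, ← Subgroup.closure_union]
  exact (Subgroup.fg_iff _).2 ⟨_, rfl, (hQ.insert α).union hS'⟩

theorem fg_of_bd (hZ : T.Zc) {H : Subgroup Γ} {d : ℕ} (hd : T.Bd H d) : H.FG := by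
  by_cases hH : H ≤ T.N
  exacts [fg_of_le hZ hH hd, fg_of_not_le hZ hH hd]

end Tr

end Pool.Agent.P.MP_a28d48_al
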