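import Pool.Agent.P.MP_a28d48_al.HConn

set_option autoImplicit false

namespace Pool.Agent.P.MP_a28d48_al

open Function Set

/-- a group acting on a graph with levels and walls -/
structure Tr (Γ V E k : Type*) [Group Γ] [MulAction Γ V] [MulAction Γ E] [Field k] where
  C : Cones Γ
  φ : Γ → ℤ
  φ_mul : ∀ a b, φ (a * b) = φ a + φ b
  φ_pos : ∀ g, 0 < φ g → g ∈ C.P 0
  o : E → V
  t : E → V
  o_smul : ∀ (g : Γ) e, o (g • e) = g • o e
  t_smul : ∀ (g : Γ) e, t (g • e) = g • t e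
  free : ∀ (g : Γ) (x : V), g • x = x → g = 1
  b : V
  R : Set E
  R_fin : R.Finite
  orb : ∀ e, e ∈ Orb (⊤ : Subgroup Γ) R
  lv : V → ℤ
  lv_smul : ∀ (g : Γ) x, lv (g • x) = φ g + lv x
  W : Set E
  W_smul : ∀ (g : Γ) e, e ∈ W → g • e ∈ W
  c : ℕ
  conn : ∀ x y, Conn o t univ x y
  push : ∀ e, e ∉ W → Conn o t
    {e' | (e' ∈ W ∨ lv (o e) < lv (o e')) ∧ |lv (o e') - lv (o e)| ≤ c} (o e) (t e)
  χ : E → V → k
  χ_self : ∀ w ∈ W, χ w (o w) ≠ χ w (t w)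
  χ_wall : ∀ w ∈ W, ∀ w' ∈ W, w' ≠ w → χ w (o w') = χ w (t w')
  χ_far : ∀ w ∈ W, ∀ e, e ∉ W → lv (o w) + c < lv (o e) → χ w (o e) = χ w (t e)
  χ_smul : ∀ (g : Γ), ∀ w ∈ W, ∀ x y, χ (g • w) (g • y) - χ (g • w) (g • x) = χ w y - χ w x

namespace Tr

variable {Γ V E k : Type*} [Group Γ] [MulAction Γ V] [MulAction Γ E] [Field k] (T : Tr Γ V E k)

/-- level of an edge -/
def le (e : E) : ℤ := T.lv (T.o e)

/-- connectivity in the graph of `T` -/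
abbrev Cn (S : Set E) : V → V → Prop := Conn T.o T.t S

/-- the window graph -/
def X (n M : ℤ) : Set E :=
  {e | ((e ∈ T.W ∧ n < T.le e) ∨ (e ∉ T.W ∧ n + T.c < T.le e)) ∧ T.le e ≤ M}

/-- not separated by walls of level at most `n` -/
def Sim (n : ℤ) (x y : V) : Prop := ∀ w ∈ T.W, T.le w ≤ n → T.χ w x = T.χ w y

/-- separating walls of level at most `n` -/
def Sep (n : ℤ) (x y : V) : Set E := {w | w ∈ T.W ∧ T.le w ≤ n ∧ T.χ w x ≠ T.χ w y}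

/-- the base point and the ends of `R` -/
def Ends (x : V) (R : Set E) : Set V := insert x (T.o '' R ∪ T.t '' R)

lemma φ_one : T.φ 1 = 0 := by simpa using T.φ_mul 1 1

lemma φ_inv (g : Γ) : T.φ g⁻¹ = -T.φ g := by
  have := T.φ_mul g g⁻¹
  rw [mul_inv_cancel, φ_one] at this
  omega

lemma φ_zpow (g : Γ) (i : ℤ) : T.φ (g ^ i) = i * T.φ g := by
  induction i using Int.induction_on with
  | zero => simp [φ_one]
  | succ i ih => rw [zpow_add_one, T.φ_mul, ih]; ring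
  | pred i ih => rw [zpow_sub_one, T.φ_mul, ih, φ_inv]; ring

lemma φ_pow (g : Γ) (i : ℕ) : T.φ (g ^ i) = i * T.φ g := by
  rw [← zpow_natCast, φ_zpow]

/-- the kernel of `φ` -/
def N : Subgroup Γ where
  carrier := {g | T.φ g = 0}
  mul_mem' := fun {a b} (ha : T.φ a = 0) (hb : T.φ b = 0) => by
    change T.φ (a * b) = 0
    rw [T.φ_mul, ha, hb, add_zero]
  one_mem' := T.φ_one
  inv_mem' := fun {a} (ha : T.φ a = 0) => by
    change T.φ a⁻¹ = 0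
    rw [φ_inv, ha, neg_zero]

lemma mem_N {g : Γ} : g ∈ T.N ↔ T.φ g = 0 := Iff.rfl

lemma conj_mem_N {g : Γ} (hg : g ∈ T.N) (a : Γ) : a * g * a⁻¹ ∈ T.N := by
  rw [mem_N] at *
  rw [T.φ_mul, T.φ_mul, φ_inv, hg]
  omega

lemma le_smul (g : Γ) (e : E) : T.le (g • e) = T.φ g + T.le e := by
  rw [le, T.o_smul, T.lv_smul, le]

include T in
lemma free_edge (g : Γ) (e : E) (h : g • e = e) : g = 1 :=
  T.free g (T.o e) (by rw [← T.o_smul, h])

lemma W_smul_iff (g : Γ) (e : E) : g • e ∈ T.W ↔ e ∈ T.W :=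
  ⟨fun h => by simpa using T.W_smul g⁻¹ _ h, T.W_smul g e⟩

lemma χ_smul_eq (g : Γ) {w : E} (hw : w ∈ T.W) (x y : V) :
    T.χ (g • w) (g • x) = T.χ (g • w) (g • y) ↔ T.χ w x = T.χ w y := by
  rw [eq_comm, ← sub_eq_zero, T.χ_smul g w hw, sub_eq_zero, eq_comm]

lemma ends_finite (x : V) {R : Set E} (hR : R.Finite) : (T.Ends x R).Finite :=
  ((hR.image _).union (hR.image _)).insert x

variable {T}

lemma Sim.refl (n : ℤ) (x : V) : T.Sim n x x := fun _ _ _ => rfl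

lemma Sim.symm {n : ℤ} {x y : V} (h : T.Sim n x y) : T.Sim n y x := fun w hw hn => (h w hw hn).symm

lemma Sim.trans {n : ℤ} {x y z : V} (h : T.Sim n x y) (h' : T.Sim n y z) : T.Sim n x z :=
  fun w hw hn => (h w hw hn).trans (h' w hw hn)

lemma Sim.mono {m n : ℤ} (hmn : m ≤ n) {x y : V} (h : T.Sim n x y) : T.Sim m x y :=
  fun w hw hn => h w hw (hn.trans hmn)

lemma Sim.smul {n : ℤ} {x y : V} (h : T.Sim n x y) (g : Γ) : T.Sim (n + T.φ g) (g • x) (g • y) := by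
  intro w hw hn
  have h1 : g⁻¹ • w ∈ T.W := T.W_smul _ _ hw
  have := (T.χ_smul_eq g h1 x y).2 (h _ h1 (by rw [le_smul, φ_inv]; omega))
  rwa [smul_inv_smul] at this

lemma Sim.smul_N {n : ℤ} {x y : V} (h : T.Sim n x y) {g : Γ} (hg : g ∈ T.N) :
    T.Sim n (g • x) (g • y) := by
  have := h.smul g
  rwa [T.mem_N.1 hg, add_zero] at this

lemma X_mono {n M M' : ℤ} (h : M ≤ M') : T.X n M ⊆ T.X n M' := fun _ he => ⟨he.1, he.2.trans h⟩

lemma smul_mem_X {n M : ℤ} {e : E} (he : e ∈ T.X n M) (g : Γ) :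
    g • e ∈ T.X (n + T.φ g) (M + T.φ g) := by
  obtain ⟨h1, h2⟩ := he
  refine ⟨h1.imp (fun h => ⟨T.W_smul _ _ h.1, ?_⟩) (fun h => ⟨by rw [W_smul_iff]; exact h.1, ?_⟩), ?_⟩
  all_goals rw [le_smul]; omega

lemma smul_mem_X_N {n M : ℤ} {e : E} (he : e ∈ T.X n M) {g : Γ} (hg : g ∈ T.N) :
    g • e ∈ T.X n M := by
  have := smul_mem_X he g
  rwa [T.mem_N.1 hg, add_zero, add_zero] at this

lemma cn_smul {n M : ℤ} {x y : V} (h : T.Cn (T.X n M) x y) (g : Γ) :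
    T.Cn (T.X (n + T.φ g) (M + T.φ g)) (g • x) (g • y) :=
  h.map (g • ·) (g • ·) (T.o_smul g) (T.t_smul g) fun _ he => smul_mem_X he g

lemma cn_smul_N {n M : ℤ} {x y : V} (h : T.Cn (T.X n M) x y) {g : Γ} (hg : g ∈ T.N) :
    T.Cn (T.X n M) (g • x) (g • y) :=
  h.map (g • ·) (g • ·) (T.o_smul g) (T.t_smul g) fun _ he => smul_mem_X_N he hg

variable (T)

/-- stabiliser in `H ⊓ N` of the class of `a` -/
def Stab (H : Subgroup Γ) (n : ℤ) (a : V) : Subgroup Γ where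
  carrier := {h | h ∈ H ∧ h ∈ T.N ∧ T.Sim n a (h • a)}
  mul_mem' := fun {g h} hg hh => ⟨H.mul_mem hg.1 hh.1, T.N.mul_mem hg.2.1 hh.2.1, by
    rw [mul_smul]
    exact hg.2.2.trans (hh.2.2.smul_N hg.2.1)⟩
  one_mem' := ⟨H.one_mem, T.N.one_mem, by rw [one_smul]; exact Sim.refl _ _⟩
  inv_mem' := fun {g} hg => ⟨H.inv_mem hg.1, T.N.inv_mem hg.2.1, by
    have := (hg.2.2.smul_N (T.N.inv_mem hg.2.1)).symm
    rwa [inv_smul_smul] at this⟩

lemma mem_Stab {H : Subgroup Γ} {n : ℤ} {a : V} {h : Γ} :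
    h ∈ T.Stab H n a ↔ h ∈ H ∧ h ∈ T.N ∧ T.Sim n a (h • a) := Iff.rfl

/-- window group -/
def Phi (n M : ℤ) (x : V) : Subgroup Γ where
  carrier := {g | g ∈ T.N ∧ T.Cn (T.X n M) x (g • x)}
  mul_mem' := fun {g h} hg hh => ⟨T.N.mul_mem hg.1 hh.1, by
    rw [mul_smul]
    exact hg.2.trans (cn_smul_N hh.2 hg.1)⟩
  one_mem' := ⟨T.N.one_mem, by rw [one_smul]; exact Conn.refl _ _⟩
  inv_mem' := fun {g} hg => ⟨T.N.inv_mem hg.1, by
    have := (cn_smul_N hg.2 (T.N.inv_mem hg.1)).symm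
    rwa [inv_smul_smul] at this⟩

lemma mem_Phi {n M : ℤ} {x : V} {g : Γ} :
    g ∈ T.Phi n M x ↔ g ∈ T.N ∧ T.Cn (T.X n M) x (g • x) := Iff.rfl

/-- fixes a class at every level -/
def Ell (s : Γ) : Prop := ∀ n, ∃ y, T.Sim n y (s • y)

end Tr

end Pool.Agent.P.MP_a28d48_al
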