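import Mathlib

set_option autoImplicit false

namespace Pool.Agent.P.MP_a28d48_al

open Function Set FreeGroup

variable {X : Type*} [DecidableEq X]

/-- every initial segment of a reduced word of `H` lies in a coset `H s`, `s ∈ S` -/
def QC (H : Subgroup (FreeGroup X)) (S : Set (FreeGroup X)) : Prop :=
  ∀ w ∈ H, ∀ l, l <+: w.toWord → ∃ s ∈ S, mk l * s⁻¹ ∈ H

omit [DecidableEq X] in
lemma red_init {L L' : List (X × Bool)} (h : Red L L') :
    ∀ l, l <+: L' → ∃ l', l' <+: L ∧ mk l' = mk l := by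
  induction h with
  | refl => exact fun l hl => ⟨l, hl, rfl⟩
  | tail _ h ih =>
    intro l hl
    rcases h with @⟨L₁, L₂, x, b⟩
    rcases List.prefix_or_prefix_of_prefix hl (List.prefix_append L₁ L₂) with h1 | ⟨t, rfl⟩
    · exact ih l (h1.trans (List.prefix_append _ _))
    · obtain ⟨l', h2, h3⟩ := ih (L₁ ++ (x, b) :: (x, !b) :: t) (by
        simpa using hl)
      exact ⟨l', h2, h3.trans (Quot.sound Red.Step.not)⟩

lemma qc_of_fg {H : Subgroup (FreeGroup X)} (hH : H.FG) : ∃ S, S.Finite ∧ QC H S := by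
  obtain ⟨T, rfl, hT⟩ := (Subgroup.fg_iff _).1 hH
  let S : Set (FreeGroup X) := ⋃ t ∈ insert 1 (T ∪ T⁻¹), mk '' {l | l <+: t.toWord}
  refine ⟨S, ((hT.union hT.inv).insert 1).biUnion fun t _ => Finite.image _
    (t.toWord.inits.finite_toSet.subset fun l hl => (List.mem_inits _ _).2 hl), fun w hw => ?_⟩
  have base : ∀ t ∈ insert 1 (T ∪ T⁻¹), ∃ L, mk L = t ∧
      ∀ l, l <+: L → ∃ s ∈ S, mk l * s⁻¹ ∈ Subgroup.closure T := fun t ht =>
    ⟨t.toWord, mk_toWord, fun l hl => ⟨mk l, mem_biUnion ht ⟨l, hl, rfl⟩, by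
      rw [mul_inv_cancel]; exact one_mem _⟩⟩
  obtain ⟨L, rfl, hL⟩ : ∃ L, mk L = w ∧
      ∀ l, l <+: L → ∃ s ∈ S, mk l * s⁻¹ ∈ Subgroup.closure T := by
    induction hw using Subgroup.closure_induction'' with
    | mem x hx => exact base x (Or.inr (Or.inl hx))
    | inv_mem x hx => exact base _ (Or.inr (Or.inr (by simpa using hx)))
    | one => exact base 1 (Or.inl rfl)
    | mul x y hx _ ih1 ih2 =>
      obtain ⟨L, rfl, h1⟩ := ih1
      obtain ⟨L', rfl, h2⟩ := ih2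
      refine ⟨L ++ L', rfl, fun l hl => ?_⟩
      rcases List.prefix_or_prefix_of_prefix hl (List.prefix_append L L') with h3 | ⟨t, rfl⟩
      · exact h1 l h3
      · obtain ⟨s, hs, h4⟩ := h2 t (by simpa using hl)
        exact ⟨s, hs, by rw [← mul_mk, mul_assoc]; exact mul_mem hx h4⟩
  intro l hl
  obtain ⟨l', h1, h2⟩ := red_init (reduce.red (L := L)) l hl
  exact h2 ▸ hL l' h1

lemma fg_of_qc [Finite X] {H : Subgroup (FreeGroup X)} {S : Set (FreeGroup X)} (hS : S.Finite)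
    (h : QC H S) : H.FG := by
  let T : Set (FreeGroup X) := H ∩ (S ∪ (fun q : FreeGroup X × (X × Bool) × FreeGroup X =>
    q.1 * mk [q.2.1] * q.2.2⁻¹) '' (S ×ˢ univ ×ˢ S))
  have hle : Subgroup.closure T ≤ H := (Subgroup.closure_le _).2 inter_subset_left
  refine (Subgroup.fg_iff _).2 ⟨T, hle.antisymm fun w hw => ?_,
    (hS.union ((hS.prod (finite_univ.prod hS)).image _)).inter_of_right _⟩
  have key : ∀ l, l <+: w.toWord → ∃ s ∈ S, mk l * s⁻¹ ∈ Subgroup.closure T := by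
    intro l
    induction l using List.reverseRecOn with
    | nil =>
      intro hl
      obtain ⟨s, hs, h1⟩ := h w hw _ hl
      rw [← one_eq_mk, one_mul] at h1
      exact ⟨s, hs, mul_mem (one_mem _)
        (inv_mem (Subgroup.subset_closure ⟨inv_mem_iff.1 h1, Or.inl hs⟩))⟩
    | append_singleton l x ih =>
      intro hl
      obtain ⟨s, hs, h1⟩ := h w hw _ hl
      obtain ⟨s', hs', h2⟩ := ih ((List.prefix_append _ _).trans hl)
      have e : mk (l ++ [x]) * s⁻¹ = mk l * s'⁻¹ * (s' * mk [x] * s⁻¹) := by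
        rw [← mul_mk]
        group
      rw [e] at h1
      exact ⟨s, hs, e ▸ mul_mem h2 (Subgroup.subset_closure
        ⟨(mul_mem_cancel_left (hle h2)).1 h1, Or.inr ⟨(s', x, s), ⟨hs', trivial, hs⟩, rfl⟩⟩)⟩
  obtain ⟨s, hs, h1⟩ := key _ List.prefix_rfl
  rw [mk_toWord] at h1
  have h2 : s ∈ H := inv_mem_iff.1 ((mul_mem_cancel_left hw).1 (hle h1))
  simpa using mul_mem h1 (Subgroup.subset_closure ⟨h2, Or.inl hs⟩)

theorem howson [Finite X] {H K : Subgroup (FreeGroup X)} (hH : H.FG) (hK : K.FG) : (H ⊓ K).FG := by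
  obtain ⟨S, hS, h1⟩ := qc_of_fg hH
  obtain ⟨S', hS', h2⟩ := qc_of_fg hK
  have : ∀ q : FreeGroup X × FreeGroup X, ∃ g, (∃ y, y * q.1⁻¹ ∈ H ∧ y * q.2⁻¹ ∈ K) →
      g * q.1⁻¹ ∈ H ∧ g * q.2⁻¹ ∈ K := fun q => by
    by_cases h : ∃ y, y * q.1⁻¹ ∈ H ∧ y * q.2⁻¹ ∈ K
    · exact h.imp fun _ h _ => h
    · exact ⟨1, fun h' => absurd h' h⟩
  choose g hg using this
  refine fg_of_qc ((hS.prod hS').image g) fun w hw l hl => ?_
  obtain ⟨s, hs, h3⟩ := h1 w hw.1 l hl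
  obtain ⟨s', hs', h4⟩ := h2 w hw.2 l hl
  obtain ⟨h5, h6⟩ := hg (s, s') ⟨_, h3, h4⟩
  exact ⟨_, ⟨(s, s'), ⟨hs, hs'⟩, rfl⟩, by simpa [mul_assoc] using mul_mem h3 (inv_mem h5),
    by simpa [mul_assoc] using mul_mem h4 (inv_mem h6)⟩

end Pool.Agent.P.MP_a28d48_al
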