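import Pool.Agent.P.MP_a28d48_al.KDef

set_option autoImplicit false

namespace Pool.Agent.P.MP_a28d48_al

open Function Set Ser Pointwise

variable {G : Type*} [Group G]

omit [Group G] in
lemma KCn_basis {W : Set (List G)} {S : Set G} (hS : S.Finite)
    (hW : ∀ l ∈ W, ∀ x ∈ l, x ∈ S) :
    ∃ M : Finset (List G), (∀ m ∈ M, m ∈ W) ∧ ∀ l ∈ W, ∃ m ∈ M, m.Sublist l := by
  by_contra hcon
  push Not at hcon
  obtain ⟨f, hf, hr⟩ := exists_seq_of_forall_finset_exists (· ∈ W) (fun m l => ¬ m.Sublist l)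
    fun M hM => by
      obtain ⟨l, hl, h⟩ := hcon M hM
      exact ⟨l, hl, h⟩
  have hp : S.PartiallyWellOrderedOn (· = ·) := hS.partiallyWellOrderedOn
  obtain ⟨m, n, hmn, h⟩ := partiallyWellOrderedOn_iff_exists_lt.1
    (hp.partiallyWellOrderedOn_sublistForall₂ (· = ·)) f fun n => hW _ (hf n)
  obtain ⟨l, h1, h2⟩ := List.sublistForall₂_iff.1 h
  rw [List.forall₂_eq_eq_eq] at h1
  exact hr m n hmn (h1 ▸ h2)

namespace Dat

variable {a : Dat G}

lemma KCn_le {S : Set G} (h : ∀ u ∈ S, u ∈ a.Γ ∧ lexpos a.L u) {w : G}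
    (hw : w ∈ Submonoid.closure S) : w ∈ a.Γ :=
  (Submonoid.closure_le (S := a.Γ.toSubmonoid)).2 (fun u hu => (h u hu).1) hw

lemma KCn_conj {S : Set G} (f : G) {w : G} (hw : w ∈ Submonoid.closure S) :
    f * w * f⁻¹ ∈ Submonoid.closure ((fun u => f * u * f⁻¹) '' S) := by
  induction hw using Submonoid.closure_induction with
  | mem x hx => exact Submonoid.subset_closure ⟨x, hx, rfl⟩
  | one => simp
  | mul x y _ _ ix iy => simpa [mul_assoc] using Submonoid.mul_mem _ ix iy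

lemma Cn.mono {s s' : Set G} (h : s ⊆ s') (hs : a.Cn s') : a.Cn s := by
  obtain ⟨S, F, h1, h2, h3, h4⟩ := hs
  exact ⟨S, F, h1, h2, h3, fun g hg => h4 g (h hg)⟩

lemma Cn.of_finite {s : Set G} (hs : s.Finite) : a.Cn s :=
  ⟨∅, s, finite_empty, hs, by simp, fun g hg => ⟨1, Submonoid.one_mem _, g, hg, by simp⟩⟩

lemma Cn.union {s s' : Set G} (hs : a.Cn s) (hs' : a.Cn s') : a.Cn (s ∪ s') := by
  obtain ⟨S, F, h1, h2, h3, h4⟩ := hs
  obtain ⟨S', F', h1', h2', h3', h4'⟩ := hs'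
  refine ⟨S ∪ S', F ∪ F', h1.union h1', h2.union h2', fun u hu => hu.elim (h3 u) (h3' u), ?_⟩
  rintro g (hg | hg)
  · obtain ⟨w, hw, f, hf, e⟩ := h4 g hg
    exact ⟨w, Submonoid.closure_mono subset_union_left hw, f, Or.inl hf, e⟩
  · obtain ⟨w, hw, f, hf, e⟩ := h4' g hg
    exact ⟨w, Submonoid.closure_mono subset_union_right hw, f, Or.inr hf, e⟩

lemma Cn.biUnion {ι : Type*} {I : Set ι} (hI : I.Finite) {s : ι → Set G} (hs : ∀ i ∈ I, a.Cn (s i)) :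
    a.Cn (⋃ i ∈ I, s i) := by
  induction I, hI using Set.Finite.induction_on with
  | empty => simpa using Cn.of_finite finite_empty
  | insert _ _ ih =>
    rw [biUnion_insert]
    exact (hs _ (mem_insert _ _)).union (ih fun i hi => hs i (mem_insert_of_mem _ hi))

lemma Cn.mul_right {s : Set G} (hs : a.Cn s) (g : G) : a.Cn ((· * g) '' s) := by
  obtain ⟨S, F, h1, h2, h3, h4⟩ := hs
  refine ⟨S, (· * g) '' F, h1, h2.image _, h3, ?_⟩
  rintro _ ⟨x, hx, rfl⟩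
  obtain ⟨w, hw, f, hf, rfl⟩ := h4 _ hx
  exact ⟨w, hw, _, ⟨f, hf, rfl⟩, mul_assoc _ _ _⟩

lemma Cn.mul {s s' : Set G} (hs : a.Cn s) (hΓ : s ⊆ a.Γ) (hs' : a.Cn s') : a.Cn (s * s') := by
  obtain ⟨S, F, h1, h2, h3, h4⟩ := hs
  obtain ⟨S', F', h1', h2', h3', h4'⟩ := hs'
  refine ⟨S ∪ image2 (fun f u => f * u * f⁻¹) (F ∩ a.Γ) S', F * F',
    h1.union ((h2.inter_of_left _).image2 _ h1'), h2.mul h2', ?_, ?_⟩
  · rintro u (hu | ⟨f, hf, u, hu, rfl⟩)
    · exact h3 u hu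
    · exact ⟨a.Γ.mul_mem (a.Γ.mul_mem hf.2 (h3' u hu).1) (a.Γ.inv_mem hf.2),
        pos_conj (h3' u hu).1 hf.2 (h3' u hu).2⟩
  · rintro _ ⟨x, hx, y, hy, rfl⟩
    obtain ⟨w, hw, f, hf, rfl⟩ := h4 x hx
    obtain ⟨w', hw', f', hf', rfl⟩ := h4' y hy
    have hfΓ : f ∈ a.Γ := (a.Γ.mul_mem_cancel_left (KCn_le h3 hw)).1 (hΓ hx)
    refine ⟨w * (f * w' * f⁻¹), Submonoid.mul_mem _ (Submonoid.closure_mono subset_union_left hw)
      (Submonoid.closure_mono ?_ (KCn_conj f hw')), f * f', mul_mem_mul hf hf', by group⟩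
    rintro _ ⟨u, hu, rfl⟩
    exact Or.inr ⟨f, ⟨hf, hfΓ⟩, u, hu, rfl⟩

lemma KCn_sublist {S : Set G} (hS : S.Finite) (h : ∀ u ∈ S, u ∈ a.Γ ∧ lexpos a.L u) (m : List G)
    (hm : ∀ x ∈ m, x ∈ S) : ∃ C : Set G, C.Finite ∧ (∀ u ∈ C, u ∈ a.Γ ∧ lexpos a.L u) ∧
      ∀ l : List G, (∀ x ∈ l, x ∈ S) → m.Sublist l →
        ∃ c ∈ Submonoid.closure C, l.prod = c * m.prod := by
  induction m with
  | nil =>
    exact ⟨S, hS, h, fun l hl _ => ⟨l.prod,
      Submonoid.list_prod_mem _ fun x hx => Submonoid.subset_closure (hl x hx), by simp⟩⟩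
  | cons x m ih =>
    obtain ⟨C, h1, h2, h3⟩ := ih fun y hy => hm y (by simp [hy])
    have hx := (h x (hm x (by simp))).1
    refine ⟨S ∪ (fun u => x * u * x⁻¹) '' C, hS.union (h1.image _), ?_, fun l => ?_⟩
    · rintro u (hu | ⟨u, hu, rfl⟩)
      · exact h u hu
      · exact ⟨a.Γ.mul_mem (a.Γ.mul_mem hx (h2 u hu).1) (a.Γ.inv_mem hx),
          pos_conj (h2 u hu).1 hx (h2 u hu).2⟩
    · induction l with
      | nil => simp
      | cons y l il =>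
        intro hl hs
        have hl' : ∀ z ∈ l, z ∈ S := fun z hz => hl z (by simp [hz])
        rcases List.sublist_cons_iff.1 hs with hs | ⟨r, e, hs⟩
        · obtain ⟨c, hc, e⟩ := il hl' hs
          exact ⟨y * c, Submonoid.mul_mem _ (Submonoid.subset_closure (Or.inl (hl y (by simp)))) hc,
            by rw [List.prod_cons, e, mul_assoc]⟩
        · obtain ⟨rfl, rfl⟩ := List.cons.inj e
          obtain ⟨c, hc, e⟩ := h3 l hl' hs
          exact ⟨x * c * x⁻¹, Submonoid.closure_mono subset_union_right (KCn_conj x hc),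
            by rw [List.prod_cons, List.prod_cons, e]; group⟩

/-- a positive set of this kind lies in a finitely generated positive monoid -/
theorem Cn.star {s : Set G} (hs : a.Cn s) (hp : ∀ g ∈ s, g ∈ a.Γ ∧ lexpos a.L g) :
    ∃ S : Set G, S.Finite ∧ (∀ u ∈ S, u ∈ a.Γ ∧ lexpos a.L u) ∧ s ⊆ Submonoid.closure S := by
  obtain ⟨S, F, h1, h2, h3, h4⟩ := hs
  have key : ∀ f : G, ∃ C : Set G, C.Finite ∧ (∀ u ∈ C, u ∈ a.Γ ∧ lexpos a.L u) ∧
      ∀ w ∈ Submonoid.closure S, w * f ∈ s → w * f ∈ Submonoid.closure C := by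
    intro f
    obtain ⟨M, hM, hM'⟩ := KCn_basis
      (W := {l : List G | (∀ x ∈ l, x ∈ S) ∧ l.prod * f ∈ s}) h1 fun l hl => hl.1
    choose! C c1 c2 c3 using KCn_sublist h1 h3
    refine ⟨⋃ m ∈ M, insert (m.prod * f) (C m),
      M.finite_toSet.biUnion fun m hm => (c1 m (hM m hm).1).insert _, fun u hu => ?_,
      fun w hw hws => ?_⟩
    · obtain ⟨m, hm, rfl | hu⟩ := mem_iUnion₂.1 hu
      exacts [hp _ (hM m hm).2, c2 m (hM m hm).1 u hu]
    · obtain ⟨l, hl, rfl⟩ := Submonoid.exists_list_of_mem_closure hw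
      obtain ⟨m, hm, hml⟩ := hM' l ⟨hl, hws⟩
      obtain ⟨c, hc, e⟩ := c3 m (hM m hm).1 l hl hml
      rw [e, mul_assoc]
      exact Submonoid.mul_mem _
        (Submonoid.closure_mono (fun u hu => mem_iUnion₂.2 ⟨m, hm, Or.inr hu⟩) hc)
        (Submonoid.subset_closure (mem_iUnion₂.2 ⟨m, hm, Or.inl rfl⟩))
  choose C c1 c2 c3 using key
  refine ⟨⋃ f ∈ F, C f, h2.biUnion fun f _ => c1 f, fun u hu => ?_, fun x hx => ?_⟩
  · obtain ⟨f, -, hu⟩ := mem_iUnion₂.1 hu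
    exact c2 f u hu
  · obtain ⟨w, hw, f, hf, rfl⟩ := h4 x hx
    exact Submonoid.closure_mono (fun u hu => mem_iUnion₂.2 ⟨f, hf, hu⟩) (c3 f w hw hx)

end Dat

end Pool.Agent.P.MP_a28d48_al
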