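import Pool.Agent.P.MP_a28d48_al.KDef

set_option autoImplicit false

namespace Pool.Agent.P.MP_a28d48_al

open Function Set Ser Pointwise

variable {G : Type*} [Group G]

/-- conjugates of `S` by `P` -/
def KCn2_cj (P S : Set G) : Set G := Set.image2 (fun p u => p * u * p⁻¹) P S

omit [Group G] in
lemma KCn2_short_words {S : Set G} (hS : S.Finite) (n : ℕ) :
    {l : List G | l.length ≤ n ∧ ∀ x ∈ l, x ∈ S}.Finite := by
  have := hS.to_subtype
  refine ((List.finite_length_le S n).image (List.map Subtype.val)).subset ?_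
  rintro l ⟨h1, h2⟩
  exact ⟨l.pmap Subtype.mk h2, by simpa using h1, by simp [List.map_pmap]⟩

lemma KCn2_split_word (H : Subgroup G) [H.FiniteIndex] (w : List G) (hw : H.index ≤ w.length) :
    ∃ x y z : List G, w = x ++ y ++ z ∧ x.length ≤ H.index ∧ y.length ≤ H.index ∧ y ≠ [] ∧
      y.prod ∈ H := by
  have key : ∀ i j : ℕ, i < j → j ≤ H.index →
      (((w.take i).prod : G) : G ⧸ H) = ((w.take j).prod : G) →
      ∃ x y z : List G, w = x ++ y ++ z ∧ x.length ≤ H.index ∧ y.length ≤ H.index ∧ y ≠ [] ∧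
        y.prod ∈ H := by
    intro i j hij hj e
    have e1 : w.take j = w.take i ++ (w.take j).drop i := by
      conv_lhs => rw [← List.take_append_drop i (w.take j)]
      rw [List.take_take, min_eq_left hij.le]
    refine ⟨w.take i, (w.take j).drop i, w.drop j, by rw [← e1, List.take_append_drop], ?_, ?_, ?_,
      ?_⟩
    · simp only [List.length_take]; omega
    · simp only [List.length_take, List.length_drop]; omega
    · intro h
      have := congrArg List.length h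
      simp only [List.length_take, List.length_drop, List.length_nil] at this
      omega
    · rw [QuotientGroup.eq, e1, List.prod_append, inv_mul_cancel_left] at e
      exact e
  haveI := Fintype.ofFinite (G ⧸ H)
  obtain ⟨i, j, hne, e⟩ := Fintype.exists_ne_map_eq_of_card_lt
    (fun i : Fin (H.index + 1) => (((w.take i).prod : G) : G ⧸ H))
    (by rw [Fintype.card_fin, ← Nat.card_eq_fintype_card]; exact Nat.lt_succ_self _)
  rcases lt_or_gt_of_ne (Fin.val_ne_of_ne hne) with h | h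
  · exact key i j h (by omega) e
  · exact key j i h (by omega) e.symm

lemma KCn2_exists_phi_list {Γ : Subgroup G} {S : Set G} (hS : S.Finite) (L : List (G → ℤ))
    (hL : ∀ χ ∈ L, IsChar Γ χ) (hp : ∀ u ∈ S, lexpos L u) :
    ∃ φ : G → ℤ, IsChar Γ φ ∧ (∀ g, (∀ χ ∈ L, χ g = 0) → φ g = 0) ∧ ∀ u ∈ S, 1 ≤ φ u := by
  induction L generalizing S with
  | nil => exact ⟨0, fun _ _ _ _ => by simp, fun _ _ => rfl, fun u hu => (hp u hu).elim⟩
  | cons χ L ih =>
    obtain ⟨φ, h1, h2, h3⟩ := ih (hS.subset (sep_subset S fun u => χ u = 0))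
      (fun χ' h => hL χ' (by simp [h]))
      (fun u hu => ((hp u hu.1).resolve_left (by rw [hu.2]; exact lt_irrefl _)).2)
    obtain ⟨M, hM⟩ := (hS.image fun u => 1 - φ u).bddAbove
    refine ⟨fun g => max M 0 * χ g + φ g, fun x hx y hy => ?_, fun g hg => ?_, fun u hu => ?_⟩
    · simp only [hL χ (by simp) x hx y hy, h1 x hx y hy]; ring
    · simp only [hg χ (by simp), h2 g fun χ' h => hg χ' (by simp [h])]; ring
    · rcases hp u hu with h | h
      · have h4 : 1 - φ u ≤ M := hM ⟨u, hu, rfl⟩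
        have h5 : max M 0 * 1 ≤ max M 0 * χ u :=
          mul_le_mul_of_nonneg_left h (le_max_right _ _)
        have h6 := le_max_left M 0
        simp only
        omega
      · simp only [h.1, mul_zero, zero_add]
        exact h3 u ⟨hu, h.1⟩

lemma IsChar.KCn2_le_prod {Γ : Subgroup G} {φ : G → ℤ} (h : IsChar Γ φ) {l : List G}
    (hl : ∀ x ∈ l, x ∈ Γ ∧ 1 ≤ φ x) : (l.length : ℤ) ≤ φ l.prod := by
  induction l with
  | nil => simp [h.one]
  | cons x l ih =>
    have h1 := ih fun y hy => hl y (by simp [hy])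
    have h2 := hl x (by simp)
    rw [List.prod_cons, h x h2.1 _ (Γ.list_prod_mem fun y hy => (hl y (by simp [hy])).1),
      List.length_cons]
    push_cast
    omega

namespace Dat

variable {a : Dat G}

lemma KCn2_pos_prod {l : List G} (hl : ∀ x ∈ l, x ∈ a.Γ ∧ lexpos a.L x) (h0 : l ≠ []) :
    lexpos a.L l.prod := by
  induction l with
  | nil => exact absurd rfl h0
  | cons x l ih =>
    by_cases h : l = []
    · simpa [h] using (hl x (by simp)).2
    · exact pos_mul (hl x (by simp)).1 (a.Γ.list_prod_mem fun y hy => (hl y (by simp [hy])).1)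
        (hl x (by simp)).2 (ih (fun y hy => hl y (by simp [hy])) h)

/-- one character that is positive on a finite positive set -/
theorem exists_phi {S : Set G} (hS : S.Finite) (hp : ∀ u ∈ S, lexpos a.L u) :
    ∃ φ : G → ℤ, IsChar a.Γ φ ∧ (∀ n ∈ a.N, φ n = 0) ∧ ∀ u ∈ S, 0 < φ u := by
  obtain ⟨φ, h1, h2, h3⟩ := KCn2_exists_phi_list hS a.L a.char hp
  exact ⟨φ, h1, fun g hg => h2 g ((a.ker g).1 hg).2, h3⟩

lemma finite_of_phi {φ lv : G → ℤ} (hφ : IsChar a.Γ φ) (hlv : ∀ h ∈ a.Γ, ∀ g, lv (h * g) = φ h + lv g)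
    {S F : Set G} (hS : S.Finite) (hF : F.Finite) (hp : ∀ u ∈ S, u ∈ a.Γ ∧ 0 < φ u) (n : ℤ) :
    {g | (∃ w ∈ Submonoid.closure S, ∃ f ∈ F, g = w * f) ∧ lv g ≤ n}.Finite := by
  refine (hF.biUnion fun f _ => (KCn2_short_words hS (n - lv f).toNat).image
    fun l => l.prod * f).subset ?_
  rintro _ ⟨⟨w, hw, f, hf, rfl⟩, hn⟩
  obtain ⟨l, hl, rfl⟩ := Submonoid.exists_list_of_mem_closure hw
  refine mem_biUnion hf ⟨l, ⟨?_, hl⟩, rfl⟩
  have h8 := hφ.KCn2_le_prod fun x hx => hp x (hl x hx)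
  rw [hlv _ (a.Γ.list_prod_mem fun x hx => (hp x (hl x hx)).1)] at hn
  omega

lemma exists_lv {φ : G → ℤ} (hφ : IsChar a.Γ φ) :
    ∃ lv : G → ℤ, ∀ h ∈ a.Γ, ∀ g, lv (h * g) = φ h + lv g := by
  let r : G → G := fun g => (Quotient.mk (QuotientGroup.rightRel a.Γ) g).out
  have h1 : ∀ g, g * (r g)⁻¹ ∈ a.Γ := fun g =>
    QuotientGroup.rightRel_apply.1 (Quotient.mk_out (s := QuotientGroup.rightRel a.Γ) g)
  refine ⟨fun g => φ (g * (r g)⁻¹), fun h hh g => ?_⟩
  have h2 : r (h * g) = r g := by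
    refine congrArg Quotient.out (Quotient.sound (QuotientGroup.rightRel_apply.2 ?_))
    simpa using hh
  simp only [h2]
  rw [mul_assoc, hφ h hh _ (h1 g)]

lemma Cn.fibre {s : Set G} (hs : a.Cn s) (g : G) : {n | n ∈ a.N ∧ n * g ∈ s}.Finite := by
  obtain ⟨S, F, h1, h2, h3, h4⟩ := hs
  obtain ⟨φ, h5, h6, h7⟩ := exists_phi h1 fun u hu => (h3 u hu).2
  obtain ⟨lv, h8⟩ := exists_lv h5
  refine ((finite_of_phi h5 h8 h1 h2 (fun u hu => ⟨(h3 u hu).1, h7 u hu⟩) (lv g)).preimage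
    (f := (· * g)) (mul_left_injective g).injOn).subset fun n hn => ⟨h4 _ hn.2, ?_⟩
  rw [h8 n (a.N_le hn.1), h6 n hn.1, zero_add]

/-- passage to a smaller normal subgroup of finite index -/
theorem Cn.refine {a' : Dat G} (hn : a'.Γ.Normal) (h2 : a'.Γ ≤ a.Γ) {L' : List (G → ℤ)}
    (h3 : a'.L = a.L ++ L') {s : Set G} (hs : a.Cn s) : a'.Cn s := by
  have hL := h3
  clear h2 h3
  obtain ⟨S, F, h1, h2, h3, h4⟩ := hs
  have := a'.fi
  let B : Set (List G) := {l | l.length ≤ a'.Γ.index ∧ ∀ x ∈ l, x ∈ S}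
  have hB : B.Finite := KCn2_short_words h1 _
  let S' := KCn2_cj (List.prod '' B) (List.prod '' {l ∈ B | l ≠ [] ∧ l.prod ∈ a'.Γ})
  have key : ∀ (n : ℕ) (l : List G), l.length = n → (∀ x ∈ l, x ∈ S) →
      ∃ w ∈ Submonoid.closure S', ∃ b ∈ B, l.prod = w * b.prod := by
    intro n
    induction n using Nat.strong_induction_on with
    | _ n ih =>
      intro l hn hl
      by_cases h : l.length ≤ a'.Γ.index
      · exact ⟨1, Submonoid.one_mem _, l, ⟨h, hl⟩, by simp⟩
      obtain ⟨x, y, z, rfl, hx, hy, h0, hm⟩ := KCn2_split_word a'.Γ l (by omega)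
      have := List.length_pos_iff.2 h0
      obtain ⟨w, hw, b, hb, e⟩ := ih (x ++ z).length (by simp at hn ⊢; omega) (x ++ z) rfl
        fun u hu => hl u (by simp at hu ⊢; tauto)
      refine ⟨x.prod * y.prod * x.prod⁻¹ * w, Submonoid.mul_mem _ (Submonoid.subset_closure
        ⟨_, ⟨x, ⟨hx, fun u hu => hl u (by simp [hu])⟩, rfl⟩, _,
          ⟨y, ⟨⟨hy, fun u hu => hl u (by simp [hu])⟩, h0, hm⟩, rfl⟩, rfl⟩) hw, b, hb, ?_⟩
      rw [mul_assoc, ← e]
      simp [mul_assoc]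
  refine ⟨S', List.prod '' B * F, (hB.image _).image2 _ ((hB.subset (sep_subset _ _)).image _),
    (hB.image _).mul h2, ?_, fun g hg => ?_⟩
  · rintro _ ⟨_, ⟨x, hx, rfl⟩, _, ⟨y, ⟨hy, h0, hm⟩, rfl⟩, rfl⟩
    refine ⟨hn.conj_mem _ hm _, ?_⟩
    rw [hL, lexpos_append]
    exact Or.inl (pos_conj (a.Γ.list_prod_mem fun u hu => (h3 u (hy.2 u hu)).1)
      (a.Γ.list_prod_mem fun u hu => (h3 u (hx.2 u hu)).1)
      (KCn2_pos_prod (fun u hu => h3 u (hy.2 u hu)) h0))
  · obtain ⟨w, hw, f, hf, rfl⟩ := h4 g hg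
    obtain ⟨l, hl, rfl⟩ := Submonoid.exists_list_of_mem_closure hw
    obtain ⟨w, hw', b, hb, e⟩ := key _ l rfl hl
    exact ⟨w, hw', b.prod * f, Set.mul_mem_mul ⟨b, hb, rfl⟩ hf, by rw [e, mul_assoc]⟩

end Dat

end Pool.Agent.P.MP_a28d48_al
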