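import Pool.Agent.P.MP_a28d48_al.KEmb

set_option autoImplicit false

namespace Pool.Agent.P.MP_a28d48_al

open Function Set Ser

variable {G : Type*} [Group G] {C : Cones G} {k : Type*} [Field k]

namespace Dat

variable {a : Dat G}

lemma kCoef_least {α : Type*} (r : α → α → Prop) (T : Finset α) (hne : T.Nonempty)
    (htr : ∀ x ∈ T, ∀ y ∈ T, ∀ z ∈ T, r x y → r y z → r x z)
    (hto : ∀ x ∈ T, ∀ y ∈ T, x ≠ y → r x y ∨ r y x) : ∃ t ∈ T, ∀ x ∈ T, x ≠ t → r t x := by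
  induction hne using Finset.Nonempty.cons_induction with
  | singleton b => exact ⟨b, by simp, by simp⟩
  | cons b s hb hs ih =>
    have hm : ∀ x ∈ s, x ∈ Finset.cons b s hb := fun x hx => Finset.mem_cons.2 (Or.inr hx)
    have hb' : b ∈ Finset.cons b s hb := Finset.mem_cons_self _ _
    obtain ⟨t, ht, h⟩ := ih (fun x hx y hy z hz => htr x (hm x hx) y (hm y hy) z (hm z hz))
      fun x hx y hy => hto x (hm x hx) y (hm y hy)
    rcases hto b hb' t (hm t ht) (fun e => hb (e ▸ ht)) with h1 | h1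
    · refine ⟨b, hb', fun x hx hxb => ?_⟩
      have hx' := (Finset.mem_cons.1 hx).resolve_left hxb
      by_cases hxt : x = t
      · exact hxt ▸ h1
      · exact htr b hb' t (hm t ht) x hx h1 (h x hx' hxt)
    · refine ⟨t, hm t ht, fun x hx hxt => ?_⟩
      rcases Finset.mem_cons.1 hx with rfl | hx'
      exacts [h1, h x hx' hxt]

/-- rational along the coset of `h` -/
def kCoef_G (w : a.MN C k) (h : a.Γ) : Prop :=
  ∃ c ∈ DD C k a.N, res (a.N.subgroupOf a.Γ) (w * sg h⁻¹ 1) = a.e C k c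

lemma kCoef_zero (h : a.Γ) : kCoef_G (0 : a.MN C k) h :=
  ⟨0, zero_mem _, by rw [zero_mul, map_zero, e_zero]⟩

lemma kCoef_add {w w' : a.MN C k} {h : a.Γ} (h1 : kCoef_G w h) (h2 : kCoef_G w' h) :
    kCoef_G (w + w') h := by
  obtain ⟨c, hc, e1⟩ := h1
  obtain ⟨c', hc', e2⟩ := h2
  exact ⟨c + c', add_mem hc hc', by
    rw [add_mul, map_add, e1, e2, e_add (DD_mono a.N_le hc) (DD_mono a.N_le hc')]⟩

lemma kCoef_sum {ι : Type*} (s : Finset ι) {w : ι → a.MN C k} {h : a.Γ}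
    (hw : ∀ i ∈ s, kCoef_G (w i) h) : kCoef_G (∑ i ∈ s, w i) h :=
  Finset.sum_induction _ (fun w => kCoef_G w h) (fun _ _ => kCoef_add) (kCoef_zero h) hw

lemma kCoef_e_mul {d : Ser C.adm k} (hd : d ∈ DD C k a.N) {w : a.MN C k} {h : a.Γ}
    (hw : kCoef_G w h) : kCoef_G (a.e C k d * w) h := by
  obtain ⟨c, hc, e1⟩ := hw
  refine ⟨d * c, mul_mem hd hc, ?_⟩
  rw [mul_assoc, res_mul _ fun x hx => e_supp a.N_le hd hx, e1,
    e_mul (DD_mono a.N_le hd) (DD_mono a.N_le hc)]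

lemma kCoef_sg_mul (t : a.Γ) {w : a.MN C k} {h : a.Γ} (hw : kCoef_G w (t⁻¹ * h)) :
    kCoef_G (sg t 1 * w) h := by
  obtain ⟨c, hc, e1⟩ := hw
  refine ⟨_, conj_mem_DD a.normal hc t, ?_⟩
  have ht : (sg (t : G) 1 : Ser C.adm k) ∈ DD C k a.Γ := sg_mem_DD t.2 1
  rw [e_mul (mul_mem ht (DD_mono a.N_le hc)) (sg_mem_DD (a.Γ.inv_mem t.2) 1),
    e_mul ht (DD_mono a.N_le hc), e_sg, ← Subgroup.coe_inv, e_sg, ← e1]
  ext x
  have : t⁻¹ * (x * t⁻¹⁻¹) ∈ a.N.subgroupOf a.Γ ↔ x ∈ a.N.subgroupOf a.Γ := by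
    simp only [Subgroup.mem_subgroupOf, inv_inv, Subgroup.coe_mul, Subgroup.coe_inv]
    rw [a.normal.mem_comm_iff, mul_inv_cancel_right]
  simp only [res_c, mul_sg_c, sg_mul_c]
  by_cases hx : x ∈ a.N.subgroupOf a.Γ
  · rw [if_pos hx, if_pos (this.2 hx)]
    simp [mul_assoc]
  · rw [if_neg hx, if_neg (mt this.1 hx)]
    simp

lemma kCoef_one (h : a.Γ) : kCoef_G (1 : a.MN C k) h := by
  by_cases hh : h⁻¹ ∈ a.N.subgroupOf a.Γ
  · exact ⟨sg ((h⁻¹ : a.Γ) : G) 1, sg_mem_DD (H := a.N) hh 1, by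
      rw [one_mul, res_sg_of_mem _ hh, e_sg]⟩
  · exact ⟨0, zero_mem _, by rw [one_mul, res_sg_of_notMem _ hh, e_zero]⟩

lemma kCoef_CP {q : Ser C.adm k} (hq : q ∈ CP C k a.N a.Γ) (h : a.Γ) :
    kCoef_G (a.e C k q) h := by
  refine CP_induction a.normal (p := fun q => kCoef_G (a.e C k q) h) ?_ ?_ ?_ hq
  · rw [e_zero]
    exact kCoef_zero h
  · intro d hd t ht
    rw [e_mul (DD_mono a.N_le hd) (sg_mem_DD ht 1), e_sg ⟨t, ht⟩, ← mul_one (sg _ _)]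
    exact kCoef_e_mul hd (kCoef_sg_mul _ (kCoef_one _))
  · intro x y hx hy h1 h2
    rw [e_add (CP_le_DD a.N_le hx) (CP_le_DD a.N_le hy)]
    exact kCoef_add h1 h2

lemma kCoef_coset {w : a.MN C k} {h n : a.Γ} (hn : n ∈ a.N.subgroupOf a.Γ)
    (hw : kCoef_G w (n * h)) : kCoef_G w h := by
  obtain ⟨c, hc, e1⟩ := hw
  refine ⟨c * sg (n : G) 1, mul_mem hc (sg_mem_DD (H := a.N) hn 1), ?_⟩
  rw [e_mul (DD_mono a.N_le hc) (sg_mem_DD n.2 1), e_sg, ← e1]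
  ext x
  have := (a.N.subgroupOf a.Γ).mul_mem_cancel_right (y := x) (inv_mem hn)
  simp only [res_c, mul_sg_c]
  by_cases hx : x ∈ a.N.subgroupOf a.Γ
  · rw [if_pos hx, if_pos (this.2 hx)]
    simp [mul_assoc]
  · rw [if_neg hx, if_neg (mt this.1 hx)]
    simp

lemma kCoef_bad {w : a.MN C k} {h : a.Γ} (hw : ¬ kCoef_G w h) :
    ∃ n ∈ a.N.subgroupOf a.Γ, w.c (n * h) ≠ 0 ∧ ¬ kCoef_G w (n * h) := by
  by_contra hc
  push Not at hc
  refine hw ⟨0, zero_mem _, ?_⟩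
  rw [e_zero]
  ext x
  by_cases hx : x ∈ a.N.subgroupOf a.Γ
  · by_contra h0
    rw [res_c, if_pos hx, mul_sg_c, inv_inv, mul_one] at h0
    exact hw (kCoef_coset hx (hc x hx h0))
  · rw [res_c, if_neg hx]
    rfl

lemma kCoef_all {x : Ser C.adm k} (hx : x ∈ DD C k a.Γ) (h : a.Γ) : kCoef_G (a.e C k x) h := by
  classical
  by_contra hbad
  obtain ⟨n₀, -, hn₀⟩ := kCoef_bad hbad
  obtain ⟨g, ⟨-, hg⟩, j, hmin⟩ := Cones.exists_min
    (s := {g | (a.e C k x).c g ≠ 0 ∧ ¬ kCoef_G (a.e C k x) g})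
    ((a.cones C).adm.mono (fun g hg => hg.1) (a.e C k x).adm) ⟨_, hn₀⟩
  obtain ⟨q, hq, hq0, hp⟩ := dd_frac a a.N_le le_rfl hx
  obtain ⟨T, T1, T2, T3, T4⟩ := CP_normal a.normal a.N_le hq
  obtain ⟨t₀, ht₀, hl⟩ := kCoef_least (fun s t : G => lexpos a.L (s⁻¹ * t)) T
    (Finset.nonempty_iff_ne_empty.2 fun e => hq0 (by rw [T4, e, Finset.sum_empty]))
    (fun s hs t ht u hu h1 h2 => by
      simpa [mul_assoc] using pos_mul (mul_mem (inv_mem (T1 s hs)) (T1 t ht))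
        (mul_mem (inv_mem (T1 t ht)) (T1 u hu)) h1 h2)
    (fun s hs t ht hst => by
      simpa using pos_total (mul_mem (inv_mem (T1 s hs)) (T1 t ht)) fun hN =>
        hst (T2 t ht s hs (a.normal.mem_comm hN)).symm)
  let d : G → Ser C.adm k := fun t => res a.N (q * sg t⁻¹ 1)
  let F : G → a.MN C k := fun t => a.e C k (d t * sg t 1) * a.e C k x
  have hF : ∀ t (ht : t ∈ T), F t = a.e C k (d t) * (sg ⟨t, T1 t ht⟩ 1 * a.e C k x) := fun t ht => by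
    simp only [F]
    rw [e_mul (DD_mono a.N_le (T3 t ht).1) (sg_mem_DD (T1 t ht) 1), e_sg ⟨t, T1 t ht⟩, mul_assoc]
  have hsum : a.e C k (q * x) = F t₀ + ∑ t ∈ T.erase t₀, F t := by
    rw [Finset.add_sum_erase T F ht₀, e_mul (CP_le_DD a.N_le hq) hx, ← Finset.sum_mul,
      ← e_sum T fun t ht => mul_mem (DD_mono a.N_le (T3 t ht).1) (sg_mem_DD (T1 t ht) 1), ← T4]
  let τ : a.Γ := ⟨t₀, T1 t₀ ht₀⟩
  have h1 : kCoef_G (∑ t ∈ T.erase t₀, F t) (τ * g) := kCoef_sum _ fun t ht => by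
    obtain ⟨hne, ht⟩ := Finset.mem_erase.1 ht
    rw [hF t ht]
    refine kCoef_e_mul (T3 t ht).1 (kCoef_sg_mul _ ?_)
    by_contra hb
    obtain ⟨n, hn, hn'⟩ := kCoef_bad hb
    have hu := hl t ht hne
    have huΓ : t₀⁻¹ * t ∈ a.Γ := mul_mem (inv_mem τ.2) (T1 t ht)
    have hnN : (n : G) ∈ a.N := hn
    have hv : ∀ v : a.Γ, v = g⁻¹ * (n * ((⟨t, T1 t ht⟩ : a.Γ)⁻¹ * (τ * g))) →
        (n : G) = g * v * (g : G)⁻¹ * (t₀⁻¹ * t) := by
      rintro _ rfl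
      simp [τ, mul_assoc]
    have hN : ∀ v : a.Γ, v = g⁻¹ * (n * ((⟨t, T1 t ht⟩ : a.Γ)⁻¹ * (τ * g))) → (v : G) ∉ a.N :=
      fun v e hvN => not_pos hnN (hv v e ▸ N_mul_pos huΓ (a.normal.conj_mem _ hvN _) hu)
    rcases hmin _ hn' with e | e | e
    · exact hN 1 (by rw [← e, inv_mul_cancel]) a.N.one_mem
    · exact not_pos hnN (hv _ rfl ▸ pos_mul (mul_mem (mul_mem g.2 (Subtype.prop _)) (inv_mem g.2))
        huΓ (pos_conj (Subtype.prop _) g.2 e) hu)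
    · exact hN _ rfl e.1
  have h2 : kCoef_G (F t₀) (τ * g) := by
    have := kCoef_add (kCoef_CP hp (τ * g)) (kCoef_e_mul (neg_mem (one_mem _)) h1)
    rwa [e_neg (one_mem _), e_one, hsum, neg_one_mul, add_neg_cancel_right] at this
  have h3 := kCoef_e_mul (inv_mem (T3 t₀ ht₀).1) h2
  rw [hF t₀ ht₀, e_inv (DD_mono a.N_le (T3 t₀ ht₀).1), inv_mul_cancel_left₀ fun h0 =>
    (T3 t₀ ht₀).2 (e_eq_zero (DD_mono a.N_le (T3 t₀ ht₀).1) h0)] at h3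
  have h4 := kCoef_sg_mul τ⁻¹ (h := g) (by rw [inv_inv]; exact h3)
  rw [← mul_assoc, sg_mul_sg, inv_mul_cancel, mul_one, ← one_def, one_mul] at h4
  exact hg h4

/-- coefficients along cosets of `N` are rational -/
theorem e_coef {x : Ser C.adm k} (hx : x ∈ DD C k a.Γ) (h : a.Γ) :
    ∃ c ∈ DD C k a.N, ∀ n : a.Γ, (n : G) ∈ a.N → (a.e C k x).c (n * h) = c.c n := by
  obtain ⟨c, hc, e1⟩ := kCoef_all hx h
  refine ⟨c, hc, fun n hn => ?_⟩
  rw [← e_c (mem_CP_of_DD hc), ← e1, res_c, if_pos (Subgroup.mem_subgroupOf.2 hn), mul_sg_c,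
    inv_inv, mul_one]

end Dat

end Pool.Agent.P.MP_a28d48_al
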