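import Pool.Agent.P.MP_a28d48_al.Cone

set_option autoImplicit false

namespace Pool.Agent.P.MP_a28d48_al

open Function Set Ser

variable {G : Type*} [Group G]

section Lex

/-- additive on the subgroup `Γ` -/
def IsChar (Γ : Subgroup G) (χ : G → ℤ) : Prop := ∀ a ∈ Γ, ∀ b ∈ Γ, χ (a * b) = χ a + χ b

/-- the first nonzero value is positive -/
def lexpos : List (G → ℤ) → G → Prop
  | [], _ => False
  | χ :: L, g => 0 < χ g ∨ (χ g = 0 ∧ lexpos L g)

variable {Γ : Subgroup G}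

lemma IsChar.one {χ : G → ℤ} (h : IsChar Γ χ) : χ 1 = 0 := by
  simpa using h 1 Γ.one_mem 1 Γ.one_mem

lemma IsChar.inv {χ : G → ℤ} (h : IsChar Γ χ) {g : G} (hg : g ∈ Γ) : χ g⁻¹ = -χ g := by
  have := h g hg g⁻¹ (Γ.inv_mem hg)
  rw [mul_inv_cancel, h.one] at this
  omega

lemma IsChar.conj {χ : G → ℤ} (h : IsChar Γ χ) {g x : G} (hg : g ∈ Γ) (hx : x ∈ Γ) :
    χ (x * g * x⁻¹) = χ g := by
  rw [h _ (Γ.mul_mem hx hg) _ (Γ.inv_mem hx), h _ hx _ hg, h.inv hx]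
  omega

lemma IsChar.mono {Γ' : Subgroup G} (hle : Γ' ≤ Γ) {χ : G → ℤ} (h : IsChar Γ χ) : IsChar Γ' χ :=
  fun a ha b hb => h a (hle ha) b (hle hb)

omit [Group G] in
lemma lexpos_congr {L : List (G → ℤ)} {g h : G} (e : ∀ χ ∈ L, χ g = χ h) (hg : lexpos L g) :
    lexpos L h := by
  induction L with
  | nil => exact hg
  | cons χ L ih =>
    rw [lexpos, ← e χ (by simp)]
    exact hg.imp id fun h' => ⟨h'.1, ih (fun χ' hχ' => e χ' (by simp [hχ'])) h'.2⟩

omit [Group G] in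
lemma not_lexpos {L : List (G → ℤ)} {g : G} (e : ∀ χ ∈ L, χ g = 0) : ¬ lexpos L g := by
  induction L with
  | nil => exact id
  | cons χ L ih =>
    rintro (h | h)
    · exact h.ne' (e χ (by simp))
    · exact ih (fun χ' hχ' => e χ' (by simp [hχ'])) h.2

lemma lexpos_mul {L : List (G → ℤ)} (hL : ∀ χ ∈ L, IsChar Γ χ) {g h : G} (hg : g ∈ Γ) (hh : h ∈ Γ)
    (pg : lexpos L g) (ph : lexpos L h) : lexpos L (g * h) := by
  induction L with
  | nil => exact pg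
  | cons χ L ih =>
    have e := hL χ (by simp) g hg h hh
    rcases pg with pg | pg <;> rcases ph with ph | ph
    · exact Or.inl (by omega)
    · exact Or.inl (by omega)
    · exact Or.inl (by omega)
    · exact Or.inr ⟨by omega, ih (fun χ' hχ' => hL χ' (by simp [hχ'])) pg.2 ph.2⟩

lemma lexpos_total {L : List (G → ℤ)} (hL : ∀ χ ∈ L, IsChar Γ χ) {g : G} (hg : g ∈ Γ)
    (h : ¬ ∀ χ ∈ L, χ g = 0) : lexpos L g ∨ lexpos L g⁻¹ := by
  induction L with
  | nil => simp at h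
  | cons χ L ih =>
    have e := (hL χ (by simp)).inv hg
    rcases lt_trichotomy 0 (χ g) with h0 | h0 | h0
    · exact Or.inl (Or.inl h0)
    · exact (ih (fun χ' hχ' => hL χ' (by simp [hχ'])) fun h' => h (by simpa [← h0] using h')).imp
        (fun h' => Or.inr ⟨h0.symm, h'⟩) fun h' => Or.inr ⟨by omega, h'⟩
    · exact Or.inr (Or.inl (by omega))

omit [Group G] in
lemma lexpos_append {L L' : List (G → ℤ)} {g : G} :
    lexpos (L ++ L') g ↔ lexpos L g ∨ ((∀ χ ∈ L, χ g = 0) ∧ lexpos L' g) := by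
  induction L with
  | nil => simp [lexpos]
  | cons χ L ih =>
    simp only [List.cons_append, lexpos, ih, List.forall_mem_cons]
    tauto

end Lex

/-- a finite index subgroup with a list of characters -/
structure Dat (G : Type*) [Group G] where
  Γ : Subgroup G
  N : Subgroup G
  L : List (G → ℤ)
  fi : Γ.FiniteIndex
  normal : N.Normal
  char : ∀ χ ∈ L, IsChar Γ χ
  ker : ∀ g, g ∈ N ↔ g ∈ Γ ∧ ∀ χ ∈ L, χ g = 0

namespace Dat

variable (a : Dat G)

lemma N_le : a.N ≤ a.Γ := fun g hg => ((a.ker g).1 hg).1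

variable {a}

lemma pos_mul {g h : G} (hg : g ∈ a.Γ) (hh : h ∈ a.Γ) (pg : lexpos a.L g) (ph : lexpos a.L h) :
    lexpos a.L (g * h) := lexpos_mul a.char hg hh pg ph

lemma pos_mul_N {g n : G} (hg : g ∈ a.Γ) (hn : n ∈ a.N) (pg : lexpos a.L g) : lexpos a.L (g * n) :=
  lexpos_congr (fun χ hχ => by
    rw [a.char χ hχ g hg n (a.N_le hn), ((a.ker n).1 hn).2 χ hχ, add_zero]) pg

lemma N_mul_pos {g n : G} (hg : g ∈ a.Γ) (hn : n ∈ a.N) (pg : lexpos a.L g) : lexpos a.L (n * g) :=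
  lexpos_congr (fun χ hχ => by
    rw [a.char χ hχ n (a.N_le hn) g hg, ((a.ker n).1 hn).2 χ hχ, zero_add]) pg

lemma pos_conj {g x : G} (hg : g ∈ a.Γ) (hx : x ∈ a.Γ) (pg : lexpos a.L g) :
    lexpos a.L (x * g * x⁻¹) :=
  lexpos_congr (fun χ hχ => ((a.char χ hχ).conj hg hx).symm) pg

lemma not_pos {n : G} (hn : n ∈ a.N) : ¬ lexpos a.L n := not_lexpos ((a.ker n).1 hn).2

lemma pos_total {g : G} (hg : g ∈ a.Γ) (hn : g ∉ a.N) : lexpos a.L g ∨ lexpos a.L g⁻¹ :=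
  lexpos_total a.char hg fun h => hn ((a.ker g).2 ⟨hg, h⟩)

variable (a)

/-- characters first, then the given order -/
def cones (C : Cones G) : Cones a.Γ where
  P _ := {g | lexpos a.L g ∨ ((g : G) ∈ a.N ∧ ∃ l, (g : G) ∈ C.P l)}
  mono _ := subset_rfl
  mul := by
    rintro _ _ g h (hg | ⟨hg, l, hl⟩) (hh | ⟨hh, l', hl'⟩)
    · exact Or.inl (pos_mul g.2 h.2 hg hh)
    · exact Or.inl (pos_mul_N g.2 hh hg)
    · exact Or.inl (N_mul_pos h.2 hg hh)
    · exact Or.inr ⟨a.N.mul_mem hg hh, l, C.mul hl hl'⟩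
  conj := by
    rintro _ g x (hg | ⟨hg, l, hl⟩)
    · exact Or.inl (pos_conj g.2 x.2 hg)
    · exact Or.inr ⟨a.normal.conj_mem _ hg _, l, C.conj _ hl⟩
  one := by
    rintro _ (h | ⟨-, l, hl⟩)
    · exact not_pos a.N.one_mem h
    · exact C.one l hl
  total g hg := by
    refine ⟨0, ?_⟩
    by_cases hn : (g : G) ∈ a.N
    · obtain ⟨l, hl⟩ := C.total g fun h => hg (Subtype.ext h)
      exact hl.imp (fun h => Or.inr ⟨hn, l, h⟩) fun h => Or.inr ⟨a.N.inv_mem hn, l, h⟩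
    · exact (pos_total g.2 hn).imp Or.inl Or.inl

lemma mem_cones (C : Cones G) (j : ℕ) (g : a.Γ) :
    g ∈ (a.cones C).P j ↔ lexpos a.L g ∨ ((g : G) ∈ a.N ∧ ∃ l, (g : G) ∈ C.P l) := Iff.rfl

/-- a new leading character -/
def cons (φ : G → ℤ) (h : IsChar a.Γ φ) (h0 : ∀ g ∈ a.N, φ g = 0) : Dat G where
  Γ := a.Γ
  N := a.N
  L := φ :: a.L
  fi := a.fi
  normal := a.normal
  char := by
    intro χ hχ
    rcases List.mem_cons.1 hχ with rfl | hχ
    exacts [h, a.char χ hχ]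
  ker g := by
    rw [List.forall_mem_cons]
    exact ⟨fun hg => ⟨a.N_le hg, h0 g hg, ((a.ker g).1 hg).2⟩, fun hg => (a.ker g).2 ⟨hg.1, hg.2.2⟩⟩

/-- contained in finitely many translates of a finitely generated positive monoid -/
def Cn (s : Set G) : Prop :=
  ∃ S F : Set G, S.Finite ∧ F.Finite ∧ (∀ u ∈ S, u ∈ a.Γ ∧ lexpos a.L u) ∧
    ∀ g ∈ s, ∃ w ∈ Submonoid.closure S, ∃ f ∈ F, g = w * f

end Dat

/-- a finite right transversal -/
def IsTv (Γ : Subgroup G) (T : Finset G) : Prop := ∀ g, ∃! t, t ∈ T ∧ g * t⁻¹ ∈ Γ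

variable (C : Cones G) (k : Type*) [Field k]

/-- division closure of the group algebra of `H` -/
noncomputable def DD (H : Subgroup G) : Subfield (Ser C.adm k) :=
  Subfield.closure {x | ∃ h ∈ H, ∃ r, x = sg h r}

/-- finite sums of homogeneous elements -/
noncomputable def CP (N M : Subgroup G) : Subring (Ser C.adm k) :=
  Subring.closure ((DD C k N : Set (Ser C.adm k)) ∪ {x | ∃ h ∈ M, x = sg h 1})

/-- a descending chain of data -/
structure Chain (G : Type*) [Group G] where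
  a : ℕ → Dat G
  zero : (a 0).Γ = ⊤
  normal : ∀ j, (a j).Γ.Normal
  le : ∀ j, (a (j + 1)).Γ ≤ (a j).Γ
  N_le : ∀ j, (a j).N ≤ (a (j + 1)).Γ
  app : ∀ j, ∃ L', (a (j + 1)).L = (a j).L ++ L'
  sep : ∀ g, g ≠ 1 → ∃ j, g ∉ (a j).N

/-- positive elements up to level `j` -/
def Chain.Pi (c : Chain G) (j : ℕ) : Set G := {u | ∃ i ≤ j, u ∈ (c.a i).Γ ∧ lexpos (c.a i).L u}

end Pool.Agent.P.MP_a28d48_al
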