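import Pool.Agent.P.MP_a28d48_al.KEmb0

set_option autoImplicit false

namespace Pool.Agent.P.MP_a28d48_al

open Function Set Ser

variable {G : Type*} [Group G] (C : Cones G) (k : Type*) [Field k]

namespace Dat

variable (a : Dat G)

/-- the embedding of the division closure -/
noncomputable def e : Ser C.adm k → a.MN C k := (a.exists_emb C k).choose

variable {C k a}

lemma e_c {x : Ser C.adm k} (hx : x ∈ CP C k a.N a.Γ) (h : a.Γ) : (a.e C k x).c h = x.c h :=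
  (a.exists_emb C k).choose_spec.1 x hx h

lemma e_add {x y : Ser C.adm k} (hx : x ∈ DD C k a.Γ) (hy : y ∈ DD C k a.Γ) :
    a.e C k (x + y) = a.e C k x + a.e C k y := ((a.exists_emb C k).choose_spec.2 x hx y hy).1

lemma e_mul {x y : Ser C.adm k} (hx : x ∈ DD C k a.Γ) (hy : y ∈ DD C k a.Γ) :
    a.e C k (x * y) = a.e C k x * a.e C k y := ((a.exists_emb C k).choose_spec.2 x hx y hy).2

lemma e_sg (h : a.Γ) (r : k) : a.e C k (sg (h : G) r) = sg h r := by
  ext g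
  rw [e_c (sg_mem_CP h.2 r)]
  by_cases hg : g = h
  · subst hg
    rw [sg_c_self, sg_c_self]
  · rw [sg_c_ne r hg, sg_c_ne r fun e => hg (Subtype.ext e)]

lemma e_zero : a.e C k 0 = 0 := by
  ext g
  rw [e_c (Subring.zero_mem _)]
  rfl

lemma e_one : a.e C k 1 = 1 := by
  exact e_sg (a := a) (C := C) (k := k) 1 1

lemma e_neg {x : Ser C.adm k} (hx : x ∈ DD C k a.Γ) : a.e C k (-x) = -a.e C k x := by
  have h := e_add (a := a) hx ((DD C k a.Γ).neg_mem hx)
  rw [add_neg_cancel, e_zero] at h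
  exact (neg_eq_of_add_eq_zero_right h.symm).symm

lemma e_sub {x y : Ser C.adm k} (hx : x ∈ DD C k a.Γ) (hy : y ∈ DD C k a.Γ) :
    a.e C k (x - y) = a.e C k x - a.e C k y := by
  rw [sub_eq_add_neg, e_add hx ((DD C k a.Γ).neg_mem hy), e_neg hy, sub_eq_add_neg]

lemma e_inv {x : Ser C.adm k} (hx : x ∈ DD C k a.Γ) : a.e C k x⁻¹ = (a.e C k x)⁻¹ := by
  by_cases h0 : x = 0
  · rw [h0, inv_zero, e_zero, inv_zero]
  · have h := e_mul (a := a) hx ((DD C k a.Γ).inv_mem hx)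
    rw [mul_inv_cancel₀ h0, e_one] at h
    exact eq_inv_of_mul_eq_one_right h.symm

lemma e_eq_zero {x : Ser C.adm k} (hx : x ∈ DD C k a.Γ) (h : a.e C k x = 0) : x = 0 := by
  by_contra h0
  have h1 := e_mul (a := a) hx ((DD C k a.Γ).inv_mem hx)
  rw [mul_inv_cancel₀ h0, e_one, h, zero_mul] at h1
  exact one_ne_zero h1

lemma e_sum {ι : Type*} (s : Finset ι) {x : ι → Ser C.adm k} (hx : ∀ i ∈ s, x i ∈ DD C k a.Γ) :
    a.e C k (∑ i ∈ s, x i) = ∑ i ∈ s, a.e C k (x i) := by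
  classical
  induction s using Finset.induction_on with
  | empty => rw [Finset.sum_empty, Finset.sum_empty, e_zero]
  | insert i s hi ih =>
    have hs : ∀ j ∈ s, x j ∈ DD C k a.Γ := fun j hj => hx j (Finset.mem_insert_of_mem hj)
    rw [Finset.sum_insert hi, Finset.sum_insert hi,
      e_add (hx i (Finset.mem_insert_self i s)) (Subfield.sum_mem _ hs), ih hs]

lemma e_c_finite {x : Ser C.adm k} (hx : (support x.c).Finite) (hΓ : support x.c ⊆ a.Γ) (h : a.Γ) :
    (a.e C k x).c h = x.c h := by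
  classical
  refine e_c ?_ h
  have e : x = ∑ g ∈ hx.toFinset, sg g (x.c g) := by
    ext y
    rw [sum_c, Finset.sum_eq_single y]
    · rw [sg_c_self]
    · intro g _ hg
      exact sg_c_ne _ hg.symm
    · intro hy
      rw [sg_c_self]
      by_contra h0
      exact hy (hx.mem_toFinset.2 h0)
  rw [e]
  exact Subring.sum_mem _ fun g hg => sg_mem_CP (hΓ (hx.mem_toFinset.1 hg)) _

theorem e_supp {M : Subgroup G} (hM : M ≤ a.Γ) {x : Ser C.adm k} (hx : x ∈ DD C k M) {h : a.Γ}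
    (hh : (a.e C k x).c h ≠ 0) : (h : G) ∈ M := by
  have key : x ∈ DD C k a.Γ ∧ a.e C k x ∈ subF (a.cones C) k (M.subgroupOf a.Γ) := by
    refine Subfield.closure_induction
      (p := fun y _ => y ∈ DD C k a.Γ ∧ a.e C k y ∈ subF (a.cones C) k (M.subgroupOf a.Γ))
      ?_ ?_ ?_ ?_ ?_ ?_ hx
    · rintro y ⟨g, hg, r, rfl⟩
      refine ⟨sg_mem_DD (hM hg) r, ?_⟩
      rw [e_sg (a := a) ⟨g, hM hg⟩ r]
      intro z hz
      rw [eq_of_sg_c hz]
      exact hg
    · rw [e_one]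
      exact ⟨Subfield.one_mem _, Subfield.one_mem _⟩
    · rintro y z - - ⟨hy, hy'⟩ ⟨hz, hz'⟩
      rw [e_add hy hz]
      exact ⟨Subfield.add_mem _ hy hz, Subfield.add_mem _ hy' hz'⟩
    · rintro y - ⟨hy, hy'⟩
      rw [e_neg hy]
      exact ⟨Subfield.neg_mem _ hy, Subfield.neg_mem _ hy'⟩
    · rintro y - ⟨hy, hy'⟩
      rw [e_inv hy]
      exact ⟨Subfield.inv_mem _ hy, Subfield.inv_mem _ hy'⟩
    · rintro y z - - ⟨hy, hy'⟩ ⟨hz, hz'⟩
      rw [e_mul hy hz]
      exact ⟨Subfield.mul_mem _ hy hz, Subfield.mul_mem _ hy' hz'⟩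
  exact key.2 hh

end Dat

end Pool.Agent.P.MP_a28d48_al
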