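import Pool.Agent.P.MP_a28d48_al.KOre

set_option autoImplicit false

namespace Pool.Agent.P.MP_a28d48_al

open Function Set Ser

variable {G : Type*} [Group G] (C : Cones G) (k : Type*) [Field k]

namespace Dat

variable (a : Dat G)

/-- series for the order of the datum -/
abbrev MN := Ser (a.cones C).adm k

/-- a set inside one coset of `N` that is admissible for the given order -/
lemma adm_coset {s : Set G} (hs : C.adm.mem s) {t : G} (ht : ∀ g ∈ s, g * t⁻¹ ∈ a.N) :
    (a.cones C).adm.mem {g : a.Γ | (g : G) ∈ s} := by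
  obtain ⟨j, hj⟩ := hs
  refine ⟨0, partiallyWellOrderedOn_iff_exists_lt.2 fun f hf => ?_⟩
  obtain ⟨m, n, h1, h2⟩ := partiallyWellOrderedOn_iff_exists_lt.1 hj (fun i => (f i : G)) hf
  refine ⟨m, n, h1, h2.imp Subtype.ext fun h3 => Or.inr ⟨?_, j, h3⟩⟩
  have h4 := a.normal.conj_mem _
    (a.N.mul_mem (a.N.inv_mem (ht _ (hf m))) (ht _ (hf n))) t⁻¹
  simpa [mul_assoc] using h4

lemma kemb0_adm {x : Ser C.adm k} (hx : x ∈ CP C k a.N a.Γ) : support x.c ⊆ a.Γ ∧
    (a.cones C).adm.mem (support fun h : a.Γ => x.c h) := by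
  refine ⟨DD_le_subF a.Γ (CP_le_DD a.N_le hx), ?_⟩
  refine CP_induction (p := fun x => (a.cones C).adm.mem (support fun h : a.Γ => x.c h)) a.normal
    ((a.cones C).adm.of_finite (by simp)) (fun d hd h _ => ?_) (fun x y _ _ h1 h2 => ?_) hx
  · refine a.adm_coset C (d * sg h 1).adm (t := h) fun g hg => DD_le_subF a.N hd ?_
    simpa [mul_sg_c] using hg
  · exact (a.cones C).adm.mono (support_add _ _) ((a.cones C).adm.union h1 h2)

theorem exists_emb : ∃ e : Ser C.adm k → a.MN C k,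
    (∀ x ∈ CP C k a.N a.Γ, ∀ h : a.Γ, (e x).c h = x.c h) ∧
    ∀ x ∈ DD C k a.Γ, ∀ y ∈ DD C k a.Γ, e (x + y) = e x + e y ∧ e (x * y) = e x * e y := by
  classical
  let ι : Ser C.adm k → a.MN C k := fun x =>
    if h : (a.cones C).adm.mem (support fun h : a.Γ => x.c h) then ⟨fun h => x.c h, h⟩ else 0
  have hι : ∀ x ∈ CP C k a.N a.Γ, ∀ h : a.Γ, (ι x).c h = x.c h := fun x hx h => by
    simp only [ι, dif_pos (a.kemb0_adm C k hx).2]
  obtain ⟨e, e1, e2⟩ := ore_ext (CP C k a.N a.Γ) (cp_ore a a.N_le le_rfl) ι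
    (fun x hx y hy => Ser.ext (funext fun h => by
      rw [add_c, hι _ (add_mem hx hy), hι _ hx, hι _ hy, add_c]))
    (fun x hx y hy => Ser.ext (funext fun h => by
      rw [hι _ (mul_mem hx hy), mul_c_sup _ _ h (ι x).adm (ι y).adm subset_rfl subset_rfl,
        mul_c_of x y h ((ad (ι x).adm (ι y).adm h).image fun p => ((p.1 : G), (p.2 : G))),
        Finset.sum_image fun p _ q _ hpq =>
          Prod.ext (Subtype.ext (Prod.ext_iff.1 hpq).1) (Subtype.ext (Prod.ext_iff.1 hpq).2)]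
      · exact Finset.sum_congr rfl fun p _ => by rw [hι _ hx, hι _ hy]
      · intro p hp
        obtain ⟨q, hq, rfl⟩ := Finset.mem_image.1 hp
        exact congrArg Subtype.val ((mem_ad _ _ _ _).1 hq).2.2
      · intro u v hu hv huv
        refine Finset.mem_image.2 ⟨(⟨u, (a.kemb0_adm C k hx).1 hu⟩, ⟨v, (a.kemb0_adm C k hy).1 hv⟩),
          (mem_ad _ _ _ _).2 ⟨?_, ?_, Subtype.ext huv⟩, rfl⟩
        · rwa [mem_support, hι _ hx]
        · rwa [mem_support, hι _ hy]))
    (fun x hx h0 => Ser.ext (funext fun g => by_contra fun hg => hg (by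
      have := hι x hx ⟨g, (a.kemb0_adm C k hx).1 hg⟩
      rw [h0] at this
      exact this.symm)))
  rw [closure_CP a.N_le] at e2
  exact ⟨e, fun x hx h => by rw [e1 x hx, hι x hx], e2⟩

end Dat

end Pool.Agent.P.MP_a28d48_al
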