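import Pool.Agent.P.MP_a28d48_al.KLead

set_option autoImplicit false

namespace Pool.Agent.P.MP_a28d48_al

open Function Set Ser

variable {G : Type*} [Group G] {C : Cones G} {k : Type*} [Field k]

lemma KInv_tv {Γ : Subgroup G} {T : Finset G} (hT : IsTv Γ T) {t t' : G} (ht : t ∈ T)
    (ht' : t' ∈ T) (h : t * t'⁻¹ ∈ Γ) : t = t' :=
  (hT t).unique ⟨ht, by simp⟩ ⟨ht', h⟩

lemma KInv_one_c (a : Dat G) (h : a.Γ) :
    (1 : a.MN C k).c h = (sg 1 1 : Ser C.adm k).c h := by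
  by_cases h1 : h = 1
  · subst h1
    rw [one_def, sg_c_self]
    exact (sg_c_self (1 : G) (1 : k)).symm
  · rw [one_def, sg_c_ne _ h1]
    exact (sg_c_ne _ fun e => h1 (Subtype.ext e)).symm

lemma KInv_Y_sg [DecidableEq G] {a : Dat G} {T : Finset G} (hT : IsTv a.Γ T) {t t' : G}
    (ht : t ∈ T) (ht' : t' ∈ T) :
    a.Y C k (sg t 1 * sg t'⁻¹ 1) = if t = t' then 1 else 0 := by
  refine Ser.ext (funext fun h => ?_)
  rw [sg_mul_sg, Dat.Y_c_finite ((finite_singleton _).subset fun x hx => eq_of_sg_c hx)]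
  split_ifs with e
  · rw [e, mul_inv_cancel, mul_one, KInv_one_c]
  · exact sg_c_ne _ fun h1 => e (KInv_tv hT ht ht' (h1 ▸ h.2))

namespace Chain

variable {c : Chain G}

theorem pp_inv {j : ℕ} {x : Ser C.adm k} (hx : (c.a j).Pp x) : ∃ j', (c.a j').Pp x⁻¹ := by
  classical
  by_cases h0 : x = 0
  · exact ⟨j, by rw [h0, inv_zero, ← h0]; exact hx⟩
  obtain ⟨j', hj, hl⟩ := exists_lead hx h0
  choose m hm using hl
  refine ⟨j', ?_⟩
  have hx' := (pp_up hj hx).1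
  have hD := hx.1
  have hfi := (c.a j').fi
  obtain ⟨T, hT, -⟩ := exists_tv (c.a j').Γ
  obtain ⟨hinj, hT'⟩ := lead_tv hD hm hT
  set a := c.a j' with ha
  have hs : ∀ g : G, (sg g 1 : Ser C.adm k) ∈ DD C k ⊤ := fun g => sg_mem_DD (Subgroup.mem_top g) 1
  have hDi : x⁻¹ ∈ DD C k ⊤ := Subfield.inv_mem _ hD
  let A : G → G → a.MN C k := fun t t' => a.Y C k (sg t 1 * x * sg (m t')⁻¹ 1)
  let r : G → k := fun t => a.X C k (sg t 1 * x) (m t)
  let U : G → G → a.MN C k := fun t t' => (if t = t' then 1 else 0) - sg 1 (r t)⁻¹ * A t t'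
  have hA : ∀ t t' (h : a.Γ), (A t t').c h = a.X C k (sg t 1 * x) (h * m t') := fun t t' h =>
    Dat.Y_c (Subfield.mul_mem _ (hs t) hD) _ h
  have hU : ∀ t ∈ T, ∀ t' ∈ T, a.Cz (U t t') := by
    intro t _ t' _
    simp only [U]
    rw [sub_eq_add_neg]
    refine Dat.Cz.add ?_ ((Dat.Cz.sg _ _).mul (hx'.cz t (m t'))).neg
    split_ifs
    exacts [Dat.Cz.sg 1 1, Dat.Cz.zero]
  have hP : ∀ t ∈ T, ∀ t' ∈ T, ∀ h, (U t t').c h ≠ 0 → (h : G) * m t' * (m t)⁻¹ ∈ c.Pi j' := by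
    intro t ht t' ht' h hh
    have h1 : (U t t').c h = (if t = t' then 1 else 0 : a.MN C k).c h -
        (r t)⁻¹ * a.X C k (sg t 1 * x) (h * m t') := by
      simp only [U]
      rw [sub_c, sg_mul_c, inv_one, one_mul, hA]
    rw [h1] at hh
    refine (hm t).2 _ (fun h2 => ?_) fun h2 => ?_
    · rw [h2, mul_zero, sub_zero] at hh
      split_ifs at hh with e
      · obtain rfl : h = 1 := eq_of_sg_c hh
        refine (hm t).1 ?_
        rw [← h2, e]
        simp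
      · exact hh rfl
    · have h3 : m t = m t' := KInv_tv hT' (Finset.mem_image_of_mem m ht)
        (Finset.mem_image_of_mem m ht') (by rw [← h2]; simp)
      obtain rfl := hinj ht ht' h3
      obtain rfl : h = 1 := Subtype.ext (by simpa using h2)
      rw [h2, if_pos rfl, one_def, sg_c_self, inv_mul_cancel₀ (hm t).1, sub_self] at hh
      exact hh rfl
  refine Dat.pp_of_cz hDi hT fun g t₀ ht₀ => ?_
  let b : G → a.MN C k := fun t' => a.Y C k (sg g 1 * sg (m t')⁻¹ 1)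
  have hb : ∀ t' ∈ T, a.Cz (b t') := fun t' _ => by
    have := (Dat.pp_sg (a := a) (C := C) 1 (1 : k)).cz g (m t')
    rwa [← one_def, mul_one] at this
  obtain ⟨v, hv1, hv2⟩ := Dat.kleene (a := a) (Pos := c.Pi j') (fun _ h1 _ h2 => c.Pi_mul h1 h2)
    (fun _ h1 _ h2 => c.Pi_conj h1 h2) (fun _ h1 => c.mem_Pi_iff h1) m T U b hU hP hb
  have h1 : ∀ t' ∈ T, ∑ t ∈ T, v t * sg 1 (r t)⁻¹ * A t t' = b t' := by
    intro t' ht'
    have h2 := hv2 t' ht'
    simp only [U, mul_sub, Finset.sum_sub_distrib, mul_ite, mul_one, mul_zero,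
      Finset.sum_ite_eq', if_pos ht', ← mul_assoc] at h2
    rw [add_sub_assoc', eq_sub_iff_add_eq, add_comm, add_left_inj] at h2
    exact h2
  have hz : x⁻¹ * sg t₀⁻¹ 1 ∈ DD C k ⊤ := Subfield.mul_mem _ hDi (hs _)
  have h2 : ∀ y ∈ DD C k ⊤, a.Y C k (y * (x⁻¹ * sg t₀⁻¹ 1)) = ∑ t' ∈ T,
      a.Y C k (y * sg (m t')⁻¹ 1) * a.Y C k (sg (m t') 1 * (x⁻¹ * sg t₀⁻¹ 1)) := fun y hy => by
    rw [Dat.Y_mul hT' hy hz, Finset.sum_image hinj]
  have h3 : a.Y C k (sg g 1 * x⁻¹ * sg t₀⁻¹ 1) = v t₀ * sg 1 (r t₀)⁻¹ := by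
    rw [mul_assoc, h2 _ (hs g)]
    calc _ = ∑ t' ∈ T, ∑ t ∈ T, v t * sg 1 (r t)⁻¹ *
            (A t t' * a.Y C k (sg (m t') 1 * (x⁻¹ * sg t₀⁻¹ 1))) := by
          refine Finset.sum_congr rfl fun t' ht' => ?_
          change b t' * _ = _
          rw [← h1 t' ht', Finset.sum_mul]
          exact Finset.sum_congr rfl fun t _ => mul_assoc _ _ _
      _ = ∑ t ∈ T, v t * sg 1 (r t)⁻¹ * (if t = t₀ then 1 else 0) := by
          rw [Finset.sum_comm]
          refine Finset.sum_congr rfl fun t ht => ?_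
          rw [← Finset.mul_sum, ← h2 _ (Subfield.mul_mem _ (hs t) hD), mul_assoc (sg t 1),
            mul_inv_cancel_left₀ h0, KInv_Y_sg hT ht ht₀]
      _ = _ := by simp only [mul_ite, mul_one, mul_zero, Finset.sum_ite_eq', if_pos ht₀]
  rw [h3]
  exact (hv1 t₀ ht₀).mul (Dat.Cz.sg _ _)

end Chain

end Pool.Agent.P.MP_a28d48_al
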