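import Pool.Agent.P.MP_a28d48_al.KCn

set_option autoImplicit false

namespace Pool.Agent.P.MP_a28d48_al

open Function Set Ser

variable {G : Type*} [Group G] {C : Cones G} {k : Type*} [Field k]

namespace Dat

variable {a : Dat G}

variable (a) in
/-- series with support of the controlled kind -/
def Cz (z : Ser (a.cones C).adm k) : Prop := a.Cn (Subtype.val '' support z.c)

lemma Cz.zero : a.Cz (0 : Ser (a.cones C).adm k) := by
  exact Cn.of_finite ((finite_empty.subset fun x hx => absurd rfl hx).image _)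

lemma Cz.sg (h : a.Γ) (r : k) : a.Cz (sg h r : Ser (a.cones C).adm k) := by
  exact Cn.of_finite (((finite_singleton h).subset fun x hx => eq_of_sg_c hx).image _)

lemma Cz.add {z z' : Ser (a.cones C).adm k} (h : a.Cz z) (h' : a.Cz z') : a.Cz (z + z') := by
  refine Cn.mono ?_ (Cn.union h h')
  rw [← image_union]
  exact image_mono (support_add _ _)

lemma Cz.neg {z : Ser (a.cones C).adm k} (h : a.Cz z) : a.Cz (-z) := by
  exact Cn.mono (image_mono fun x hx => by simpa using hx) h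

lemma Cz.mul {z z' : Ser (a.cones C).adm k} (h : a.Cz z) (h' : a.Cz z') : a.Cz (z * z') := by
  refine Cn.mono ?_ (Cn.mul h (by rintro _ ⟨x, -, rfl⟩; exact x.2) h')
  rintro _ ⟨x, hx, rfl⟩
  obtain ⟨b, c, hb, hc, rfl⟩ := exists_of_mul_c hx
  exact ⟨b, ⟨b, hb, rfl⟩, c, ⟨c, hc, rfl⟩, rfl⟩

lemma Cz.sum {ι : Type*} (s : Finset ι) {z : ι → Ser (a.cones C).adm k} (h : ∀ i ∈ s, a.Cz (z i)) :
    a.Cz (∑ i ∈ s, z i) := by
  exact Finset.sum_induction _ _ (fun _ _ => Cz.add) Cz.zero h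

theorem Cz.geom {u : Ser (a.cones C).adm k} (h : a.Cz u) (hp : ∀ g, u.c g ≠ 0 → lexpos a.L g) :
    ∃ z : Ser (a.cones C).adm k, a.Cz z ∧ z * (1 - u) = 1 ∧
      ∀ g, z.c g ≠ 0 → g = 1 ∨ lexpos a.L g := by
  obtain ⟨S, h1, h2, h3⟩ := Cn.star h (by
    rintro _ ⟨x, hx, rfl⟩
    exact ⟨x.2, hp x hx⟩)
  have h0 : 1 - u ≠ 0 := fun e => by
    have h4 : u.c 1 ≠ 0 := by
      rw [← sub_eq_zero.1 e, one_def, sg_c_self]
      exact one_ne_zero
    exact not_pos a.N.one_mem (hp 1 h4)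
  have hz : (1 - u)⁻¹ = 1 + u * (1 - u)⁻¹ := by
    rw [← sub_eq_iff_eq_add, ← one_sub_mul, mul_inv_cancel₀ h0]
  have key : ∀ g, ((1 - u)⁻¹).c g ≠ 0 → (g : G) ∈ Submonoid.closure S := by
    by_contra hc
    push Not at hc
    obtain ⟨g, ⟨hg, hg'⟩, j, hmin⟩ := Cones.exists_min
      (s := {g | ((1 - u)⁻¹).c g ≠ 0 ∧ (g : G) ∉ Submonoid.closure S})
      ((a.cones C).adm.mono (fun g hg => hg.1) ((1 - u)⁻¹).adm) hc
    have hg1 : g ≠ 1 := fun e => hg' (e ▸ Submonoid.one_mem _)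
    rw [hz, add_c, one_def, sg_c_ne _ hg1, zero_add] at hg
    obtain ⟨x, y, hx, hy, rfl⟩ := exists_of_mul_c hg
    have hx' : x ∈ (a.cones C).P j := Or.inl (hp x hx)
    rcases hmin y ⟨hy, fun hy' => hg' (Submonoid.mul_mem _ (h3 ⟨x, hx, rfl⟩) hy')⟩ with e | e
    · rw [mul_eq_right.1 e] at hx'
      exact (a.cones C).one j hx'
    · have := (a.cones C).mul ((a.cones C).conj y⁻¹ hx') e
      rw [show y⁻¹ * x * y⁻¹⁻¹ * ((x * y)⁻¹ * y) = 1 by group] at this
      exact (a.cones C).one j this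
  have pos : ∀ w ∈ Submonoid.closure S, w ∈ a.Γ ∧ (w = 1 ∨ lexpos a.L w) := by
    intro w hw
    induction hw using Submonoid.closure_induction with
    | mem x hx => exact ⟨(h2 x hx).1, Or.inr (h2 x hx).2⟩
    | one => exact ⟨a.Γ.one_mem, Or.inl rfl⟩
    | mul x y _ _ hx hy =>
      refine ⟨a.Γ.mul_mem hx.1 hy.1, ?_⟩
      rcases hx.2 with rfl | h5
      · simpa using hy.2
      rcases hy.2 with rfl | h6
      · exact Or.inr (by simpa using h5)
      · exact Or.inr (pos_mul hx.1 hy.1 h5 h6)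
  refine ⟨(1 - u)⁻¹, ⟨S, {1}, h1, finite_singleton _, h2, ?_⟩, inv_mul_cancel₀ h0, fun g hg =>
    (pos g (key g hg)).2.imp (fun e => Subtype.ext e) id⟩
  rintro _ ⟨g, hg, rfl⟩
  exact ⟨g, key g hg, 1, rfl, (mul_one _).symm⟩

theorem kleene {Pos : Set G} (hmul : ∀ g ∈ Pos, ∀ h ∈ Pos, g * h ∈ Pos)
    (hconj : ∀ g ∈ Pos, ∀ x ∈ a.Γ, x * g * x⁻¹ ∈ Pos) (hΓ : ∀ g ∈ a.Γ, g ∈ Pos ↔ lexpos a.L g)
    {ι : Type*} [DecidableEq ι] (m : ι → G) (I : Finset ι) :
    ∀ (U : ι → ι → Ser (a.cones C).adm k) (b : ι → Ser (a.cones C).adm k),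
      (∀ i ∈ I, ∀ j ∈ I, a.Cz (U i j)) →
      (∀ i ∈ I, ∀ j ∈ I, ∀ h, (U i j).c h ≠ 0 → (h : G) * m j * (m i)⁻¹ ∈ Pos) →
      (∀ j ∈ I, a.Cz (b j)) → ∃ v : ι → Ser (a.cones C).adm k, (∀ i ∈ I, a.Cz (v i)) ∧
        ∀ j ∈ I, v j = b j + ∑ i ∈ I, v i * U i j := by
  induction I using Finset.induction_on with
  | empty => exact fun _ b _ _ _ => ⟨b, by simp, by simp⟩
  | insert n I hn ih =>
    intro U b hU hP hb
    have hi : ∀ {i}, i ∈ I → i ∈ insert n I := Finset.mem_insert_of_mem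
    have h0 : n ∈ insert n I := Finset.mem_insert_self n I
    obtain ⟨z, hz, hz1, hz2⟩ := (hU n h0 n h0).geom fun g hg =>
      (hΓ g g.2).1 (by simpa using hP n h0 n h0 g hg)
    obtain ⟨v, hv, hv'⟩ := ih (fun i j => U i j + U i n * z * U n j) (fun j => b j + b n * z * U n j)
      (fun i h j h' => (hU i (hi h) j (hi h')).add
        (((hU i (hi h) n h0).mul hz).mul (hU n h0 j (hi h'))))
      (fun i h j h' g hg => by
        by_cases h1 : (U i j).c g = 0
        swap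
        · exact hP i (hi h) j (hi h') g h1
        rw [add_c, h1, zero_add] at hg
        obtain ⟨_, x₃, h2, h3, rfl⟩ := exists_of_mul_c hg
        obtain ⟨x₁, x₂, e1, e2, rfl⟩ := exists_of_mul_c h2
        have h4 : (x₂ : G) * (x₃ * m j * (m n)⁻¹) ∈ Pos := by
          rcases hz2 x₂ e2 with rfl | h5
          · simpa using hP n h0 j (hi h') x₃ h3
          · exact hmul _ ((hΓ _ x₂.2).2 h5) _ (hP n h0 j (hi h') x₃ h3)
        have h5 := hmul _ (hconj _ h4 x₁ x₁.2) _ (hP i (hi h) n h0 x₁ e1)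
        rwa [show (x₁ : G) * (x₂ * (x₃ * m j * (m n)⁻¹)) * (x₁ : G)⁻¹ * (x₁ * m n * (m i)⁻¹) =
          ((x₁ * x₂ * x₃ : a.Γ) : G) * m j * (m i)⁻¹ by push_cast; group] at h5)
      (fun j h => (hb j (hi h)).add (((hb n h0).mul hz).mul (hU n h0 j (hi h))))
    have hup : ∀ (w : Ser (a.cones C).adm k) (j : ι),
        ∑ i ∈ I, update v n w i * U i j = ∑ i ∈ I, v i * U i j := fun w j =>
      Finset.sum_congr rfl fun i h => by rw [update_of_ne (ne_of_mem_of_not_mem h hn)]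
    refine ⟨update v n ((b n + ∑ i ∈ I, v i * U i n) * z), fun i h => ?_, fun j h => ?_⟩
    · rcases Finset.mem_insert.1 h with rfl | h
      · rw [update_self]
        exact ((hb i h0).add (Cz.sum I fun l hl => (hv l hl).mul (hU l (hi hl) i h0))).mul hz
      · rw [update_of_ne (ne_of_mem_of_not_mem h hn)]
        exact hv i h
    · rw [Finset.sum_insert hn, hup, update_self]
      rcases Finset.mem_insert.1 h with rfl | h
      · rw [update_self, add_comm (_ * U j j), ← add_assoc, ← sub_eq_iff_eq_add,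
          ← mul_one_sub, mul_assoc, hz1, mul_one]
      · rw [update_of_ne (ne_of_mem_of_not_mem h hn), hv' j h]
        simp only [mul_add, add_mul, Finset.sum_add_distrib, Finset.sum_mul, mul_assoc]
        abel

end Dat

end Pool.Agent.P.MP_a28d48_al
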