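import Pool.Agent.P.MP_a28d48_al.KP

set_option autoImplicit false

namespace Pool.Agent.P.MP_a28d48_al

open Function Set Ser

variable {G : Type*} [Group G] {C : Cones G} {k : Type*} [Field k]

namespace Chain

variable {c : Chain G}

lemma KLead_dd {x : Ser C.adm k} (hx : x ∈ DD C k ⊤) (g : G) : sg g 1 * x ∈ DD C k ⊤ :=
  (DD C k ⊤).mul_mem (sg_mem_DD (Subgroup.mem_top g) 1) hx

lemma KLead_shift {a : Dat G} {x : Ser C.adm k} (hx : x ∈ DD C k ⊤) {h : G} (hh : h ∈ a.Γ)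
    (g y : G) : a.X C k (sg (h * g) 1 * x) y = a.X C k (sg g 1 * x) (h⁻¹ * y) := by
  rw [← Dat.X_sg_mul (KLead_dd hx g) hh, mul_inv_cancel_left, ← mul_assoc, sg_mul_sg, mul_one]

lemma KLead_min (j : ℕ) {x : Ser C.adm k} (hx : x ∈ DD C k ⊤) (h0 : x ≠ 0) (g : G) :
    ∃ m, (c.a j).X C k (sg g 1 * x) m ≠ 0 ∧
      ∀ y, (c.a j).X C k (sg g 1 * x) y ≠ 0 → m * y⁻¹ ∉ c.Pi j := by
  refine Dat.exists_minimal (fun _ hg _ hh => c.Pi_mul hg hh) (fun _ hg _ hn => c.Pi_mul_N hg hn)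
    (fun _ hn => c.not_Pi hn) (fun _ hg => c.mem_Pi_iff hg) (KLead_dd hx g) (mul_ne_zero ?_ h0)
  intro h
  simpa using congrArg (fun z : Ser C.adm k => z.c g) h

lemma KLead_sep (j : ℕ) {W : Set G} (hW : W.Finite) :
    ∃ j', j ≤ j' ∧ ∀ w ∈ W, w ∈ (c.a j').N → w = 1 := by
  have : ∀ w : G, ∃ i, w ∈ (c.a i).N → w = 1 := fun w => by
    by_cases h : w = 1
    · exact ⟨0, fun _ => h⟩
    · exact (c.sep w h).imp fun i hi hw => (hi hw).elim
  choose f hf using this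
  obtain ⟨b, hb⟩ := (hW.image f).bddAbove
  exact ⟨max j b, le_max_left _ _, fun w hw h =>
    hf w (c.N_anti ((hb ⟨w, hw, rfl⟩).trans (le_max_right _ _)) h)⟩

/-- at a high level the leading term is a single group element -/
theorem exists_lead {j : ℕ} {x : Ser C.adm k} (hx : (c.a j).Pp x) (h0 : x ≠ 0) :
    ∃ j', j ≤ j' ∧ ∀ g, ∃ m, (c.a j').X C k (sg g 1 * x) m ≠ 0 ∧
      ∀ y, (c.a j').X C k (sg g 1 * x) y ≠ 0 → y ≠ m → y * m⁻¹ ∈ c.Pi j' := by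
  have := (c.a j).fi
  obtain ⟨T, hT, -⟩ := exists_tv (c.a j).Γ
  choose m0 hm0 hm1 using KLead_min (c := c) j hx.1 h0
  let Z : G → Set G := fun t =>
    {n | n ∈ (c.a j).N ∧ n * m0 t ∈ support ((c.a j).X C k (sg t 1 * x))}
  have hZ : ∀ t, (Z t).Finite := fun t => (hx.2 t).fibre _
  obtain ⟨j', hj, hW⟩ := KLead_sep (c := c) j
    (T.finite_toSet.biUnion fun t _ => (hZ t).image2 (fun n n' => n * n'⁻¹) (hZ t))
  refine ⟨j', hj, fun g => ?_⟩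
  obtain ⟨m, hm, hmin⟩ := KLead_min (c := c) j' hx.1 h0 g
  refine ⟨m, hm, fun y hy hne => ?_⟩
  refine (c.Pi_total fun hN => hne ?_).resolve_right (by simpa using hmin y hy)
  obtain ⟨t, ⟨ht, hh⟩, -⟩ := hT g
  obtain ⟨h, rfl⟩ : ∃ h, g = h * t := ⟨g * t⁻¹, by simp⟩
  rw [mul_inv_cancel_right] at hh
  simp only [(pp_up hj hx).2, KLead_shift hx.1 hh] at hm hy hmin
  have h1 : h⁻¹ * m * (m0 t)⁻¹ ∈ (c.a j).N := by
    by_contra hn
    rcases c.Pi_total hn with hp | hp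
    · refine hmin (h * m0 t) (by simpa using hm0 t) (c.Pi_mono hj ?_)
      simpa [mul_assoc] using c.Pi_conj hp hh
    · exact hm1 t _ hm (by simpa [mul_assoc] using hp)
  have h2 : h⁻¹ * (y * m⁻¹) * h ∈ (c.a j').N := by
    simpa using (c.a j').normal.conj_mem _ hN h⁻¹
  have h3 : h⁻¹ * y * (m0 t)⁻¹ ∈ (c.a j).N := by
    simpa [mul_assoc] using (c.a j).N.mul_mem (c.N_anti hj h2) h1
  have h4 := hW (h⁻¹ * (y * m⁻¹) * h) (mem_biUnion ht
    ⟨_, ⟨h3, by simpa using hy⟩, _, ⟨h1, by simpa using hm⟩, by simp [mul_assoc]⟩) h2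
  rw [mul_eq_one_iff_eq_inv, mul_eq_left, mul_inv_eq_one] at h4
  exact h4

theorem lead_mono {j : ℕ} {x : Ser C.adm k} (hx : x ∈ DD C k ⊤) {g u m m' : G} (hu : u ∈ c.Pi j)
    (hm : ∀ y, (c.a j).X C k (sg g 1 * x) y ≠ 0 → y ≠ m → y * m⁻¹ ∈ c.Pi j)
    (hm' : (c.a j).X C k (sg (u * g) 1 * x) m' ≠ 0) : m' * m⁻¹ ∈ c.Pi j := by
  obtain ⟨i, hi, huΓ, hu⟩ := hu
  obtain ⟨n, hn, h1⟩ := (c.supp_level hi (KLead_dd hx (u * g)) m').2
    ⟨1, (c.a i).N.one_mem, by rwa [one_mul]⟩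
  rw [KLead_shift hx huΓ] at h1
  obtain ⟨n', hn', h2⟩ := (c.supp_level hi (KLead_dd hx g) (u⁻¹ * (n * m'))).1
    ⟨1, (c.a i).N.one_mem, by rwa [one_mul]⟩
  have h3 : n⁻¹ * (u * n'⁻¹) ∈ c.Pi j := c.Pi_mono hi (c.N_mul_Pi
    (c.Pi_mul_N ⟨i, le_rfl, huΓ, hu⟩ ((c.a i).N.inv_mem hn')) ((c.a i).N.inv_mem hn))
  by_cases he : n' * (u⁻¹ * (n * m')) = m
  · simpa [← he, mul_assoc] using h3
  · simpa [mul_assoc] using c.Pi_mul h3 (hm _ h2 he)

/-- the leading terms of a transversal form a transversal -/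
theorem lead_tv [DecidableEq G] {j : ℕ} {x : Ser C.adm k} (hx : x ∈ DD C k ⊤) {m : G → G}
    (hm : ∀ g, (c.a j).X C k (sg g 1 * x) (m g) ≠ 0 ∧
      ∀ y, (c.a j).X C k (sg g 1 * x) y ≠ 0 → y ≠ m g → y * (m g)⁻¹ ∈ c.Pi j)
    {T : Finset G} (hT : IsTv (c.a j).Γ T) :
    InjOn m T ∧ IsTv (c.a j).Γ (T.image m) := by
  have h1 : (1 : G) ∉ c.Pi j := c.not_Pi (c.a j).N.one_mem
  have heq : ∀ h ∈ (c.a j).Γ, ∀ g, m (h * g) = h * m g := by
    intro h hh g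
    by_contra hne
    have e1 := (hm (h * g)).2 (h * m g) (by simpa [KLead_shift hx hh] using (hm g).1) (Ne.symm hne)
    have e2 := (hm g).2 (h⁻¹ * m (h * g)) (by simpa [KLead_shift hx hh] using (hm (h * g)).1)
      fun e => hne (by rw [← e, mul_inv_cancel_left])
    exact h1 (by simpa [mul_assoc] using c.Pi_mul e1 (c.Pi_conj e2 hh))
  have hinj : ∀ t ∈ T, ∀ t' ∈ T, m t' * (m t)⁻¹ ∈ (c.a j).Γ → t = t' := by
    intro t ht t' ht' hh
    obtain ⟨h, e⟩ : ∃ h, h = m t' * (m t)⁻¹ := ⟨_, rfl⟩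
    rw [← e] at hh
    have e1 : m (h * t) = m t' := by rw [heq h hh, e, inv_mul_cancel_right]
    have hN : t' * (h * t)⁻¹ ∈ (c.a j).N := by
      by_contra hn
      rcases c.Pi_total hn with hp | hp
      · have := lead_mono (m' := m t') hx hp (hm (h * t)).2
          (by simpa [mul_assoc] using (hm t').1)
        exact h1 (by simpa [e1] using this)
      · have := lead_mono (m' := m (h * t)) hx hp (hm t').2
          (by simpa [mul_assoc] using (hm (h * t)).1)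
        exact h1 (by simpa [e1] using this)
    exact (hT t').unique ⟨ht, by
      simpa [mul_assoc] using (c.a j).Γ.mul_mem ((c.a j).N_le hN) hh⟩
      ⟨ht', by simp [(c.a j).Γ.one_mem]⟩
  refine ⟨fun t ht t' ht' e => hinj t ht t' ht' (by simp [e, (c.a j).Γ.one_mem]), fun g => ?_⟩
  choose r hr using fun g => (hT g).exists
  have hs : Surjective fun t : T => (⟨r (m t), (hr _).1⟩ : T) :=
    Finite.injective_iff_surjective.1 fun t t' e => Subtype.ext (hinj _ t.2 _ t'.2 (by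
      have e' : r (m t) = r (m t') := congrArg Subtype.val e
      simpa [e', mul_assoc] using (c.a j).Γ.mul_mem (hr (m t')).2 ((c.a j).Γ.inv_mem (hr (m t)).2)))
  obtain ⟨t, ht⟩ := hs ⟨r g, (hr g).1⟩
  have e' : r (m t) = r g := congrArg Subtype.val ht
  have e2 : g * (m t)⁻¹ ∈ (c.a j).Γ := by
    simpa [e', mul_assoc] using (c.a j).Γ.mul_mem (hr g).2 ((c.a j).Γ.inv_mem (hr (m t)).2)
  refine ⟨m t, ⟨Finset.mem_image_of_mem _ t.2, e2⟩, ?_⟩
  rintro _ ⟨hs', e3⟩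
  obtain ⟨t', ht', rfl⟩ := Finset.mem_image.1 hs'
  rw [hinj _ t.2 _ ht' (by
    simpa [mul_assoc] using (c.a j).Γ.mul_mem ((c.a j).Γ.inv_mem e3) e2)]

end Chain

end Pool.Agent.P.MP_a28d48_al
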