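import Mathlib

set_option autoImplicit false

namespace Pool.Agent.P.MP_a28d48_al

open Function Set

section General

variable {E₁ E₂ : Type*} [DivisionRing E₁] [DivisionRing E₂]

theorem ore_frac (R : Subring E₁)
    (hore : ∀ p ∈ R, ∀ q ∈ R, q ≠ 0 → ∃ a ∈ R, ∃ b ∈ R, b ≠ 0 ∧ b * p = a * q) {x : E₁}
    (hx : x ∈ Subfield.closure (R : Set E₁)) : ∃ q ∈ R, q ≠ 0 ∧ q * x ∈ R := by
  let Q : Subfield E₁ :=
    { carrier := {x | ∃ q ∈ R, q ≠ 0 ∧ q * x ∈ R}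
      mul_mem' := by
        rintro x y ⟨q, hq, hq0, hx⟩ ⟨r, hr, hr0, hy⟩
        obtain ⟨a, ha, b, hb, hb0, e⟩ := hore _ hx r hr hr0
        refine ⟨b * q, R.mul_mem hb hq, mul_ne_zero hb0 hq0, ?_⟩
        rw [← mul_assoc, mul_assoc b, e, mul_assoc]
        exact R.mul_mem ha hy
      one_mem' := ⟨1, R.one_mem, one_ne_zero, by simp⟩
      add_mem' := by
        rintro x y ⟨q, hq, hq0, hx⟩ ⟨r, hr, hr0, hy⟩
        obtain ⟨a, ha, b, hb, hb0, e⟩ := hore q hq r hr hr0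
        refine ⟨b * q, R.mul_mem hb hq, mul_ne_zero hb0 hq0, ?_⟩
        rw [mul_add, mul_assoc, e, mul_assoc]
        exact R.add_mem (R.mul_mem hb hx) (R.mul_mem ha hy)
      zero_mem' := ⟨1, R.one_mem, one_ne_zero, by simp⟩
      neg_mem' := by
        rintro x ⟨q, hq, hq0, hx⟩
        exact ⟨q, hq, hq0, by rw [mul_neg]; exact R.neg_mem hx⟩
      inv_mem' := by
        rintro x ⟨q, hq, hq0, hx⟩
        by_cases h0 : x = 0
        · exact ⟨1, R.one_mem, one_ne_zero, by simp [h0]⟩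
        · exact ⟨q * x, hx, mul_ne_zero hq0 h0, by rwa [mul_inv_cancel_right₀ h0]⟩ }
  exact (Subfield.closure_le (t := Q)).2
    (fun y hy => ⟨1, R.one_mem, one_ne_zero, by simpa using hy⟩) hx

theorem ore_ext (R : Subring E₁)
    (hore : ∀ p ∈ R, ∀ q ∈ R, q ≠ 0 → ∃ a ∈ R, ∃ b ∈ R, b ≠ 0 ∧ b * p = a * q) (ι : E₁ → E₂)
    (hadd : ∀ x ∈ R, ∀ y ∈ R, ι (x + y) = ι x + ι y) (hmul : ∀ x ∈ R, ∀ y ∈ R, ι (x * y) = ι x * ι y)
    (hinj : ∀ x ∈ R, ι x = 0 → x = 0) :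
    ∃ e : E₁ → E₂, (∀ x ∈ R, e x = ι x) ∧ ∀ x ∈ Subfield.closure (R : Set E₁),
      ∀ y ∈ Subfield.closure (R : Set E₁), e (x + y) = e x + e y ∧ e (x * y) = e x * e y := by
  choose! Q hQ hQ0 hQx using fun x hx => ore_frac R hore (x := x) hx
  have hι : ∀ q ∈ R, q ≠ 0 → ι q ≠ 0 := fun q hq h0 h => h0 (hinj q hq h)
  obtain ⟨e, he⟩ : ∃ e : E₁ → E₂, ∀ x, e x = (ι (Q x))⁻¹ * ι (Q x * x) := ⟨_, fun _ => rfl⟩
  have key : ∀ x ∈ Subfield.closure (R : Set E₁), ∀ q ∈ R, q * x ∈ R → ι q * e x = ι (q * x) := by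
    intro x hx q hq hqx
    obtain ⟨a, ha, b, hb, hb0, h⟩ := hore q hq _ (hQ x hx) (hQ0 x hx)
    refine mul_left_cancel₀ (hι b hb hb0) ?_
    rw [← mul_assoc, ← hmul b hb q hq, h, hmul a ha _ (hQ x hx), mul_assoc, he,
      mul_inv_cancel_left₀ (hι _ (hQ x hx) (hQ0 x hx)), ← hmul a ha _ (hQx x hx),
      ← hmul b hb _ hqx, ← mul_assoc, ← h, mul_assoc]
  refine ⟨e, fun x hx => ?_, fun x hx y hy => ⟨?_, ?_⟩⟩
  · have hx' : x ∈ Subfield.closure (R : Set E₁) := Subfield.subset_closure hx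
    rw [he, hmul _ (hQ x hx') x hx, inv_mul_cancel_left₀ (hι _ (hQ x hx') (hQ0 x hx'))]
  · obtain ⟨a, ha, b, hb, hb0, h⟩ := hore _ (hQ x hx) _ (hQ y hy) (hQ0 y hy)
    have hs := R.mul_mem hb (hQ x hx)
    have h1 : b * Q x * x ∈ R := by rw [mul_assoc]; exact R.mul_mem hb (hQx x hx)
    have h2 : b * Q x * y ∈ R := by rw [h, mul_assoc]; exact R.mul_mem ha (hQx y hy)
    refine mul_left_cancel₀ (hι _ hs (mul_ne_zero hb0 (hQ0 x hx))) ?_
    rw [key _ (add_mem hx hy) _ hs (by rw [mul_add]; exact R.add_mem h1 h2), mul_add, mul_add,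
      key x hx _ hs h1, key y hy _ hs h2, hadd _ h1 _ h2]
  · obtain ⟨a, ha, b, hb, hb0, h⟩ := hore _ (hQx x hx) _ (hQ y hy) (hQ0 y hy)
    have hs := R.mul_mem hb (hQ x hx)
    have h1 : b * Q x * x ∈ R := by rw [mul_assoc]; exact R.mul_mem hb (hQx x hx)
    have h2 : b * Q x * (x * y) = a * (Q y * y) := by
      rw [← mul_assoc, mul_assoc b, h, mul_assoc]
    refine mul_left_cancel₀ (hι _ hs (mul_ne_zero hb0 (hQ0 x hx))) ?_
    rw [key _ (mul_mem hx hy) _ hs (by rw [h2]; exact R.mul_mem ha (hQx y hy)), h2,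
      ← mul_assoc (ι _), key x hx _ hs h1, mul_assoc b, h, hmul a ha _ (hQ y hy), mul_assoc,
      key y hy _ (hQ y hy) (hQx y hy), hmul a ha _ (hQx y hy)]

end General

end Pool.Agent.P.MP_a28d48_al
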