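import Pool.Agent.P.MP_a28d48_al.Cone
import Pool.Agent.Lib.Gromov.Wolf

set_option autoImplicit false

namespace Pool.Agent.P.MP_a28d48_al

open Function Set Pointwise Ser

section Push

variable {G : Type*} [Group G] {𝒞 : Cones G} {k : Type*} [Field k] {j : ℕ} {N : Subgroup G}
  [N.Normal] (hN : ∀ g, g ∈ N ↔ g ∉ 𝒞.P j ∧ g⁻¹ ∉ 𝒞.P j)

include hN in
lemma mul_mem_P {g n : G} (hg : g ∈ 𝒞.P j) (hn : n ∈ N) : g * n ∈ 𝒞.P j := by
  by_contra h
  have h1 : g * n ∉ N := fun h' => ((hN g).1 ((N.mul_mem_cancel_right hn).1 h')).1 hg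
  have h2 : (g * n)⁻¹ ∈ 𝒞.P j := by
    by_contra h3
    exact h1 ((hN _).2 ⟨h, h3⟩)
  exact ((hN n).1 hn).2 (by simpa using 𝒞.mul h2 hg)

/-- the induced cones on the quotient -/
def quotC : Cones (G ⧸ N) where
  P _ := QuotientGroup.mk '' 𝒞.P j
  mono _ := subset_rfl
  mul := by
    rintro _ _ _ _ ⟨g, hg, rfl⟩ ⟨h, hh, rfl⟩
    exact ⟨g * h, 𝒞.mul hg hh, rfl⟩
  conj := by
    rintro _ _ x ⟨g, hg, rfl⟩
    obtain ⟨x, rfl⟩ := QuotientGroup.mk_surjective x
    exact ⟨_, 𝒞.conj x hg, rfl⟩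
  one := by
    rintro _ ⟨g, hg, h⟩
    exact ((hN g).1 ((QuotientGroup.eq_one_iff g).1 h)).1 hg
  total g hg := by
    obtain ⟨g, rfl⟩ := QuotientGroup.mk_surjective g
    have h1 : g ∉ N := fun h => hg ((QuotientGroup.eq_one_iff g).2 h)
    rw [hN, not_and_or, not_not, not_not] at h1
    exact ⟨0, h1.imp (fun h => ⟨g, h, rfl⟩) (fun h => ⟨g⁻¹, h, rfl⟩)⟩

/-- level of a series -/
def Lv (j : ℕ) (f : Ser 𝒞.adm k) : Prop := (support f.c).PartiallyWellOrderedOn (𝒞.le j)

lemma Lv.add {f g : Ser 𝒞.adm k} (hf : Lv j f) (hg : Lv j g) : Lv j (f + g) :=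
  (PartiallyWellOrderedOn.union hf hg).mono (support_add _ _)

lemma Lv.mul {f g : Ser 𝒞.adm k} (hf : Lv j f) (hg : Lv j g) : Lv j (f * g) :=
  (Cones.pwo_mul hf hg).mono (support_mul _ _)

lemma Lv.ofMA (x : MonoidAlgebra k G) : Lv j (ofMA 𝒞 k x) :=
  Set.Finite.partiallyWellOrderedOn (x.coeff.support.finite_toSet.subset fun g hg => by
    simpa [ofMA_c] using hg)

lemma Lv.zero : Lv j (0 : Ser 𝒞.adm k) := by simpa using Lv.ofMA (𝒞 := 𝒞) (j := j) (0 : MonoidAlgebra k G)

lemma Lv.sum {ι : Type*} (s : Finset ι) {f : ι → Ser 𝒞.adm k} (h : ∀ i, Lv j (f i)) :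
    Lv j (∑ i ∈ s, f i) :=
  Finset.sum_induction _ _ (fun _ _ => Lv.add) Lv.zero fun i _ => h i

open Classical in
noncomputable def fib (N : Subgroup G) (f : Ser 𝒞.adm k) (y : G ⧸ N) (x : G) : k :=
  if (x : G ⧸ N) = y then f.c x else 0

include hN in
lemma fib_fin {f : Ser 𝒞.adm k} (hf : Lv j f) (y : G ⧸ N) : (support (fib N f y)).Finite := by
  have h1 : ∀ x ∈ support (fib N f y), (x : G ⧸ N) = y ∧ f.c x ≠ 0 := by
    intro x hx
    simpa [fib] using hx
  refine IsAntichain.finite_of_partiallyWellOrderedOn ?_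
    (PartiallyWellOrderedOn.mono hf fun x hx => (h1 x hx).2)
  rintro x hx x' hx' hne (e | e)
  · exact hne e
  · exact ((hN _).1 (QuotientGroup.eq.1 ((h1 x hx).1.trans (h1 x' hx').1.symm))).1 e

open Classical in
/-- push forward to the quotient -/
noncomputable def push (f : Ser 𝒞.adm k) : Ser (quotC hN).adm k :=
  if hf : Lv j f then ⟨fun y => ∑ᶠ x, fib N f y x, ⟨0, PartiallyWellOrderedOn.mono
    (PartiallyWellOrderedOn.image_of_monotone_on (f := (QuotientGroup.mk : G → G ⧸ N))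
      (r' := (quotC hN).le 0) hf (by
        rintro a - b - (rfl | e)
        exacts [Or.inl rfl, Or.inr ⟨_, e, rfl⟩])) (by
      intro y hy
      by_contra h
      refine hy ?_
      have : fib N f y = 0 := funext fun x => by
        simp only [fib, Pi.zero_apply, ite_eq_right_iff]
        rintro rfl
        by_contra h'
        exact h ⟨x, h', rfl⟩
      simp [this])⟩⟩ else 0

lemma push_c {f : Ser 𝒞.adm k} (hf : Lv j f) (y : G ⧸ N) :
    (push hN f).c y = ∑ᶠ x, fib N f y x := by rw [push, dif_pos hf]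

lemma push_add {f g : Ser 𝒞.adm k} (hf : Lv j f) (hg : Lv j g) :
    push hN (f + g) = push hN f + push hN g := by
  ext y
  rw [add_c, push_c hN hf, push_c hN hg, push_c hN (hf.add hg),
    ← finsum_add_distrib (fib_fin hN hf y) (fib_fin hN hg y)]
  refine finsum_congr fun x => ?_
  simp only [fib, add_c]
  split_ifs <;> simp

lemma push_zero : push hN (0 : Ser 𝒞.adm k) = 0 := by
  ext y
  rw [push_c hN Lv.zero]
  simp [fib]

lemma push_sum {ι : Type*} (s : Finset ι) {f : ι → Ser 𝒞.adm k} (h : ∀ i, Lv j (f i)) :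
    push hN (∑ i ∈ s, f i) = ∑ i ∈ s, push hN (f i) := by
  classical
  induction s using Finset.induction_on with
  | empty => simpa using push_zero hN
  | insert a s ha ih =>
    rw [Finset.sum_insert ha, Finset.sum_insert ha, push_add hN (h a) (Lv.sum s h), ih]

lemma push_mul {f : Ser 𝒞.adm k} (hf : Lv j f) (x : MonoidAlgebra k G) :
    push hN (f * ofMA 𝒞 k x) = push hN f *
      ofMA (quotC hN) k (MonoidAlgebra.mapDomainRingHom k (QuotientGroup.mk' N) x) := by
  induction x using MonoidAlgebra.induction_linear with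
  | zero => simpa using push_zero hN
  | add x y hx hy =>
    rw [map_add, mul_add, push_add hN (hf.mul (Lv.ofMA x)) (hf.mul (Lv.ofMA y)), hx, hy, map_add,
      map_add, mul_add]
  | single g r =>
    ext y
    rw [push_c hN (hf.mul (Lv.ofMA _))]
    simp only [MonoidAlgebra.mapDomainRingHom_apply, MonoidAlgebra.mapDomain_single, ofMA_single,
      QuotientGroup.mk'_apply]
    rw [mul_sg_c, push_c hN hf, finsum_mul, ← finsum_comp_equiv (Equiv.mulRight g)]
    refine finsum_congr fun x => ?_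
    simp only [fib, Equiv.coe_mulRight, mul_sg_c, mul_inv_cancel_right, QuotientGroup.mk_mul]
    by_cases h : (x : G ⧸ N) * g = y
    · rw [if_pos h, if_pos (eq_mul_inv_iff_mul_eq.2 h)]
    · rw [if_neg h, if_neg (fun h' => h (eq_mul_inv_iff_mul_eq.1 h')), zero_mul]

lemma push_ne_zero {f : Ser 𝒞.adm k} (hf : Lv j f) {g : G} (hg : f.c g ≠ 0)
    (hmin : ∀ h, f.c h ≠ 0 → 𝒞.le j g h) : push hN f ≠ 0 := by
  intro h0
  have h1 := push_c hN hf (g : G ⧸ N)
  rw [h0, finsum_eq_single _ g] at h1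
  · exact hg (by simpa [fib] using h1.symm)
  · intro x hx
    simp only [fib, ite_eq_right_iff]
    intro e
    by_contra h'
    rcases hmin x h' with e' | e'
    · exact hx e'.symm
    · exact ((hN _).1 (QuotientGroup.eq.1 e.symm)).1 e'

end Push

section Ore

open Pool.Agent.Lib.Gromov

lemma exists_poly_lt (C D : ℕ) : ∃ n, C * (n + 1) ^ D < 2 ^ n := by
  have h := (tendsto_pow_const_div_const_pow_of_one_lt D (one_lt_two (α := ℝ))).const_mul (2 * C : ℝ)
  rw [mul_zero] at h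
  obtain ⟨m, hm⟩ := Filter.eventually_atTop.1 (h.eventually (gt_mem_nhds one_pos))
  refine ⟨m, ?_⟩
  have := hm (m + 1) (Nat.le_succ m)
  rw [← mul_div_assoc, div_lt_one (by positivity), pow_succ] at this
  have h2 : ((C * (m + 1) ^ D : ℕ) : ℝ) < ((2 ^ m : ℕ) : ℝ) := by
    push_cast at this ⊢
    linarith
  exact_mod_cast h2

theorem ore {H : Type*} [Group H] (k : Type*) [Field k] [NoZeroDivisors (MonoidAlgebra k H)]
    {c : ℕ} (hc : (⊤ : Subgroup H).lowerCentralSeries c = ⊥) (a d : MonoidAlgebra k H)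
    (hd : d ≠ 0) : ∃ a' d' : MonoidAlgebra k H, d' ≠ 0 ∧ d' * a = a' * d := by
  classical
  by_contra hcon
  push Not at hcon
  let S : Set H := (a.coeff.support ∪ d.coeff.support : Finset H)
  have hS : S.Finite := Finset.finite_toSet _
  have key : ∀ n, 2 * (W S n).ncard ≤ (W S (n + 1)).ncard := by
    intro n
    have i1 := (finite_W hS n).fintype
    have i2 := (finite_W hS (n + 1)).fintype
    let ι : (W S n → k) →ₗ[k] MonoidAlgebra k H :=
      ∑ w : W S n, (LinearMap.proj w).smulRight (MonoidAlgebra.single w.1 1)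
    have hι : ∀ u, ι u = ∑ w : W S n, MonoidAlgebra.single w.1 (u w) := by
      intro u
      simp [ι]
    have hι0 : ∀ u, ι u = 0 → u = 0 := by
      intro u hu
      ext w
      have := congrArg (fun x : MonoidAlgebra k H => x.coeff w.1) hu
      simpa [hι, Finsupp.single_apply, Subtype.val_inj] using this
    have hsup : ∀ u (x : MonoidAlgebra k H), (∀ g ∈ x.coeff.support, g ∈ S) →
        ∀ g, g ∉ W S (n + 1) → (ι u * x).coeff g = 0 := by
      intro u x hx g hg
      rw [hι, Finset.sum_mul, MonoidAlgebra.coeff_sum, Finsupp.finset_sum_apply]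
      refine Finset.sum_eq_zero fun w _ => ?_
      rw [MonoidAlgebra.coeff_single_mul_apply]
      by_contra h
      have h1 := hx _ (Finsupp.mem_support_iff.2 (right_ne_zero_of_mul h))
      exact hg (by simpa using mul_mem_W w.2 (mem_W_one h1))
    let Ψ : ((W S n → k) × (W S n → k)) →ₗ[k] MonoidAlgebra k H :=
      ((LinearMap.mulRight k a).comp ι).coprod ((LinearMap.mulRight k d).comp ι)
    let ev : MonoidAlgebra k H →ₗ[k] (W S (n + 1) → k) :=
      { toFun := fun x g => x.coeff g.1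
        map_add' := fun _ _ => rfl
        map_smul' := fun _ _ => rfl }
    have hinj : Injective (ev.comp Ψ) := by
      rw [injective_iff_map_eq_zero]
      rintro ⟨u, v⟩ huv
      have h0 : ι u * a + ι v * d = 0 := by
        ext g
        by_cases hg : g ∈ W S (n + 1)
        · exact congrFun huv ⟨g, hg⟩
        · simp [hsup u a (fun g hg => by simp [S, Finsupp.mem_support_iff.1 hg]) g hg,
            hsup v d (fun g hg => by simp [S, Finsupp.mem_support_iff.1 hg]) g hg]
      have hu : ι u = 0 := by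
        by_contra hu
        exact hcon (-ι v) (ι u) hu (by rw [neg_mul, eq_neg_iff_add_eq_zero, h0])
      have hv : ι v = 0 := by
        rw [hu, zero_mul, zero_add] at h0
        exact (mul_eq_zero.1 h0).resolve_right hd
      rw [hι0 u hu, hι0 v hv]
      rfl
    have := LinearMap.finrank_le_finrank_of_injective hinj
    rw [Module.finrank_prod, Module.finrank_fintype_fun_eq_card,
      Module.finrank_fintype_fun_eq_card] at this
    rw [← Nat.card_coe_set_eq, ← Nat.card_coe_set_eq, Nat.card_eq_fintype_card,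
      Nat.card_eq_fintype_card]
    omega
  have h2 : ∀ n, 2 ^ n ≤ (W S n).ncard := by
    intro n
    induction n with
    | zero => exact (ncard_pos (finite_W hS 0)).2 ⟨1, one_mem_W _ _⟩
    | succ n ih => have := key n; rw [pow_succ]; omega
  obtain ⟨C, D, hC⟩ := pl_of_lcs (N := (⊤ : Subgroup H)) c 0 (by rwa [zero_add]) S hS
    (fun _ _ => by simp)
  obtain ⟨n, hn⟩ := exists_poly_lt C D
  exact absurd ((h2 n).trans (hC n)) (not_le.2 hn)

theorem fredholm {D : Type*} [DivisionRing D] {m s : ℕ} (J : Fin m → Fin s → D) (c : Fin m → D) :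
    (∃ q : Fin s → D, ∀ l, c l = ∑ i, J l i * q i) ∨
      ∃ κ : Fin m → D, (∀ i, ∑ l, κ l * J l i = 0) ∧ ∑ l, κ l * c l ≠ 0 := by
  classical
  by_cases hc : c ∈ Submodule.span Dᵐᵒᵖ (range fun i l => J l i)
  · left
    obtain ⟨q, hq⟩ := (Submodule.mem_span_range_iff_exists_fun _).1 hc
    exact ⟨fun i => (q i).unop, fun l => by simp [← hq, Finset.sum_apply]⟩
  · right
    obtain ⟨f, h1, h2⟩ := Submodule.exists_le_ker_of_notMem hc
    have hf : ∀ v : Fin m → D, ∑ l, (f (Pi.single l 1)).unop * v l = (f v).unop := by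
      intro v
      have : v = ∑ l, MulOpposite.op (v l) • (Pi.single l (1 : D) : Fin m → D) := by
        ext l
        simp [Finset.sum_apply, Pi.single_apply]
      conv_rhs => rw [this]
      simp [Finset.unop_sum]
    refine ⟨fun l => (f (Pi.single l 1)).unop, fun i => ?_, ?_⟩
    · rw [hf fun l => J l i, h2 (Submodule.subset_span ⟨i, rfl⟩)]
      rfl
    · rw [hf]
      simpa using h1

theorem descend {R E : Type*} [Ring R] [DivisionRing E] (ι : R →+* E) (hι : Injective ι)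
    (hore : ∀ a d : R, d ≠ 0 → ∃ a' d' : R, d' ≠ 0 ∧ d' * a = a' * d)
    {m s : ℕ} (J : Fin m → Fin s → R) (c : Fin m → R) (κ : Fin m → E)
    (h1 : ∀ i, ∑ l, κ l * ι (J l i) = 0) (h2 : ∑ l, κ l * ι (c l) ≠ 0) :
    ∃ κ' : Fin m → R, (∀ i, ∑ l, κ' l * J l i = 0) ∧ ∑ l, κ' l * c l ≠ 0 := by
  classical
  have hnz : ∀ {a b : R}, a ≠ 0 → b ≠ 0 → a * b ≠ 0 := fun ha hb h =>
    mul_ne_zero ((map_ne_zero_iff ι hι).2 ha) ((map_ne_zero_iff ι hι).2 hb) (by rw [← map_mul, h, map_zero])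
  have h10 : (1 : R) ≠ 0 := fun h => one_ne_zero (by rw [← map_one ι, h, map_zero])
  let Q : Subfield E :=
    { carrier := {x | ∃ d a : R, d ≠ 0 ∧ ι d * x = ι a}
      mul_mem' := by
        rintro x y ⟨d, a, hd, hx⟩ ⟨d', a', hd', hy⟩
        obtain ⟨a₁, d₁, h₁, e⟩ := hore a d' hd'
        refine ⟨d₁ * d, a₁ * a', hnz h₁ hd, ?_⟩
        rw [map_mul, mul_assoc, ← mul_assoc (ι d), hx, ← mul_assoc, ← map_mul, e, map_mul, map_mul,
          mul_assoc, hy]
      one_mem' := ⟨1, 1, h10, by simp⟩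
      add_mem' := by
        rintro x y ⟨d, a, hd, hx⟩ ⟨d', a', hd', hy⟩
        obtain ⟨a₁, d₁, h₁, e⟩ := hore d d' hd'
        refine ⟨d₁ * d, d₁ * a + a₁ * a', hnz h₁ hd, ?_⟩
        rw [mul_add, map_add, map_mul ι d₁ a, map_mul ι a₁ a', ← hx, ← hy, ← mul_assoc, ← mul_assoc,
          ← map_mul, ← map_mul, e]
      zero_mem' := ⟨1, 0, h10, by simp⟩
      neg_mem' := by
        rintro x ⟨d, a, hd, hx⟩
        exact ⟨d, -a, hd, by rw [mul_neg, hx, map_neg]⟩
      inv_mem' := by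
        rintro x ⟨d, a, hd, hx⟩
        by_cases h0 : x = 0
        · exact ⟨1, 0, h10, by simp [h0]⟩
        refine ⟨a, d, fun h => ?_, by rw [← hx, mul_inv_cancel_right₀ h0]⟩
        exact mul_ne_zero ((map_ne_zero_iff ι hι).2 hd) h0 (by rw [hx, h, map_zero]) }
  have hQ : ∀ a, ι a ∈ Q := fun a => ⟨1, a, h10, by simp⟩
  rcases fredholm (D := Q) (fun l i => ⟨ι (J l i), hQ _⟩) (fun l => ⟨ι (c l), hQ _⟩) with
    ⟨q, hq⟩ | ⟨μ, hμ1, hμ2⟩
  · refine absurd ?_ h2
    have : ∀ l, ι (c l) = ∑ i, ι (J l i) * (q i : E) := fun l => by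
      simpa using congrArg Subtype.val (hq l)
    simp only [this, Finset.mul_sum, ← mul_assoc]
    rw [Finset.sum_comm]
    simp [← Finset.sum_mul, h1]
  have hd : ∀ T : Finset (Fin m), ∃ d : R, d ≠ 0 ∧ ∀ l ∈ T, ∃ a, ι d * (μ l : E) = ι a := by
    intro T
    induction T using Finset.induction_on with
    | empty => exact ⟨1, h10, by simp⟩
    | insert l T _ ih =>
      obtain ⟨d, hd, h⟩ := ih
      obtain ⟨d', a', hd', e'⟩ := (μ l).2
      obtain ⟨a₁, d₁, h₁, e⟩ := hore d d' hd'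
      refine ⟨d₁ * d, hnz h₁ hd, fun l' hl' => ?_⟩
      rcases Finset.mem_insert.1 hl' with rfl | hl'
      · exact ⟨a₁ * a', by rw [e, map_mul, map_mul, mul_assoc, e']⟩
      · obtain ⟨a, ha⟩ := h l' hl'
        exact ⟨d₁ * a, by rw [map_mul, map_mul, mul_assoc, ha]⟩
  obtain ⟨d, hd0, hd1⟩ := hd Finset.univ
  choose κ' hκ' using fun l => hd1 l (Finset.mem_univ l)
  have e : ∀ v : Fin m → R, ι (∑ l, κ' l * v l) = ι d * ∑ l, (μ l : E) * ι (v l) := by
    intro v
    simp [← hκ', Finset.mul_sum, mul_assoc]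
  refine ⟨κ', fun i => hι ?_, fun h => ?_⟩
  · rw [e, map_zero]
    have : ∑ l, (μ l : E) * ι (J l i) = 0 := by simpa using congrArg Subtype.val (hμ1 i)
    rw [this, mul_zero]
  · have h3 := e c
    rw [h, map_zero] at h3
    refine hμ2 (Subtype.ext ?_)
    simpa using (mul_eq_zero.1 h3.symm).resolve_left ((map_ne_zero_iff ι hι).2 hd0)

end Ore

end Pool.Agent.P.MP_a28d48_al
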