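import Pool.Agent.P.MP_a28d48_al.KDD
import Pool.Agent.P.MP_a28d48_al.KOre0
import Pool.Agent.P.MP_a28d48_al.Push

set_option autoImplicit false

namespace Pool.Agent.P.MP_a28d48_al

open Function Set Ser

variable {G : Type*} [Group G] {C : Cones G} {k : Type*} [Field k]

/-- value vector of the characters -/
def KOre_vec (a : Dat G) (g : G) : Fin a.L.length → ℤ := fun i => a.L.get i g

lemma KOre_vec_mul (a : Dat G) {g h : G} (hg : g ∈ a.Γ) (hh : h ∈ a.Γ) (i : Fin a.L.length) :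
    KOre_vec a (g * h) i = KOre_vec a g i + KOre_vec a h i :=
  a.char _ (List.get_mem _ i) g hg h hh

lemma KOre_vec_eq (a : Dat G) {g h : G} (hg : g ∈ a.Γ) (hh : h ∈ a.Γ) :
    g * h⁻¹ ∈ a.N ↔ KOre_vec a g = KOre_vec a h := by
  rw [a.ker]
  constructor
  · rintro ⟨-, h0⟩
    funext i
    have c := a.char _ (List.get_mem _ i)
    have h1 := h0 _ (List.get_mem _ i)
    rw [c g hg _ (a.Γ.inv_mem hh), c.inv hh] at h1
    simp only [KOre_vec]
    omega
  · intro e
    refine ⟨a.Γ.mul_mem hg (a.Γ.inv_mem hh), fun χ hχ => ?_⟩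
    obtain ⟨i, rfl⟩ := List.get_of_mem hχ
    have c := a.char _ (List.get_mem _ i)
    have h1 := congrFun e i
    simp only [KOre_vec] at h1
    rw [c g hg _ (a.Γ.inv_mem hh), c.inv hh]
    omega

lemma KOre_indep (a : Dat G) {ι : Type*} [Fintype ι] (r : ι → G)
    (hr : ∀ i j, r i * (r j)⁻¹ ∈ a.N → i = j) (u : ι → Ser C.adm k) (hu : ∀ i, u i ∈ DD C k a.N)
    (h0 : ∑ i, u i * sg (r i) 1 = 0) (j : ι) : u j = 0 := by
  have h1 := congrArg (fun x => res a.N (x * sg (r j)⁻¹ 1)) h0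
  simp only [zero_mul, map_zero, Finset.sum_mul, map_sum] at h1
  rw [Finset.sum_eq_single j] at h1
  · rwa [mul_assoc, sg_mul_sg, mul_inv_cancel, mul_one, res_mul _ (DD_le_subF _ (hu j)),
      res_sg_of_mem _ a.N.one_mem, ← one_def, mul_one] at h1
  · intro i _ hij
    rw [mul_assoc, sg_mul_sg, res_mul _ (DD_le_subF _ (hu i)),
      res_sg_of_notMem _ (fun h => hij (hr i j h)), mul_zero]
  · simp

lemma KOre_bound (a : Dat G) {M : Subgroup G} (hM : a.N ≤ M) {p : Ser C.adm k}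
    (hp : p ∈ CP C k a.N M) : ∃ (T : Finset G) (d : G → Ser C.adm k) (c : ℕ),
      (∀ t ∈ T, t ∈ M ∧ d t ∈ DD C k a.N ∧ ∀ i, |KOre_vec a t i| ≤ c) ∧
        p = ∑ t ∈ T, d t * sg t 1 := by
  obtain ⟨T, h1, -, h3, h4⟩ := CP_normal a.normal hM hp
  refine ⟨T, fun t => res a.N (p * sg t⁻¹ 1),
    T.sup fun t => Finset.univ.sup fun i => (KOre_vec a t i).natAbs,
    fun t ht => ⟨h1 t ht, (h3 t ht).1, fun i => ?_⟩, h4⟩
  rw [Int.abs_eq_natAbs]
  exact_mod_cast le_trans (Finset.le_sup (f := fun i => (KOre_vec a t i).natAbs) (Finset.mem_univ i))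
    (Finset.le_sup (f := fun t => Finset.univ.sup fun i => (KOre_vec a t i).natAbs) ht)

theorem cp_ore (a : Dat G) {M : Subgroup G} (hM : a.N ≤ M) (hM' : M ≤ a.Γ) :
    ∀ p ∈ CP C k a.N M, ∀ q ∈ CP C k a.N M, q ≠ 0 →
      ∃ x ∈ CP C k a.N M, ∃ y ∈ CP C k a.N M, y ≠ 0 ∧ y * p = x * q := by
  classical
  intro p hp q hq hq0
  by_contra hcon
  push Not at hcon
  obtain ⟨T, d, c₁, hT, hpT⟩ := KOre_bound a hM hp
  obtain ⟨T', d', c₂, hT', hqT⟩ := KOre_bound a hM hq
  set c : ℕ := c₁ + c₂ with hc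
  let B : ℕ → Finset (Fin a.L.length → ℤ) := fun n =>
    (Fintype.piFinset fun _ => Finset.Icc (-((n * c : ℕ) : ℤ)) ((n * c : ℕ) : ℤ)).filter
      fun v => ∃ g ∈ M, KOre_vec a g = v
  have hB : ∀ n v, v ∈ B n ↔ (∀ i, |v i| ≤ ((n * c : ℕ) : ℤ)) ∧ ∃ g ∈ M, KOre_vec a g = v := by
    intro n v
    simp only [B, Finset.mem_filter, Fintype.mem_piFinset, Finset.mem_Icc, abs_le]
  have hex : ∀ v : Fin a.L.length → ℤ, ∃ g, (∃ g ∈ M, KOre_vec a g = v) →
      g ∈ M ∧ KOre_vec a g = v := by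
    intro v
    by_cases h : ∃ g ∈ M, KOre_vec a g = v
    · obtain ⟨g, hg⟩ := h
      exact ⟨g, fun _ => hg⟩
    · exact ⟨1, fun h' => absurd h' h⟩
  choose rep hrep using hex
  have hrB : ∀ n v, v ∈ B n → rep v ∈ M ∧ KOre_vec a (rep v) = v :=
    fun n v hv => hrep v ((hB n v).1 hv).2
  have hspan : ∀ (n : ℕ) (U : Finset G) (e : G → Ser C.adm k),
      (∀ t ∈ U, t ∈ M ∧ e t ∈ DD C k a.N ∧ ∀ i, |KOre_vec a t i| ≤ c) → ∀ v ∈ B n,
      sg (rep v) 1 * ∑ t ∈ U, e t * sg t 1 ∈ Submodule.span (DD C k a.N)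
        (((B (n + 1)).image fun w => (sg (rep w) 1 : Ser C.adm k) : Finset _) : Set _) := by
    intro n U e hU v hv
    rw [Finset.mul_sum]
    refine Submodule.sum_mem _ fun t ht => ?_
    obtain ⟨t1, t2, t3⟩ := hU t ht
    obtain ⟨v1, v2⟩ := hrB n v hv
    have hw : KOre_vec a (rep v * t) ∈ B (n + 1) := by
      refine (hB _ _).2 ⟨fun i => ?_, _, M.mul_mem v1 t1, rfl⟩
      rw [KOre_vec_mul a (hM' v1) (hM' t1), v2]
      have e1 := ((hB n v).1 hv).1 i
      have e2 := t3 i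
      have e3 := abs_add_le (v i) (KOre_vec a t i)
      push_cast at e1 ⊢
      linarith
    obtain ⟨w1, w2⟩ := hrB _ _ hw
    have hN : rep v * t * (rep (KOre_vec a (rep v * t)))⁻¹ ∈ a.N :=
      (KOre_vec_eq a (hM' (M.mul_mem v1 t1)) (hM' w1)).2 w2.symm
    have hd : sg (rep v) 1 * e t * sg (rep v)⁻¹ 1 *
        sg (rep v * t * (rep (KOre_vec a (rep v * t)))⁻¹) 1 ∈ DD C k a.N :=
      mul_mem (conj_mem_DD a.normal t2 _) (sg_mem_DD hN _)
    have e1 : sg (rep v) 1 * (e t * sg t 1) =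
        (⟨_, hd⟩ : DD C k a.N) • (sg (rep (KOre_vec a (rep v * t))) 1 : Ser C.adm k) := by
      rw [Subfield.smul_def, smul_eq_mul]
      simp only [mul_assoc, sg_mul_sg, mul_one, inv_mul_cancel, inv_mul_cancel_left]
    rw [e1]
    refine Submodule.smul_mem _ _ (Submodule.subset_span ?_)
    exact Finset.mem_coe.2 (Finset.mem_image_of_mem _ hw)
  have key : ∀ n, 2 * (B n).card ≤ (B (n + 1)).card := by
    intro n
    let f : B n ⊕ B n → Ser C.adm k :=
      Sum.elim (fun v => sg (rep v) 1 * p) fun v => sg (rep v) 1 * q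
    have hr : ∀ i j : B n, rep i * (rep j)⁻¹ ∈ a.N → i = j := by
      intro i j h
      have h1 := hrB n i i.2
      have h2 := hrB n j j.2
      have := (KOre_vec_eq a (hM' h1.1) (hM' h2.1)).1 h
      exact Subtype.ext (by rw [← h1.2, ← h2.2, this])
    have hmem : ∀ u : B n → DD C k a.N,
        ∑ v : B n, (u v : Ser C.adm k) * sg (rep v) 1 ∈ CP C k a.N M := fun u =>
      sum_mem fun v _ => mul_mem (mem_CP_of_DD (u v).2) (sg_mem_CP (hrB n v v.2).1 _)
    have hli : LinearIndependent (DD C k a.N) f := by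
      rw [Fintype.linearIndependent_iff]
      intro u hu
      rw [Fintype.sum_sum_type] at hu
      simp only [f, Sum.elim_inl, Sum.elim_inr, Subfield.smul_def, smul_eq_mul, ← mul_assoc,
        ← Finset.sum_mul] at hu
      have hy : ∑ v : B n, (u (Sum.inl v) : Ser C.adm k) * sg (rep v) 1 = 0 := by
        by_contra hy
        exact hcon _ (neg_mem (hmem fun v => u (Sum.inr v))) _ (hmem fun v => u (Sum.inl v)) hy
          (by rw [neg_mul, eq_neg_iff_add_eq_zero, hu])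
      rw [hy, zero_mul, zero_add] at hu
      have hx := (mul_eq_zero.1 hu).resolve_right hq0
      rintro (v | v)
      · exact Subtype.ext (KOre_indep a (fun v : B n => rep v) hr _ (fun v => (u (Sum.inl v)).2) hy v)
      · exact Subtype.ext (KOre_indep a (fun v : B n => rep v) hr _ (fun v => (u (Sum.inr v)).2) hx v)
    have h1 := linearIndependent_le_span_aux' f hli
      (((B (n + 1)).image fun w => (sg (rep w) 1 : Ser C.adm k) : Finset _) : Set _) (by
        rintro _ ⟨v | v, rfl⟩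
        · simp only [f, Sum.elim_inl]
          rw [hpT]
          exact hspan n T d (fun t ht => ⟨(hT t ht).1, (hT t ht).2.1,
            fun i => ((hT t ht).2.2 i).trans (by rw [hc]; push_cast; omega)⟩) v v.2
        · simp only [f, Sum.elim_inr]
          rw [hqT]
          exact hspan n T' d' (fun t ht => ⟨(hT' t ht).1, (hT' t ht).2.1,
            fun i => ((hT' t ht).2.2 i).trans (by rw [hc]; push_cast; omega)⟩) v v.2)
    simp only [Fintype.card_sum, Fintype.card_coe, Finset.coe_sort_coe] at h1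
    have h2 := Finset.card_image_le (s := B (n + 1)) (f := fun w => (sg (rep w) 1 : Ser C.adm k))
    omega
  have h2 : ∀ n, 2 ^ n ≤ (B n).card := by
    intro n
    induction n with
    | zero =>
      refine Finset.card_pos.2 ⟨KOre_vec a 1, (hB _ _).2 ⟨fun i => ?_, 1, M.one_mem, rfl⟩⟩
      have : KOre_vec a 1 i = 0 := (a.char _ (List.get_mem _ i)).one
      simp [this]
    | succ n ih => have := key n; rw [pow_succ]; omega
  have h3 : ∀ n, (B n).card ≤ (2 * c + 1) ^ a.L.length * (n + 1) ^ a.L.length := by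
    intro n
    refine (Finset.card_filter_le _ _).trans ?_
    rw [Fintype.card_piFinset, Finset.prod_const, Finset.card_univ, Fintype.card_fin, ← mul_pow]
    refine Nat.pow_le_pow_left ?_ _
    rw [Int.card_Icc]
    have : (2 * c + 1) * (n + 1) = 2 * (n * c) + 1 + (2 * c + n) := by ring
    omega
  obtain ⟨n, hn⟩ := exists_poly_lt ((2 * c + 1) ^ a.L.length) a.L.length
  exact absurd ((h2 n).trans (h3 n)) (not_le.2 hn)

theorem dd_frac (a : Dat G) {M : Subgroup G} (hM : a.N ≤ M) (hM' : M ≤ a.Γ) {x : Ser C.adm k}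
    (hx : x ∈ DD C k M) : ∃ q ∈ CP C k a.N M, q ≠ 0 ∧ q * x ∈ CP C k a.N M :=
  ore_frac _ (cp_ore a hM hM') (by rwa [closure_CP hM])

end Pool.Agent.P.MP_a28d48_al
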