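import Pool.Agent.P.MP_a28d48_al.KRef2
import Pool.Agent.P.MP_a28d48_al.KKl
import Pool.Agent.P.MP_a28d48_al.KCn2

set_option autoImplicit false

namespace Pool.Agent.P.MP_a28d48_al

open Function Set Ser

variable {G : Type*} [Group G] {C : Cones G} {k : Type*} [Field k]

lemma kP_mem {x : Ser C.adm k} (hx : x ∈ DD C k ⊤) (g : G) : sg g 1 * x ∈ DD C k ⊤ :=
  mul_mem (sg_mem_DD (Subgroup.mem_top g) 1) hx

namespace Dat

variable {a : Dat G}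

variable (a) in
/-- all left translates have a controlled expansion -/
def Pp (x : Ser C.adm k) : Prop :=
  x ∈ DD C k ⊤ ∧ ∀ g, a.Cn (support (a.X C k (sg g 1 * x)))

lemma Pp.cz {x : Ser C.adm k} (h : a.Pp x) (g g' : G) :
    a.Cz (a.Y C k (sg g 1 * x * sg g'⁻¹ 1)) := by
  refine Cn.mono ?_ ((h.2 g).mul_right g'⁻¹)
  rintro _ ⟨u, hu, rfl⟩
  refine ⟨u * g', ?_, by simp⟩
  rwa [mem_support, ← Y_c (kP_mem h.1 g)]

lemma pp_of_cz {x : Ser C.adm k} (hx : x ∈ DD C k ⊤) {T : Finset G} (hT : IsTv a.Γ T)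
    (h : ∀ g, ∀ t ∈ T, a.Cz (a.Y C k (sg g 1 * x * sg t⁻¹ 1))) : a.Pp x := by
  refine ⟨hx, fun g => Cn.mono ?_ (Cn.biUnion T.finite_toSet fun t ht =>
    Cn.mul_right (h g t ht) t)⟩
  intro y hy
  obtain ⟨t, ⟨ht, hy'⟩, -⟩ := hT y
  refine mem_iUnion₂.2 ⟨t, ht, _, ⟨⟨y * t⁻¹, hy'⟩, ?_, rfl⟩, by simp⟩
  rw [mem_support, Y_c (kP_mem hx g)]
  simpa using hy

lemma pp_sg (g : G) (r : k) : a.Pp (sg g r : Ser C.adm k) := by
  refine ⟨sg_mem_DD (Subgroup.mem_top g) r, fun g' => Cn.of_finite ?_⟩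
  have hf : (support (sg g' 1 * sg g r : Ser C.adm k).c).Finite := by
    rw [sg_mul_sg]
    exact (finite_singleton (g' * g)).subset fun y hy => eq_of_sg_c hy
  refine hf.subset fun y hy => ?_
  rwa [mem_support, X_finite hf] at hy

lemma Pp.add {x y : Ser C.adm k} (hx : a.Pp x) (hy : a.Pp y) : a.Pp (x + y) := by
  refine ⟨add_mem hx.1 hy.1, fun g => Cn.mono (fun z hz => ?_) ((hx.2 g).union (hy.2 g))⟩
  rw [mem_support, mul_add, X_add (kP_mem hx.1 g) (kP_mem hy.1 g)] at hz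
  by_contra hc
  simp only [mem_union, mem_support, not_or, not_not] at hc
  exact hz (by rw [hc.1, hc.2, add_zero])

lemma Pp.neg {x : Ser C.adm k} (hx : a.Pp x) : a.Pp (-x) := by
  refine ⟨neg_mem hx.1, fun g => Cn.mono (fun z hz => ?_) (hx.2 g)⟩
  rw [mem_support, mul_neg, ← zero_sub, X_sub (zero_mem _) (kP_mem hx.1 g), X, zero_mul, Y_zero] at hz
  intro hc
  exact hz (by rw [hc, sub_zero]; rfl)

lemma Pp.mul {x y : Ser C.adm k} (hx : a.Pp x) (hy : a.Pp y) : a.Pp (x * y) := by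
  have := a.fi
  obtain ⟨T, hT, -⟩ := exists_tv a.Γ
  refine pp_of_cz (mul_mem hx.1 hy.1) hT fun g t _ => ?_
  rw [← mul_assoc, mul_assoc _ y,
    Y_mul hT (kP_mem hx.1 g) (mul_mem hy.1 (sg_mem_DD (Subgroup.mem_top _) _))]
  refine Cz.sum _ fun t' _ => (hx.cz g t').mul ?_
  rw [← mul_assoc]
  exact hy.cz t' t

/-- minimal elements of the support for an invariant strict order that extends the lexicographic one -/
lemma exists_minimal {Pos : Set G} (hmul : ∀ g ∈ Pos, ∀ h ∈ Pos, g * h ∈ Pos)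
    (hN : ∀ g ∈ Pos, ∀ n ∈ a.N, g * n ∈ Pos) (hirr : ∀ n ∈ a.N, n ∉ Pos)
    (hΓ : ∀ g ∈ a.Γ, g ∈ Pos ↔ lexpos a.L g) {x : Ser C.adm k} (hx : x ∈ DD C k ⊤) (h0 : x ≠ 0) :
    ∃ m, a.X C k x m ≠ 0 ∧ ∀ y, a.X C k x y ≠ 0 → m * y⁻¹ ∉ Pos := by
  classical
  have := a.fi
  obtain ⟨T, hT, -⟩ := exists_tv a.Γ
  have key : ∀ t : G, ∃ m, ∀ y, a.X C k x y ≠ 0 → y * t⁻¹ ∈ a.Γ →
      a.X C k x m ≠ 0 ∧ (y * m⁻¹ ∈ Pos ∨ y * m⁻¹ ∈ a.N) := by
    intro t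
    rcases (support (a.Y C k (x * sg t⁻¹ 1)).c).eq_empty_or_nonempty with he | he
    · refine ⟨1, fun y hy hy' => ?_⟩
      have : (⟨_, hy'⟩ : a.Γ) ∈ support (a.Y C k (x * sg t⁻¹ 1)).c := by
        rw [mem_support, Y_c hx]
        simpa using hy
      rw [he] at this
      exact this.elim
    · obtain ⟨h, hh, j, hmin⟩ := Cones.exists_min (a.Y C k (x * sg t⁻¹ 1)).adm he
      refine ⟨h * t, fun y hy hy' => ⟨by rwa [mem_support, Y_c hx] at hh, ?_⟩⟩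
      have e : y * ((h : G) * t)⁻¹ = h * ((h : G)⁻¹ * (y * t⁻¹)) * (h : G)⁻¹ := by group
      have hm : (h : G)⁻¹ * (y * t⁻¹) ∈ a.Γ := mul_mem (inv_mem h.2) hy'
      rw [e]
      rcases hmin ⟨_, hy'⟩ (by
        rw [mem_support, Y_c hx]
        simpa using hy) with h1 | h1 | h1
      · right
        have : (h : G) = y * t⁻¹ := congrArg Subtype.val h1
        rw [← this]
        simpa using a.N.one_mem
      · exact Or.inl ((hΓ _ (mul_mem (mul_mem h.2 hm) (inv_mem h.2))).2 (pos_conj hm h.2 h1))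
      · exact Or.inr (a.normal.conj_mem _ h1.1 _)
  choose m hm using key
  let r : G → G → Prop := fun y z => z * y⁻¹ ∈ Pos
  haveI : IsStrictOrder G r :=
    { irrefl := fun y hy => hirr 1 a.N.one_mem (by simpa [r] using hy)
      trans := fun y z w h1 h2 => by simpa [r, mul_assoc] using hmul _ h2 _ h1 }
  have hfin : {y | y ∈ m '' (T : Set G) ∧ a.X C k x y ≠ 0}.Finite :=
    (T.finite_toSet.image m).subset fun y hy => hy.1
  obtain ⟨y0, hy0⟩ : ∃ y, a.X C k x y ≠ 0 := by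
    by_contra hc
    push Not at hc
    exact h0 (eq_zero_of_X hx hc)
  obtain ⟨t0, ⟨ht0, ht0'⟩, -⟩ := hT y0
  obtain ⟨⟨z, hz⟩, -, hmin⟩ := (hfin.wellFoundedOn (r := r)).has_min univ
    ⟨⟨m t0, ⟨t0, ht0, rfl⟩, (hm t0 y0 hy0 ht0').1⟩, trivial⟩
  refine ⟨z, hz.2, fun y hy hp => ?_⟩
  obtain ⟨t, ⟨ht, ht'⟩, -⟩ := hT y
  obtain ⟨h1, h2⟩ := hm t y hy ht'
  refine hmin ⟨m t, ⟨t, ht, rfl⟩, h1⟩ trivial ?_
  change z * (m t)⁻¹ ∈ Pos
  have e : z * (m t)⁻¹ = z * y⁻¹ * (y * (m t)⁻¹) := by group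
  rw [e]
  exact h2.elim (hmul _ hp _) (hN _ hp _)

end Dat

namespace Chain

variable {c : Chain G}

lemma pp_up {i j : ℕ} (h : i ≤ j) {x : Ser C.adm k} (hx : (c.a i).Pp x) :
    (c.a j).Pp x ∧ ∀ g, (c.a j).X C k (sg g 1 * x) = (c.a i).X C k (sg g 1 * x) := by
  induction j, h using Nat.le_induction with
  | base => exact ⟨hx, fun _ => rfl⟩
  | succ j _ ih =>
    obtain ⟨L', hL⟩ := c.app j
    have E : ∀ g, (c.a (j + 1)).X C k (sg g 1 * x) = (c.a j).X C k (sg g 1 * x) := fun g =>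
      Dat.refine_eq (c.N_le j) (c.le j) hL (kP_mem hx.1 g) fun g' => (ih.1.2 g).fibre g'
    refine ⟨⟨hx.1, fun g => ?_⟩, fun g => (E g).trans (ih.2 g)⟩
    rw [E]
    exact (ih.1.2 g).refine (c.normal _) (c.le j) hL

end Chain

end Pool.Agent.P.MP_a28d48_al
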