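import Pool.Agent.P.MP_a28d48_al.KDef

set_option autoImplicit false

namespace Pool.Agent.P.MP_a28d48_al

open Function Set

variable {G : Type*} [Group G]

namespace Chain

variable (c : Chain G)

lemma Γ_anti {i j : ℕ} (h : i ≤ j) : (c.a j).Γ ≤ (c.a i).Γ := by
  induction h with
  | refl => exact le_rfl
  | step _ ih => exact (c.le _).trans ih

lemma app' {i j : ℕ} (h : i ≤ j) : ∃ L', (c.a j).L = (c.a i).L ++ L' := by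
  induction h with
  | refl => exact ⟨[], by simp⟩
  | @step j _ ih =>
    obtain ⟨L, e⟩ := ih
    obtain ⟨L', e'⟩ := c.app j
    exact ⟨L ++ L', by rw [e', e, List.append_assoc]⟩

lemma N_anti {i j : ℕ} (h : i ≤ j) : (c.a j).N ≤ (c.a i).N := by
  obtain ⟨L, e⟩ := c.app' h
  intro g hg
  have := ((c.a j).ker g).1 hg
  exact ((c.a i).ker g).2 ⟨c.Γ_anti h this.1, fun χ hχ => this.2 χ (by simp [e, hχ])⟩

lemma KPi_mono {i j : ℕ} (h : i ≤ j) {u : G} (hu : lexpos (c.a i).L u) : lexpos (c.a j).L u := by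
  obtain ⟨L, e⟩ := c.app' h
  exact e ▸ lexpos_append.2 (Or.inl hu)

lemma KPi_cases {i j : ℕ} (h : i ≤ j) {u : G} (hΓ : u ∈ (c.a j).Γ) (hu : lexpos (c.a j).L u) :
    lexpos (c.a i).L u ∨ u ∈ (c.a i).N := by
  obtain ⟨L, e⟩ := c.app' h
  exact (lexpos_append.1 (e ▸ hu)).imp id fun h' => ((c.a i).ker u).2 ⟨c.Γ_anti h hΓ, h'.1⟩

lemma Pi_mono {i j : ℕ} (h : i ≤ j) : c.Pi i ⊆ c.Pi j :=
  fun _ ⟨l, hl, hu⟩ => ⟨l, hl.trans h, hu⟩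

lemma mem_Pi_iff {j : ℕ} {g : G} (hg : g ∈ (c.a j).Γ) : g ∈ c.Pi j ↔ lexpos (c.a j).L g :=
  ⟨fun ⟨_, hi, h⟩ => c.KPi_mono hi h.2, fun h => ⟨j, le_rfl, hg, h⟩⟩

lemma Pi_mul {j : ℕ} {g h : G} (hg : g ∈ c.Pi j) (hh : h ∈ c.Pi j) : g * h ∈ c.Pi j := by
  obtain ⟨i, hi, u1, u2⟩ := hg
  obtain ⟨l, hl, v1, v2⟩ := hh
  rcases le_total i l with h | h
  · refine ⟨i, hi, Subgroup.mul_mem _ u1 (c.Γ_anti h v1), ?_⟩
    rcases c.KPi_cases h v1 v2 with h' | h'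
    exacts [Dat.pos_mul u1 (c.Γ_anti h v1) u2 h', Dat.pos_mul_N u1 h' u2]
  · refine ⟨l, hl, Subgroup.mul_mem _ (c.Γ_anti h u1) v1, ?_⟩
    rcases c.KPi_cases h u1 u2 with h' | h'
    exacts [Dat.pos_mul (c.Γ_anti h u1) v1 h' v2, Dat.N_mul_pos v1 h' v2]

lemma Pi_mul_N {j : ℕ} {g n : G} (hg : g ∈ c.Pi j) (hn : n ∈ (c.a j).N) : g * n ∈ c.Pi j := by
  obtain ⟨i, hi, u1, u2⟩ := hg
  have := c.N_anti hi hn
  exact ⟨i, hi, Subgroup.mul_mem _ u1 ((c.a i).N_le this), Dat.pos_mul_N u1 this u2⟩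

lemma N_mul_Pi {j : ℕ} {g n : G} (hg : g ∈ c.Pi j) (hn : n ∈ (c.a j).N) : n * g ∈ c.Pi j := by
  obtain ⟨i, hi, u1, u2⟩ := hg
  have := c.N_anti hi hn
  exact ⟨i, hi, Subgroup.mul_mem _ ((c.a i).N_le this) u1, Dat.N_mul_pos u1 this u2⟩

lemma not_Pi {j : ℕ} {n : G} (hn : n ∈ (c.a j).N) : n ∉ c.Pi j :=
  fun ⟨_, hi, h⟩ => Dat.not_pos (c.N_anti hi hn) h.2

lemma Pi_conj {j : ℕ} {g x : G} (hg : g ∈ c.Pi j) (hx : x ∈ (c.a j).Γ) : x * g * x⁻¹ ∈ c.Pi j := by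
  obtain ⟨i, hi, u1, u2⟩ := hg
  exact ⟨i, hi, (c.normal i).conj_mem _ u1 _, Dat.pos_conj u1 (c.Γ_anti hi hx) u2⟩

lemma Pi_total {j : ℕ} {g : G} (hg : g ∉ (c.a j).N) : g ∈ c.Pi j ∨ g⁻¹ ∈ c.Pi j := by
  have key : ∀ i, g ∈ (c.a i).Γ → g ∉ (c.a i).N → g ∈ c.Pi i ∨ g⁻¹ ∈ c.Pi i := fun i h1 h2 =>
    (Dat.pos_total h1 h2).imp (c.mem_Pi_iff h1).2 (c.mem_Pi_iff (Subgroup.inv_mem _ h1)).2
  induction j with
  | zero => exact key 0 (c.zero ▸ Subgroup.mem_top g) hg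
  | succ j ih =>
    by_cases h : g ∈ (c.a j).N
    · exact key _ (c.N_le j h) hg
    · exact (ih h).imp (c.Pi_mono j.le_succ ·) (c.Pi_mono j.le_succ ·)

end Chain

end Pool.Agent.P.MP_a28d48_al
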