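import Pool.Agent.P.MP_a28d48_al.KY
import Pool.Agent.P.MP_a28d48_al.KCoef

set_option autoImplicit false

namespace Pool.Agent.P.MP_a28d48_al

open Function Set Ser

variable {G : Type*} [Group G] {C : Cones G} {k : Type*} [Field k]

/-- left multiplication by a series supported in `A` acts coset by coset -/
lemma KRef_mul_coset {H : Type*} [Group H] {𝒜 : Adm H} (A : Subgroup H) {u w w' : Ser 𝒜 k}
    (hu : support u.c ⊆ A) {h : H} (hw : ∀ n ∈ A, w.c (n * h) = w'.c n) {n : H} (hn : n ∈ A) :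
    (u * w).c (n * h) = (u * w').c n := by
  have e1 : res A (w * sg h⁻¹ 1) = res A w' := by
    ext x
    rw [res_c, res_c]
    split_ifs with hx
    · rw [mul_sg_c, inv_inv, mul_one, hw x hx]
    · rfl
  have e2 : res A (u * w * sg h⁻¹ 1) = res A (u * w') := by
    rw [mul_assoc, res_mul A hu, res_mul A hu, e1]
  have e3 := congrArg (fun f : Ser 𝒜 k => f.c n) e2
  simp only [res_c, if_pos hn] at e3
  rwa [mul_sg_c, inv_inv, mul_one] at e3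

lemma KRef_unique {N Γ : Subgroup G} (hN : N ≤ Γ) {c c' : Ser C.adm k} (hc : c ∈ DD C k N)
    (hc' : c' ∈ DD C k N) (h : ∀ n : Γ, (n : G) ∈ N → c.c n = c'.c n) : c = c' := by
  ext g
  by_cases hg : g ∈ N
  · exact h ⟨g, hN hg⟩ hg
  · have h1 : c.c g = 0 := by
      by_contra h0
      exact hg (DD_le_subF N hc h0)
    have h2 : c'.c g = 0 := by
      by_contra h0
      exact hg (DD_le_subF N hc' h0)
    rw [h1, h2]

namespace Dat

variable {a a' : Dat G}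

/-- `y` is obtained from the expansion of `x` by expanding each coefficient again -/
def KRefTh (a a' : Dat G) (h2 : a'.Γ ≤ a.Γ) (x : Ser C.adm k) (y : a'.MN C k) : Prop :=
  ∀ h : a'.Γ, ∃ c ∈ DD C k a.N,
    (∀ n : a.Γ, (n : G) ∈ a.N → (a.e C k x).c (n * ⟨h, h2 h.2⟩) = c.c n) ∧
      ∀ n : a'.Γ, (n : G) ∈ a.N → y.c (n * h) = (a'.e C k c).c n

variable {h2 : a'.Γ ≤ a.Γ}

lemma KRefTh.unique {x : Ser C.adm k} {y y' : a'.MN C k} (hy : KRefTh a a' h2 x y)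
    (hy' : KRefTh a a' h2 x y') : y = y' := by
  ext h
  obtain ⟨c, hc, e1, e2⟩ := hy h
  obtain ⟨c', hc', e1', e2'⟩ := hy' h
  obtain rfl : c = c' := KRef_unique a.N_le hc hc' fun n hn => by rw [← e1 n hn, e1' n hn]
  have := (e2 1 a.N.one_mem).trans (e2' 1 a.N.one_mem).symm
  rwa [one_mul] at this

lemma KRefTh.zero : KRefTh a a' h2 (0 : Ser C.adm k) 0 := fun _ =>
  ⟨0, zero_mem _, fun _ _ => by rw [e_zero]; rfl, fun _ _ => by rw [e_zero]; rfl⟩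

lemma KRefTh.add (h1 : a.N ≤ a'.Γ) {x x' : Ser C.adm k} (hx : x ∈ DD C k a.Γ)
    (hx' : x' ∈ DD C k a.Γ) {y y' : a'.MN C k} (hy : KRefTh a a' h2 x y)
    (hy' : KRefTh a a' h2 x' y') : KRefTh a a' h2 (x + x') (y + y') := by
  intro h
  obtain ⟨c, hc, e1, e2⟩ := hy h
  obtain ⟨c', hc', e1', e2'⟩ := hy' h
  refine ⟨c + c', add_mem hc hc', fun n hn => ?_, fun n hn => ?_⟩
  · rw [e_add hx hx', add_c, add_c, e1 n hn, e1' n hn]
  · rw [e_add (DD_mono h1 hc) (DD_mono h1 hc'), add_c, add_c, e2 n hn, e2' n hn]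

lemma KRefTh.dd_mul (h1 : a.N ≤ a'.Γ) {x q : Ser C.adm k} (hx : x ∈ DD C k a.Γ)
    (hq : q ∈ DD C k a.N) {y : a'.MN C k} (hy : KRefTh a a' h2 x y) :
    KRefTh a a' h2 (q * x) (a'.e C k q * y) := by
  intro h
  obtain ⟨c, hc, e1, e2⟩ := hy h
  refine ⟨q * c, mul_mem hq hc, fun n hn => ?_, fun n hn => ?_⟩
  · rw [e_mul (DD_mono a.N_le hq) hx, ← e_c (mem_CP_of_DD (mul_mem hq hc)) n,
      e_mul (DD_mono a.N_le hq) (DD_mono a.N_le hc)]
    refine KRef_mul_coset (a.N.subgroupOf a.Γ) (fun g hg => e_supp a.N_le hq hg)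
      (fun m hm => ?_) hn
    rw [e1 m hm, e_c (mem_CP_of_DD hc)]
  · rw [e_mul (DD_mono h1 hq) (DD_mono h1 hc)]
    exact KRef_mul_coset (a.N.subgroupOf a'.Γ) (fun g hg => e_supp h1 hq hg) e2 hn

lemma KRefTh.sg_mul (h1 : a.N ≤ a'.Γ) {x : Ser C.adm k} (hx : x ∈ DD C k a.Γ) (g : a'.Γ)
    {y : a'.MN C k} (hy : KRefTh a a' h2 x y) :
    KRefTh a a' h2 (sg (g : G) 1 * x) (sg g 1 * y) := by
  intro h
  obtain ⟨c, hc, e1, e2⟩ := hy (g⁻¹ * h)
  have hconj : ∀ n : G, n ∈ a.N → (g : G)⁻¹ * n * g ∈ a.N := fun n hn => by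
    simpa using a.normal.conj_mem n hn (g : G)⁻¹
  refine ⟨sg (g : G) 1 * c * sg (g : G)⁻¹ 1, conj_mem_DD a.normal hc _, fun n hn => ?_,
    fun n hn => ?_⟩
  · let g' : a.Γ := ⟨g, h2 g.2⟩
    have e3 : a.e C k (sg (g : G) 1) = sg g' 1 := e_sg g' 1
    rw [e_mul (sg_mem_DD (h2 g.2) 1) hx, e3, sg_mul_c, one_mul, mul_sg_c, sg_mul_c, one_mul,
      mul_one, inv_inv]
    have e4 := e1 (g'⁻¹ * n * g') (hconj n hn)
    have e5 : g'⁻¹ * n * g' * ⟨((g⁻¹ * h : a'.Γ) : G), h2 (g⁻¹ * h).2⟩ =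
        g'⁻¹ * (n * ⟨h, h2 h.2⟩) := Subtype.ext (by simp [g', mul_assoc])
    rw [e5] at e4
    rw [e4]
    simp [g', mul_assoc]
  · have e3 : a'.e C k (sg (g : G)⁻¹ 1) = sg g⁻¹ 1 := e_sg g⁻¹ 1
    rw [e_mul (mul_mem (sg_mem_DD g.2 1) (DD_mono h1 hc)) (sg_mem_DD (a'.Γ.inv_mem g.2) 1),
      e_mul (sg_mem_DD g.2 1) (DD_mono h1 hc), e3, e_sg, sg_mul_c, one_mul, mul_sg_c, sg_mul_c,
      one_mul, mul_one, inv_inv]
    have e4 := e2 (g⁻¹ * n * g) (hconj n hn)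
    have e5 : g⁻¹ * n * g * (g⁻¹ * h) = g⁻¹ * (n * h) := by group
    rw [e5] at e4
    rw [e4, mul_assoc]

lemma KRefTh.cp_mul (h1 : a.N ≤ a'.Γ) {x q : Ser C.adm k} (hx : x ∈ DD C k a.Γ)
    (hq : q ∈ CP C k a.N a'.Γ) {y : a'.MN C k} (hy : KRefTh a a' h2 x y) :
    KRefTh a a' h2 (q * x) (a'.e C k q * y) := by
  refine CP_induction a.normal (p := fun q => KRefTh a a' h2 (q * x) (a'.e C k q * y)) ?_
    (fun d hd h hh => ?_) (fun u v hu hv pu pv => ?_) hq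
  · simp only [e_zero, zero_mul]
    exact KRefTh.zero
  · have e3 : a'.e C k (sg h 1) = sg (⟨h, hh⟩ : a'.Γ) 1 := e_sg (⟨h, hh⟩ : a'.Γ) 1
    rw [e_mul (DD_mono h1 hd) (sg_mem_DD hh 1), e3, mul_assoc, mul_assoc]
    exact (hy.sg_mul h1 hx ⟨h, hh⟩).dd_mul h1 (mul_mem (sg_mem_DD (h2 hh) 1) hx) hd
  · rw [e_add (CP_le_DD h1 hu) (CP_le_DD h1 hv), add_mul, add_mul]
    exact pu.add h1 (mul_mem (DD_mono h2 (CP_le_DD h1 hu)) hx)
      (mul_mem (DD_mono h2 (CP_le_DD h1 hv)) hx) pv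

lemma KRefTh.one (h1 : a.N ≤ a'.Γ) : KRefTh a a' h2 (1 : Ser C.adm k) 1 := by
  intro h
  by_cases hh : (h : G) ∈ a.N
  · have e3 : a'.e C k (sg (h : G)⁻¹ 1) = sg h⁻¹ 1 := e_sg h⁻¹ 1
    refine ⟨sg (h : G)⁻¹ 1, sg_mem_DD (a.N.inv_mem hh) 1, fun n _ => ?_, fun n _ => ?_⟩
    · rw [e_one, one_def]
      by_cases e : (n : G) = (h : G)⁻¹
      · rw [show n * ⟨h, h2 h.2⟩ = 1 from Subtype.ext (mul_eq_one_iff_eq_inv.2 e), e, sg_c_self,
          sg_c_self]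
      · rw [sg_c_ne _ e, sg_c_ne _ fun e' => e (mul_eq_one_iff_eq_inv.1 (congrArg Subtype.val e'))]
    · rw [e3, one_def]
      by_cases e : n = h⁻¹
      · rw [e, inv_mul_cancel, sg_c_self, sg_c_self]
      · rw [sg_c_ne _ e, sg_c_ne _ fun e' => e (mul_eq_one_iff_eq_inv.1 e')]
  · refine ⟨0, zero_mem _, fun n hn => ?_, fun n hn => ?_⟩
    · rw [e_one, one_def, zero_c]
      refine sg_c_ne _ fun e => hh ?_
      have e' : (n : G) * h = 1 := congrArg Subtype.val e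
      rw [eq_inv_of_mul_eq_one_right e']
      exact a.N.inv_mem hn
    · rw [e_zero, one_def, zero_c]
      refine sg_c_ne _ fun e => hh ?_
      have e' : (n : G) * h = 1 := congrArg Subtype.val e
      rw [eq_inv_of_mul_eq_one_right e']
      exact a.N.inv_mem hn

lemma KRefTh.exists (h1 : a.N ≤ a'.Γ) {L' : List (G → ℤ)} (h3 : a'.L = a.L ++ L')
    {x : Ser C.adm k} (hx : x ∈ DD C k a.Γ) : ∃ y, KRefTh a a' h2 x y := by
  choose cf hcf hcf' using fun h : a'.Γ => e_coef hx (⟨h, h2 h.2⟩ : a.Γ)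
  have key : ∀ h n : a'.Γ, (n : G) ∈ a.N →
      (a'.e C k (cf (n * h))).c 1 = (a'.e C k (cf h)).c n := by
    intro h n hn
    have e1 : cf (n * h) = cf h * sg (n : G)⁻¹ 1 := by
      refine KRef_unique a.N_le (hcf _) (mul_mem (hcf _) (sg_mem_DD (a.N.inv_mem hn) 1))
        fun m hm => ?_
      rw [← hcf' _ m hm, mul_sg_c, inv_inv, mul_one]
      have e2 := hcf' h (m * ⟨n, h2 n.2⟩) (a.N.mul_mem hm hn)
      rw [mul_assoc] at e2
      exact e2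
    have e3 : a'.e C k (sg (n : G)⁻¹ 1) = sg n⁻¹ 1 := e_sg n⁻¹ 1
    rw [e1, e_mul (DD_mono h1 (hcf _)) (sg_mem_DD (a'.Γ.inv_mem n.2) 1), e3, mul_sg_c, inv_inv,
      one_mul, mul_one]
  refine ⟨⟨fun h => (a'.e C k (cf h)).c 1, 0, ?_⟩, fun h => ⟨cf h, hcf h, hcf' h, key h⟩⟩
  rw [partiallyWellOrderedOn_iff_exists_lt]
  intro f hf
  have hs : ∀ i, ∃ n : a.Γ, (n : G) ∈ a.N ∧ (a.e C k x).c (n * ⟨f i, h2 (f i).2⟩) ≠ 0 := by
    intro i
    by_contra hc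
    push Not at hc
    have e0 : cf (f i) = 0 := KRef_unique a.N_le (hcf _) (zero_mem _) fun n hn => by
      rw [← hcf' _ n hn, hc n hn, zero_c]
    exact hf i (by simp only [e0, e_zero, zero_c])
  choose n hn hn' using hs
  obtain ⟨j, hj⟩ := (a.e C k x).adm
  obtain ⟨φ, hφ⟩ := hj.exists_monotone_subseq (f := fun i => n i * ⟨f i, h2 (f i).2⟩) hn'
  by_cases hall : ∀ i, (f (φ i) : G) * (f (φ 0) : G)⁻¹ ∈ a.N
  · obtain ⟨j', hj'⟩ := (a'.e C k (cf (f (φ 0))) * sg (f (φ 0)) 1).adm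
    obtain ⟨m, m', hm, hle⟩ := partiallyWellOrderedOn_iff_exists_lt.1 hj' (fun i => f (φ i))
      fun i => by
        rw [mem_support, mul_sg_c, mul_one, ← key _ _ (hall i), inv_mul_cancel_right]
        exact hf (φ i)
    exact ⟨φ m, φ m', φ.strictMono hm, hle⟩
  · obtain ⟨i, hi⟩ := not_forall.1 hall
    have hi0 : 0 < i := Nat.pos_of_ne_zero fun e => hi (by rw [e, mul_inv_cancel]; exact a.N.one_mem)
    refine ⟨φ 0, φ i, φ.strictMono hi0, Or.inr (Or.inl ?_)⟩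
    set u : G := (f (φ 0)).1 with hu
    set v : G := (f (φ i)).1 with hv
    set s : G := (n (φ 0)).1 with hs
    set t : G := (n (φ i)).1 with ht
    have hsN : s ∈ a.N := hn _
    have htN : t ∈ a.N := hn _
    have huv : u⁻¹ * v ∈ a.Γ := h2 (a'.Γ.mul_mem (a'.Γ.inv_mem (f (φ 0)).2) (f (φ i)).2)
    have hw : u⁻¹ * (t⁻¹ * s) * u⁻¹⁻¹ ∈ a.N :=
      a.normal.conj_mem _ (a.N.mul_mem (a.N.inv_mem htN) hsN) _
    have hnot : (s * u)⁻¹ * (t * v) ∉ a.N := fun hc => hi (by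
      have := a.normal.conj_mem _ (a.N.mul_mem hw hc) u
      simpa [mul_assoc] using this)
    have hpos : lexpos a.L ((s * u)⁻¹ * (t * v)) := by
      rcases hφ 0 i (Nat.zero_le _) with e | e | e
      · have e' : s * u = t * v := congrArg Subtype.val e
        exact absurd (by rw [e', inv_mul_cancel]; exact a.N.one_mem) hnot
      · exact e
      · exact absurd e.1 hnot
    have hΓ : (s * u)⁻¹ * (t * v) ∈ a.Γ :=
      a.Γ.mul_mem (a.Γ.inv_mem (a.Γ.mul_mem (a.N_le hsN) (h2 (f (φ 0)).2)))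
        (a.Γ.mul_mem (a.N_le htN) (h2 (f (φ i)).2))
    have hp := N_mul_pos hΓ hw hpos
    rw [show u⁻¹ * (t⁻¹ * s) * u⁻¹⁻¹ * ((s * u)⁻¹ * (t * v)) = u⁻¹ * v by group] at hp
    change lexpos a'.L (u⁻¹ * v)
    rw [h3, lexpos_append]
    exact Or.inl hp

/-- refinement of the expansion inside the smaller group -/
theorem refine_e (h1 : a.N ≤ a'.Γ) (h2 : a'.Γ ≤ a.Γ) {L' : List (G → ℤ)} (h3 : a'.L = a.L ++ L')
    {d : Ser C.adm k} (hd : d ∈ DD C k a'.Γ) :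
    ∃ c ∈ DD C k a.N, (∀ n : a.Γ, (n : G) ∈ a.N → (a.e C k d).c n = c.c n) ∧
      ∀ n : a'.Γ, (n : G) ∈ a.N → (a'.e C k d).c n = (a'.e C k c).c n := by
  obtain ⟨y, hy⟩ := KRefTh.exists (h2 := h2) h1 h3 (DD_mono h2 hd)
  obtain ⟨q, hq, hq0, hp⟩ := dd_frac a h1 h2 hd
  have e1 := hy.cp_mul h1 (DD_mono h2 hd) hq
  have e2 := (KRefTh.one (h2 := h2) h1).cp_mul h1 (one_mem _) hp
  rw [mul_one, mul_one, e_mul (CP_le_DD h1 hq) hd] at e2
  have e3 : y = a'.e C k d :=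
    mul_left_cancel₀ (fun h => hq0 (e_eq_zero (CP_le_DD h1 hq) h)) (e1.unique e2)
  obtain ⟨c, hc, e4, e5⟩ := hy 1
  refine ⟨c, hc, fun n hn => ?_, fun n hn => ?_⟩
  · rw [← e4 n hn]
    exact congrArg _ (mul_one n).symm
  · rw [← e5 n hn, mul_one, e3]

end Dat

end Pool.Agent.P.MP_a28d48_al
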