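import Pool.Agent.P.MP_a28d48_al.KRef
import Pool.Agent.P.MP_a28d48_al.KPi

set_option autoImplicit false

namespace Pool.Agent.P.MP_a28d48_al

open Function Set Ser

variable {G : Type*} [Group G] {C : Cones G} {k : Type*} [Field k]

namespace Dat

variable {a a' : Dat G}

lemma KRef2_supp {M : Subgroup G} (hM : M ≤ a.Γ) {d : Ser C.adm k} (hd : d ∈ DD C k M) {y : G}
    (hy : y ∉ M) : a.X C k d y = 0 := by
  by_cases h : y ∈ a.Γ
  · by_contra h0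
    rw [show y = ((⟨y, h⟩ : a.Γ) : G) from rfl, X_of_mem (DD_mono hM hd)] at h0
    exact hy (e_supp hM hd h0)
  · have hs : support d.c ⊆ a.Γ := DD_le_subF a.Γ (DD_mono hM hd)
    rw [X, Y, res_mul _ hs, res_sg_of_notMem _ (fun h' => h (a.Γ.inv_mem_iff.1 h')), mul_zero,
      e_zero]
    rfl

lemma KRef2_res {M : Subgroup G} [M.FiniteIndex] (hM : M ≤ a.Γ) {x : Ser C.adm k}
    (hx : x ∈ DD C k ⊤) {n : G} (hn : n ∈ M) : a.X C k x n = a.X C k (res M x) n := by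
  obtain ⟨T, hT, h1⟩ := exists_tv M
  have hd : ∀ t : G, res M (x * sg t⁻¹ 1) ∈ DD C k M := fun t =>
    res_mem_DD M (mul_mem hx (sg_mem_DD (Subgroup.mem_top _) 1))
  conv_lhs => rw [hT.decomp x]
  rw [X_sum T fun t _ => mul_mem (DD_mono le_top (hd t)) (sg_mem_DD (Subgroup.mem_top _) 1),
    Finset.sum_eq_single_of_mem 1 h1]
  · rw [inv_one, ← one_def, mul_one, mul_one]
  · intro t ht h
    rw [X_mul_sg (DD_mono le_top (hd t)), KRef2_supp hM (hd t), zero_mul]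
    intro h'
    exact h ((hT n).unique ⟨ht, h'⟩ ⟨h1, by simpa using hn⟩)

theorem refine_X (h1 : a.N ≤ a'.Γ) (h2 : a'.Γ ≤ a.Γ) {L' : List (G → ℤ)} (h3 : a'.L = a.L ++ L')
    {x : Ser C.adm k} (hx : x ∈ DD C k ⊤) (g : G) :
    ∃ c ∈ DD C k a.N, (∀ n ∈ a.N, a.X C k x (n * g) = c.c n) ∧
      ∀ n ∈ a.N, a'.X C k x (n * g) = a'.X C k c n := by
  have := a'.fi
  have hx' : x * sg g⁻¹ 1 ∈ DD C k ⊤ := mul_mem hx (sg_mem_DD (Subgroup.mem_top _) 1)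
  have hd : res a'.Γ (x * sg g⁻¹ 1) ∈ DD C k a'.Γ := res_DD hx'
  obtain ⟨c, hc, e1, e2⟩ := refine_e h1 h2 h3 hd
  refine ⟨c, hc, fun n hn => ?_, fun n hn => ?_⟩
  · have e3 := X_mul_sg (a := a) hx g⁻¹ n 1
    rw [inv_inv, mul_one] at e3
    rw [← e3, KRef2_res h2 hx' (h1 hn)]
    exact (X_of_mem (DD_mono h2 hd) ⟨n, a.N_le hn⟩).trans (e1 ⟨n, a.N_le hn⟩ hn)
  · exact ((Y_c hx g ⟨n, h1 hn⟩).symm.trans (e2 ⟨n, h1 hn⟩ hn)).trans
      (X_of_mem (DD_mono h1 hc) ⟨n, h1 hn⟩).symm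

theorem refine_supp (h1 : a.N ≤ a'.Γ) (h2 : a'.Γ ≤ a.Γ) {L' : List (G → ℤ)} (h3 : a'.L = a.L ++ L')
    {x : Ser C.adm k} (hx : x ∈ DD C k ⊤) (g : G) :
    (∃ n ∈ a.N, a.X C k x (n * g) ≠ 0) ↔ ∃ n ∈ a.N, a'.X C k x (n * g) ≠ 0 := by
  obtain ⟨c, hc, e1, e2⟩ := refine_X h1 h2 h3 hx g
  have hs : support c.c ⊆ a.N := DD_le_subF a.N hc
  constructor
  · rintro ⟨n, hn, h⟩
    by_contra h0
    push Not at h0
    have hc0 : c = 0 := eq_zero_of_X (a := a') (DD_mono le_top hc) fun y => by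
      by_cases hy : y ∈ a.N
      · rw [← e2 y hy, h0 y hy]
      · exact KRef2_supp h1 hc hy
    rw [e1 n hn, hc0] at h
    exact h rfl
  · rintro ⟨n, hn, h⟩
    by_contra h0
    push Not at h0
    have hc0 : c = 0 := by
      ext y
      by_contra hy
      exact hy ((e1 y (hs hy)).symm.trans (h0 y (hs hy)))
    rw [e2 n hn, hc0, X, zero_mul, Y_zero] at h
    exact h rfl

theorem refine_eq (h1 : a.N ≤ a'.Γ) (h2 : a'.Γ ≤ a.Γ) {L' : List (G → ℤ)} (h3 : a'.L = a.L ++ L')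
    {x : Ser C.adm k} (hx : x ∈ DD C k ⊤)
    (hf : ∀ g, {n | n ∈ a.N ∧ a.X C k x (n * g) ≠ 0}.Finite) : a'.X C k x = a.X C k x := by
  funext g
  obtain ⟨c, hc, e1, e2⟩ := refine_X h1 h2 h3 hx g
  have hs : support c.c ⊆ a.N := DD_le_subF a.N hc
  have hfin : (support c.c).Finite := (hf g).subset fun n hn =>
    ⟨hs hn, by rw [e1 n (hs hn)]; exact hn⟩
  have e3 := e1 1 a.N.one_mem
  have e4 := e2 1 a.N.one_mem
  rw [one_mul] at e3 e4
  rw [e4, e3, X_finite hfin]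

end Dat

namespace Chain

variable (c : Chain G)

/-- cosets of `N i` met by the support do not depend on the level -/
theorem supp_level {i j : ℕ} (h : i ≤ j) {x : Ser C.adm k} (hx : x ∈ DD C k ⊤) (g : G) :
    (∃ n ∈ (c.a i).N, (c.a i).X C k x (n * g) ≠ 0) ↔
      ∃ n ∈ (c.a i).N, (c.a j).X C k x (n * g) ≠ 0 := by
  induction j, h using Nat.le_induction with
  | base => rfl
  | succ j h ih =>
    obtain ⟨L', h3⟩ := c.app j
    have key := fun g' => Dat.refine_supp (c.N_le j) (c.le j) h3 hx g'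
    refine ih.trans ⟨?_, ?_⟩
    · rintro ⟨n, hn, h0⟩
      obtain ⟨m, hm, h1⟩ := (key (n * g)).1 ⟨1, (c.a j).N.one_mem, by rwa [one_mul]⟩
      exact ⟨m * n, (c.a i).N.mul_mem (c.N_anti h hm) hn, by rwa [mul_assoc]⟩
    · rintro ⟨n, hn, h0⟩
      obtain ⟨m, hm, h1⟩ := (key (n * g)).2 ⟨1, (c.a j).N.one_mem, by rwa [one_mul]⟩
      exact ⟨m * n, (c.a i).N.mul_mem (c.N_anti h hm) hn, by rwa [mul_assoc]⟩

end Chain

end Pool.Agent.P.MP_a28d48_al
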