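import Mathlib

set_option autoImplicit false

namespace Pool.Agent.P.MP_a28d48_al

open Function Set

universe u

/-- lifting property with respect to finite `p`-groups -/
def Proj (p : ℕ) (G : Type u) [Group G] : Prop :=
  ∀ (W Q : Type u) [Group W] [Group Q] [Finite W], IsPGroup p W → ∀ θ : W →* Q, Surjective θ →
    ∀ ψ : G →* Q, ∃ ψ' : G →* W, θ.comp ψ' = ψ

/-- independence modulo the `p`-Frattini subgroup -/
def Ind (p : ℕ) {G : Type u} [Group G] {r : ℕ} (b : Fin r → G) : Prop :=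
  ∀ e : Fin r → ZMod p, ∃ χ : G →* Multiplicative (ZMod p), ∀ l, χ (b l) = Multiplicative.ofAdd (e l)

variable {p : ℕ} [hp : Fact p.Prime]

lemma exists_central {W : Type*} [Group W] [Finite W] (hW : IsPGroup p W) (K : Subgroup W)
    [K.Normal] (hK : K ≠ ⊥) : ∃ z ∈ K, z ∈ Subgroup.center W ∧ orderOf z = p := by
  have h1 : ∀ H : Subgroup W, H ≠ ⊥ → p ∣ Nat.card H := fun H hH =>
    (hW.to_subgroup H).card_eq_or_dvd.resolve_left fun h => hH (Subgroup.card_eq_one.1 h)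
  obtain ⟨z, hz, hz1⟩ := (hW.of_equiv ConjAct.toConjAct).exists_fixed_point_of_prime_dvd_card_of_fixed_point
    K (h1 K hK) (a := 1) (fun g => smul_one g)
  have hc : (z : W) ∈ Subgroup.center W := Subgroup.mem_center_iff.2 fun g => by
    have := congrArg Subtype.val (hz (ConjAct.toConjAct g))
    exact mul_inv_eq_iff_eq_mul.1 this
  have hne : K ⊓ Subgroup.center W ≠ ⊥ := fun h => hz1 (Subtype.ext (by
    have : (z : W) ∈ K ⊓ Subgroup.center W := ⟨z.2, hc⟩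
    rw [h] at this
    exact (Subgroup.mem_bot.1 this).symm))
  obtain ⟨x, hx⟩ := exists_prime_orderOf_dvd_card' p (h1 _ hne)
  exact ⟨x, x.2.1, x.2.2, by rwa [Subgroup.orderOf_coe]⟩

theorem lift_rel {G : Type u} [Group G] (hG : Proj p G) {r : ℕ} {b : Fin r → G} (hb : Ind p b)
    {Q : Type u} [Group Q] (ψ : G →* Q) (n : ℕ) : ∀ (W : Type u) [Group W] [Finite W],
      Nat.card W = n → IsPGroup p W → ∀ θ : W →* Q, Surjective θ → ∀ w : Fin r → W,
        (∀ l, θ (w l) = ψ (b l)) → ∃ ψ' : G →* W, θ.comp ψ' = ψ ∧ ∀ l, ψ' (b l) = w l := by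
  induction n using Nat.strong_induction_on with
  | _ n ih =>
  intro W _ _ hn hW θ hθ w hw
  by_cases hk : θ.ker = ⊥
  · obtain ⟨ψ', h⟩ := hG W Q hW θ hθ ψ
    refine ⟨ψ', h, fun l => (MonoidHom.ker_eq_bot_iff θ).1 hk ?_⟩
    rw [hw, ← h]
    rfl
  obtain ⟨z, hz1, hz2, hz3⟩ := exists_central hW θ.ker hk
  have hle : Subgroup.zpowers z ≤ Subgroup.center W := Subgroup.zpowers_le.2 hz2
  have : (Subgroup.zpowers z).Normal := ⟨fun x hx g => by
    rw [Subgroup.mem_center_iff.1 (hle hx) g, mul_inv_cancel_right]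
    exact hx⟩
  let θ' : W ⧸ Subgroup.zpowers z →* Q := QuotientGroup.lift _ θ (Subgroup.zpowers_le.2 hz1)
  have hcard : Nat.card (W ⧸ Subgroup.zpowers z) < n := by
    have := Subgroup.card_eq_card_quotient_mul_card_subgroup (Subgroup.zpowers z)
    rw [Nat.card_zpowers, hz3, hn] at this
    have h0 : 0 < Nat.card (W ⧸ Subgroup.zpowers z) := Nat.card_pos
    nlinarith [hp.out.two_le]
  obtain ⟨ψ₁, h1, h2⟩ := ih _ hcard (W ⧸ Subgroup.zpowers z) rfl (hW.to_quotient _) θ'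
    (fun q => by
      obtain ⟨x, rfl⟩ := hθ q
      exact ⟨x, rfl⟩) (fun l => w l) hw
  obtain ⟨ψ₂, h3⟩ := hG W _ hW (QuotientGroup.mk' _) (QuotientGroup.mk'_surjective _) ψ₁
  have h4 : ∀ l, ∃ m : ℕ, z ^ m = (ψ₂ (b l))⁻¹ * w l := fun l => by
    have : (ψ₂ (b l))⁻¹ * w l ∈ Subgroup.zpowers z := QuotientGroup.eq.1 (by
      rw [← h2, ← h3]
      rfl)
    exact (mem_powers_iff_mem_zpowers).2 this
  choose m hm using h4
  obtain ⟨χ, hχ⟩ := hb fun l => (m l : ZMod p)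
  have hpow : ∀ a : ℕ, z ^ (a % p) = z ^ a := fun a => by rw [← hz3, pow_mod_orderOf]
  refine ⟨MonoidHom.mk' (fun g => ψ₂ g * z ^ (χ g).toAdd.val) fun g h => ?_, ?_, fun l => ?_⟩
  · rw [map_mul, map_mul, toAdd_mul, ZMod.val_add, hpow, pow_add, mul_assoc, mul_assoc,
      ← mul_assoc (ψ₂ h), Subgroup.mem_center_iff.1 (pow_mem hz2 _) (ψ₂ h), mul_assoc]
  · ext g
    have : θ (ψ₂ g) = ψ g := by
      rw [← h1, ← h3]
      rfl
    simp [this, MonoidHom.mem_ker.1 hz1]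
  · simp [hχ, hpow, hm]

/-- permutational wreath product -/
@[ext] structure Wr (Γ Ω B : Type u) where
  f : Ω → B
  q : Γ

namespace Wr

variable {Γ Ω B : Type u} [Group Γ] [MulAction Γ Ω] [Group B]

instance : Group (Wr Γ Ω B) where
  mul a b := ⟨fun ω => a.f (b.q • ω) * b.f ω, a.q * b.q⟩
  one := ⟨fun _ => 1, 1⟩
  inv a := ⟨fun ω => (a.f (a.q⁻¹ • ω))⁻¹, a.q⁻¹⟩
  mul_assoc a b c := Wr.ext (funext fun ω => by
    change a.f (b.q • c.q • ω) * b.f (c.q • ω) * c.f ω =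
      a.f ((b.q * c.q) • ω) * (b.f (c.q • ω) * c.f ω)
    rw [mul_smul, mul_assoc]) (mul_assoc _ _ _)
  one_mul a := Wr.ext (funext fun ω => one_mul _) (one_mul _)
  mul_one a := Wr.ext (funext fun ω => by
    change a.f ((1 : Γ) • ω) * 1 = _
    rw [one_smul, mul_one]) (mul_one _)
  inv_mul_cancel a := Wr.ext (funext fun ω => by
    change (a.f (a.q⁻¹ • a.q • ω))⁻¹ * a.f ω = 1
    rw [inv_smul_smul, inv_mul_cancel]) (inv_mul_cancel _)

@[simp] lemma mul_f (a b : Wr Γ Ω B) (ω : Ω) : (a * b).f ω = a.f (b.q • ω) * b.f ω := rfl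
@[simp] lemma mul_q (a b : Wr Γ Ω B) : (a * b).q = a.q * b.q := rfl

def equivProd : Wr Γ Ω B ≃ (Ω → B) × Γ := ⟨fun a => (a.f, a.q), fun a => ⟨a.1, a.2⟩,
  fun _ => rfl, fun _ => rfl⟩

def map {B' : Type u} [Group B'] (θ : B →* B') : Wr Γ Ω B →* Wr Γ Ω B' :=
  MonoidHom.mk' (fun a => ⟨fun ω => θ (a.f ω), a.q⟩) fun a b => by ext <;> simp

end Wr

theorem Proj.subgroup {G : Type u} [Group G] (hG : Proj p G) {Q₀ : Type*} [Group Q₀] [Finite Q₀]
    (hQ : IsPGroup p Q₀) (φ : G →* Q₀) (U : Subgroup G) (hU : φ.ker ≤ U) : Proj p U := by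
  intro W Q _ _ _ hW θ hθ ψ
  have : U.FiniteIndex := Subgroup.finiteIndex_of_le hU
  let ρ := MulAction.toPermHom G (G ⧸ U)
  have hρ : IsPGroup p ρ.range := by
    rintro ⟨_, g, rfl⟩
    obtain ⟨k, hk⟩ := hQ (φ g)
    refine ⟨k, Subtype.ext ?_⟩
    ext ω
    obtain ⟨x, rfl⟩ := QuotientGroup.mk_surjective ω
    have h1 : g ^ p ^ k ∈ φ.ker := by rw [MonoidHom.mem_ker, map_pow, hk]
    have h2 := hU (φ.normal_ker.conj_mem _ (inv_mem h1) x⁻¹)
    simp only [SubmonoidClass.coe_pow, ← map_pow]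
    exact QuotientGroup.eq.2 (by simpa [mul_assoc] using h2)
  have hmem : ∀ (h : G) (r : G ⧸ U), (h • r).out⁻¹ * h * r.out ∈ U := fun h r => by
    rw [mul_assoc, ← QuotientGroup.eq, QuotientGroup.out_eq', ← smul_eq_mul,
      ← MulAction.Quotient.smul_mk, QuotientGroup.out_eq']
  let Ψ : G →* Wr ρ.range (G ⧸ U) Q := MonoidHom.mk'
    (fun g => ⟨fun ω => ψ ⟨_, hmem g ω⟩, ρ.rangeRestrict g⟩) fun g h => by
      refine Wr.ext (funext fun ω => ?_) (map_mul _ _ _)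
      change _ = ψ ⟨_, hmem g (h • ω)⟩ * ψ ⟨_, hmem h ω⟩
      rw [← map_mul]
      exact congrArg ψ (Subtype.ext (by simp [mul_smul, mul_assoc]))
  have : Finite (Wr ρ.range (G ⧸ U) W) := Finite.of_equiv _ Wr.equivProd.symm
  obtain ⟨a, ha⟩ := IsPGroup.iff_card.1 hW
  obtain ⟨c, hc⟩ := IsPGroup.iff_card.1 hρ
  obtain ⟨Φ, hΦ⟩ := hG (Wr ρ.range (G ⧸ U) W) _ (IsPGroup.of_card (n := a * Nat.card (G ⧸ U) + c) (by
    rw [Nat.card_congr Wr.equivProd, Nat.card_prod, Nat.card_fun, ha, hc, pow_add, pow_mul]))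
    (Wr.map θ) (fun x => by
      choose f hf using fun ω => hθ (x.f ω)
      exact ⟨⟨f, x.q⟩, Wr.ext (funext hf) rfl⟩) Ψ
  let ω₀ : G ⧸ U := ((1 : G) : G ⧸ U)
  have hfix : ∀ u : U, (u : G) • ω₀ = ω₀ := fun u => QuotientGroup.eq.2 (by simp)
  have hq : ∀ g, (Φ g).q = ρ.rangeRestrict g := fun g =>
    congrArg Wr.q (DFunLike.congr_fun hΦ g)
  let lam : U →* W := MonoidHom.mk' (fun u => (Φ u).f ω₀) fun u v => by
    rw [Subgroup.coe_mul, map_mul, Wr.mul_f, hq]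
    congr 2
    exact hfix v
  have hσ : ω₀.out ∈ U := by simpa using QuotientGroup.eq.1 (QuotientGroup.out_eq' ω₀).symm
  refine ⟨lam.comp (MulAut.conj ⟨_, hσ⟩).toMonoidHom, ?_⟩
  ext u
  have := congrFun (congrArg Wr.f (DFunLike.congr_fun hΦ ((MulAut.conj ⟨_, hσ⟩ u : U) : G))) ω₀
  refine this.trans ?_
  change ψ _ = ψ u
  congr 1
  ext
  simp only [hfix]
  simp [mul_assoc]

lemma exists_char {Q : Type*} [Group Q] [Finite Q] (hQ : IsPGroup p Q) {K : Subgroup Q}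
    (hK : K ≠ ⊤) : ∃ χ : Q →* Multiplicative (ZMod p), K ≤ χ.ker ∧ χ.ker ≠ ⊤ := by
  obtain ⟨M, hM, hKM⟩ := (eq_top_or_exists_le_coatom K).resolve_left hK
  have := hQ.isNilpotent
  have : M.Normal := Subgroup.NormalizerCondition.normal_of_coatom M
    Group.normalizerCondition_of_isNilpotent hM
  obtain ⟨z, -, -, hz⟩ := exists_central (hQ.to_quotient M) ⊤ (fun h => hM.1 (by
    rw [eq_top_iff]
    intro x _
    have : (x : Q ⧸ M) ∈ (⊤ : Subgroup (Q ⧸ M)) := trivial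
    rw [h] at this
    exact (QuotientGroup.eq_one_iff x).1 this))
  have h1 : Subgroup.zpowers z = ⊤ := by
    have h2 : M < (Subgroup.zpowers z).comap (QuotientGroup.mk' M) := by
      refine lt_of_le_of_ne (fun x hx => ?_) fun h => ?_
      · rw [Subgroup.mem_comap, QuotientGroup.mk'_apply, (QuotientGroup.eq_one_iff x).2 hx]
        exact one_mem _
      · obtain ⟨x, rfl⟩ := QuotientGroup.mk_surjective z
        have : x ∈ M := h ▸ (Subgroup.mem_zpowers _ : QuotientGroup.mk' M x ∈ _)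
        rw [(QuotientGroup.eq_one_iff x).2 this, orderOf_one] at hz
        exact hp.out.one_lt.ne hz
    rw [eq_top_iff]
    intro y _
    obtain ⟨x, rfl⟩ := QuotientGroup.mk_surjective y
    exact (hM.2 _ h2).ge (Subgroup.mem_top x)
  have h3 : Nat.card (Q ⧸ M) = p := by rw [← hz, ← Nat.card_zpowers, h1, Subgroup.card_top]
  let e : Q ⧸ M ≃* Multiplicative (ZMod p) := mulEquivOfPrimeCardEq h3 (by simp)
  have h4 : (e.toMonoidHom.comp (QuotientGroup.mk' M)).ker = M := by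
    ext x
    simp
  exact ⟨e.toMonoidHom.comp (QuotientGroup.mk' M), h4.symm ▸ hKM, h4.symm ▸ hM.1⟩

theorem ind_of_irredundant {G : Type u} [Group G] {Q : Type*} [Group Q] [Finite Q]
    (hQ : IsPGroup p Q) (φ : G →* Q) {r : ℕ} (b : Fin r → G)
    (hgen : Subgroup.closure (range fun l => φ (b l)) = ⊤)
    (hirr : ∀ i, φ (b i) ∉ Subgroup.closure ((fun l => φ (b l)) '' {l | l ≠ i})) : Ind p b := by
  classical
  have key : ∀ i, ∃ χ : Q →* Multiplicative (ZMod p), χ (φ (b i)) ≠ 1 ∧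
      ∀ l, l ≠ i → χ (φ (b l)) = 1 := by
    intro i
    obtain ⟨χ, h1, h2⟩ := exists_char hQ (K := Subgroup.closure ((fun l => φ (b l)) '' {l | l ≠ i}))
      fun h => hirr i (h ▸ Subgroup.mem_top _)
    have h3 : ∀ l, l ≠ i → χ (φ (b l)) = 1 := fun l hl => h1 (Subgroup.subset_closure ⟨l, hl, rfl⟩)
    refine ⟨χ, fun h => h2 ?_, h3⟩
    rw [eq_top_iff, ← hgen, Subgroup.closure_le]
    rintro _ ⟨l, rfl⟩
    by_cases hl : l = i
    exacts [hl ▸ h, h3 l hl]
  choose χ h1 h2 using key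
  intro e
  refine ⟨MonoidHom.mk' (fun g => Multiplicative.ofAdd
    (∑ i, e i * ((χ i (φ (b i))).toAdd)⁻¹ * (χ i (φ g)).toAdd)) fun g h => ?_, fun l => ?_⟩
  · simp [mul_add, Finset.sum_add_distrib]
  · simp only [MonoidHom.mk'_apply]
    rw [Finset.sum_eq_single l (fun i _ hi => by simp [h2 i l hi.symm]) (by simp),
      inv_mul_cancel_right₀ (by simpa using h1 l)]

/-- affine group over a group algebra -/
@[ext] structure Aff (k : Type*) [Semiring k] (Q : Type u) where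
  v : MonoidAlgebra k Q
  q : Q

namespace Aff

open MonoidAlgebra

variable {k : Type*} [Ring k] {Q : Type u} [Group Q]

noncomputable instance : Group (Aff k Q) where
  mul a b := ⟨a.v + single a.q 1 * b.v, a.q * b.q⟩
  one := ⟨0, 1⟩
  inv a := ⟨-(single a.q⁻¹ 1 * a.v), a.q⁻¹⟩
  mul_assoc a b c := Aff.ext (by
    change a.v + single a.q 1 * b.v + single (a.q * b.q) 1 * c.v =
      a.v + single a.q 1 * (b.v + single b.q 1 * c.v)
    rw [mul_add, ← mul_assoc, single_mul_single, one_mul, add_assoc]) (mul_assoc _ _ _)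
  one_mul a := Aff.ext (by
    change 0 + single 1 1 * a.v = a.v
    rw [← MonoidAlgebra.one_def, one_mul, zero_add]) (one_mul _)
  mul_one a := Aff.ext (by
    change a.v + single a.q 1 * 0 = a.v
    rw [mul_zero, add_zero]) (mul_one _)
  inv_mul_cancel a := Aff.ext (neg_add_cancel _) (inv_mul_cancel _)

@[simp] lemma mul_v (a b : Aff k Q) : (a * b).v = a.v + single a.q 1 * b.v := rfl

noncomputable def proj : Aff k Q →* Q := MonoidHom.mk' (fun a => a.q) fun _ _ => rfl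

def equivProd : Aff k Q ≃ (Q →₀ k) × Q := ⟨fun a => (a.v.coeff, a.q),
  fun a => ⟨.ofCoeff a.1, a.2⟩, fun _ => rfl, fun _ => rfl⟩

end Aff

theorem exists_der {G : Type u} [Group G] (hG : Proj p G) {r : ℕ} {b : Fin r → G} (hb : Ind p b)
    {Q : Type u} [Group Q] [Finite Q] (hQ : IsPGroup p Q) (φ : G →* Q)
    (v : Fin r → MonoidAlgebra (ZMod p) Q) : ∃ δ : G → MonoidAlgebra (ZMod p) Q,
      (∀ x y, δ (x * y) = δ x + MonoidAlgebra.single (φ x) 1 * δ y) ∧ ∀ l, δ (b l) = v l := by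
  have : NeZero p := ⟨hp.out.ne_zero⟩
  have : Finite (Q →₀ ZMod p) := Finite.of_equiv _ Finsupp.equivFunOnFinite.symm
  have : Finite (Aff (ZMod p) Q) := Finite.of_equiv _ Aff.equivProd.symm
  obtain ⟨c, hc⟩ := IsPGroup.iff_card.1 hQ
  obtain ⟨ψ, h1, h2⟩ := lift_rel hG hb φ _ (Aff (ZMod p) Q) rfl
    (IsPGroup.of_card (n := Nat.card Q + c) (by
      rw [Nat.card_congr Aff.equivProd, Nat.card_prod, Nat.card_congr Finsupp.equivFunOnFinite,
        Nat.card_fun, Nat.card_zmod, pow_add, ← hc])) Aff.proj (fun q => ⟨⟨0, q⟩, rfl⟩)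
    (fun l => ⟨v l, φ (b l)⟩) fun l => rfl
  refine ⟨fun g => (ψ g).v, fun x y => ?_, fun l => congrArg Aff.v (h2 l)⟩
  rw [← h1]
  simp [Aff.proj]

end Pool.Agent.P.MP_a28d48_al
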