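import Mathlib

set_option autoImplicit false

namespace Pool.Agent.P.MP_a28d48_al

open FreeMonoid

variable {X : Type*} [LinearOrder X]

noncomputable instance wordOrder : LinearOrder (FreeMonoid X) :=
  LinearOrder.lift' (fun w => toLex (w.length, w.toList)) fun _ _ h =>
    toList.injective (congrArg (fun p : ℕ ×ₗ List X => (ofLex p).2) h)

lemma word_lt {u v : FreeMonoid X} :
    u < v ↔ u.length < v.length ∨ u.length = v.length ∧ List.Lex (· < ·) u.toList v.toList := by
  change toLex (u.length, u.toList) < toLex (v.length, v.toList) ↔ _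
  rw [Prod.Lex.toLex_lt_toLex]
  rfl

lemma lex_append {r : X → X → Prop} {x x' : List X} (h : List.Lex r x x')
    (hl : x.length = x'.length) (y y' : List X) : List.Lex r (x ++ y) (x' ++ y') := by
  induction h with
  | nil => simp at hl
  | rel h => exact List.Lex.rel h
  | cons _ ih => exact List.Lex.cons (ih (by simpa using hl))

lemma word_lt_of_length {u v : FreeMonoid X} (h : u.length < v.length) : u < v :=
  word_lt.2 (Or.inl h)

lemma length_le_of_le {u v : FreeMonoid X} (h : u ≤ v) : u.length ≤ v.length := by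
  by_contra h'
  exact absurd (word_lt_of_length (not_le.1 h')) (not_lt.2 h)

lemma mul_lt_mul_len {u u' v v' : FreeMonoid X} (h : u < u') (h1 : u.length = u'.length)
    (h2 : v.length = v'.length) : u * v < u' * v' := by
  rcases word_lt.1 h with h | h
  · omega
  · exact word_lt.2 (Or.inr ⟨by simp [h1, h2], lex_append h.2 h.1 _ _⟩)

instance : MulLeftStrictMono (FreeMonoid X) := ⟨fun w u v h => by
  rcases word_lt.1 h with h | h
  · exact word_lt_of_length (by simpa using h)
  · exact word_lt.2 (Or.inr ⟨by simp [h.1], List.Lex.append_left _ h.2 _⟩)⟩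

instance : MulRightStrictMono (FreeMonoid X) := ⟨fun w u v h => by
  rcases word_lt.1 h with h' | h'
  · exact word_lt_of_length (by simpa using h')
  · exact mul_lt_mul_len h h'.1 rfl⟩

instance : MulLeftMono (FreeMonoid X) := mulLeftMono_of_mulLeftStrictMono _
instance : MulRightMono (FreeMonoid X) := mulRightMono_of_mulRightStrictMono _

lemma word_one_le (u : FreeMonoid X) : 1 ≤ u := by
  by_contra h
  have := length_le_of_le (not_le.1 h).le
  exact (not_le.1 h).ne (length_eq_zero.1 (by simpa using this))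

lemma word_wf [WellFoundedLT X] : WellFounded ((· < ·) : FreeMonoid X → FreeMonoid X → Prop) := by
  refine Subrelation.wf ?_ (InvImage.wf toList (List.Shortlex.wf (r := (· < ·)) wellFounded_lt))
  intro u v h
  exact List.shortlex_def.2 (word_lt.1 h)

omit [LinearOrder X] in
lemma length_pow (u : FreeMonoid X) (n : ℕ) : (u ^ n).length = n * u.length := by
  induction n with
  | zero => simp
  | succ n ih => rw [pow_succ, length_mul, ih]; ring

lemma pow_lt_pow_of_comm {u v : FreeMonoid X} (h : u * v < v * u) {a b : ℕ} (ha : 0 < a)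
    (hb : 0 < b) (hl : (u ^ a).length = (v ^ b).length) : u ^ a < v ^ b := by
  have h1 : ∀ a, u ^ (a + 1) * v < v * u ^ (a + 1) := by
    intro a
    induction a with
    | zero => simpa using h
    | succ a ih =>
      calc u ^ (a + 1 + 1) * v = u * (u ^ (a + 1) * v) := by rw [pow_succ', mul_assoc]
        _ < u * (v * u ^ (a + 1)) := mul_lt_mul_right ih _
        _ = u * v * u ^ (a + 1) := by rw [mul_assoc]
        _ < v * u * u ^ (a + 1) := mul_lt_mul_left h _
        _ = _ := by rw [mul_assoc, ← pow_succ']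
  obtain ⟨a, rfl⟩ : ∃ a', a = a' + 1 := ⟨a - 1, by omega⟩
  have h2 : ∀ b, u ^ (a + 1) * v ^ (b + 1) < v ^ (b + 1) * u ^ (a + 1) := by
    intro b
    induction b with
    | zero => simpa using h1 a
    | succ b ih =>
      calc u ^ (a + 1) * v ^ (b + 1 + 1) = u ^ (a + 1) * v ^ (b + 1) * v := by
            rw [pow_succ v (b + 1), mul_assoc]
        _ < v ^ (b + 1) * u ^ (a + 1) * v := mul_lt_mul_left ih _
        _ = v ^ (b + 1) * (u ^ (a + 1) * v) := by rw [mul_assoc]
        _ < v ^ (b + 1) * (v * u ^ (a + 1)) := mul_lt_mul_right (h1 a) _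
        _ = _ := by rw [← mul_assoc, ← pow_succ]
  obtain ⟨b, rfl⟩ : ∃ b', b = b' + 1 := ⟨b - 1, by omega⟩
  rcases lt_trichotomy (u ^ (a + 1)) (v ^ (b + 1)) with h3 | h3 | h3
  · exact h3
  · exact absurd (h2 b) (by rw [h3]; exact lt_irrefl _)
  · exact absurd (h2 b) (not_lt.2 (mul_lt_mul_len h3 hl.symm hl).le)

/-- comparison key -/
def key (n : ℕ) (w : FreeMonoid X) : FreeMonoid X := w ^ (n.factorial / w.length)

lemma key_lt {n : ℕ} {u v : FreeMonoid X} (h : u * v < v * u) (hu : 1 ≤ u.length ∧ u.length ≤ n)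
    (hv : 1 ≤ v.length ∧ v.length ≤ n) : key n u < key n v := by
  have d1 := Nat.dvd_factorial hu.1 hu.2
  have d2 := Nat.dvd_factorial hv.1 hv.2
  refine pow_lt_pow_of_comm h (Nat.div_pos (Nat.le_of_dvd n.factorial_pos d1) hu.1)
    (Nat.div_pos (Nat.le_of_dvd n.factorial_pos d2) hv.1) ?_
  rw [length_pow, length_pow, Nat.div_mul_cancel d1, Nat.div_mul_cancel d2]

omit [LinearOrder X] in
lemma suffix_comp {w w' a b : FreeMonoid X} (h : w * a = w' * b) :
    (∃ z, a = z * b) ∨ ∃ z, b = z * a := by
  rcases List.append_eq_append_iff.1 (congrArg toList h) with ⟨z, -, h2⟩ | ⟨z, -, h2⟩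
  exacts [Or.inl ⟨ofList z, h2⟩, Or.inr ⟨ofList z, h2⟩]

end Pool.Agent.P.MP_a28d48_al
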