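import Pool.Agent.P.MP_a28d48_al.Ser
import Pool.Agent.P.MP_a28d48_al.Word

set_option autoImplicit false

namespace Pool.Agent.P.MP_a28d48_al

open Function Set Ser FreeMonoid commutatorElement

lemma three_subgroups {G : Type*} [Group G] {N H₁ H₂ H₃ : Subgroup G} [N.Normal]
    (h1 : ⁅⁅H₂, H₃⁆, H₁⁆ ≤ N) (h2 : ⁅⁅H₃, H₁⁆, H₂⁆ ≤ N) : ⁅⁅H₁, H₂⁆, H₃⁆ ≤ N := by
  rw [← QuotientGroup.ker_mk' N, ← Subgroup.map_eq_bot_iff] at h1 h2 ⊢
  simp only [Subgroup.map_commutator] at h1 h2 ⊢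
  exact Subgroup.commutator_commutator_eq_bot_of_rotate h1 h2

/-- lower central series, `lcs G 0 = G` -/
abbrev lcs (G : Type*) [Group G] (n : ℕ) : Subgroup G := (⊤ : Subgroup G).lowerCentralSeries n

lemma lcs_comm {G : Type*} [Group G] (j : ℕ) : ∀ i, ⁅lcs G i, lcs G j⁆ ≤ lcs G (i + j + 1) := by
  induction j with
  | zero => exact fun i => le_rfl
  | succ j ih =>
    intro i
    rw [Subgroup.commutator_comm]
    refine three_subgroups (H₁ := lcs G j) (H₂ := ⊤) ?_ ?_
    · rw [Subgroup.commutator_comm ⊤]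
      exact (ih (i + 1)).trans (by rw [show i + 1 + j + 1 = i + (j + 1) + 1 by ring])
    · exact Subgroup.commutator_mono (ih i) le_rfl

variable (X : Type*)

/-- all supports in the free monoid are admissible -/
def admAll : Adm (FreeMonoid X) where
  mem _ := True
  mono _ _ := trivial
  union _ _ := trivial
  single _ := trivial
  mul _ _ := trivial
  fin _ _ x := by
    refine ((finite_Iic x.length).image fun i =>
      (ofList (x.toList.take i), ofList (x.toList.drop i))).subset ?_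
    rintro ⟨a, b⟩ ⟨-, -, rfl⟩
    refine ⟨a.length, by simp, ?_⟩
    simp [FreeMonoid.length]

/-- non-commutative power series -/
abbrev PS := Ser (admAll X) ℤ

variable {X}

lemma mul_c_one (f g : PS X) : (f * g).c 1 = f.c 1 * g.c 1 := by
  conv_lhs => rw [← one_mul (1 : FreeMonoid X)]
  refine mul_c_unique _ _ _ _ fun a b _ _ h => ?_
  have := congrArg FreeMonoid.length h
  simp only [length_mul, length_one] at this
  exact ⟨length_eq_zero.1 (by omega), length_eq_zero.1 (by omega)⟩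

lemma one_c_one : (1 : PS X).c 1 = 1 := sg_c_self _ _

lemma exists_rinv (f : PS X) (hf : f.c 1 = 1) : ∃ y, f * y = 1 ∧ y.c 1 = 1 := by
  obtain ⟨y, -, hy⟩ := exists_inv (1 - f) univ trivial trivial (fun _ _ _ _ => trivial) (by
    refine Subrelation.wf ?_ (InvImage.wf FreeMonoid.length wellFounded_lt)
    rintro b _ ⟨-, a, ha, rfl⟩
    have : a.length ≠ 0 := fun h => ha (by rw [length_eq_zero.1 h, sub_c, hf, one_c_one, sub_self])
    simp only [InvImage, length_mul]
    omega)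
  rw [sub_sub_cancel] at hy
  exact ⟨y, hy, by simpa [hy, hf, one_c_one] using (mul_c_one f y).symm⟩

lemma isUnit_of (f : PS X) (hf : f.c 1 = 1) : IsUnit f := by
  obtain ⟨y, hy, hy1⟩ := exists_rinv f hf
  obtain ⟨z, hz, -⟩ := exists_rinv y hy1
  have : f = z := by rw [← mul_one f, ← hz, ← mul_assoc, hy, one_mul]
  exact ⟨⟨f, y, hy, this ▸ hz⟩, rfl⟩

/-- Magnus map -/
noncomputable def mu : FreeGroup X →* (PS X)ˣ :=
  FreeGroup.lift fun x => (isUnit_of (1 + sg (of x) 1) (by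
    rw [add_c, one_c_one, sg_c_ne _ (one_ne_of x), add_zero])).unit

noncomputable def mm (g : FreeGroup X) : PS X := (mu g : PS X) - 1

lemma mm_one : mm (1 : FreeGroup X) = 0 := by simp [mm]

lemma mm_of (x : X) : mm (FreeGroup.of x) = sg (of x) 1 := by simp [mm, mu]

lemma mm_mul (g h : FreeGroup X) : mm (g * h) = mm g + mm h + mm g * mm h := by
  simp only [mm, map_mul, Units.val_mul]
  noncomm_ring

lemma mm_inv (g : FreeGroup X) : mm g⁻¹ = -(mm g * (mu g⁻¹ : PS X)) := by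
  simp [mm, sub_mul]

lemma mm_comm (g h : FreeGroup X) :
    mm ⁅g, h⁆ = (mm g * mm h - mm h * mm g) * (mu (g⁻¹ * h⁻¹) : PS X) := by
  have : mm g * mm h - mm h * mm g = (mu g : PS X) * mu h - mu h * mu g := by
    simp only [mm]
    noncomm_ring
  rw [this]
  simp [mm, commutatorElement_def, sub_mul, mul_assoc]

/-- support condition -/
def Sp (s : Set (FreeMonoid X)) (f : PS X) : Prop := ∀ h, f.c h ≠ 0 → h ∈ s

lemma Sp.add {s : Set (FreeMonoid X)} {f g : PS X} (hf : Sp s f) (hg : Sp s g) : Sp s (f + g) :=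
  fun h hh => (support_add f.c g.c hh).elim (hf h) (hg h)

lemma Sp.neg {s : Set (FreeMonoid X)} {f : PS X} (hf : Sp s f) : Sp s (-f) :=
  fun h hh => hf h (by simpa using hh)

lemma Sp.sub {s : Set (FreeMonoid X)} {f g : PS X} (hf : Sp s f) (hg : Sp s g) : Sp s (f - g) := by
  rw [sub_eq_add_neg]
  exact hf.add hg.neg

lemma Sp.mul {s t u : Set (FreeMonoid X)} {f g : PS X} (hf : Sp s f) (hg : Sp t g)
    (h : ∀ a ∈ s, ∀ b ∈ t, a * b ∈ u) : Sp u (f * g) := fun x hx => by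
  obtain ⟨a, b, ha, hb, rfl⟩ := exists_of_mul_c hx
  exact h a (hf a ha) b (hg b hb)

lemma Sp.univ (f : PS X) : Sp univ f := fun _ _ => trivial

/-- elements with prescribed support -/
def SG (s : Set (FreeMonoid X)) (hs : ∀ a ∈ s, ∀ b, a * b ∈ s) : Subgroup (FreeGroup X) where
  carrier := {g | Sp s (mm g)}
  one_mem' := fun h hh => by simp [mm_one] at hh
  mul_mem' := fun {g h} hg hh => by
    rw [mem_setOf_eq, mm_mul]
    exact (Sp.add hg hh).add (Sp.mul hg (Sp.univ _) fun a ha b _ => hs a ha b)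
  inv_mem' := fun {g} hg => by
    rw [mem_setOf_eq, mm_inv]
    exact (Sp.mul hg (Sp.univ _) fun a ha b _ => hs a ha b).neg

def LG (n : ℕ) : Subgroup (FreeGroup X) :=
  SG {w | n ≤ w.length} fun a ha b => by simp only [mem_setOf_eq, length_mul] at *; omega

lemma mem_LG_one (g : FreeGroup X) : g ∈ LG 1 := by
  have : Subgroup.closure (range FreeGroup.of) ≤ (LG 1 : Subgroup (FreeGroup X)) := by
    rw [Subgroup.closure_le]
    rintro _ ⟨x, rfl⟩ h hh
    rw [mm_of] at hh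
    simp [eq_of_sg_c hh]
  exact this (by simp)

lemma mu_c_one (g : FreeGroup X) : (mu g : PS X).c 1 = 1 := by
  have : (mm g).c 1 = 0 := by
    by_contra h
    simpa using mem_LG_one g 1 h
  rwa [mm, sub_c, one_c_one, sub_eq_zero] at this

lemma lcs_le_LG (n : ℕ) : lcs (FreeGroup X) n ≤ LG (n + 1) := by
  induction n with
  | zero => exact fun g _ => mem_LG_one g
  | succ n ih =>
    refine Subgroup.commutator_le.2 fun g hg h _ => ?_
    change Sp _ (mm _)
    rw [mm_comm]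
    refine Sp.mul (s := {w | n + 1 + 1 ≤ w.length}) (Sp.sub (Sp.mul (ih hg) (mem_LG_one h) ?_)
      (Sp.mul (mem_LG_one h) (ih hg) ?_)) (Sp.univ _) ?_ <;>
    · intro a ha b hb
      simp only [mem_setOf_eq, length_mul] at *
      omega

variable [LinearOrder X]

def GW (u : FreeMonoid X) : Subgroup (FreeGroup X) :=
  SG (Ici u) fun a ha b => le_trans ha (le_mul_of_one_le_right' (word_one_le b))

lemma Sp.mul_c {u v : FreeMonoid X} {f g : PS X} (hf : Sp (Ici u) f) (hg : Sp (Ici v) g) :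
    (f * g).c (u * v) = f.c u * g.c v := by
  refine mul_c_unique _ _ _ _ fun a b ha hb hab => ?_
  have h1 : u ≤ a := hf a ha
  have h2 : v ≤ b := hg b hb
  rcases h1.eq_or_lt with rfl | h1
  · exact ⟨rfl, mul_left_cancel hab⟩
  · exact absurd hab (mul_lt_mul_of_lt_of_le h1 h2).ne'

lemma Sp.mul_Ici {u v : FreeMonoid X} {f g : PS X} (hf : Sp (Ici u) f) (hg : Sp (Ici v) g) :
    Sp (Ici (u * v)) (f * g) := hf.mul hg fun _ ha _ hb => mem_Ici.2 (mul_le_mul' (mem_Ici.1 ha) (mem_Ici.1 hb))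

lemma Sp.zero_of_lt {u v : FreeMonoid X} {f : PS X} (hf : Sp (Ici u) f) (h : v < u) : f.c v = 0 := by
  by_contra h'
  exact absurd (hf v h') (not_le.2 h)

lemma GW_anti {u v : FreeMonoid X} (h : u ≤ v) : GW v ≤ GW u := fun _ hg w hw => h.trans (hg w hw)

lemma LG_le_GW {u : FreeMonoid X} {n : ℕ} (h : u.length < n) {g : FreeGroup X} (hg : g ∈ LG n) :
    g ∈ GW u ∧ (mm g).c u = 0 :=
  ⟨fun w hw => (word_lt_of_length (h.trans_le (hg w hw))).le, by
    by_contra h'
    exact absurd (hg u h') (not_le.2 h)⟩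

lemma cf_mul {u : FreeMonoid X} (hu : 1 ≤ u.length) {g h : FreeGroup X} (hg : g ∈ GW u)
    (hh : h ∈ GW u) : (mm (g * h)).c u = (mm g).c u + (mm h).c u := by
  rw [mm_mul, add_c, add_c, (Sp.mul_Ici hg hh).zero_of_lt
    (word_lt_of_length (by rw [length_mul]; omega)), add_zero]

/-- coefficient homomorphism -/
noncomputable def cf {u : FreeMonoid X} (hu : 1 ≤ u.length) : GW u →* Multiplicative ℤ :=
  MonoidHom.mk' (fun g => Multiplicative.ofAdd ((mm g.1).c u)) fun g h => by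
    rw [← ofAdd_add, ← cf_mul hu g.2 h.2]
    rfl

lemma cf_zpow {u : FreeMonoid X} (hu : 1 ≤ u.length) {g : FreeGroup X} (hg : g ∈ GW u) (e : ℤ) :
    (mm (g ^ e)).c u = e * (mm g).c u := by
  simpa [cf] using congrArg Multiplicative.toAdd (map_zpow (cf hu) ⟨g, hg⟩ e)

lemma cf_inv {u : FreeMonoid X} (hu : 1 ≤ u.length) {g : FreeGroup X} (hg : g ∈ GW u) :
    (mm g⁻¹).c u = -(mm g).c u := by simpa using cf_zpow hu hg (-1)

def Lead (g : FreeGroup X) (u : FreeMonoid X) : Prop := g ∈ GW u ∧ (mm g).c u ≠ 0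

lemma Lead.comm {g h : FreeGroup X} {u v : FreeMonoid X} (hg : Lead g u) (hh : Lead h v)
    (huv : u * v < v * u) : Lead ⁅g, h⁆ (u * v) := by
  have h1 : Sp (Ici (u * v)) (mm g * mm h - mm h * mm g) :=
    (Sp.mul_Ici hg.1 hh.1).sub fun w hw => huv.le.trans (Sp.mul_Ici hh.1 hg.1 w hw)
  have h2 : Sp (Ici 1) (mu (g⁻¹ * h⁻¹) : PS X) := fun w _ => word_one_le w
  refine ⟨?_, ?_⟩
  · change Sp _ _
    rw [mm_comm]
    simpa using h1.mul_Ici h2
  · have := h1.mul_c h2
    rw [mul_one] at this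
    rw [mm_comm, this, mu_c_one, mul_one, sub_c, Sp.mul_c hg.1 hh.1,
      (Sp.mul_Ici hh.1 hg.1).zero_of_lt huv, sub_zero]
    exact mul_ne_zero hg.2 hh.2

/-- iterated commutator -/
def ic {G : Type*} [Group G] (a y : G) : ℕ → G
  | 0 => a
  | k + 1 => ⁅ic a y k, y⁆

lemma ic_mem {G : Type*} [Group G] {a y : G} {i j : ℕ} (ha : a ∈ lcs G i) (hy : y ∈ lcs G j)
    (k : ℕ) : ic a y k ∈ lcs G (i + k * (j + 1)) := by
  induction k with
  | zero => simpa [ic] using ha
  | succ k ih =>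
    rw [show i + (k + 1) * (j + 1) = i + k * (j + 1) + j + 1 by ring]
    exact lcs_comm _ _ (Subgroup.commutator_mem_commutator ih hy)

lemma pow_comm_lt {u v : FreeMonoid X} (huv : u * v < v * u) (k : ℕ) :
    u * v ^ k * v < v * (u * v ^ k) := by
  rw [mul_assoc, ← pow_succ, pow_succ', ← mul_assoc, ← mul_assoc]
  exact mul_lt_mul_left huv _

lemma Lead.ic {a y : FreeGroup X} {u v : FreeMonoid X} (ha : Lead a u) (hy : Lead y v)
    (huv : u * v < v * u) (k : ℕ) : Lead (ic a y k) (u * v ^ k) := by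
  induction k with
  | zero => rw [pow_zero, mul_one]; exact ha
  | succ k ih =>
    rw [pow_succ, ← mul_assoc]
    exact ih.comm hy (pow_comm_lt huv k)

lemma normalizes {G : Type*} [Group G] {Γ K : Subgroup G} [Γ.Normal] (hK : Γ ≤ K) {y : G}
    {T : Set G} (h1 : K ≤ Subgroup.closure {x | ∃ a ∈ T, ∃ k, x = ic a y k} ⊔ Γ)
    (h2 : ∀ a ∈ T, ∀ k, ic a y k ∈ K) (h3 : ∀ a ∈ T, ∃ k0, ∀ k, k0 ≤ k → ic a y k ∈ Γ) :
    y ∈ Subgroup.normalizer (K : Set G) := by
  have e1 : K ≤ K.comap (MulAut.conj y).toMonoidHom := by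
    refine h1.trans (sup_le ((Subgroup.closure_le _).2 ?_) fun g hg => ?_)
    · rintro _ ⟨a, ha, k, rfl⟩
      have := K.mul_mem (K.inv_mem (h2 a ha (k + 1))) (h2 a ha k)
      simpa [ic, commutatorElement_def, mul_assoc] using this
    · exact hK (Subgroup.Normal.conj_mem inferInstance g hg y)
  have e2 : K ≤ K.comap (MulAut.conj y⁻¹).toMonoidHom := by
    refine h1.trans (sup_le ((Subgroup.closure_le _).2 ?_) fun g hg => ?_)
    · rintro _ ⟨a, ha, k, rfl⟩
      obtain ⟨k0, hk0⟩ := h3 a ha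
      have : ∀ m k, k0 ≤ k + m → y⁻¹ * ic a y k * y⁻¹⁻¹ ∈ K := by
        intro m
        induction m with
        | zero => exact fun k hk => hK (Subgroup.Normal.conj_mem inferInstance _ (hk0 k hk) _)
        | succ m ih =>
          intro k hk
          have := K.mul_mem (ih (k + 1) (by omega)) (h2 a ha k)
          simpa [ic, commutatorElement_def, mul_assoc] using this
      exact this k0 k (by omega)
    · exact hK (Subgroup.Normal.conj_mem inferInstance g hg y⁻¹)
  exact Subgroup.mem_normalizer_iff.2 fun h => ⟨fun hh => e1 hh, fun hh => by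
    simpa [mul_assoc] using e2 hh⟩

theorem elim [WellFoundedLT X] (n : ℕ) (κ : FreeMonoid X) :
    ∀ T : Set (FreeGroup X × FreeMonoid X), T.Finite →
      (∀ p ∈ T, (1 ≤ p.2.length ∧ p.2.length ≤ n) ∧ p.1 ∈ lcs _ (p.2.length - 1) ∧ Lead p.1 p.2 ∧
        key n p.2 < κ) →
      (∀ p ∈ T, ∀ q ∈ T, ∀ w, q.2 = w * p.2 → p = q) →
      ∀ g ∈ Subgroup.closure (Prod.fst '' T) ⊔ lcs _ n, g ∈ lcs _ n ∨
        ∃ w, (1 ≤ w.length ∧ w.length ≤ n) ∧ key n w < κ ∧ Lead g w := by
  induction κ using (word_wf (X := X)).induction with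
  | _ κ ih =>
  intro T hT h1 h2 g hg
  rcases T.eq_empty_or_nonempty with rfl | hne
  · left
    simpa using hg
  obtain ⟨⟨y, v⟩, hv, hmax⟩ := Set.exists_max_image T (fun p => key n p.2) hT hne
  obtain ⟨hv1, hv2, hv3, hv4⟩ := h1 _ hv
  dsimp only at hv1 hv2 hv3 hv4 hmax
  have hlt : ∀ p ∈ T, p ≠ (y, v) → p.2 * v < v * p.2 := by
    intro p hp hne
    rcases lt_trichotomy (p.2 * v) (v * p.2) with h | h | h
    · exact h
    · rcases suffix_comp h with ⟨z, hz⟩ | ⟨z, hz⟩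
      · exact absurd (h2 p hp _ hv z hz) hne
      · exact absurd (h2 _ hv p hp z hz).symm hne
    · exact absurd (hmax p hp) (not_le.2 (key_lt h hv1 (h1 p hp).1))
  let T' : Set (FreeGroup X × FreeMonoid X) := {q | ∃ p ∈ T, p ≠ (y, v) ∧ ∃ k,
    p.2.length + k * v.length ≤ n ∧ q = (ic p.1 y k, p.2 * v ^ k)}
  have hT' : T'.Finite := by
    refine ((hT.prod (finite_Iic n)).image fun z => (ic z.1.1 y z.2, z.1.2 * v ^ z.2)).subset ?_
    rintro _ ⟨p, hp, -, k, hk, rfl⟩
    exact ⟨(p, k), ⟨hp, show k ≤ n by nlinarith [hv1.1]⟩, rfl⟩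
  have hmem : ∀ p ∈ T, ∀ k, ic p.1 y k ∈ lcs _ (p.2.length + k * v.length - 1) := by
    intro p hp k
    have := ic_mem (h1 p hp).2.1 hv2 k
    have e : p.2.length - 1 + k * (v.length - 1 + 1) = p.2.length + k * v.length - 1 := by
      rw [Nat.sub_add_cancel hv1.1]
      have := (h1 p hp).1.1
      omega
    rwa [e] at this
  have hlen : ∀ (u : FreeMonoid X) k, (u * v ^ k).length = u.length + k * v.length := fun u k => by
    rw [length_mul, length_pow]
  have IH := ih (key n v) hv4 T' hT' (by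
    rintro _ ⟨p, hp, hne, k, hk, rfl⟩
    have hl : 1 ≤ (p.2 * v ^ k).length ∧ (p.2 * v ^ k).length ≤ n := by
      rw [hlen]
      have := (h1 p hp).1.1
      omega
    exact ⟨hl, by rw [hlen]; exact hmem p hp k, (h1 p hp).2.2.1.ic hv3 (hlt p hp hne) k,
      key_lt (pow_comm_lt (hlt p hp hne) k) hl hv1⟩) (by
    rintro _ ⟨p, hp, hne, k, -, rfl⟩ _ ⟨q, hq, hne', k', -, rfl⟩ w hw
    dsimp only at hw
    rcases lt_trichotomy k k' with h | rfl | h
    · obtain ⟨j, rfl⟩ : ∃ j, k' = j + 1 + k := ⟨k' - k - 1, by omega⟩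
      rw [pow_add, ← mul_assoc, ← mul_assoc, mul_left_inj, pow_succ, ← mul_assoc] at hw
      rcases suffix_comp hw with ⟨z, hz⟩ | ⟨z, hz⟩
      · exact absurd (h2 p hp _ hv z hz) hne
      · exact absurd (h2 _ hv p hp z hz).symm hne
    · rw [← mul_assoc, mul_left_inj] at hw
      rw [h2 p hp q hq w hw]
    · obtain ⟨j, rfl⟩ : ∃ j, k = j + 1 + k' := ⟨k - k' - 1, by omega⟩
      rw [pow_add, ← mul_assoc, ← mul_assoc, mul_left_inj, pow_succ, ← mul_assoc] at hw
      exact absurd (h2 _ hv q hq _ hw).symm hne')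
  set K := Subgroup.closure (Prod.fst '' T') ⊔ lcs (FreeGroup X) n with hK
  have hbig : ∀ p ∈ T, ∀ k, n < p.2.length + k * v.length → ic p.1 y k ∈ lcs _ n :=
    fun p hp k hk => Subgroup.lowerCentralSeries_antitone _ (by omega) (hmem p hp k)
  have hic : ∀ p ∈ T, p ≠ (y, v) → ∀ k, ic p.1 y k ∈ K := by
    intro p hp hne k
    by_cases hk : p.2.length + k * v.length ≤ n
    · exact Subgroup.mem_sup_left (Subgroup.subset_closure ⟨_, ⟨p, hp, hne, k, hk, rfl⟩, rfl⟩)
    · exact Subgroup.mem_sup_right (hbig p hp k (not_le.1 hk))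
  have hnorm : y ∈ Subgroup.normalizer (K : Set (FreeGroup X)) := by
    refine normalizes (Γ := lcs _ n) (T := Prod.fst '' (T \ {(y, v)})) le_sup_right
      (sup_le_sup_right (Subgroup.closure_mono ?_) _) ?_ ?_
    · rintro _ ⟨_, ⟨p, hp, hne, k, -, rfl⟩, rfl⟩
      exact ⟨p.1, ⟨p, ⟨hp, hne⟩, rfl⟩, k, rfl⟩
    · rintro _ ⟨p, hp, rfl⟩
      exact hic p hp.1 hp.2
    · rintro _ ⟨p, hp, rfl⟩
      exact ⟨n + 1, fun k hk => hbig p hp.1 k (by nlinarith [hv1.1])⟩
  have hg' : g ∈ Subgroup.zpowers y ⊔ K := by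
    refine (sup_le ((Subgroup.closure_le _).2 ?_) (le_sup_right.trans le_sup_right) :
      _ ≤ Subgroup.zpowers y ⊔ K) hg
    rintro _ ⟨p, hp, rfl⟩
    by_cases hne : p = (y, v)
    · rw [hne]
      exact Subgroup.mem_sup_left (Subgroup.mem_zpowers y)
    · exact Subgroup.mem_sup_right (hic p hp hne 0)
  rw [← SetLike.mem_coe, Subgroup.coe_mul_of_left_le_normalizer_right _ _
    ((Subgroup.zpowers_le).2 hnorm)] at hg'
  obtain ⟨_, ⟨e, rfl⟩, g', hg', rfl⟩ := hg'
  dsimp only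
  by_cases he : e = 0
  · rw [he, zpow_zero, one_mul]
    exact (IH g' hg').imp id fun ⟨w, a, b, c⟩ => ⟨w, a, b.trans hv4, c⟩
  right
  have hy : y ^ e ∈ GW v := zpow_mem hv3.1 e
  have caseV : g' ∈ GW v → (mm g').c v = 0 → Lead (y ^ e * g') v := fun a b =>
    ⟨mul_mem hy a, by
      rw [cf_mul hv1.1 hy a, b, add_zero, cf_zpow hv1.1 hv3.1]
      exact mul_ne_zero he hv3.2⟩
  rcases IH g' hg' with h | ⟨w, a, b, c⟩
  · obtain ⟨a, b⟩ := LG_le_GW (u := v) (by omega) (lcs_le_LG n h)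
    exact ⟨v, hv1, hv4, caseV a b⟩
  rcases lt_trichotomy v w with h | rfl | h
  · exact ⟨v, hv1, hv4, caseV (GW_anti h.le c.1) (Sp.zero_of_lt c.1 h)⟩
  · exact absurd b (lt_irrefl _)
  · refine ⟨w, a, b.trans hv4, mul_mem (GW_anti h.le hy) c.1, ?_⟩
    rw [cf_mul a.1 (GW_anti h.le hy) c.1, Sp.zero_of_lt hy h, zero_add]
    exact c.2

/-- Magnus and Witt -/
theorem magnus_witt [WellFoundedLT X] (n : ℕ) {g : FreeGroup X} (hg : g ∉ lcs _ n) :
    ∃ w, (1 ≤ w.length ∧ w.length ≤ n) ∧ Lead g w := by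
  classical
  rcases Nat.eq_zero_or_pos n with rfl | hn
  · exact absurd trivial hg
  obtain ⟨s, hs⟩ : ∃ s : Finset X, g ∈ Subgroup.closure (FreeGroup.of '' (s : Set X)) := by
    have : g ∈ Subgroup.closure (range FreeGroup.of) := by simp
    clear hg
    induction this using Subgroup.closure_induction with
    | mem x hx =>
      obtain ⟨x, rfl⟩ := hx
      exact ⟨{x}, Subgroup.subset_closure (by simp)⟩
    | one => exact ⟨∅, one_mem _⟩
    | mul x y _ _ hx hy =>
      obtain ⟨s, hs⟩ := hx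
      obtain ⟨t, ht⟩ := hy
      exact ⟨s ∪ t, mul_mem (Subgroup.closure_mono (image_mono (by simp)) hs)
        (Subgroup.closure_mono (image_mono (by simp)) ht)⟩
    | inv x _ hx => exact hx.imp fun s hs => inv_mem hs
  rcases s.eq_empty_or_nonempty with rfl | ⟨x0, -⟩
  · exact absurd (by simp at hs; simp [hs]) hg
  have := elim n (of x0 ^ (n.factorial + 1)) ((fun x => (FreeGroup.of x, of x)) '' (s : Set X))
    (s.finite_toSet.image _) (by
      rintro _ ⟨x, -, rfl⟩
      refine ⟨⟨le_rfl, hn⟩, trivial, ⟨fun w hw => ?_, ?_⟩, word_lt_of_length ?_⟩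
      · rw [mm_of] at hw
        exact (eq_of_sg_c hw).ge
      · simp [mm_of]
      · simp [key, length_pow]) (by
      rintro _ ⟨x, -, rfl⟩ _ ⟨x', -, rfl⟩ w hw
      dsimp only at hw
      have h1 : w = 1 := length_eq_zero.1 (by simpa using congrArg FreeMonoid.length hw)
      rw [h1, one_mul] at hw
      rw [of_injective hw]) g (Subgroup.mem_sup_left (by rwa [image_image]))
  obtain ⟨w, a, -, c⟩ := this.resolve_left hg
  exact ⟨w, a, c⟩

end Pool.Agent.P.MP_a28d48_al
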