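import Pool.Agent.P.MP_a28d48_al.Para
import Pool.Agent.P.MP_a28d48_al.Howson

set_option autoImplicit false

namespace Pool.Agent.P.MP_a28d48_al

open Function Set commutatorElement

universe u

lemma fg_map {G K : Type*} [Group G] [Group K] {H : Subgroup G} (h : H.FG) (f : G →* K) :
    (H.map f).FG := (Subgroup.fg_iff_submonoid_fg _).2 (((Subgroup.fg_iff_submonoid_fg _).1 h).map f)

lemma fg_comap {G K : Type*} [Group G] [Group K] {H : Subgroup K} (h : H.FG) (f : G →* K)
    (hf : Injective f) (hH : H ≤ f.range) : (H.comap f).FG := by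
  refine (Subgroup.fg_iff_submonoid_fg _).2 (Submonoid.FG.map_injective f hf ?_)
  rw [← Subgroup.map_comap_eq_self hH] at h
  exact (Subgroup.fg_iff_submonoid_fg _).1 h

lemma exists_range {G : Type*} [Group G] {H : Subgroup G} (h : H.FG) :
    ∃ (s : ℕ) (a : Fin s → G), Subgroup.closure (range a) = H := by
  obtain ⟨S, rfl⟩ := h
  refine ⟨S.card, fun i => S.equivFin.symm i, congrArg _ ?_⟩
  rw [show (fun i => (S.equivFin.symm i : G)) = Subtype.val ∘ S.equivFin.symm from rfl,
    S.equivFin.symm.surjective.range_comp]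
  simp

variable {p : ℕ} [hp : Fact p.Prime] {G : Type u} [Group G]

theorem Good.inter_ind (Γ : Good p G) {r : ℕ} {b : Fin r → G} (hb : Ind p b) {A B : Subgroup G}
    (hA : A.FG) (hB : B.FG) (h : B ≤ Subgroup.closure (range b)) : (A ⊓ B).FG := by
  obtain ⟨s, a, rfl⟩ := exists_range hA
  obtain ⟨T, -, hT⟩ := Γ.rank_le hb a
  rw [← FreeGroup.range_lift_eq_closure] at h
  have := fg_map (howson ⟨T, hT⟩ (fg_comap hB _ (lift_injective Γ.proj hb) h)) (FreeGroup.lift b)
  rwa [← Subgroup.comap_inf, Subgroup.map_comap_eq_self (inf_le_right.trans h)] at this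

theorem Good.inter (Γ : Good p G) {Q : Type*} [Group Q] [Finite Q] (hQ : IsPGroup p Q)
    (φ : G →* Q) {r : ℕ} {b : Fin r → G}
    (hirr : ∀ i, φ (b i) ∉ Subgroup.closure ((fun l => φ (b l)) '' {l | l ≠ i}))
    {A B : Subgroup G} (hA : A.FG) (hB : B.FG) (h : B ≤ Subgroup.closure (range b)) :
    (A ⊓ B).FG := by
  let K := Subgroup.closure (range fun l => φ (b l))
  let U := K.comap φ
  have hU : φ.ker ≤ U := fun x hx => by
    change φ x ∈ K
    rw [hx]
    exact one_mem _
  let b' : Fin r → U := fun l => ⟨b l, Subgroup.subset_closure ⟨l, rfl⟩⟩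
  have hb : Ind p b' := ind_of_irredundant (hQ.to_subgroup K) (φ.subgroupComap K) b' (by
    apply Subgroup.map_injective K.subtype_injective
    rw [MonoidHom.map_closure, ← range_comp, ← MonoidHom.range_eq_map, K.range_subtype]
    rfl) fun i hi => hirr i (by
      have := Subgroup.mem_map_of_mem K.subtype hi
      rwa [MonoidHom.map_closure, ← image_comp] at this)
  have h1 : (Subgroup.closure (range b')).map U.subtype = Subgroup.closure (range b) := by
    rw [MonoidHom.map_closure, ← range_comp]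
    rfl
  have h2 : B ≤ U := h.trans (h1 ▸ Subgroup.map_subtype_le _)
  have : U.FiniteIndex := Subgroup.finiteIndex_of_le hU
  have := (Group.fg_iff_subgroup_fg A).2 hA
  have h3 : (U ⊓ A).FG := by
    rw [← Subgroup.subgroupOf_map_subtype]
    exact fg_map ((Group.fg_iff_subgroup_fg _).1 inferInstance) _
  have h4 := (Γ.sub hQ φ U hU).inter_ind hb
    (fg_comap h3 U.subtype U.subtype_injective (by simp))
    (fg_comap hB U.subtype U.subtype_injective (by simpa using h2))
    (by rwa [← Subgroup.map_le_map_iff_of_injective U.subtype_injective, h1,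
      Subgroup.map_comap_eq_self (by simpa using h2)])
  have := fg_map h4 U.subtype
  rwa [← Subgroup.comap_inf, Subgroup.map_comap_eq_self (by
    rw [U.range_subtype]; exact inf_le_left.trans inf_le_left), inf_comm U, inf_assoc,
    inf_eq_right.2 h2] at this

lemma fg_of_commute {G : Type*} [Group G] {x y : G} (hxy : Commute x y) {K : Subgroup G}
    (hK : K ≤ Subgroup.closure {x, y}) : K.FG := by
  let f : Multiplicative (ℤ × ℤ) →* G := MonoidHom.mk'
    (fun z => x ^ z.toAdd.1 * y ^ z.toAdd.2) fun z w => by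
      simp only [toAdd_mul, Prod.fst_add, Prod.snd_add, zpow_add]
      exact ((hxy.zpow_zpow _ _).mul_mul_mul_comm _ _)
  have h1 : K ≤ f.range := hK.trans ((Subgroup.closure_le _).2 (by
    rintro _ (rfl | rfl)
    · exact ⟨Multiplicative.ofAdd (1, 0), by simp [f]⟩
    · exact ⟨Multiplicative.ofAdd (0, 1), by simp [f]⟩))
  rw [← Subgroup.map_comap_eq_self h1]
  refine fg_map ?_ f
  have := Submodule.fg_toAddSubgroup (IsNoetherian.noetherian (R := ℤ)
    (AddSubgroup.toIntSubmodule (AddSubgroup.toSubgroup.symm (K.comap f))))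
  exact (AddSubgroup.fg_iff_mul_fg _).1 this

theorem Good.inter_two (Γ : Good p G) (x y : G) {A B : Subgroup G} (hA : A.FG) (hB : B.FG)
    (h : B ≤ Subgroup.closure {x, y}) : (A ⊓ B).FG := by
  by_cases hxy : ⁅x, y⁆ = 1
  · exact fg_of_commute (commutatorElement_eq_one_iff_commute.1 hxy) (inf_le_right.trans h)
  obtain ⟨j, hj⟩ := Γ.C.total _ hxy
  obtain ⟨Q, _, _, φ, h1, -, h2⟩ := Γ.sep j _ fun h' =>
    hj.elim ((Γ.mem j _).1 h').1 ((Γ.mem j _).1 h').2
  rw [map_commutatorElement, Ne, commutatorElement_eq_one_iff_commute] at h2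
  refine Γ.inter h1 φ (b := ![x, y]) (fun i hi => h2 ?_) hA hB (by simpa [pair_comm] using h)
  fin_cases i
  · have : φ x ∈ Subgroup.closure {φ y} := Subgroup.closure_mono (by
      rintro _ ⟨l, hl, rfl⟩
      fin_cases l <;> simp_all) hi
    obtain ⟨n, hn⟩ := Subgroup.mem_closure_singleton.1 this
    exact hn ▸ (Commute.refl _).zpow_left n
  · have : φ y ∈ Subgroup.closure {φ x} := Subgroup.closure_mono (by
      rintro _ ⟨l, hl, rfl⟩
      fin_cases l <;> simp_all) hi
    obtain ⟨n, hn⟩ := Subgroup.mem_closure_singleton.1 this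
    exact hn ▸ (Commute.refl _).zpow_right n

end Pool.Agent.P.MP_a28d48_al
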