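import Pool.Agent.P.MP_a28d48_al.NDef

set_option autoImplicit false

namespace Pool.Agent.P.MP_a28d48_al

open Function Set Ser

universe u

variable {p : ℕ} [hp : Fact p.Prime]

omit hp in
theorem exists_char_list {G : Type*} [Group G] {Γ : Subgroup G} (hΓ : Γ.FG) :
    ∃ B : List (G → ℤ), (∀ χ ∈ B, IsChar Γ χ) ∧
      ∀ χ, IsChar Γ χ → ∀ d : ℤ, ∀ g ∈ Γ, (∀ b ∈ B, d ∣ b g) → d ∣ χ g := by
  classical
  obtain ⟨S, rfl⟩ := hΓ
  let M : Submodule ℤ (G → ℤ) :=
    { carrier := {χ | IsChar (Subgroup.closure (S : Set G)) χ}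
      add_mem' := fun {x y} hx hy a ha b hb => by
        rw [Pi.add_apply, Pi.add_apply, Pi.add_apply, hx a ha b hb, hy a ha b hb]
        ring
      zero_mem' := fun _ _ _ _ => by simp
      smul_mem' := fun c x hx a ha b hb => by
        rw [Pi.smul_apply, Pi.smul_apply, Pi.smul_apply, hx a ha b hb, smul_add] }
  let ev : (G → ℤ) →ₗ[ℤ] (S → ℤ) := LinearMap.funLeft ℤ ℤ Subtype.val
  obtain ⟨T, hT⟩ := IsNoetherian.noetherian (M.map ev)
  have hex : ∀ t : T, ∃ b ∈ M, ev b = t := fun t =>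
    Submodule.mem_map.1 (hT ▸ Submodule.subset_span t.2)
  choose f hf using hex
  refine ⟨T.attach.toList.map f, fun χ hχ => ?_, fun χ hχ d g hg hd => ?_⟩
  · obtain ⟨t, -, rfl⟩ := List.mem_map.1 hχ
    exact (hf t).1
  · have h1 : ev χ ∈ Submodule.span ℤ (T : Set (S → ℤ)) := hT ▸ Submodule.mem_map_of_mem hχ
    obtain ⟨χ', h2, h3, h4⟩ : ∃ χ' ∈ M, ev χ' = ev χ ∧ d ∣ χ' g := by
      refine Submodule.span_induction (p := fun v _ => ∃ χ' ∈ M, ev χ' = v ∧ d ∣ χ' g) ?_ ?_ ?_ ?_ h1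
      · intro t ht
        exact ⟨f ⟨t, ht⟩, (hf _).1, (hf _).2, hd _ (List.mem_map_of_mem
          (Finset.mem_toList.2 (Finset.mem_attach _ _)))⟩
      · exact ⟨0, M.zero_mem, map_zero _, dvd_zero d⟩
      · rintro _ _ - - ⟨x, hx, rfl, dx⟩ ⟨y, hy, rfl, dy⟩
        exact ⟨x + y, M.add_mem hx hy, map_add _ _ _, dvd_add dx dy⟩
      · rintro c _ - ⟨x, hx, rfl, dx⟩
        exact ⟨c • x, M.smul_mem c hx, map_smul _ _ _, dx.mul_left c⟩
    have h2' : IsChar (Subgroup.closure (S : Set G)) χ' := h2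
    have h5 : χ' g = χ g := by
      refine Subgroup.closure_induction (p := fun x _ => χ' x = χ x) ?_ ?_ ?_ ?_ hg
      · exact fun x hx => congrFun h3 ⟨x, hx⟩
      · rw [h2'.one, hχ.one]
      · intro x y hx hy ex ey
        rw [h2' x hx y hy, hχ x hx y hy, ex, ey]
      · intro x hx ex
        rw [h2'.inv hx, hχ.inv hx, ex]
    exact h5 ▸ h4

theorem char_lift_zero {A : Type*} [Group A] (hA : Group.FG A) (ψ : A →* Multiplicative (ZMod p))
    (hψ : ∀ m : ℕ, ∃ ψ' : A →* Multiplicative (ZMod (p ^ (m + 1))), ∀ u,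
      (ψ u).toAdd = ZMod.castHom (dvd_pow_self p m.succ_ne_zero) (ZMod p) (ψ' u).toAdd)
    {g : A} (hg : ∀ χ : A →* Multiplicative ℤ, (p : ℤ) ∣ (χ g).toAdd) : ψ g = 1 := by
  have hA' : Group.FG (Abelianization A) :=
    Group.fg_of_surjective (f := Abelianization.of) (QuotientGroup.mk_surjective)
  obtain ⟨ι, j, _, _, q, hq, ex, ⟨e⟩⟩ :=
    CommGroup.equiv_free_prod_prod_multiplicative_zmod (Abelianization A)
  have hne : ∀ i, NeZero (q i ^ ex i) := fun i => ⟨pow_ne_zero _ (hq i).ne_zero⟩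
  let π := e.toMonoidHom.comp Abelianization.of
  have hπ : Surjective π := e.surjective.comp QuotientGroup.mk_surjective
  have fac : ∀ {n : ℕ} (f : A →* Multiplicative (ZMod n)),
      ∃ F : (j → Multiplicative ℤ) × ((i : ι) → Multiplicative (ZMod (q i ^ ex i))) →*
        Multiplicative (ZMod n), ∀ a, F (π a) = f a := fun f =>
    ⟨(Abelianization.lift f).comp e.symm.toMonoidHom, fun a => by simp [π]⟩
  have hv : ∀ i, ∃ k : ℤ, ((π g).1 i).toAdd = p * k := fun i =>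
    hg ((Pi.evalMonoidHom _ i).comp ((MonoidHom.fst _ _).comp π))
  choose k hk using hv
  obtain ⟨a, ha⟩ := hπ (1, (π g).2)
  have hsplit : π g = ((fun i => Multiplicative.ofAdd (k i)), 1) ^ p * π a := by
    rw [ha]
    refine Prod.ext (funext fun i => Multiplicative.toAdd.injective ?_) (by simp)
    rw [hk i]
    simp
  obtain ⟨F, hF⟩ := fac ψ
  have hp1 : ∀ x : Multiplicative (ZMod p), x ^ p = 1 := fun x =>
    Multiplicative.toAdd.injective (by simp)
  rw [← hF, hsplit, map_mul, map_pow, hp1, one_mul, hF]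
  obtain ⟨m, c, hc, hN⟩ := Nat.exists_eq_pow_mul_and_not_dvd
    (Nat.card_pos (α := (i : ι) → Multiplicative (ZMod (q i ^ ex i)))).ne' p hp.out.ne_one
  obtain ⟨ψ', hψ'⟩ := hψ m
  obtain ⟨F', hF'⟩ := fac ψ'
  have h1 : ψ' a ^ (p ^ m * c) = 1 := by
    rw [← hF', ← map_pow, ha, Prod.pow_mk, one_pow, ← hN, pow_card_eq_one']
    exact map_one F'
  obtain ⟨z, hz⟩ := ZMod.intCast_surjective (ψ' a).toAdd
  have h2 : (((p : ℤ) ^ m * (c * z) : ℤ) : ZMod (p ^ (m + 1))) = 0 := by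
    have h := congrArg Multiplicative.toAdd h1
    rw [toAdd_pow, ← hz, toAdd_one, nsmul_eq_mul] at h
    rw [← h]
    push_cast
    ring
  rw [ZMod.intCast_zmod_eq_zero_iff_dvd, Nat.cast_pow, pow_succ,
    mul_dvd_mul_iff_left (pow_ne_zero m (Int.natCast_ne_zero.2 hp.out.ne_zero))] at h2
  have h3 : (p : ℤ) ∣ z := ((Nat.prime_iff_prime_int.1 hp.out).dvd_or_dvd h2).resolve_left
    fun h => hc (Int.natCast_dvd_natCast.1 h)
  refine Multiplicative.toAdd.injective ?_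
  rw [hψ', ← hz, map_intCast, toAdd_one]
  exact (ZMod.intCast_zmod_eq_zero_iff_dvd z p).2 h3

end Pool.Agent.P.MP_a28d48_al
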