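import Pool.Agent.P.MP_a28d48_al.NDef

set_option autoImplicit false

namespace Pool.Agent.P.MP_a28d48_al

open Function Set Ser

universe u

variable {p : ℕ} [hp : Fact p.Prime]

open FreeMonoid in
lemma nChi_sep {X : Type u} {n : ℕ} (w : FreeMonoid X) (hw : w.length ≤ n) (e : ℕ) :
    ∃ (Q : Type u) (_ : Group Q) (_ : Finite Q) (φ : FreeGroup X →* Q),
      IsPGroup p Q ∧ lcs _ n ≤ φ.ker ∧ ∀ f, φ f = 1 → ((p ^ e : ℕ) : ℤ) ∣ (mm f).c w := by
  let Inf : Set (FreeMonoid X) := {u | ∃ s t, w = s * u * t}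
  have hInf : Inf.Finite := by
    refine (w.toList.sublists.finite_toSet.image ofList).subset ?_
    rintro u ⟨s, t, h⟩
    exact ⟨u.toList, List.mem_sublists.2 (List.IsInfix.sublist ⟨s.toList, t.toList,
      (congrArg toList h).symm⟩), rfl⟩
  let I : TwoSidedIdeal (PS X) := TwoSidedIdeal.mk' {f | ∀ u ∈ Inf, ((p ^ e : ℕ) : ℤ) ∣ f.c u}
    (fun u _ => dvd_zero _) (fun hf hg u hu => dvd_add (hf u hu) (hg u hu))
    (fun hf u hu => (hf u hu).neg_right)
    (fun {x y} hf u hu => Finset.dvd_sum fun q hq => by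
      obtain ⟨s, t, h⟩ := hu
      refine Dvd.dvd.mul_left (hf _ ⟨s * q.1, t, ?_⟩) _
      rw [h, ← ((mem_ad _ _ _ _).1 hq).2.2]
      simp only [mul_assoc])
    (fun {x y} hf u hu => Finset.dvd_sum fun q hq => by
      obtain ⟨s, t, h⟩ := hu
      refine Dvd.dvd.mul_right (hf _ ⟨s, q.2 * t, ?_⟩) _
      rw [h, ← ((mem_ad _ _ _ _).1 hq).2.2]
      simp only [mul_assoc])
  have hI : ∀ f, f ∈ I ↔ ∀ u ∈ Inf, ((p ^ e : ℕ) : ℤ) ∣ f.c u := fun f => TwoSidedIdeal.mem_mk' ..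
  let π := I.ringCon.mk'
  have hπ : ∀ f f', π f = π f' ↔ f - f' ∈ I := fun f f' =>
    (RingCon.eq _).trans (I.rel_iff _ _)
  have : NeZero (p ^ e) := ⟨pow_ne_zero _ hp.out.ne_zero⟩
  have := hInf.to_subtype
  have : Finite I.ringCon.Quotient := by
    refine Finite.of_injective (fun x => fun u : Inf => ((x.out.c u : ℤ) : ZMod (p ^ e))) ?_
    intro x y h
    rw [← Quotient.out_eq x, ← Quotient.out_eq y]
    refine (hπ _ _).2 ((hI _).2 fun u hu => ?_)
    rw [sub_c]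
    exact (ZMod.intCast_eq_intCast_iff_dvd_sub _ _ _).1 (congrFun h ⟨u, hu⟩).symm
  let φ : FreeGroup X →* I.ringCon.Quotientˣ := (Units.map π.toMonoidHom).comp mu
  have hφ : ∀ f, φ f = 1 ↔ mm f ∈ I := fun f => by
    rw [mm, ← hπ, map_one, Units.ext_iff]
    rfl
  have hlong : ∀ f : PS X, Sp {u | n + 1 ≤ u.length} f → f ∈ I := fun f hf =>
    (hI _).2 fun u ⟨s, t, h⟩ => by
      by_cases h0 : f.c u = 0
      · rw [h0]
        exact dvd_zero _
      · have h1 := hf u h0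
        have h2 := congrArg FreeMonoid.length h
        simp only [mem_ofPred_eq, length_mul] at h1 h2
        omega
  refine ⟨φ.range, inferInstance, inferInstance, φ.rangeRestrict, ?_, fun f hf => ?_, fun f h => ?_⟩
  · rintro ⟨_, f, rfl⟩
    refine ⟨n + 1 + e, Subtype.ext (Units.ext ?_)⟩
    have h1 : ∀ k, Sp {u | k ≤ u.length} (mm f ^ k) := by
      intro k
      induction k with
      | zero => exact fun u _ => Nat.zero_le _
      | succ k ih =>
        rw [pow_succ]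
        refine Sp.mul ih (mem_LG_one f) fun a ha b hb => ?_
        simp only [mem_ofPred_eq, length_mul] at *
        omega
    have h2 : ((φ f : I.ringCon.Quotientˣ) : I.ringCon.Quotient) = 1 + π (mm f) := by
      rw [mm, map_sub, map_one, add_sub_cancel]
      rfl
    change ((φ f ^ p ^ (n + 1 + e) : I.ringCon.Quotientˣ) : I.ringCon.Quotient) = 1
    rw [Units.val_pow_eq_pow_val, h2]
    refine pow_eq_one_of_nil hp.out ?_ ?_
    · rw [← map_pow, ← map_zero π, hπ, sub_zero]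
      exact hlong _ (h1 _)
    · rw [← Nat.cast_pow, ← map_natCast π, ← map_zero π, hπ, sub_zero, hI]
      intro u _
      refine ⟨(1 : PS X).c u, ?_⟩
      rw [← nsmul_one (A := PS X), ← nsmul_eq_mul]
      exact map_nsmul (coef u) (p ^ e) (1 : PS X)
  · exact Subtype.ext ((hφ f).2 (hlong _ (lcs_le_LG n hf)))
  · exact (hI _).1 ((hφ f).1 (congrArg Subtype.val h)) w ⟨1, 1, by simp⟩

theorem sep_coef {X : Type u} {n : ℕ} (w : FreeMonoid X) (hw : w.length ≤ n) (s : ℕ) :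
    ∃ (Q : Type u) (_ : Group Q) (_ : Finite Q) (φ : FreeGroup X →* Q),
      IsPGroup p Q ∧ lcs _ n ≤ φ.ker ∧ ∀ f, φ f = 1 → ((p ^ s : ℕ) : ℤ) ∣ (mm f).c w :=
  nChi_sep w hw s

lemma nChi_add {X : Type u} {j : ℕ} {w : FreeMonoid X} (hw : w.length = j + 1)
    {f f' : FreeGroup X} (hf : f ∈ LG (j + 1)) (hf' : f' ∈ LG (j + 1)) :
    (mm (f * f')).c w = (mm f).c w + (mm f').c w := by
  have h1 : Sp {u | j + 1 + (j + 1) ≤ u.length} (mm f * mm f') :=
    Sp.mul hf hf' fun a ha b hb => by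
      simp only [mem_ofPred_eq, FreeMonoid.length_mul] at *
      omega
  have h2 : (mm f * mm f').c w = 0 := by
    by_contra h
    have := h1 w h
    simp only [mem_ofPred_eq] at this
    omega
  rw [mm_mul, add_c, add_c, h2, add_zero]

lemma nChi_zero {X : Type u} {j : ℕ} {w : FreeMonoid X} (hw : w.length = j + 1)
    {f : FreeGroup X} (hf : f ∈ lcs _ (j + 1)) : (mm f).c w = 0 := by
  by_contra h
  have : j + 1 + 1 ≤ w.length := lcs_le_LG _ hf w h
  omega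

lemma nChi_congr {X : Type u} {j : ℕ} {w : FreeMonoid X} (hw : w.length = j + 1)
    {f f' : FreeGroup X} (hf : f ∈ lcs _ j)
    (e : (f : FreeGroup X ⧸ lcs _ (j + 1)) = f') : (mm f').c w = (mm f).c w := by
  have h1 : f⁻¹ * f' ∈ lcs _ (j + 1) := QuotientGroup.eq.1 e
  have h2 := nChi_add hw (lcs_le_LG j hf) (lcs_le_LG j (lcs_anti (Nat.le_succ j) h1))
  rwa [mul_inv_cancel_left, nChi_zero hw h1, add_zero] at h2

theorem exists_chi {P : Type u} [Group P] {X : Type u}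
    (θ : ∀ n, P ⧸ lcs P n ≃* FreeGroup X ⧸ lcs (FreeGroup X) n) {j : ℕ} {h : P}
    (h1 : h ∈ lcs P j) (h2 : h ∉ lcs P (j + 1)) :
    ∃ χ : P → ℤ, IsChar (lcs P j) χ ∧ χ h ≠ 0 ∧ ∀ s : ℕ,
      ∃ (Q : Type u) (_ : Group Q) (_ : Finite Q) (φ : P →* Q), IsPGroup p Q ∧
        ∀ z ∈ lcs P j, φ z = 1 → ((p ^ s : ℕ) : ℤ) ∣ χ z := by
  obtain ⟨_, _⟩ := exists_wellFoundedLT X
  let π : P →* FreeGroup X ⧸ lcs (FreeGroup X) (j + 1) :=
    (θ (j + 1)).toMonoidHom.comp (QuotientGroup.mk' _)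
  have hk : ∀ g, π g = 1 ↔ g ∈ lcs P (j + 1) := fun g =>
    (map_eq_one_iff _ (θ (j + 1)).injective).trans (QuotientGroup.eq_one_iff g)
  have hl : ∀ z ∈ lcs P j, ∃ f ∈ lcs (FreeGroup X) j,
      (f : FreeGroup X ⧸ lcs _ (j + 1)) = π z := fun z hz =>
    lcs_surj (QuotientGroup.mk' _) (QuotientGroup.mk'_surjective _) j (lcs_map π j hz)
  obtain ⟨f0, hf0, e0⟩ := hl h h1
  have hn : f0 ∉ lcs _ (j + 1) := fun h' =>
    h2 ((hk h).1 (by rw [← e0]; exact (QuotientGroup.eq_one_iff _).2 h'))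
  obtain ⟨w, hw, -, hc⟩ := magnus_witt (j + 1) hn
  have hw' : w.length = j + 1 := le_antisymm hw.2 (lcs_le_LG j hf0 w hc)
  have hv : ∀ z (f : FreeGroup X), f ∈ lcs _ j → (f : FreeGroup X ⧸ lcs _ (j + 1)) = π z →
      (mm (π z).out).c w = (mm f).c w := fun z f hf e =>
    nChi_congr hw' hf (e.trans (QuotientGroup.out_eq' _).symm)
  refine ⟨fun z => (mm (π z).out).c w, fun a ha b hb => ?_, ?_, fun s => ?_⟩
  · obtain ⟨f, hf, e⟩ := hl a ha
    obtain ⟨f', hf', e'⟩ := hl b hb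
    have e2 : ((f * f' : FreeGroup X) : FreeGroup X ⧸ lcs _ (j + 1)) = π (a * b) := by
      rw [map_mul, ← e, ← e']
      rfl
    dsimp only
    rw [hv a f hf e, hv b f' hf' e', hv _ _ (mul_mem hf hf') e2,
      nChi_add hw' (lcs_le_LG j hf) (lcs_le_LG j hf')]
  · dsimp only
    rwa [hv h f0 hf0 e0]
  · obtain ⟨Q, _, _, φ, q1, q2, q3⟩ := sep_coef (p := p) w hw.2 s
    refine ⟨Q, inferInstance, inferInstance, (QuotientGroup.lift _ φ q2).comp π, q1,
      fun z hz e => ?_⟩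
    obtain ⟨f, hf, e'⟩ := hl z hz
    dsimp only
    rw [hv z f hf e']
    rw [MonoidHom.comp_apply, ← e'] at e
    exact q3 f e

end Pool.Agent.P.MP_a28d48_al
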