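import Pool.Agent.P.MP_a28d48_al.NPair
import Pool.Agent.P.MP_a28d48_al.NChi

set_option autoImplicit false

namespace Pool.Agent.P.MP_a28d48_al

open Function Set Ser

universe u

variable {p : ℕ} [hp : Fact p.Prime]

theorem chi_inj {P : Type u} [Group P] (Γ : Good p P) {M : Subgroup P} {χ : P → ℤ}
    (hχ : IsChar M χ) (hs : ∀ s : ℕ,
      ∃ (Q : Type u) (_ : Group Q) (_ : Finite Q) (φ : P →* Q), IsPGroup p Q ∧
        ∀ z ∈ M, φ z = 1 → ((p ^ s : ℕ) : ℤ) ∣ χ z)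
    {g h : P} (hg : g ∈ M) (hh : h ∈ M) (hgh : Commute g h) (h0 : χ h ≠ 0) (h1 : χ g = 0) :
    g = 1 := by
  by_contra hne
  obtain ⟨Q₀, _, _, θ₀, hQ₀, hθ₀⟩ := Γ.rf0 hne
  obtain ⟨e, he⟩ := IsPGroup.iff_card.1 hQ₀
  obtain ⟨v, a', ha', hv⟩ := Nat.exists_eq_pow_mul_and_not_dvd (Int.natAbs_ne_zero.2 h0) p
    hp.out.ne_one
  obtain ⟨Q₁, _, _, θ₁, hQ₁, hθ₁⟩ := hs (e + v + 1)
  obtain ⟨b, hb⟩ := IsPGroup.iff_card.1 hQ₁
  have hQ : IsPGroup p (Q₀ × Q₁) :=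
    IsPGroup.of_card (n := e + b) (by rw [Nat.card_prod, he, hb, pow_add])
  let f : M →* Multiplicative ℤ := MonoidHom.mk' (fun z => Multiplicative.ofAdd (χ z))
    fun a b => by rw [← ofAdd_add, Subgroup.coe_mul, hχ a a.2 b b.2]
  have hz : ∀ z ∈ M, ∀ n : ℤ, χ (z ^ n) = n * χ z := fun z hz n => by
    have := congrArg Multiplicative.toAdd (map_zpow f ⟨z, hz⟩ n)
    simpa [f] using this
  have key : ∀ n : ℤ, ((p ^ (e + v + 1) : ℕ) : ℤ) ∣ n * χ h → p ^ (e + 1) ∣ n.natAbs := by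
    intro n hn
    have h2 : p ^ (e + v + 1) ∣ n.natAbs * (p ^ v * a') := by
      rw [← hv, ← Int.natAbs_mul]
      exact Int.natCast_dvd.1 hn
    have h3 : p ^ v * p ^ (e + 1) ∣ p ^ v * (n.natAbs * a') := by
      rw [← pow_add, show v + (e + 1) = e + v + 1 by ring, mul_left_comm]
      exact h2
    exact (Nat.Coprime.pow_left _ ((Nat.Prime.coprime_iff_not_dvd hp.out).2 ha')).dvd_of_dvd_mul_right
      (Nat.dvd_of_mul_dvd_mul_left (pow_pos hp.out.pos v) h3)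
  refine Γ.proj.not_commute hQ (θ₀.prod θ₁) ?_ ?_ hgh
  · rintro ⟨n, hn⟩
    have h2 : θ₀ h ^ n = θ₀ g := congrArg Prod.fst hn
    have h3 : θ₁ h ^ n = θ₁ g := congrArg Prod.snd hn
    have h4 := hθ₁ (h ^ n * g ^ (-1 : ℤ)) (M.mul_mem (M.zpow_mem hh n) (M.zpow_mem hg _))
      (by rw [map_mul, map_zpow, map_zpow, h3]; simp)
    rw [hχ _ (M.zpow_mem hh n) _ (M.zpow_mem hg _), hz h hh, hz g hg, h1, mul_zero, add_zero] at h4
    obtain ⟨c, hc⟩ := Int.natCast_dvd.2 ((pow_dvd_pow p e.le_succ).trans (key n h4))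
    apply hθ₀
    rw [← h2, hc, zpow_mul, zpow_natCast, ← he, pow_card_eq_one', one_zpow]
  · rintro ⟨n, hn⟩
    have h3 : θ₁ g ^ n = θ₁ h := congrArg Prod.snd hn
    have h4 := hθ₁ (h * g ^ (-n)) (M.mul_mem hh (M.zpow_mem hg _))
      (by rw [map_mul, map_zpow, ← h3]; simp)
    rw [hχ _ hh _ (M.zpow_mem hg _), hz g hg, h1, mul_zero, add_zero, ← one_mul (χ h)] at h4
    have h5 := (dvd_pow_self p e.succ_ne_zero).trans (key 1 h4)
    exact hp.out.ne_one (Nat.dvd_one.1 h5)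

include hp in
theorem comm_fg {P : Type u} [Group P] (h0 : ⨅ n, lcs P n = ⊥) {X : Type u}
    (θ : ∀ n, P ⧸ lcs P n ≃* FreeGroup X ⧸ lcs (FreeGroup X) n) (H : Subgroup P)
    (hH : ∀ a ∈ H, ∀ b ∈ H, Commute a b) : H.FG := by
  classical
  obtain ⟨Γ⟩ := good_of_parafree (p := p) h0 θ
  by_cases hb : H = ⊥
  · rw [hb]; exact ⟨∅, by simp⟩
  have hex : ∃ j, ¬ H ≤ lcs P (j + 1) := by
    by_contra hno
    refine hb (eq_bot_iff.2 (h0 ▸ le_iInf fun n => ?_))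
    exact (not_not.1 fun h => hno ⟨n, h⟩).trans (lcs_anti n.le_succ)
  have hle : H ≤ lcs P (Nat.find hex) := by
    rcases hj : Nat.find hex with _ | j
    · exact le_top
    · exact not_not.1 (Nat.find_min hex (by omega))
  obtain ⟨h, hh, hh'⟩ := SetLike.not_le_iff_exists.1 (Nat.find_spec hex)
  obtain ⟨χ, hχ, h1, hs⟩ := exists_chi (p := p) θ (hle hh) hh'
  let f : H →* Multiplicative ℤ := MonoidHom.mk' (fun z => Multiplicative.ofAdd (χ z))
    fun a b => by rw [← ofAdd_add, Subgroup.coe_mul, hχ a (hle a.2) b (hle b.2)]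
  have hf : Injective f := (injective_iff_map_eq_one f).2 fun g hg =>
    Subtype.ext (chi_inj Γ hχ hs (hle g.2) (hle hh) (hH g g.2 h hh) h1
      (congrArg Multiplicative.toAdd hg))
  obtain ⟨g, hg⟩ := H.isCyclic_iff_exists_zpowers_eq_top.1 (isCyclic_of_injective f hf)
  exact ⟨{g}, by rw [← hg, Finset.coe_singleton, Subgroup.zpowers_eq_closure]⟩

end Pool.Agent.P.MP_a28d48_al
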