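import Pool.Agent.P.MP_a28d48_al.Main
import Pool.Agent.P.MP_a28d48_al.KDef

set_option autoImplicit false

namespace Pool.Agent.P.MP_a28d48_al

open Function Set Ser

universe u

/-- what a subgroup of a parafree group inherits -/
structure Nice (p : ℕ) (G : Type u) [Group G] where
  C : Cones G
  N : ℕ → Subgroup G
  normal : ∀ j, (N j).Normal
  mem : ∀ j g, g ∈ N j ↔ g ∉ C.P j ∧ g⁻¹ ∉ C.P j
  nil : ∀ j, ∃ c, lcs G c ≤ N j
  der : ∀ g h : G, ¬ Commute g h → ∃ U : Subgroup G, U.FiniteIndex ∧ g ∈ U ∧ h ∈ U ∧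
    ∀ (j : ℕ) (Z : Finset G), ∃ (Q : Type u) (_ : Group Q) (θ : G →* Q)
      (δ : G → MonoidAlgebra (ZMod p) Q), N j ≤ θ.ker ∧
      (∀ x ∈ Z, ∀ y ∈ Z, θ x = θ y → x⁻¹ * y ∈ N j) ∧
      (∀ a ∈ U, ∀ b ∈ U, δ (a * b) = δ a + MonoidAlgebra.single (θ a) 1 * δ b) ∧ δ g = 1 ∧ δ h = 0
  rf : ∀ g : G, g ≠ 1 → ∃ (Q : Type u) (_ : Group Q) (_ : Finite Q) (θ : G →* Q),
    IsPGroup p Q ∧ θ g ≠ 1 ∧ ∀ (K : Subgroup Q) (ψ : K →* Multiplicative (ZMod p)) (m : ℕ),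
      ∃ ψ' : K.comap θ →* Multiplicative (ZMod (p ^ (m + 1))), ∀ u : K.comap θ,
        (ψ ⟨θ u, u.2⟩).toAdd = ZMod.castHom (dvd_pow_self p m.succ_ne_zero) (ZMod p) (ψ' u).toAdd
  comm : ∀ H : Subgroup G, (∀ a ∈ H, ∀ b ∈ H, Commute a b) → H.FG

/-- boundary of a one-chain of the Cayley graph -/
noncomputable def bd {G k Y : Type*} [Group G] [Field k] [Fintype Y] (gen : Y → G)
    (c : Y → MonoidAlgebra k G) : MonoidAlgebra k G :=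
  ∑ y, c y * (MonoidAlgebra.single (gen y) 1 - 1)

end Pool.Agent.P.MP_a28d48_al
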