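import Pool.Agent.P.MP_a28d48_al.NDef

set_option autoImplicit false

namespace Pool.Agent.P.MP_a28d48_al

open Function Set Ser

universe u

variable {p : ℕ} [hp : Fact p.Prime]

lemma nDesc_fin {R E : Type*} [Ring R] [DivisionRing E] (f : R →+* E) (hf : Injective f)
    (hore : ∀ a d : R, d ≠ 0 → ∃ a' d' : R, d' ≠ 0 ∧ d' * a = a' * d)
    {ι σ : Type*} [Fintype ι] [Fintype σ] (J : ι → σ → R) (κ : ι → E)
    (h1 : ∀ i, ∑ l, κ l * f (J l i) = 0) (l₀ : ι) (h2 : κ l₀ ≠ 0) :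
    ∃ κ' : ι → R, (∀ i, ∑ l, κ' l * J l i = 0) ∧ κ' l₀ ≠ 0 := by
  classical
  let a := (Fintype.equivFin ι).symm
  let b := (Fintype.equivFin σ).symm
  obtain ⟨κ', q1, q2⟩ := descend f hf hore (fun l i => J (a l) (b i))
    (fun l => if l = a.symm l₀ then 1 else 0) (fun l => κ (a l))
    (fun i => (Equiv.sum_comp a fun l => κ l * f (J l (b i))).trans (h1 _))
    (by simpa [apply_ite f] using h2)
  refine ⟨fun l => κ' (a.symm l), fun i => ?_, by simpa using q2⟩
  rw [← Equiv.sum_comp a]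
  simpa using q1 (b.symm i)

theorem Nice.desc {G : Type u} [Group G] (Γ : Nice p G) {ι σ : Type*} [Fintype ι] [Fintype σ]
    (J : ι → σ → MonoidAlgebra (ZMod p) G) (κ : ι → Ser Γ.C.adm (ZMod p))
    (h : ∀ i, ∑ l, κ l * ofMA Γ.C (ZMod p) (J l i) = 0) (l₀ : ι) (h0 : κ l₀ ≠ 0) :
    ∃ (j : ℕ) (Z : Finset G), ∀ (Q : Type u) [Group Q] (θ : G →* Q), Γ.N j ≤ θ.ker →
      (∀ x ∈ Z, ∀ y ∈ Z, θ x = θ y → x⁻¹ * y ∈ Γ.N j) →
      ∃ κ' : ι → MonoidAlgebra (ZMod p) Q,
        (∀ i, ∑ l, κ' l * MonoidAlgebra.mapDomainRingHom (ZMod p) θ (J l i) = 0) ∧ κ' l₀ ≠ 0 := by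
  classical
  have hN := Γ.mem
  have := Γ.normal
  obtain ⟨g, hg, j0, hmin⟩ := Cones.exists_min (κ l₀).adm (by
    rw [support_nonempty_iff]
    exact fun h => h0 (Ser.ext h))
  choose lv hlv using fun l => (κ l).adm
  let j := max j0 (Finset.univ.sup lv)
  have hL : ∀ l, Lv j (κ l) := fun l =>
    Cones.pwo_mono ((Finset.le_sup (Finset.mem_univ l)).trans (le_max_right _ _)) (hlv l)
  let π := MonoidAlgebra.mapDomainRingHom (ZMod p) (QuotientGroup.mk' (Γ.N j))
  have hpush : ∀ v : ι → MonoidAlgebra (ZMod p) G,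
      push (hN j) (∑ l, κ l * ofMA Γ.C (ZMod p) (v l)) =
      ∑ l, push (hN j) (κ l) * ofMA (quotC (hN j)) (ZMod p) (π (v l)) := fun v => by
    rw [push_sum (hN j) _ fun l => (hL l).mul (Lv.ofMA _)]
    exact Finset.sum_congr rfl fun l _ => push_mul (hN j) (hL l) _
  obtain ⟨n, hn⟩ := Γ.nil j
  have hn' : (⊤ : Subgroup (G ⧸ Γ.N j)).lowerCentralSeries n = ⊥ := by
    rw [← Subgroup.map_top_of_surjective _ (QuotientGroup.mk'_surjective (Γ.N j)),
      ← Subgroup.map_lowerCentralSeries, Subgroup.map_eq_bot_iff, QuotientGroup.ker_mk']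
    exact hn
  have := (ofMA_injective (quotC (hN j)) (ZMod p)).noZeroDivisors _ (map_zero _) (map_mul _)
  obtain ⟨κ'', h1, h2⟩ := nDesc_fin (ofMA (quotC (hN j)) (ZMod p)) (ofMA_injective _ _)
    (ore (ZMod p) hn') (fun l i => π (J l i)) (fun l => push (hN j) (κ l))
    (fun i => by rw [← hpush, h, push_zero]) l₀
    (push_ne_zero (hN j) (hL l₀) hg fun h hh => (hmin h hh).mono (le_max_left _ _))
  refine ⟨j, (κ'' l₀).coeff.support.image Quotient.out, fun Q _ φ q1 q2 => ?_⟩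
  let φ' : G ⧸ Γ.N j →* Q := QuotientGroup.lift _ φ q1
  have hφ : ∀ x, MonoidAlgebra.mapDomainRingHom (ZMod p) φ' (π x) =
      MonoidAlgebra.mapDomainRingHom (ZMod p) φ x := fun x => by
    induction x using MonoidAlgebra.induction_linear with
    | zero => simp
    | add x y hx hy => rw [map_add, map_add, hx, hy, map_add]
    | single g r => simp [π, φ']
  refine ⟨fun l => MonoidAlgebra.mapDomainRingHom (ZMod p) φ' (κ'' l), fun i => ?_, fun hz => ?_⟩
  · simp only [← hφ, ← map_mul]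
    rw [← map_sum, h1, map_zero]
  obtain ⟨y, hy⟩ : ∃ y, (κ'' l₀).coeff y ≠ 0 := by
    by_contra h
    push Not at h
    exact h2 (by ext y; simp [h])
  have hinj : InjOn φ' (κ'' l₀).coeff.support := by
    intro x hx y hy hxy
    rw [← Quotient.out_eq x, ← Quotient.out_eq y] at hxy ⊢
    exact QuotientGroup.eq.2 (q2 _ (Finset.mem_image_of_mem _ hx) _
      (Finset.mem_image_of_mem _ hy) hxy)
  have := Finsupp.mapDomain_apply' _ (κ'' l₀).coeff subset_rfl hinj (Finsupp.mem_support_iff.2 hy)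
  refine hy ?_
  rw [← this]
  exact congrArg (fun z : MonoidAlgebra (ZMod p) Q => z.coeff (φ' y)) hz

end Pool.Agent.P.MP_a28d48_al
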