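import Pool.Agent.P.MP_a28d48_al.NDef

set_option autoImplicit false

namespace Pool.Agent.P.MP_a28d48_al

open Function Set Ser commutatorElement

universe u

variable {p : ℕ} [hp : Fact p.Prime]

theorem ind_pair {P : Type u} [Group P] {Q : Type*} [Group Q] [Finite Q] (hQ : IsPGroup p Q)
    (θ : P →* Q) {g h : P} (h1 : θ g ∉ Subgroup.zpowers (θ h))
    (h2 : θ h ∉ Subgroup.zpowers (θ g)) :
    ∃ (U : Subgroup P) (hg : g ∈ U) (hh : h ∈ U), θ.ker ≤ U ∧
      Ind p ![(⟨g, hg⟩ : U), ⟨h, hh⟩] := by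
  let b : Fin 2 → P := ![g, h]
  let K := Subgroup.closure (range fun l => θ (b l))
  let U := K.comap θ
  have hU : θ.ker ≤ U := fun x hx => by
    change θ x ∈ K
    rw [hx]
    exact one_mem _
  let b' : Fin 2 → U := fun l => ⟨b l, Subgroup.subset_closure ⟨l, rfl⟩⟩
  have hirr : ∀ i, θ (b i) ∉ Subgroup.closure ((fun l => θ (b l)) '' {l | l ≠ i}) := by
    intro i hi
    fin_cases i
    · refine h1 ?_
      rw [Subgroup.zpowers_eq_closure]
      exact Subgroup.closure_mono (by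
        rintro _ ⟨l, hl, rfl⟩
        fin_cases l
        · exact absurd rfl hl
        · rfl) hi
    · refine h2 ?_
      rw [Subgroup.zpowers_eq_closure]
      exact Subgroup.closure_mono (by
        rintro _ ⟨l, hl, rfl⟩
        fin_cases l
        · rfl
        · exact absurd rfl hl) hi
  have hb : Ind p b' := ind_of_irredundant (hQ.to_subgroup K) (θ.subgroupComap K) b' (by
    apply Subgroup.map_injective K.subtype_injective
    rw [MonoidHom.map_closure, ← range_comp, ← MonoidHom.range_eq_map, K.range_subtype]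
    rfl) fun i hi => hirr i (by
      have := Subgroup.mem_map_of_mem K.subtype hi
      rwa [MonoidHom.map_closure, ← image_comp] at this)
  refine ⟨U, (b' 0).2, (b' 1).2, hU, ?_⟩
  have e : ![(⟨g, (b' 0).2⟩ : U), ⟨h, (b' 1).2⟩] = b' := by
    funext l
    fin_cases l <;> rfl
  rwa [e]

lemma nPair_free : ¬ Commute (FreeGroup.of 0 : FreeGroup (Fin 2)) (FreeGroup.of 1) := fun h => by
  have := h.map (FreeGroup.lift ![Equiv.swap (0 : Fin 3) 1, Equiv.swap 1 2])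
  simp only [FreeGroup.lift_apply_of, Matrix.cons_val_zero, Matrix.cons_val_one] at this
  exact absurd this.eq (by decide)

theorem Proj.not_commute {P : Type u} [Group P] (hP : Proj p P) {Q : Type*} [Group Q] [Finite Q]
    (hQ : IsPGroup p Q) (θ : P →* Q) {g h : P} (h1 : θ g ∉ Subgroup.zpowers (θ h))
    (h2 : θ h ∉ Subgroup.zpowers (θ g)) : ¬ Commute g h := by
  intro hc
  obtain ⟨U, hg, hh, hU, hb⟩ := ind_pair hQ θ h1 h2
  refine nPair_free (lift_injective (hP.subgroup hQ θ U hU) hb ?_)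
  simp only [map_mul, FreeGroup.lift_apply_of, Matrix.cons_val_zero, Matrix.cons_val_one]
  exact Subtype.ext hc.eq

theorem Good.rf0 {P : Type u} [Group P] (Γ : Good p P) {g : P} (hg : g ≠ 1) :
    ∃ (Q : Type u) (_ : Group Q) (_ : Finite Q) (θ : P →* Q), IsPGroup p Q ∧ θ g ≠ 1 := by
  obtain ⟨j, hj⟩ := Γ.C.total _ hg
  obtain ⟨Q, _, _, φ, h1, -, h2⟩ := Γ.sep j _ fun h' =>
    hj.elim ((Γ.mem j _).1 h').1 ((Γ.mem j _).1 h').2
  exact ⟨Q, inferInstance, inferInstance, φ, h1, h2⟩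

theorem Good.der_sub {P : Type u} [Group P] (Γ : Good p P) (G : Subgroup P) (g h : G)
    (hgh : ¬ Commute g h) : ∃ U : Subgroup G, U.FiniteIndex ∧ g ∈ U ∧ h ∈ U ∧
    ∀ (j : ℕ) (Z : Finset G), ∃ (Q : Type u) (_ : Group Q) (θ : G →* Q)
      (δ : G → MonoidAlgebra (ZMod p) Q), (Γ.N j).subgroupOf G ≤ θ.ker ∧
      (∀ x ∈ Z, ∀ y ∈ Z, θ x = θ y → x⁻¹ * y ∈ (Γ.N j).subgroupOf G) ∧
      (∀ a ∈ U, ∀ b ∈ U, δ (a * b) = δ a + MonoidAlgebra.single (θ a) 1 * δ b) ∧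
      δ g = 1 ∧ δ h = 0 := by
  classical
  have h0 : ⁅(g : P), (h : P)⁆ ≠ 1 := fun e =>
    hgh (Subtype.ext (commutatorElement_eq_one_iff_commute.1 e).eq)
  obtain ⟨Q₀, _, _, θ₀, hQ₀, h1⟩ := Γ.rf0 h0
  rw [map_commutatorElement, Ne, commutatorElement_eq_one_iff_commute] at h1
  obtain ⟨U, hg, hh, hU, hb⟩ := ind_pair hQ₀ θ₀ (g := (g : P)) (h := (h : P))
    (fun ⟨n, hn⟩ => h1 (hn ▸ (Commute.refl _).zpow_left n))
    (fun ⟨n, hn⟩ => h1 (hn ▸ (Commute.refl _).zpow_right n))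
  have : U.FiniteIndex := Subgroup.finiteIndex_of_le hU
  refine ⟨U.subgroupOf G, inferInstance, hg, hh, fun j Z => ?_⟩
  obtain ⟨Q, _, _, φ, h2, h3, h4⟩ :=
    Γ.sep_fin j ((Z ×ˢ Z).image fun q => ((q.1⁻¹ * q.2 : G) : P))
  obtain ⟨δ, h5, h6⟩ := exists_der (Γ.proj.subgroup hQ₀ θ₀ U hU) hb h2 (φ.comp U.subtype) ![1, 0]
  refine ⟨Q, inferInstance, φ.comp G.subtype,
    fun x => if hx : (x : P) ∈ U then δ ⟨x, hx⟩ else 0, fun x hx => h3 hx,
    fun x hx y hy e => h4 _ (Finset.mem_image.2 ⟨(x, y), Finset.mem_product.2 ⟨hx, hy⟩, rfl⟩) ?_,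
    fun a ha b hb' => ?_, ?_, ?_⟩
  · have e' : φ x = φ y := e
    simp [e']
  · have ha' : (a : P) ∈ U := ha
    have hb'' : (b : P) ∈ U := hb'
    have hab : ((a * b : G) : P) ∈ U := mul_mem ha' hb''
    simp only [dif_pos ha', dif_pos hb'', dif_pos hab]
    exact h5 ⟨a, ha'⟩ ⟨b, hb''⟩
  · simp only [dif_pos hg]
    exact h6 0
  · simp only [dif_pos hh]
    exact h6 1

theorem Good.rf_sub {P : Type u} [Group P] (Γ : Good p P) (G : Subgroup P) (g : G) (hg : g ≠ 1) :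
    ∃ (Q : Type u) (_ : Group Q) (_ : Finite Q) (θ : G →* Q),
    IsPGroup p Q ∧ θ g ≠ 1 ∧ ∀ (K : Subgroup Q) (ψ : K →* Multiplicative (ZMod p)) (m : ℕ),
      ∃ ψ' : K.comap θ →* Multiplicative (ZMod (p ^ (m + 1))), ∀ u : K.comap θ,
        (ψ ⟨θ u, u.2⟩).toAdd =
          ZMod.castHom (dvd_pow_self p m.succ_ne_zero) (ZMod p) (ψ' u).toAdd := by
  obtain ⟨Q, _, _, θ, hQ, h1⟩ := Γ.rf0 (g := (g : P)) fun e => hg (Subtype.ext e)
  refine ⟨Q, inferInstance, inferInstance, θ.comp G.subtype, hQ, h1, fun K ψ m => ?_⟩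
  have hU : θ.ker ≤ K.comap θ := fun x hx => by
    change θ x ∈ K
    rw [hx]
    exact one_mem _
  have : NeZero (p ^ (m + 1)) := ⟨pow_ne_zero _ hp.out.ne_zero⟩
  let e : ULift.{u} (Multiplicative (ZMod (p ^ (m + 1)))) ≃* Multiplicative (ZMod (p ^ (m + 1))) :=
    MulEquiv.ulift
  let e' : ULift.{u} (Multiplicative (ZMod p)) ≃* Multiplicative (ZMod p) := MulEquiv.ulift
  let c : Multiplicative (ZMod (p ^ (m + 1))) →* Multiplicative (ZMod p) :=
    AddMonoidHom.toMultiplicative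
      (ZMod.castHom (dvd_pow_self p m.succ_ne_zero) (ZMod p)).toAddMonoidHom
  have hc : Surjective c := fun y => by
    obtain ⟨x, hx⟩ := ZMod.ringHom_surjective
      (ZMod.castHom (dvd_pow_self p m.succ_ne_zero) (ZMod p)) y.toAdd
    exact ⟨Multiplicative.ofAdd x, congrArg Multiplicative.ofAdd hx⟩
  obtain ⟨ψ₀, h2⟩ := Γ.proj.subgroup hQ θ _ hU _ _
    ((IsPGroup.of_card (n := m + 1) (by simp)).of_equiv e.symm)
    (e'.symm.toMonoidHom.comp (c.comp e.toMonoidHom))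
    (e'.symm.surjective.comp (hc.comp e.surjective))
    (e'.symm.toMonoidHom.comp (ψ.comp (θ.subgroupComap K)))
  let r : K.comap (θ.comp G.subtype) →* K.comap θ :=
    MonoidHom.mk' (fun u => ⟨u.1.1, u.2⟩) fun _ _ => rfl
  refine ⟨e.toMonoidHom.comp (ψ₀.comp r), fun u => ?_⟩
  have := e'.symm.injective (DFunLike.congr_fun h2 (r u))
  exact (congrArg Multiplicative.toAdd this).symm

end Pool.Agent.P.MP_a28d48_al
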