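import Pool.Agent.P.MP_a28d48_al.Resid
import Pool.Agent.P.MP_a28d48_al.Lift
import Pool.Agent.P.MP_a28d48_al.Core

set_option autoImplicit false

namespace Pool.Agent.P.MP_a28d48_al

open Function Set commutatorElement

universe u

lemma lcs_map {G K : Type*} [Group G] [Group K] (f : G →* K) (n : ℕ) {g : G} (hg : g ∈ lcs G n) :
    f g ∈ lcs K n := by
  have := Subgroup.mem_map_of_mem f hg
  rw [Subgroup.map_lowerCentralSeries] at this
  exact Subgroup.lowerCentralSeries_mono n le_top this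

lemma lcs_surj {G K : Type*} [Group G] [Group K] (f : G →* K) (hf : Surjective f) (n : ℕ) {y : K}
    (hy : y ∈ lcs K n) : ∃ g ∈ lcs G n, f g = y := by
  rw [← Subgroup.mem_map, Subgroup.map_lowerCentralSeries, Subgroup.map_top_of_surjective f hf]
  exact hy

lemma lcs_anti {G : Type*} [Group G] {i j : ℕ} (h : i ≤ j) : lcs G j ≤ lcs G i :=
  Subgroup.lowerCentralSeries_antitone _ h

/-- the data used in the rank estimate -/
structure Good (p : ℕ) (G : Type u) [Group G] where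
  C : Cones G
  N : ℕ → Subgroup G
  normal : ∀ j, (N j).Normal
  mem : ∀ j g, g ∈ N j ↔ g ∉ C.P j ∧ g⁻¹ ∉ C.P j
  nil : ∀ j, ∃ c, lcs G c ≤ N j
  sep : ∀ j g, g ∉ N j → ∃ (Q : Type u) (_ : Group Q) (_ : Finite Q) (φ : G →* Q),
    IsPGroup p Q ∧ N j ≤ φ.ker ∧ φ g ≠ 1
  proj : Proj p G

section Pos

variable {X : Type*} [LinearOrder X]

def posF (j : ℕ) (f : FreeGroup X) : Prop :=
  ∃ w : FreeMonoid X, w.length = j + 1 ∧ f ∈ GW w ∧ 0 < (mm f).c w

lemma posF.deep {j : ℕ} {f n : FreeGroup X} (hf : posF j f) (hn : n ∈ lcs _ (j + 1)) :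
    posF j (f * n) ∧ posF j (n * f) := by
  obtain ⟨w, h1, h2, h3⟩ := hf
  obtain ⟨h4, h5⟩ := LG_le_GW (u := w) (by omega) (lcs_le_LG _ hn)
  exact ⟨⟨w, h1, mul_mem h2 h4, by rwa [cf_mul (by omega) h2 h4, h5, add_zero]⟩,
    ⟨w, h1, mul_mem h4 h2, by rwa [cf_mul (by omega) h4 h2, h5, zero_add]⟩⟩

lemma posF.mul {j : ℕ} {f g : FreeGroup X} (hf : posF j f) (hg : posF j g) : posF j (f * g) := by
  obtain ⟨w, h1, h2, h3⟩ := hf
  obtain ⟨v, h4, h5, h6⟩ := hg
  rcases lt_trichotomy w v with h | rfl | h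
  · exact ⟨w, h1, mul_mem h2 (GW_anti h.le h5), by
      rwa [cf_mul (by omega) h2 (GW_anti h.le h5), Sp.zero_of_lt h5 h, add_zero]⟩
  · exact ⟨w, h1, mul_mem h2 h5, by rw [cf_mul (by omega) h2 h5]; omega⟩
  · exact ⟨v, h4, mul_mem (GW_anti h.le h2) h5, by
      rwa [cf_mul (by omega) (GW_anti h.le h2) h5, Sp.zero_of_lt h2 h, zero_add]⟩

lemma posF.notMem {j : ℕ} {f : FreeGroup X} (hf : posF j f) : f ∉ lcs _ (j + 1) := fun h => by
  obtain ⟨w, h1, -, h3⟩ := hf
  exact h3.ne' (LG_le_GW (u := w) (by omega) (lcs_le_LG _ h)).2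

lemma posF_total [WellFoundedLT X] {j : ℕ} {f : FreeGroup X} (h1 : f ∈ lcs _ j)
    (h2 : f ∉ lcs _ (j + 1)) : posF j f ∨ posF j f⁻¹ := by
  obtain ⟨w, hw, h3, h4⟩ := magnus_witt _ h2
  have h5 : w.length = j + 1 := hw.2.antisymm (lcs_le_LG j h1 w h4)
  rcases lt_or_gt_of_ne h4 with h | h
  · exact Or.inr ⟨w, h5, inv_mem h3, by rw [cf_inv hw.1 h3]; omega⟩
  · exact Or.inl ⟨w, h5, h3, h⟩

end Pos

theorem good_of_parafree {p : ℕ} [hp : Fact p.Prime] {P : Type u} [Group P]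
    (h0 : ⨅ n, lcs P n = ⊥) {X : Type u}
    (θ : ∀ n, P ⧸ lcs P n ≃* FreeGroup X ⧸ lcs (FreeGroup X) n) : Nonempty (Good p P) := by
  obtain ⟨_, _⟩ := exists_wellFoundedLT X
  let π : ∀ n, P →* FreeGroup X ⧸ lcs (FreeGroup X) n := fun n =>
    (θ n).toMonoidHom.comp (QuotientGroup.mk' _)
  have hs : ∀ n, Surjective (π n) := fun n =>
    (θ n).surjective.comp (QuotientGroup.mk'_surjective _)
  have hk : ∀ n g, π n g = 1 ↔ g ∈ lcs P n := fun n g =>
    (map_eq_one_iff _ (θ n).injective).trans (QuotientGroup.eq_one_iff g)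
  have hk' : ∀ n g (f : FreeGroup X), (f : FreeGroup X ⧸ lcs _ n) = π n g →
      (g ∈ lcs P n ↔ f ∈ lcs _ n) := fun n g f h => by
    rw [← hk, ← h, QuotientGroup.eq_one_iff]
  let pos : ℕ → P → Prop := fun j g => g ∈ lcs P j ∧ ∃ f : FreeGroup X,
    (f : FreeGroup X ⧸ lcs _ (j + 1)) = π (j + 1) g ∧ posF j f
  have p1 : ∀ j g h, pos j g → h ∈ lcs P (j + 1) → pos j (g * h) ∧ pos j (h * g) := by
    rintro j g h ⟨h1, f, h2, h3⟩ hh
    have h4 := lcs_anti (Nat.le_succ j) hh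
    exact ⟨⟨mul_mem h1 h4, f, by rw [map_mul, (hk _ h).2 hh, mul_one, h2], h3⟩,
      ⟨mul_mem h4 h1, f, by rw [map_mul, (hk _ h).2 hh, one_mul, h2], h3⟩⟩
  have p2 : ∀ j g, pos j g → g ∉ lcs P (j + 1) := fun j g ⟨_, f, h2, h3⟩ h =>
    h3.notMem ((hk' _ g f h2).1 h)
  have p3 : ∀ j g, g ∉ lcs P j → ∃ i < j, pos i g ∨ pos i g⁻¹ := by
    intro j g
    induction j with
    | zero => exact fun h => absurd (Subgroup.mem_top g) h
    | succ j ih =>
      intro h
      by_cases hj : g ∈ lcs P j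
      · obtain ⟨f, h1, h2⟩ := lcs_surj (QuotientGroup.mk' _) (QuotientGroup.mk'_surjective _) j
          (lcs_map (π (j + 1)) j hj)
        refine ⟨j, j.lt_succ_self, (posF_total h1 fun h' => h ((hk' _ g f h2).2 h')).imp
          (fun h3 => ⟨hj, f, h2, h3⟩) fun h3 => ⟨inv_mem hj, f⁻¹, ?_, h3⟩⟩
        rw [map_inv, ← h2]
        rfl
      · obtain ⟨i, hi, h'⟩ := ih hj
        exact ⟨i, by omega, h'⟩
  refine ⟨⟨⟨fun j => {g | ∃ i < j, pos i g}, fun h g ⟨i, hi, hg⟩ => ⟨i, by omega, hg⟩, ?_, ?_,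
    fun j ⟨i, _, h⟩ => p2 i 1 h (one_mem _), fun g hg => ?_⟩, lcs P, fun j => inferInstance,
    fun j g => ⟨fun h => ⟨fun ⟨i, hi, h'⟩ => p2 i g h' (lcs_anti hi h),
      fun ⟨i, hi, h'⟩ => p2 i _ h' (lcs_anti hi (inv_mem h))⟩, fun h => ?_⟩,
    fun j => ⟨j, le_rfl⟩, fun j g hg => ?_, ?_⟩⟩
  · rintro j l g h ⟨i, hi, hg⟩ ⟨i', -, hh⟩
    rcases lt_trichotomy i i' with h' | rfl | h'
    · exact ⟨i, hi, (p1 i g h hg (lcs_anti h' hh.1)).1⟩
    · obtain ⟨h1, f, h2, h3⟩ := hg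
      obtain ⟨h4, f', h5, h6⟩ := hh
      exact ⟨i, hi, mul_mem h1 h4, f * f', by rw [map_mul, ← h2, ← h5]; rfl, h3.mul h6⟩
    · exact ⟨i', h'.trans hi, (p1 i' h g hh (lcs_anti h' hg.1)).2⟩
  · rintro j g x ⟨i, hi, hg⟩
    have := (p1 i g ⁅g⁻¹, x⁆ hg
      (Subgroup.commutator_mem_commutator (inv_mem hg.1) (Subgroup.mem_top x))).1
    exact ⟨i, hi, by simpa [commutatorElement_def, mul_assoc] using this⟩
  · obtain ⟨j, hj⟩ : ∃ j, g ∉ lcs P j := by
      by_contra h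
      push Not at h
      exact hg (Subgroup.mem_bot.1 (h0 ▸ Subgroup.mem_iInf.2 h))
    obtain ⟨i, hi, h⟩ := p3 j g hj
    exact ⟨j, h.imp (fun h => ⟨i, hi, h⟩) fun h => ⟨i, hi, h⟩⟩
  · by_contra hg
    obtain ⟨i, hi, h'⟩ := p3 j g hg
    exact h'.elim (fun h' => h.1 ⟨i, hi, h'⟩) fun h' => h.2 ⟨i, hi, h'⟩
  · obtain ⟨f, hf⟩ := QuotientGroup.mk_surjective (π j g)
    obtain ⟨Q, _, _, φ, h1, h2, h3⟩ := sep_free hp.out fun h => hg ((hk' j g f hf).2 h)
    refine ⟨Q, inferInstance, inferInstance, (QuotientGroup.lift _ φ h2).comp (π j), h1,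
      fun x hx => ?_, ?_⟩
    · rw [MonoidHom.mem_ker, MonoidHom.comp_apply, (hk j x).2 hx, map_one]
    · rw [MonoidHom.comp_apply, ← hf]
      exact h3
  · intro W Q _ _ _ hW τ hτ ψ
    obtain ⟨n, hn⟩ := Subgroup.nilpotent_iff_lowerCentralSeries.1 hW.isNilpotent
    have h1 : lcs P n ≤ ψ.ker := fun g hg => by
      obtain ⟨w, hw, e⟩ := lcs_surj τ hτ n (lcs_map ψ n hg)
      rw [MonoidHom.mem_ker, ← e, (Subgroup.mem_bot.1 (hn ▸ hw) : w = 1), map_one]
    let ψF : FreeGroup X →* Q := ((QuotientGroup.lift _ ψ h1).comp (θ n).symm.toMonoidHom).comp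
      (QuotientGroup.mk' _)
    choose s hs' using hτ
    let α : FreeGroup X →* W := FreeGroup.lift fun x => s (ψF (FreeGroup.of x))
    have h2 : τ.comp α = ψF := FreeGroup.ext_hom _ _ fun x => by simp [α, hs']
    have h3 : lcs _ n ≤ α.ker := fun f hf => Subgroup.mem_bot.1 (hn ▸ lcs_map α n hf)
    refine ⟨(QuotientGroup.lift _ α h3).comp (π n), ?_⟩
    ext g
    obtain ⟨f, hf⟩ := QuotientGroup.mk_surjective (π n g)
    have h4 : (θ n).symm (f : FreeGroup X ⧸ lcs _ n) = g := by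
      rw [hf, MulEquiv.symm_apply_eq]
      rfl
    rw [MonoidHom.comp_apply, MonoidHom.comp_apply, ← hf]
    refine (DFunLike.congr_fun h2 f).trans ?_
    change QuotientGroup.lift _ ψ h1 ((θ n).symm (f : FreeGroup X ⧸ lcs _ n)) = _
    rw [h4]
    rfl

variable {p : ℕ} [hp : Fact p.Prime] {G : Type u} [Group G]

/-- passing to a subgroup of `p`-power index -/
def Good.sub (Γ : Good p G) {Q₀ : Type*} [Group Q₀] [Finite Q₀] (hQ : IsPGroup p Q₀)
    (φ : G →* Q₀) (U : Subgroup G) (hU : φ.ker ≤ U) : Good p U where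
  C := ⟨fun j => {g | (g : G) ∈ Γ.C.P j}, fun h _ hg => Γ.C.mono h hg, fun hg hh => Γ.C.mul hg hh,
    fun x hg => Γ.C.conj (x : G) hg, Γ.C.one, fun g hg => Γ.C.total g (by simpa using hg)⟩
  N j := (Γ.N j).subgroupOf U
  normal j := (Γ.normal j).subgroupOf U
  mem j g := Γ.mem j g
  nil j := (Γ.nil j).imp fun c h _ hg => h (lcs_map U.subtype c hg)
  sep j g hg := by
    obtain ⟨Q, _, _, ψ, h1, h2, h3⟩ := Γ.sep j g hg
    exact ⟨Q, inferInstance, inferInstance, ψ.comp U.subtype, h1, fun x hx => h2 hx, h3⟩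
  proj := Γ.proj.subgroup hQ φ U hU

omit hp in
lemma Good.sep_fin (Γ : Good p G) [Fact p.Prime] (j : ℕ) (T : Finset G) :
    ∃ (Q : Type u) (_ : Group Q) (_ : Finite Q) (φ : G →* Q),
      IsPGroup p Q ∧ Γ.N j ≤ φ.ker ∧ ∀ g ∈ T, φ g = 1 → g ∈ Γ.N j := by
  classical
  induction T using Finset.induction_on with
  | empty => exact ⟨PUnit, inferInstance, inferInstance, 1, IsPGroup.of_card (n := 0) (by simp),
      by simp, by simp⟩
  | insert g T _ ih =>
    obtain ⟨Q, _, _, φ, h1, h2, h3⟩ := ih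
    by_cases hg : g ∈ Γ.N j
    · exact ⟨Q, inferInstance, inferInstance, φ, h1, h2, by simpa [hg] using h3⟩
    obtain ⟨Q', _, _, ψ, h4, h5, h6⟩ := Γ.sep j g hg
    obtain ⟨a, ha⟩ := IsPGroup.iff_card.1 h1
    obtain ⟨b, hb⟩ := IsPGroup.iff_card.1 h4
    refine ⟨Q × Q', inferInstance, inferInstance, φ.prod ψ, IsPGroup.of_card (n := a + b)
      (by rw [Nat.card_prod, ha, hb, pow_add]), fun x hx => Prod.ext (h2 hx) (h5 hx),
      fun x hx h => ?_⟩
    rcases Finset.mem_insert.1 hx with rfl | hx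
    · exact absurd (congrArg Prod.snd h) h6
    · exact h3 x hx (congrArg Prod.fst h)

theorem lift_injective (hG : Proj p G) {r : ℕ} {b : Fin r → G} (hb : Ind p b) :
    Injective (FreeGroup.lift b) := by
  refine (injective_iff_map_eq_one _).2 fun w hw => ?_
  by_contra h
  obtain ⟨n, hn⟩ := exists_notMem_lcs h
  obtain ⟨Q, _, _, φ, h1, -, h2⟩ := sep_free hp.out hn
  let e : ULift.{u} Q ≃* Q := MulEquiv.ulift
  obtain ⟨ψ, -, h3⟩ := lift_rel hG hb (1 : G →* PUnit.{u + 1}) _ (ULift.{u} Q) rfl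
    (h1.of_equiv e.symm) 1 (fun _ => ⟨1, rfl⟩) (fun l => e.symm (φ (FreeGroup.of l))) fun _ => rfl
  have : e.toMonoidHom.comp (ψ.comp (FreeGroup.lift b)) = φ :=
    FreeGroup.ext_hom _ _ fun l => by simp [h3]
  apply h2
  rw [← this]
  simp [hw]

theorem Good.rank_le (Γ : Good p G) {r s : ℕ} {b : Fin r → G} (hb : Ind p b) (a : Fin s → G) :
    ∃ T : Finset (FreeGroup (Fin r)), T.card ≤ s ∧
      Subgroup.closure T = (Subgroup.closure (range a)).comap (FreeGroup.lift b) := by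
  classical
  set H := (Subgroup.closure (range a)).comap (FreeGroup.lift b)
  have hinj : Injective fun h : H => FreeGroup.lift b h :=
    (lift_injective Γ.proj hb).comp Subtype.val_injective
  have key : ∀ m (ι : Fin m → IsFreeGroup.Generators H), Injective ι → m ≤ s := by
    intro m ι hι
    have := Γ.normal
    let Ψ : Fin m → H →* Aff (ZMod p) G := fun l => IsFreeGroup.lift fun y =>
      ⟨if y = ι l then 1 else 0, FreeGroup.lift b (IsFreeGroup.of y : H)⟩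
    have hΨ : ∀ l (h : H), (Ψ l h).q = FreeGroup.lift b h := fun l h =>
      DFunLike.congr_fun (IsFreeGroup.ext_hom (f := Aff.proj.comp (Ψ l))
        (g := (FreeGroup.lift b).comp H.subtype) fun y => by simp [Ψ, Aff.proj]) h
    have hC : ∀ x ∈ Subgroup.closure (range a) ⊓ Subgroup.closure (range b),
        ∃ h : H, FreeGroup.lift b h = x := by
      rintro x ⟨h1, h2⟩
      rw [← FreeGroup.range_lift_eq_closure] at h2
      obtain ⟨w, rfl⟩ := h2
      exact ⟨⟨w, h1⟩, rfl⟩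
    refine core Γ.C (ZMod p) Γ.N Γ.mem Γ.nil b a (fun j Z i => ?_)
      (fun l => FreeGroup.lift b (IsFreeGroup.of (ι l) : H)) (fun l => ⟨(IsFreeGroup.of (ι l) : H).2,
        (FreeGroup.range_lift_eq_closure (f := b)).le ⟨_, rfl⟩⟩)
      (fun l => extend (fun h : H => FreeGroup.lift b h) (fun h => (Ψ l h).v) 0) ?_ fun l l' => ?_
    · obtain ⟨Q, _, _, φ, h1, h2, h3⟩ := Γ.sep_fin j ((Z ×ˢ Z).image fun q => q.1⁻¹ * q.2)
      obtain ⟨δ, h4, h5⟩ := exists_der Γ.proj hb h1 φ fun l => if l = i then 1 else 0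
      exact ⟨Q, inferInstance, φ, δ, h2, fun x hx y hy h => h3 _
        (Finset.mem_image.2 ⟨(x, y), Finset.mem_product.2 ⟨hx, hy⟩, rfl⟩) (by simp [h]), h4, h5⟩
    · intro l x hx y hy
      obtain ⟨x, rfl⟩ := hC x hx
      obtain ⟨y, rfl⟩ := hC y hy
      rw [← map_mul, ← Subgroup.coe_mul, hinj.extend_apply, hinj.extend_apply, hinj.extend_apply,
        map_mul, Aff.mul_v, hΨ]
    · rw [hinj.extend_apply]
      simp [Ψ, hι.eq_iff]
  have : Finite (IsFreeGroup.Generators H) := by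
    by_contra h
    have := not_finite_iff_infinite.1 h
    have := key (s + 1) (fun l => Infinite.natEmbedding _ l)
      ((Infinite.natEmbedding _).injective.comp Fin.val_injective)
    omega
  have := Fintype.ofFinite (IsFreeGroup.Generators H)
  refine ⟨Finset.univ.image fun y => ((IsFreeGroup.of y : H) : FreeGroup (Fin r)),
    Finset.card_image_le.trans (key _ _ (Fintype.equivFin _).symm.injective), ?_⟩
  have h1 : Subgroup.closure (range (IsFreeGroup.of : _ → H)) = ⊤ := by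
    have := congrArg (Subgroup.map (IsFreeGroup.mulEquiv H).toMonoidHom)
      (FreeGroup.closure_range_of (IsFreeGroup.Generators H))
    rwa [MonoidHom.map_closure, ← range_comp,
      Subgroup.map_top_of_surjective _ (MulEquiv.surjective _)] at this
  have := congrArg (Subgroup.map H.subtype) h1
  rw [MonoidHom.map_closure, ← range_comp, ← MonoidHom.range_eq_map, H.range_subtype] at this
  rw [Finset.coe_image, Finset.coe_univ, image_univ]
  exact this

end Pool.Agent.P.MP_a28d48_al
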