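import Pool.Agent.P.MP_a28d48_al.Magnus

set_option autoImplicit false

namespace Pool.Agent.P.MP_a28d48_al

open Function Set Ser FreeMonoid

universe u

section Inj

variable {X : Type*} [LinearOrder X]

omit [LinearOrder X] in
lemma sp_zpow (x : X) (e : ℤ) : Sp (range fun j : ℕ => of x ^ j) (mu (FreeGroup.of x ^ e) : PS X) := by
  let K : Submonoid (FreeGroup X) :=
    { carrier := {g | Sp (range fun j : ℕ => of x ^ j) (mu g : PS X)}
      one_mem' := fun h hh => ⟨0, by
        rw [map_one, Units.val_one] at hh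
        exact (eq_of_sg_c hh).symm⟩
      mul_mem' := fun {g h} hg hh => by
        rw [mem_ofPred_eq, map_mul, Units.val_mul]
        refine Sp.mul hg hh ?_
        rintro _ ⟨i, rfl⟩ _ ⟨j, rfl⟩
        exact ⟨i + j, pow_add _ _ _⟩ }
  have e1 : (mu (FreeGroup.of x) : PS X) = 1 + sg (of x) 1 := by rw [← mm_of, mm, add_sub_cancel]
  have h1 : FreeGroup.of x ∈ K := by
    change Sp _ _
    rw [e1]
    exact Sp.add (fun h hh => ⟨0, (eq_of_sg_c hh).symm⟩) fun h hh => ⟨1, by simp [eq_of_sg_c hh]⟩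
  have h2 : (FreeGroup.of x)⁻¹ ∈ K := by
    obtain ⟨y, hy1, hy⟩ := exists_inv (-sg (of x) 1 : PS X) (range fun j : ℕ => of x ^ j) trivial
      ⟨0, rfl⟩ (by
        rintro a _ ha ⟨j, rfl⟩
        rw [neg_c, neg_ne_zero] at ha
        exact ⟨j + 1, by rw [eq_of_sg_c ha]; exact pow_succ' _ _⟩) (by
        refine Subrelation.wf ?_ (InvImage.wf FreeMonoid.length wellFounded_lt)
        rintro b _ ⟨-, a, ha, rfl⟩
        rw [neg_c, neg_ne_zero] at ha
        simp [InvImage, eq_of_sg_c ha])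
    rw [sub_neg_eq_add, ← e1] at hy
    change Sp _ _
    rw [map_inv, Units.inv_eq_of_mul_eq_one_right hy]
    exact hy1
  obtain ⟨n, rfl | rfl⟩ := e.eq_nat_or_neg
  · rw [zpow_natCast]
    exact K.pow_mem h1 n
  · rw [zpow_neg, zpow_natCast, ← inv_pow]
    exact K.pow_mem h2 n

def SF (u : FreeMonoid X) : Prop := ∀ a y b, u ≠ a * (of y * (of y * b))

omit [LinearOrder X] in
lemma split_pow {x : X} {u a b : FreeMonoid X} (hu : SF u) (ha : a ∈ range fun j : ℕ => of x ^ j)
    (h : a * b = u) : a = 1 ∨ a = of x := by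
  obtain ⟨j, rfl⟩ := ha
  rcases j with _ | _ | j
  · exact Or.inl rfl
  · exact Or.inr (by simp)
  · exact absurd (by rw [← h]; simp [pow_succ', mul_assoc]) (hu 1 x (of x ^ j * b))

lemma zpow_c (x : X) (e : ℤ) : (mu (FreeGroup.of x ^ e) : PS X).c (of x) = e := by
  have h1 : FreeGroup.of x ∈ GW (of x) := fun w hw => by
    rw [mm_of] at hw
    exact (eq_of_sg_c hw).ge
  have := cf_zpow (u := of x) le_rfl h1 e
  rwa [mm_of, sg_c_self, mul_one, mm, sub_c, one_def, sg_c_ne _ (of_ne_one x), sub_zero] at this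

omit [LinearOrder X] in
lemma zpow_mul_c_of_not {x : X} (e : ℤ) (f : PS X) {u : FreeMonoid X} (hu : SF u)
    (h : ∀ b, u ≠ of x * b) : ((mu (FreeGroup.of x ^ e) : PS X) * f).c u = f.c u := by
  conv_lhs => rw [← one_mul u]
  rw [mul_c_unique, mu_c_one, one_mul]
  intro a b ha _ hab
  rw [one_mul] at hab
  rcases split_pow hu (sp_zpow x e a ha) hab with rfl | rfl
  · simpa using hab
  · exact absurd hab.symm (h b)

lemma zpow_mul_c {x : X} (e : ℤ) (f : PS X) {u : FreeMonoid X} (hu : SF (of x * u)) :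
    ((mu (FreeGroup.of x ^ e) : PS X) * f).c (of x * u) = f.c (of x * u) + e * f.c u := by
  classical
  rw [mul_c_of _ _ _ {(1, of x * u), (of x, u)} (by simp), Finset.sum_pair (by simp), mu_c_one,
    one_mul, zpow_c]
  intro a b ha _ hab
  rcases split_pow hu (sp_zpow x e a ha) hab with rfl | rfl
  · simp [← hab]
  · simp [mul_left_cancel hab]

inductive Syl : FreeMonoid X → FreeGroup X → Prop
  | nil : Syl 1 1
  | cons (x : X) (e : ℤ) (c : FreeMonoid X) (g : FreeGroup X) : e ≠ 0 → (∀ b, c ≠ of x * b) →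
      Syl c g → Syl (of x * c) (FreeGroup.of x ^ e * g)

lemma exists_syl (g : FreeGroup X) : ∃ c, Syl c g := by
  have key : ∀ (x : X) (e : ℤ) h, e ≠ 0 → (∃ c, Syl c h) → ∃ c, Syl c (FreeGroup.of x ^ e * h) := by
    rintro x e h he ⟨c, hc⟩
    cases hc with
    | nil => exact ⟨_, Syl.cons x e 1 1 he (fun b hb => by
        cases congrArg toList hb) Syl.nil⟩
    | cons y e' c g he' h1 h2 =>
      by_cases hxy : x = y
      · subst hxy
        rw [← mul_assoc, ← zpow_add]
        by_cases h0 : e + e' = 0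
        · exact ⟨c, by simpa [h0] using h2⟩
        · exact ⟨_, Syl.cons x _ c g h0 h1 h2⟩
      · exact ⟨_, Syl.cons x e _ _ he (fun b hb => hxy (List.cons.inj (congrArg toList hb)).1.symm)
          (Syl.cons y e' c g he' h1 h2)⟩
  have : ∀ h, (∃ c, Syl c h) → ∃ c, Syl c (g * h) := by
    induction g using FreeGroup.induction_on with
    | C1 => simp
    | of x => exact fun h hh => by simpa using key x 1 h one_ne_zero hh
    | inv_of x _ => exact fun h hh => by simpa using key x (-1) h (by decide) hh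
    | mul x y hx hy => exact fun h hh => by rw [mul_assoc]; exact hx _ (hy h hh)
  simpa using this 1 ⟨1, Syl.nil⟩

lemma Syl.spec {c : FreeMonoid X} {g : FreeGroup X} (h : Syl c g) :
    SF c ∧ (mu g : PS X).c c ≠ 0 ∧ (∀ u, SF u → (mu g : PS X).c u ≠ 0 → u.length ≤ c.length) ∧
      (c = 1 → g = 1) := by
  induction h with
  | nil =>
    refine ⟨fun a y b h => by
      have := congrArg FreeMonoid.length h
      simp only [length_one, length_mul, length_of] at this
      omega, by simp [one_c_one],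
      fun u _ hu => ?_, fun _ => rfl⟩
    rw [map_one, Units.val_one] at hu
    rw [eq_of_sg_c hu]
  | cons x e c g he h1 _ ih =>
    obtain ⟨i1, i2, i3, -⟩ := ih
    have hsf : SF (of x * c) := by
      intro a y b h
      induction a using FreeMonoid.casesOn with
      | one =>
        obtain ⟨rfl, h'⟩ := List.cons.inj (congrArg toList h)
        exact h1 b h'
      | of_mul z a => exact i1 a y b (List.cons.inj (congrArg toList h)).2
    refine ⟨hsf, ?_, fun u hu h => ?_, fun h => by simpa using congrArg FreeMonoid.length h⟩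
    · rw [map_mul, Units.val_mul, zpow_mul_c e _ hsf]
      have : (mu g : PS X).c (of x * c) = 0 := by
        by_contra h
        simpa using i3 _ hsf h
      rw [this, zero_add]
      exact mul_ne_zero he i2
    · rw [map_mul, Units.val_mul] at h
      by_cases h2 : ∃ b, u = of x * b
      · obtain ⟨b, rfl⟩ := h2
        rw [zpow_mul_c e _ hu] at h
        by_cases h3 : (mu g : PS X).c b = 0
        · have := i3 _ hu (by simpa [h3] using h)
          simp only [length_mul, length_of] at this ⊢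
          omega
        · simpa using i3 b (fun a y b' h' => hu (of x * a) y b' (by rw [h', mul_assoc])) h3
      · push Not at h2
        rw [zpow_mul_c_of_not e _ hu h2] at h
        have := i3 u hu h
        simp only [length_mul, length_of]
        omega

lemma exists_notMem_lcs {g : FreeGroup X} (hg : g ≠ 1) : ∃ n, g ∉ lcs _ n := by
  obtain ⟨c, hc⟩ := exists_syl g
  obtain ⟨-, h2, -, h4⟩ := hc.spec
  refine ⟨c.length, fun h => ?_⟩
  have := (LG_le_GW (u := c) (Nat.lt_succ_self _) (lcs_le_LG _ h)).2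
  rw [mm, sub_c, one_def, sg_c_ne _ fun e => hg (h4 e), sub_zero] at this
  exact h2 this

end Inj

lemma pow_eq_one_of_nil {R : Type*} [Ring R] {p : ℕ} (hp : p.Prime) {N : R} {m a : ℕ}
    (hN : N ^ m = 0) (ha : (p : R) ^ a = 0) : (1 + N) ^ p ^ (m + a) = 1 := by
  have : ∀ k, ∃ r : R, (1 + N) ^ p ^ (m + k) = 1 + (p : R) ^ (k + 1) * r := by
    intro k
    induction k with
    | zero =>
      obtain ⟨r, hr⟩ := (Commute.one_left N).exists_add_pow_prime_pow_eq hp m
      refine ⟨N * r, ?_⟩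
      rw [add_zero, hr, pow_eq_zero_of_le (Nat.lt_pow_self hp.one_lt).le hN]
      simp [mul_assoc]
    | succ k ih =>
      obtain ⟨r, hr⟩ := ih
      obtain ⟨s, hs⟩ := (Commute.one_left ((p : R) ^ (k + 1) * r)).exists_add_pow_prime_eq hp
      obtain ⟨t, ht⟩ : ∃ t, (k + 1) * p = k + 1 + 1 + t :=
        Nat.exists_eq_add_of_le (by nlinarith [hp.two_le])
      refine ⟨(p : R) ^ t * r ^ p + r * s, ?_⟩
      rw [← add_assoc, pow_succ p, pow_mul, hr, hs, ((Nat.cast_commute p r).pow_left _).mul_pow,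
        ← pow_mul, ht, pow_add, pow_succ' (p : R) (k + 1), one_pow]
      noncomm_ring
  obtain ⟨r, hr⟩ := this a
  rw [hr, pow_succ, ha, zero_mul, zero_mul, add_zero]

theorem sep_free {X : Type u} {p : ℕ} (hp : p.Prime) {n : ℕ} {g : FreeGroup X} (hg : g ∉ lcs _ n) :
    ∃ (Q : Type u) (_ : Group Q) (_ : Finite Q) (φ : FreeGroup X →* Q),
      IsPGroup p Q ∧ lcs _ n ≤ φ.ker ∧ φ g ≠ 1 := by
  obtain ⟨_, _⟩ := exists_wellFoundedLT X
  obtain ⟨w, hw, -, hc⟩ := magnus_witt n hg
  let a := ((mm g).c w).natAbs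
  let Inf : Set (FreeMonoid X) := {u | ∃ s t, w = s * u * t}
  have hInf : Inf.Finite := by
    refine (w.toList.sublists.finite_toSet.image ofList).subset ?_
    rintro u ⟨s, t, h⟩
    exact ⟨u.toList, List.mem_sublists.2 (List.IsInfix.sublist ⟨s.toList, t.toList,
      (congrArg toList h).symm⟩), rfl⟩
  let I : TwoSidedIdeal (PS X) := TwoSidedIdeal.mk' {f | ∀ u ∈ Inf, ((p ^ a : ℕ) : ℤ) ∣ f.c u}
    (fun u _ => dvd_zero _) (fun hf hg u hu => dvd_add (hf u hu) (hg u hu))
    (fun hf u hu => (hf u hu).neg_right)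
    (fun {x y} hf u hu => Finset.dvd_sum fun q hq => by
      obtain ⟨s, t, h⟩ := hu
      refine Dvd.dvd.mul_left (hf _ ⟨s * q.1, t, ?_⟩) _
      rw [h, ← ((mem_ad _ _ _ _).1 hq).2.2]
      simp only [mul_assoc])
    (fun {x y} hf u hu => Finset.dvd_sum fun q hq => by
      obtain ⟨s, t, h⟩ := hu
      refine Dvd.dvd.mul_right (hf _ ⟨s, q.2 * t, ?_⟩) _
      rw [h, ← ((mem_ad _ _ _ _).1 hq).2.2]
      simp only [mul_assoc])
  have hI : ∀ f, f ∈ I ↔ ∀ u ∈ Inf, ((p ^ a : ℕ) : ℤ) ∣ f.c u := fun f => TwoSidedIdeal.mem_mk' ..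
  let π := I.ringCon.mk'
  have hπ : ∀ f f', π f = π f' ↔ f - f' ∈ I := fun f f' =>
    (RingCon.eq _).trans (I.rel_iff _ _)
  have : NeZero (p ^ a) := ⟨pow_ne_zero _ hp.ne_zero⟩
  have := hInf.to_subtype
  have : Finite I.ringCon.Quotient := by
    refine Finite.of_injective (fun x => fun u : Inf => ((x.out.c u : ℤ) : ZMod (p ^ a))) ?_
    intro x y h
    rw [← Quotient.out_eq x, ← Quotient.out_eq y]
    refine (hπ _ _).2 ((hI _).2 fun u hu => ?_)
    rw [sub_c]
    exact (ZMod.intCast_eq_intCast_iff_dvd_sub _ _ _).1 (congrFun h ⟨u, hu⟩).symm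
  let φ : FreeGroup X →* I.ringCon.Quotientˣ := (Units.map π.toMonoidHom).comp mu
  have hφ : ∀ f, φ f = 1 ↔ mm f ∈ I := fun f => by
    rw [mm, ← hπ, map_one, Units.ext_iff]
    rfl
  have hlong : ∀ f : PS X, Sp {u | n + 1 ≤ u.length} f → f ∈ I := fun f hf =>
    (hI _).2 fun u ⟨s, t, h⟩ => by
      by_cases h0 : f.c u = 0
      · rw [h0]
        exact dvd_zero _
      · have h1 := hf u h0
        have h2 := congrArg FreeMonoid.length h
        simp only [mem_ofPred_eq, length_mul] at h1 h2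
        omega
  refine ⟨φ.range, inferInstance, inferInstance, φ.rangeRestrict, ?_, fun f hf => ?_, fun h => ?_⟩
  · rintro ⟨_, f, rfl⟩
    refine ⟨n + 1 + a, Subtype.ext (Units.ext ?_)⟩
    have h1 : ∀ k, Sp {u | k ≤ u.length} (mm f ^ k) := by
      intro k
      induction k with
      | zero => exact fun u _ => Nat.zero_le _
      | succ k ih =>
        rw [pow_succ]
        refine Sp.mul ih (mem_LG_one f) fun a ha b hb => ?_
        simp only [mem_ofPred_eq, length_mul] at *
        omega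
    have h2 : ((φ f : I.ringCon.Quotientˣ) : I.ringCon.Quotient) = 1 + π (mm f) := by
      rw [mm, map_sub, map_one, add_sub_cancel]
      rfl
    change ((φ f ^ p ^ (n + 1 + a) : I.ringCon.Quotientˣ) : I.ringCon.Quotient) = 1
    rw [Units.val_pow_eq_pow_val, h2]
    refine pow_eq_one_of_nil hp ?_ ?_
    · rw [← map_pow, ← map_zero π, hπ, sub_zero]
      exact hlong _ (h1 _)
    · rw [← Nat.cast_pow, ← map_natCast π, ← map_zero π, hπ, sub_zero, hI]
      intro u _
      refine ⟨(1 : PS X).c u, ?_⟩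
      rw [← nsmul_one (A := PS X), ← nsmul_eq_mul]
      exact map_nsmul (coef u) (p ^ a) (1 : PS X)
  · exact Subtype.ext ((hφ f).2 (hlong _ (lcs_le_LG n hf)))
  · have h1 := (hI _).1 ((hφ g).1 (congrArg Subtype.val h)) w ⟨1, 1, by simp⟩
    exact absurd (Nat.le_of_dvd (Int.natAbs_pos.2 hc) (Int.natCast_dvd.1 h1))
      (not_le.2 (Nat.lt_pow_self hp.one_lt))

end Pool.Agent.P.MP_a28d48_al
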