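import Mathlib

set_option autoImplicit false

namespace Pool.Agent.P.MP_a28d48_al

open Function Set Pointwise

/-- admissible supports -/
structure Adm (M : Type*) [Monoid M] where
  mem : Set M → Prop
  mono : ∀ {s t : Set M}, s ⊆ t → mem t → mem s
  union : ∀ {s t : Set M}, mem s → mem t → mem (s ∪ t)
  single : ∀ a : M, mem {a}
  mul : ∀ {s t : Set M}, mem s → mem t → mem (s * t)
  fin : ∀ {s t : Set M}, mem s → mem t → ∀ x : M,
    {p : M × M | p.1 ∈ s ∧ p.2 ∈ t ∧ p.1 * p.2 = x}.Finite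

variable {M : Type*} [Monoid M]

lemma Adm.of_finite (𝒜 : Adm M) {s : Set M} (hs : s.Finite) : 𝒜.mem s := by
  induction s, hs using Set.Finite.induction_on with
  | empty => exact 𝒜.mono (empty_subset _) (𝒜.single 1)
  | insert _ _ ih => rw [insert_eq]; exact 𝒜.union (𝒜.single _) ih

/-- series with admissible support -/
@[ext] structure Ser (𝒜 : Adm M) (k : Type*) [Ring k] where
  c : M → k
  adm : 𝒜.mem (support c)

namespace Ser

variable {𝒜 : Adm M} {k : Type*} [Ring k]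

instance : Zero (Ser 𝒜 k) := ⟨⟨0, 𝒜.of_finite (by simp)⟩⟩

instance : Add (Ser 𝒜 k) :=
  ⟨fun f g => ⟨f.c + g.c, 𝒜.mono (support_add _ _) (𝒜.union f.adm g.adm)⟩⟩

instance : Neg (Ser 𝒜 k) := ⟨fun f => ⟨-f.c, by simpa using f.adm⟩⟩

open Classical in
/-- monomial -/
noncomputable def sg (a : M) (r : k) : Ser 𝒜 k :=
  ⟨fun x => if x = a then r else 0, 𝒜.mono (fun x hx => by
    by_contra h
    exact hx (if_neg h)) (𝒜.single a)⟩

noncomputable instance : One (Ser 𝒜 k) := ⟨sg 1 1⟩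

/-- antidiagonal -/
noncomputable def ad {s t : Set M} (hs : 𝒜.mem s) (ht : 𝒜.mem t) (x : M) : Finset (M × M) :=
  (𝒜.fin hs ht x).toFinset

@[simp] lemma mem_ad {s t : Set M} (hs : 𝒜.mem s) (ht : 𝒜.mem t) (x : M) (p : M × M) :
    p ∈ ad hs ht x ↔ p.1 ∈ s ∧ p.2 ∈ t ∧ p.1 * p.2 = x := by simp [ad]

noncomputable instance : Mul (Ser 𝒜 k) :=
  ⟨fun f g => ⟨fun x => ∑ p ∈ ad f.adm g.adm x, f.c p.1 * g.c p.2,
    𝒜.mono (fun x hx => by
      obtain ⟨p, hp, -⟩ := Finset.exists_ne_zero_of_sum_ne_zero hx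
      rw [mem_ad] at hp
      exact ⟨p.1, hp.1, p.2, hp.2.1, hp.2.2⟩) (𝒜.mul f.adm g.adm)⟩⟩

@[simp] lemma zero_c (x : M) : (0 : Ser 𝒜 k).c x = 0 := rfl
@[simp] lemma add_c (f g : Ser 𝒜 k) (x : M) : (f + g).c x = f.c x + g.c x := rfl
@[simp] lemma neg_c (f : Ser 𝒜 k) (x : M) : (-f).c x = -f.c x := rfl
open Classical in
lemma sg_c (a : M) (r : k) (x : M) : (sg a r : Ser 𝒜 k).c x = if x = a then r else 0 := rfl
@[simp] lemma sg_c_self (a : M) (r : k) : (sg a r : Ser 𝒜 k).c a = r := if_pos rfl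
lemma sg_c_ne {a x : M} (r : k) (h : x ≠ a) : (sg a r : Ser 𝒜 k).c x = 0 := if_neg h
lemma eq_of_sg_c {a x : M} {r : k} (h : (sg a r : Ser 𝒜 k).c x ≠ 0) : x = a := by
  by_contra h'
  exact h (sg_c_ne r h')
lemma one_def : (1 : Ser 𝒜 k) = sg 1 1 := rfl

lemma mul_c_of (f g : Ser 𝒜 k) (x : M) (T : Finset (M × M)) (h1 : ∀ p ∈ T, p.1 * p.2 = x)
    (h2 : ∀ a b, f.c a ≠ 0 → g.c b ≠ 0 → a * b = x → (a, b) ∈ T) :
    (f * g).c x = ∑ p ∈ T, f.c p.1 * g.c p.2 := by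
  refine Finset.sum_subset (fun p hp => ?_) (fun p hp hp' => ?_)
  · rw [mem_ad] at hp
    exact h2 _ _ hp.1 hp.2.1 hp.2.2
  · rw [mem_ad] at hp'
    by_cases ha : f.c p.1 = 0
    · rw [ha, zero_mul]
    by_cases hb : g.c p.2 = 0
    · rw [hb, mul_zero]
    exact absurd ⟨ha, hb, h1 p hp⟩ hp'

lemma mul_c_sup (f g : Ser 𝒜 k) (x : M) {s t : Set M} (hs : 𝒜.mem s) (ht : 𝒜.mem t)
    (h1 : support f.c ⊆ s) (h2 : support g.c ⊆ t) :
    (f * g).c x = ∑ p ∈ ad hs ht x, f.c p.1 * g.c p.2 :=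
  mul_c_of f g x _ (fun p hp => ((mem_ad _ _ _ _).1 hp).2.2)
    (fun _ _ ha hb hab => (mem_ad _ _ _ _).2 ⟨h1 ha, h2 hb, hab⟩)

lemma exists_of_mul_c {f g : Ser 𝒜 k} {x : M} (h : (f * g).c x ≠ 0) :
    ∃ a b, f.c a ≠ 0 ∧ g.c b ≠ 0 ∧ a * b = x := by
  obtain ⟨p, hp, -⟩ := Finset.exists_ne_zero_of_sum_ne_zero h
  rw [mem_ad] at hp
  exact ⟨p.1, p.2, hp.1, hp.2.1, hp.2.2⟩

lemma support_mul (f g : Ser 𝒜 k) : support (f * g).c ⊆ support f.c * support g.c := by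
  intro x hx
  obtain ⟨a, b, ha, hb, rfl⟩ := exists_of_mul_c hx
  exact Set.mul_mem_mul ha hb

lemma mul_c_unique (f g : Ser 𝒜 k) (a b : M)
    (h : ∀ a' b', f.c a' ≠ 0 → g.c b' ≠ 0 → a' * b' = a * b → a' = a ∧ b' = b) :
    (f * g).c (a * b) = f.c a * g.c b := by
  rw [mul_c_of f g (a * b) {(a, b)} (by simp)]
  · simp
  · intro a' b' ha hb hab
    obtain ⟨rfl, rfl⟩ := h a' b' ha hb hab
    simp

noncomputable instance : Ring (Ser 𝒜 k) :=
  Ring.ofMinimalAxioms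
    (fun f g h => by ext x; simp [add_assoc])
    (fun f => by ext x; simp)
    (fun f => by ext x; simp)
    (fun f g h => by
      ext x
      rw [mul_c_sup (f * g) h x (𝒜.mul f.adm g.adm) h.adm (support_mul f g) subset_rfl,
        mul_c_sup f (g * h) x f.adm (𝒜.mul g.adm h.adm) subset_rfl (support_mul g h)]
      simp only [fun y => mul_c_sup f g y f.adm g.adm subset_rfl subset_rfl,
        fun y => mul_c_sup g h y g.adm h.adm subset_rfl subset_rfl, Finset.sum_mul,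
        Finset.mul_sum, Finset.sum_sigma']
      apply Finset.sum_nbij' (fun ⟨⟨_i, j⟩, ⟨k, l⟩⟩ ↦ ⟨(k, l * j), (l, j)⟩)
        (fun ⟨⟨i, _j⟩, ⟨k, l⟩⟩ ↦ ⟨(i * k, l), (i, k)⟩) <;>
        aesop (add safe Set.mul_mem_mul) (add simp [mul_assoc]))
    (fun f => by
      ext x
      conv_lhs => rw [← one_mul x]
      rw [mul_c_unique _ _ 1 x, one_def, sg_c_self, one_mul]
      intro a b ha _ hab
      obtain rfl := eq_of_sg_c ha
      simpa using hab)
    (fun f => by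
      ext x
      conv_lhs => rw [← mul_one x]
      rw [mul_c_unique _ _ x 1, one_def, sg_c_self, mul_one]
      intro a b _ hb hab
      obtain rfl := eq_of_sg_c hb
      simpa using hab)
    (fun f g h => by
      ext x
      have hu := 𝒜.union g.adm h.adm
      rw [add_c, mul_c_sup f (g + h) x f.adm hu subset_rfl (support_add _ _),
        mul_c_sup f g x f.adm hu subset_rfl subset_union_left,
        mul_c_sup f h x f.adm hu subset_rfl subset_union_right, ← Finset.sum_add_distrib]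
      simp [mul_add])
    (fun f g h => by
      ext x
      have hu := 𝒜.union f.adm g.adm
      rw [add_c, mul_c_sup (f + g) h x hu h.adm (support_add _ _) subset_rfl,
        mul_c_sup f h x hu h.adm subset_union_left subset_rfl,
        mul_c_sup g h x hu h.adm subset_union_right subset_rfl, ← Finset.sum_add_distrib]
      simp [add_mul])

/-- coefficient as an additive map -/
def coef (x : M) : Ser 𝒜 k →+ k where
  toFun f := f.c x
  map_zero' := rfl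
  map_add' _ _ := rfl

@[simp] lemma sub_c (f g : Ser 𝒜 k) (x : M) : (f - g).c x = f.c x - g.c x :=
  map_sub (coef x) f g

lemma sum_c {ι : Type*} (s : Finset ι) (f : ι → Ser 𝒜 k) (x : M) :
    (∑ i ∈ s, f i).c x = ∑ i ∈ s, (f i).c x := map_sum (coef x) f s

lemma sg_mul_sg (a b : M) (r s : k) : (sg a r : Ser 𝒜 k) * sg b s = sg (a * b) (r * s) := by
  ext x
  by_cases hx : x = a * b
  · subst hx
    rw [mul_c_unique, sg_c_self, sg_c_self, sg_c_self]
    exact fun a' b' ha hb _ => ⟨eq_of_sg_c ha, eq_of_sg_c hb⟩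
  · rw [sg_c_ne _ hx]
    by_contra h
    obtain ⟨a', b', ha, hb, rfl⟩ := exists_of_mul_c h
    exact hx (by rw [eq_of_sg_c ha, eq_of_sg_c hb])

lemma sg_add (a : M) (r s : k) : (sg a (r + s) : Ser 𝒜 k) = sg a r + sg a s := by
  ext x
  simp only [add_c, sg_c]
  split_ifs <;> simp

@[simp] lemma sg_zero (a : M) : (sg a (0 : k) : Ser 𝒜 k) = 0 := by
  ext x
  simp [sg_c]

/-- inverse of `1 - v` -/
theorem exists_inv (v : Ser 𝒜 k) (T : Set M) (hT : 𝒜.mem T) (h1 : (1 : M) ∈ T)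
    (hm : ∀ a b, v.c a ≠ 0 → b ∈ T → a * b ∈ T)
    (wf : WellFounded fun b g : M => b ∈ T ∧ ∃ a, v.c a ≠ 0 ∧ g = a * b) :
    ∃ y : Ser 𝒜 k, support y.c ⊆ T ∧ (1 - v) * y = 1 := by
  classical
  let F : ∀ g : M, (∀ b, (b ∈ T ∧ ∃ a, v.c a ≠ 0 ∧ g = a * b) → k) → k := fun g rec =>
    if g ∈ T then (1 : Ser 𝒜 k).c g + ∑ p ∈ (ad v.adm hT g).attach,
      v.c p.1.1 * rec p.1.2 ⟨((mem_ad _ _ _ _).1 p.2).2.1, p.1.1, ((mem_ad _ _ _ _).1 p.2).1,
        ((mem_ad _ _ _ _).1 p.2).2.2.symm⟩ else 0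
  let y : M → k := wf.fix F
  have hy : ∀ g, y g = if g ∈ T then (1 : Ser 𝒜 k).c g +
      ∑ p ∈ ad v.adm hT g, v.c p.1 * y p.2 else 0 := by
    intro g
    simp only [y]
    rw [wf.fix_eq]
    simp only [F]
    rw [Finset.sum_attach (ad v.adm hT g) (fun p => v.c p.1 * wf.fix F p.2)]
  have hs : support y ⊆ T := fun g hg => by
    by_contra h
    exact hg (by rw [hy, if_neg h])
  refine ⟨⟨y, 𝒜.mono hs hT⟩, hs, ?_⟩
  ext g
  rw [sub_mul, one_mul, sub_c, mul_c_sup _ _ g v.adm hT subset_rfl hs]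
  by_cases hg : g ∈ T
  · have := hy g
    rw [if_pos hg] at this
    change y g - ∑ p ∈ ad v.adm hT g, v.c p.1 * y p.2 = _
    rw [sub_eq_iff_eq_add]
    exact this
  · have h0 : y g = 0 := by rw [hy, if_neg hg]
    have h2 : (1 : Ser 𝒜 k).c g = 0 := sg_c_ne _ (fun h => hg (h ▸ h1))
    change y g - ∑ p ∈ ad v.adm hT g, v.c p.1 * y p.2 = _
    rw [h0, h2, Finset.sum_eq_zero, sub_zero]
    intro p hp
    rw [mem_ad] at hp
    exact absurd (hp.2.2 ▸ hm _ _ hp.1 hp.2.1) hg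

end Ser

end Pool.Agent.P.MP_a28d48_al
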