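import Pool.Agent.P.MP_a28d48_al.HVL
import Pool.Agent.P.MP_a28d48_al.KTv

set_option autoImplicit false

namespace Pool.Agent.P.MP_a28d48_al

open Function Set Ser

variable {G : Type*} [Group G] {C : Cones G} {k : Type*} [Field k]

section Up

variable {M : Type*} [AddCommGroup M] [Module (Ser C.adm k) M]

variable (C k) in
/-- lines between formal fixed points of a derivation -/
def LsG (Λ : G → M) (H : Subgroup G) : Set M :=
  {v | ∃ s ∈ H, ∃ s' ∈ H, s ≠ 1 ∧ s' ≠ 1 ∧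
    v = (1 - sg s 1 : Ser C.adm k)⁻¹ • Λ s - (1 - sg s' 1 : Ser C.adm k)⁻¹ • Λ s'}

lemma one_sub_ne_UC {s : G} (hs : s ≠ 1) : (1 - sg s 1 : Ser C.adm k) ≠ 0 := by
  intro h
  have := congrArg (fun f : Ser C.adm k => f.c 1) h
  simp [one_def, sg_c_ne _ hs.symm] at this

variable {Λ : G → M} (der : ∀ g h, Λ (g * h) = Λ g + (sg g 1 : Ser C.adm k) • Λ h)

include der in
theorem lsG_span (S : Finset G) (F : Subfield (Ser C.adm k))
    (hF : ∀ h ∈ Subgroup.closure (S : Set G), sg h 1 ∈ F) : ∃ B : Finset M, B.card ≤ S.card - 1 ∧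
      LsG C k Λ (Subgroup.closure S) ⊆ Submodule.span F (B : Set M) := by
  classical
  by_cases h0 : ∀ s ∈ S, s = 1
  · refine ⟨∅, Nat.zero_le _, ?_⟩
    rintro _ ⟨s, hs, -, -, h1, -⟩
    exact absurd ((Subgroup.closure_le ⊥).2 h0 hs) h1
  push Not at h0
  obtain ⟨s₀, hs₀, h1⟩ := h0
  let δ : G → M := fun s =>
    Λ s - (1 - sg s 1 : Ser C.adm k) • (1 - sg s₀ 1 : Ser C.adm k)⁻¹ • Λ s₀
  have h2 : ∀ g h, δ (g * h) = δ g + (sg g 1 : Ser C.adm k) • δ h := fun g h => by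
    have : (sg (g * h) 1 : Ser C.adm k) = sg g 1 * sg h 1 := by rw [sg_mul_sg, mul_one]
    simp only [δ, der, this, sub_smul, smul_sub, mul_smul, one_smul]
    abel
  have h3 : δ 1 = 0 := by simpa [← one_def] using h2 1 1
  have h4 : ∀ s ∈ Subgroup.closure (S : Set G),
      δ s ∈ Submodule.span F (((S.erase s₀).image δ : Finset M) : Set M) := fun s hs => by
    induction hs using Subgroup.closure_induction with
    | mem x hx =>
      by_cases h : x = s₀
      · simp only [h, δ, smul_inv_smul₀ (one_sub_ne_UC (C := C) (k := k) h1), sub_self]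
        exact zero_mem _
      · exact Submodule.subset_span (Finset.mem_image_of_mem _ (Finset.mem_erase.2 ⟨h, hx⟩))
    | one => rw [h3]; exact zero_mem _
    | mul x y hx _ ix iy => rw [h2]; exact add_mem ix (Submodule.smul_mem _ (⟨_, hF x hx⟩ : F) iy)
    | inv x hx ix =>
      have := h2 x⁻¹ x
      rw [inv_mul_cancel, h3] at this
      rw [eq_neg_of_add_eq_zero_left this.symm]
      exact neg_mem (Submodule.smul_mem _ (⟨_, hF _ (inv_mem hx)⟩ : F) ix)
  have h5 : ∀ s ∈ Subgroup.closure (S : Set G), s ≠ 1 →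
      (1 - sg s 1 : Ser C.adm k)⁻¹ • Λ s - (1 - sg s₀ 1 : Ser C.adm k)⁻¹ • Λ s₀ ∈
        Submodule.span F (((S.erase s₀).image δ : Finset M) : Set M) := fun s hs h => by
    have := Submodule.smul_mem _ (⟨_, inv_mem (sub_mem (one_mem F) (hF s hs))⟩ : F) (h4 s hs)
    rwa [Subfield.smul_def, smul_sub, inv_smul_smul₀ (one_sub_ne_UC h)] at this
  refine ⟨(S.erase s₀).image δ, Finset.card_image_le.trans (Finset.card_erase_of_mem hs₀).le, ?_⟩
  rintro _ ⟨s, hs, s', hs', h6, h7, rfl⟩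
  rw [← sub_sub_sub_cancel_right]
  exact sub_mem (h5 s hs h6) (h5 s' hs' h7)

include der in
lemma lsG_conj {K B : Subgroup G} {g : G} (h : ∀ x ∈ K, g⁻¹ * x * g ∈ B) {v : M}
    (hv : v ∈ LsG C k Λ K) : (sg g⁻¹ 1 : Ser C.adm k) • v ∈ LsG C k Λ B := by
  obtain ⟨s, hs, s', hs', h1, h2, rfl⟩ := hv
  have h3 : ∀ s : G, s ≠ 1 → g⁻¹ * s * g ≠ 1 := fun s hs e => hs (by
    rw [mul_eq_one_iff_eq_inv] at e; simpa using e)
  have h0 : Λ 1 = 0 := by simpa [← one_def] using der 1 1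
  have h4 : ∀ s : G, s ≠ 1 → (1 - sg (g⁻¹ * s * g) 1 : Ser C.adm k)⁻¹ • Λ (g⁻¹ * s * g) =
      Λ g⁻¹ + (sg g⁻¹ 1 : Ser C.adm k) • (1 - sg s 1 : Ser C.adm k)⁻¹ • Λ s := fun s hs => by
    have e : (1 - sg (g⁻¹ * s * g) 1 : Ser C.adm k) * sg g⁻¹ 1 = sg g⁻¹ 1 * (1 - sg s 1) := by
      rw [sub_mul, mul_sub, one_mul, mul_one, sg_mul_sg, sg_mul_sg, mul_inv_cancel_right]
    have e' := der (g⁻¹ * s * g) g⁻¹
    rw [mul_inv_cancel_right, der] at e'
    rw [inv_smul_eq_iff₀ (one_sub_ne_UC (h3 s hs)), smul_add, smul_smul, e, mul_smul,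
      smul_inv_smul₀ (one_sub_ne_UC hs), sub_smul, one_smul, sub_add_eq_add_sub, e',
      add_sub_cancel_right]
  refine ⟨_, h s hs, _, h s' hs', h3 s h1, h3 s' h2, ?_⟩
  rw [h4 s h1, h4 s' h2, smul_sub, add_sub_add_left_eq_sub]

end Up

variable {Y : Type*} [Fintype Y] [LinearOrder Y]

/-- leading position and leading element of a vector -/
def LeadV (v : Y → Ser C.adm k) (q : Y × G) : Prop := (∀ y < q.1, v y = 0) ∧ IsLead (v q.1) q.2

lemma exists_leadV {v : Y → Ser C.adm k} (hv : v ≠ 0) : ∃ q, LeadV v q := by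
  obtain ⟨y, hy, h⟩ := (toFinite {y | v y ≠ 0}).exists_minimal (ne_iff.1 hv)
  obtain ⟨g, hg⟩ := exists_isLead hy
  exact ⟨(y, g), fun z hz => by_contra fun h' => (h h' hz.le).not_gt hz, hg⟩

omit [Fintype Y] in
lemma LeadV.sg {v : Y → Ser C.adm k} {q : Y × G} (h : LeadV v q) (g : G) :
    LeadV ((sg g 1 : Ser C.adm k) • v) (q.1, g * q.2) :=
  ⟨fun y hy => by rw [Pi.smul_apply, h.1 y hy, smul_zero], lead_mul_HVL
    ⟨by simp, 0, fun _ hx => Or.inl (eq_of_sg_c hx).symm⟩ h.2⟩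

omit [Fintype Y] in
lemma indepV {A : Subgroup G} {ι : Type*} {v : ι → Y → Ser C.adm k} {q : ι → Y × G}
    (h : ∀ i, LeadV (v i) (q i))
    (hq : ∀ i j, (q i).1 = (q j).1 → (q i).2 * (q j).2⁻¹ ∈ A → i = j) :
    LinearIndependent (subF C k A) v := by
  classical
  rw [linearIndependent_iff']
  intro s c hs i hi
  by_contra hc
  obtain ⟨_, ⟨i₀, hi₀, rfl⟩, hmin⟩ :=
    (toFinite ((fun i => (q i).1) '' {i | i ∈ s ∧ c i ≠ 0})).exists_minimal ⟨_, i, ⟨hi, hc⟩, rfl⟩
  have h1 := indep_of_lead (A := A) (v := fun j : {j // (q j).1 = (q i₀).1} => v j (q i₀).1)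
    (g := fun j => (q j).2) (fun j => by have := (h j).2; rwa [j.2] at this)
    fun a b hab => Subtype.ext (hq a b (a.2.trans b.2.symm) hab)
  refine hi₀.2 (linearIndependent_iff'.1 h1 (s.subtype _) (fun j => c j) ?_ ⟨i₀, rfl⟩
    (Finset.mem_subtype.2 hi₀.1))
  rw [Finset.sum_subtype_eq_sum_filter fun j => c j • v j (q i₀).1, Finset.sum_filter_of_ne]
  · simpa using congrFun hs (q i₀).1
  · intro j hj h2
    have h3 : c j ≠ 0 := fun e => h2 (by rw [e, zero_smul])
    have h4 : (q j).1 ≤ (q i₀).1 := not_lt.1 fun e => h2 (by rw [(h j).1 _ e, smul_zero])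
    exact h4.antisymm (hmin ⟨j, ⟨hj, h3⟩, rfl⟩ h4)

lemma exists_leads {K : Subgroup G} {d : ℕ} {f : Fin d → Y → Ser C.adm k}
    (hi : LinearIndependent (subF C k K) f) : ∃ (v : Fin d → Y → Ser C.adm k) (q : Fin d → Y × G),
      (∀ i, v i ∈ Submodule.span (subF C k K) (range f) ∧ LeadV (v i) (q i)) ∧
      ∀ i j, (q i).1 = (q j).1 → (q i).2 * (q j).2⁻¹ ∈ K → i = j := by
  have hd := finrank_span_eq_card hi
  rw [Fintype.card_fin] at hd
  generalize Submodule.span (subF C k K) (range f) = U at hd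
  replace hd := hd.ge
  clear hi f
  induction d with
  | zero => exact ⟨Fin.elim0, Fin.elim0, fun i => i.elim0, fun i => i.elim0⟩
  | succ d ih =>
    obtain ⟨v, q, h1, h2⟩ := ih (by omega)
    have : FiniteDimensional (subF C k K) U := Module.finite_of_finrank_pos (by omega)
    let Ψ : U →ₗ[subF C k K] (Fin d → subF C k K) :=
      { toFun := fun σ i => ⟨res K (σ.1 (q i).1 * sg (q i).2⁻¹ 1), res_mem_subF _ _⟩
        map_add' := fun x y => funext fun i => Subtype.ext (by simp [add_mul])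
        map_smul' := fun c x => funext fun i => Subtype.ext (by
          change res K (c.1 * x.1 (q i).1 * sg (q i).2⁻¹ 1) = c.1 * _
          rw [mul_assoc, res_mul _ c.2]) }
    obtain ⟨w, hw, hw0⟩ := (Submodule.ne_bot_iff _).1 (LinearMap.ker_ne_bot_of_finrank_lt (f := Ψ)
      (by rw [Module.finrank_fintype_fun_eq_card, Fintype.card_fin]; omega))
    obtain ⟨p, hp⟩ := exists_leadV (v := w.1) fun e => hw0 (Subtype.ext e)
    have h3 : ∀ i, p.1 = (q i).1 → p.2 * (q i).2⁻¹ ∉ K := fun i e h => by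
      have h4 := congrArg (fun z : subF C k K => z.1.c (p.2 * (q i).2⁻¹)) (congrFun hw i)
      change (res K (w.1 (q i).1 * sg (q i).2⁻¹ 1)).c _ = 0 at h4
      rw [res_c, if_pos h, mul_sg_c, inv_inv, inv_mul_cancel_right, mul_one, ← e] at h4
      exact hp.2.1 h4
    refine ⟨Fin.cons w.1 v, Fin.cons p q, fun i => Fin.cases ⟨w.2, hp⟩ h1 i, fun i j => ?_⟩
    refine Fin.cases (Fin.cases (fun _ _ => rfl) (fun j e h => absurd h (h3 j e)) j)
      (fun i => Fin.cases (fun e h => absurd ?_ (h3 i e.symm)) (fun j e h => by rw [h2 i j e h]) j) i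
    simpa using K.inv_mem h

omit [Fintype Y] in
lemma card_leads {A : Subgroup G} {I : Type*} {v : I → Y → Ser C.adm k} {q : I → Y × G}
    (h : ∀ i, LeadV (v i) (q i)) {B : Finset (Y → Ser C.adm k)}
    (hv : ∀ i, v i ∈ Submodule.span (subF C k A) (B : Set (Y → Ser C.adm k))) [Finite I] :
    Nat.card (range fun i => ((q i).1, Quotient.mk (QuotientGroup.rightRel A) (q i).2)) ≤
      B.card := by
  choose s hs using fun z : range fun i =>
    ((q i).1, Quotient.mk (QuotientGroup.rightRel A) (q i).2) => z.2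
  have := Fintype.ofFinite (range fun i => ((q i).1, Quotient.mk (QuotientGroup.rightRel A) (q i).2))
  have h1 := indepV (A := A) (fun z => h (s z)) fun a b e h' => Subtype.ext (by
    rw [← hs a, ← hs b]
    exact Prod.ext e (Quotient.sound (QuotientGroup.rightRel_apply.2 h')).symm)
  simpa using linearIndependent_le_span_aux' _ h1 (B : Set (Y → Ser C.adm k))
    (by rintro _ ⟨z, rfl⟩; exact hv _)

theorem count_ls {Λ : G → Y → Ser C.adm k}
    (der : ∀ g h, Λ (g * h) = Λ g + (sg g 1 : Ser C.adm k) • Λ h) {A B : Subgroup G}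
    {BA BB : Finset (Y → Ser C.adm k)}
    (hA : LsG C k Λ A ⊆ Submodule.span (subF C k A) (BA : Set (Y → Ser C.adm k)))
    (hB : LsG C k Λ B ⊆ Submodule.span (subF C k B) (BB : Set (Y → Ser C.adm k)))
    {I : Type*} [Fintype I] {g : I → G} (hg : ∀ i j, ∀ a ∈ A, ∀ b ∈ B, g j = a * g i * b → i = j)
    {K : I → Subgroup G} (hK : ∀ i x, x ∈ K i ↔ x ∈ A ∧ (g i)⁻¹ * x * g i ∈ B) {d : I → ℕ}
    {f : ∀ i, Fin (d i) → Y → Ser C.adm k} (hf : ∀ i l, f i l ∈ LsG C k Λ (K i))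
    (hi : ∀ i, LinearIndependent (subF C k (K i)) (f i)) : ∑ i, d i ≤ BA.card * BB.card := by
  choose v q h1 h2 using fun i => exists_leads (hi i)
  have h3 := card_leads (A := A) (fun z : Σ i, Fin (d i) => (h1 z.1 z.2).2) (B := BA) fun z =>
    span_mono_HVL (fun x hx => ((hK _ x).1 hx).1) (by
      rintro _ ⟨l, rfl⟩
      obtain ⟨s, hs, s', hs', e⟩ := hf _ l
      exact hA ⟨s, ((hK _ _).1 hs).1, s', ((hK _ _).1 hs').1, e⟩) (h1 z.1 z.2).1
  have h4 := card_leads (A := B) (fun z : Σ i, Fin (d i) => (h1 z.1 z.2).2.sg (g z.1)⁻¹) (B := BB)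
    fun z => by
      have h5 := (h1 z.1 z.2).1
      generalize v z.1 z.2 = w at h5
      induction h5 using Submodule.span_induction with
      | mem x hx =>
        obtain ⟨l, rfl⟩ := hx
        exact hB (lsG_conj der (fun x hx => ((hK _ x).1 hx).2) (hf _ l))
      | zero => rw [smul_zero]; exact zero_mem _
      | add x y _ _ hx hy => rw [smul_add]; exact add_mem hx hy
      | smul a x _ hx =>
        have h6 : sg (g z.1)⁻¹ 1 * a.1 * sg (g z.1) 1 ∈ subF C k B := fun u hu => by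
          rw [mem_support, mul_sg_c, sg_mul_c, one_mul, mul_one, inv_inv] at hu
          simpa [mul_assoc] using ((hK _ _).1 (a.2 hu)).2
        have := Submodule.smul_mem _ (⟨_, h6⟩ : subF C k B) hx
        rwa [Subfield.smul_def, smul_smul, mul_assoc, sg_mul_sg, mul_inv_cancel, mul_one,
          ← one_def, mul_one, mul_smul] at this
  refine le_trans ?_ (Nat.mul_le_mul h3 h4)
  rw [← Nat.card_prod, show ∑ i, d i = Nat.card (Σ i, Fin (d i)) by simp]
  refine Nat.card_le_card_of_injective (fun z => (⟨_, z, rfl⟩, ⟨_, z, rfl⟩)) ?_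
  rintro ⟨i, l⟩ ⟨j, m⟩ e
  simp only [Prod.mk.injEq, Subtype.mk.injEq, Quotient.eq, QuotientGroup.rightRel_apply] at e
  obtain ⟨⟨e1, e2⟩, -, e3⟩ := e
  obtain rfl := hg i j _ e2 _ (B.inv_mem e3) (by group)
  rw [h2 i m l e1.symm ((hK _ _).2 ⟨e2, by simpa [mul_assoc] using e3⟩)]

end Pool.Agent.P.MP_a28d48_al
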