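import Pool.Agent.P.MP_a28d48_al.HT3

set_option autoImplicit false

namespace Pool.Agent.P.MP_a28d48_al

open Function Set Ser

section Abs

variable {Γ E k : Type*} [Group Γ] [MulAction Γ E] [Field k] {C : Cones Γ}

lemma fst_span {H : Subgroup Γ} {B : Set (Ch C E k × Ser C.adm k)} {p : Ch C E k × Ser C.adm k}
    (hp : p ∈ Submodule.span (subF C k H) B) :
    p.1 ∈ Submodule.span (subF C k H) (Prod.fst '' B) := by
  induction hp using Submodule.span_induction with
  | mem x hx => exact Submodule.subset_span ⟨x, hx, rfl⟩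
  | zero => exact zero_mem _
  | add x y _ _ hx hy => exact add_mem hx hy
  | smul a x _ hx => exact Submodule.smul_mem _ a hx

lemma snd_span {H : Subgroup Γ} {B : Set (Ch C E k × Ser C.adm k)}
    (P : Submodule (subF C k H) (Ser C.adm k)) (hB : ∀ b ∈ B, b.2 ∈ P)
    {p : Ch C E k × Ser C.adm k} (hp : p ∈ Submodule.span (subF C k H) B) : p.2 ∈ P := by
  induction hp using Submodule.span_induction with
  | mem x hx => exact hB x hx
  | zero => exact zero_mem _
  | add x y _ _ hx hy => exact add_mem hx hy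
  | smul a x _ hx => exact Submodule.smul_mem _ a hx

/-- splitting along an invariant partition of the edges -/
lemma dec_abs {H : Subgroup Γ} {I : Type*} (τ : E → I) (hτ : ∀ h ∈ H, ∀ e, τ (h • e) = τ e)
    (B : I → Set (Ch C E k × Ser C.adm k)) (hB : ∀ i, ∀ b ∈ B i, ∀ e, b.1.1 e ≠ 0 → τ e = i)
    {p : Ch C E k × Ser C.adm k} (hp : p ∈ Submodule.span (subF C k H) (⋃ i, B i))
    (P : Submodule (subF C k H) (Ser C.adm k))
    (hP : ∀ i, ∀ q ∈ Submodule.span (subF C k H) (B i), q.1 = Ch.rs {e | τ e = i} p.1 → q.2 ∈ P) :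
    p.2 ∈ P := by
  classical
  rw [Submodule.span_iUnion, Submodule.mem_iSup_iff_exists_finsupp] at hp
  obtain ⟨a, ha, rfl⟩ := hp
  have hs : ∀ i e, (a i).1.1 e ≠ 0 → τ e = i := fun i =>
    Ch.support_span (H := H) (Ω := {e | τ e = i}) (fun h hh e he => (hτ h hh e).trans he)
      (by rintro _ ⟨b, hb, rfl⟩; exact hB i b hb) (fst_span (ha i))
  rw [Finsupp.sum, Prod.snd_sum]
  refine sum_mem fun i hi => hP i _ (ha i) ?_
  rw [Finsupp.sum, Prod.fst_sum, map_sum, Finset.sum_eq_single_of_mem i hi]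
  · refine Subtype.ext (funext fun e => ?_)
    rw [Ch.rs_apply]
    split_ifs with h
    · rfl
    · exact not_not.1 (mt (hs i e) h)
  · intro j _ hj
    refine Subtype.ext (funext fun e => ?_)
    rw [Ch.rs_apply]
    split_ifs with h
    · exact not_not.1 fun h' => hj ((hs j e h').symm.trans h)
    · rfl

/-- the graph property passes from the stabiliser of a block to the group -/
lemma graph_block {H H₁ : Subgroup Γ} {Ω : Set E} (h₁ : ∀ h ∈ H₁, ∀ e ∈ Ω, h • e ∈ Ω)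
    (h₂ : ∀ h ∈ H, ∀ e ∈ Ω, h • e ∈ Ω → h ∈ H₁) (hle : H₁ ≤ H)
    {B : Set (Ch C E k × Ser C.adm k)} (hB : ∀ b ∈ B, ∀ e, b.1.1 e ≠ 0 → e ∈ Ω)
    (hg : ∀ u, ((0 : Ch C E k), u) ∈ Submodule.span (subF C k H₁) B → u = 0) (u : Ser C.adm k)
    (hu : ((0 : Ch C E k), u) ∈ Submodule.span (subF C k H) B) : u = 0 := by
  obtain ⟨B₀, hB₀, hsp, hli⟩ := exists_linearIndependent (subF C k H₁) B
  have h3 : LinearIndependent (subF C k H₁) fun b : B₀ => b.1.1 := by
    refine hli.map (f := LinearMap.fst (subF C k H₁) _ _) (Submodule.disjoint_def.2 ?_)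
    rintro ⟨σ, v⟩ h4 h5
    obtain rfl : σ = 0 := h5
    rw [Subtype.range_coe, hsp] at h4
    rw [hg v h4]
    rfl
  have h4 := Ch.indep_block h₁ h₂ (fun b : B₀ => hB b.1 (hB₀ b.2)) h3
  have h5 : ((0 : Ch C E k), u) ∈ Submodule.span (subF C k H) (range ((↑) : B₀ → _)) := by
    rw [Subtype.range_coe]
    refine Submodule.span_le.2 (fun b hb => ?_) hu
    exact span_mono_HVL hle Submodule.subset_span (hsp ▸ Submodule.subset_span hb)
  obtain ⟨c, hc⟩ := Finsupp.mem_span_range_iff_exists_finsupp.1 h5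
  have h6 : c = 0 := linearIndependent_iff.1 h4 c (by
    have := congrArg Prod.fst hc
    rw [Finsupp.sum, Prod.fst_sum] at this
    exact this)
  rw [h6, Finsupp.sum_zero_index] at hc
  exact (congrArg Prod.snd hc).symm

end Abs

namespace Tr

variable {Γ V E k : Type*} [Group Γ] [MulAction Γ V] [MulAction Γ E] [Field k] (T : Tr Γ V E k)

/-- a chain together with the increment of `f` -/
noncomputable def pr (f : V → Ser T.C.adm k) (x y : V) : Ch T.C E k × Ser T.C.adm k :=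
  (T.ch x y, f y - f x)

/-- the increments of `f` are equivariant -/
def Aff (H : Subgroup Γ) (f : V → Ser T.C.adm k) : Prop :=
  ∀ h ∈ H, ∀ x y, f (h • y) - f (h • x) = sg h 1 * (f y - f x)

/-- span of the pairs in `S` -/
noncomputable def Wd (H : Subgroup Γ) (f : V → Ser T.C.adm k) (S : Set V) :
    Submodule (subF T.C k H) (Ch T.C E k × Ser T.C.adm k) :=
  Submodule.span _ {p | ∃ x ∈ S, ∃ y ∈ S, p = T.pr f x y}

/-- relations between chains hold for the increments -/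
def Inj (H : Subgroup Γ) (f : V → Ser T.C.adm k) (S : Set V) : Prop :=
  ∀ u, ((0 : Ch T.C E k), u) ∈ T.Wd H f S → u = 0

/-- high edges in the translates of a class -/
def OmH (H : Subgroup Γ) (n : ℤ) (a : V) : Set E := {e | ∃ h ∈ H, e ∈ T.Om n (h • a)}

variable {T} {H : Subgroup Γ} {f : V → Ser T.C.adm k}

lemma pr_add (x y z : V) : T.pr f x y + T.pr f y z = T.pr f x z :=
  Prod.ext (T.ch_add x y z) (by simp [pr])

lemma pr_self (x : V) : T.pr f x x = 0 := Prod.ext (T.ch_self x) (sub_self _)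

lemma pr_neg (x y : V) : -T.pr f x y = T.pr f y x := Prod.ext (T.ch_neg x y) (neg_sub _ _)

lemma pr_smul (hf : T.Aff H f) {h : Γ} (hh : h ∈ H) (x y : V) :
    (sg h 1 : Ser T.C.adm k) • T.pr f x y = T.pr f (h • x) (h • y) :=
  Prod.ext (T.sg_smul_ch h x y) (hf h hh x y).symm

lemma pr_mem {S : Set V} {x y : V} (hx : x ∈ S) (hy : y ∈ S) : T.pr f x y ∈ T.Wd H f S :=
  Submodule.subset_span ⟨x, hx, y, hy, rfl⟩

lemma pr_smul_mem (hf : T.Aff H f) {U : Submodule (subF T.C k H) (Ch T.C E k × Ser T.C.adm k)}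
    {h : Γ} (hh : h ∈ H) {x y : V} (hU : T.pr f x y ∈ U) : T.pr f (h • x) (h • y) ∈ U := by
  rw [← pr_smul hf hh]
  exact U.smul_mem (⟨_, T.sg_mem_HEta hh⟩ : subF T.C k H) hU

lemma Wd_mono {S S' : Set V} (h : S ⊆ S') : T.Wd H f S ≤ T.Wd H f S' :=
  Submodule.span_mono fun _ ⟨x, hx, y, hy, e⟩ => ⟨x, h hx, y, h hy, e⟩

lemma Wd_congr {f' : V → Ser T.C.adm k} {S : Set V} (h : ∀ x ∈ S, ∀ y ∈ S, f y - f x = f' y - f' x) :
    T.Wd H f S ≤ T.Wd H f' S := Submodule.span_mono fun _ ⟨x, hx, y, hy, e⟩ =>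
  ⟨x, hx, y, hy, by rw [e, pr, pr, h x hx y hy]⟩

lemma Inj.mono {S S' : Set V} (h : S ⊆ S') (hi : T.Inj H f S') : T.Inj H f S :=
  fun u hu => hi u (Wd_mono h hu)

lemma Aff.mono {H' : Subgroup Γ} (h : H' ≤ H) (hf : T.Aff H f) : T.Aff H' f :=
  fun g hg => hf g (h hg)

lemma ch_om {n : ℤ} {a x y : V} (hx : T.Sim n a x) (hy : T.Sim n a y) {e : E}
    (he : (T.ch x y).1 e ≠ 0) : e ∈ T.Om n a := by
  have := (hx.symm.trans hy).origin (T.ch_ne_zero.1 he).1 (T.ch_ne_zero.1 he).2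
  exact ⟨this.1, hx.trans this.2⟩

/-- decomposition into low walls and classes -/
theorem dec (hH : H ≤ T.N) (hf : T.Aff H f) (n : ℤ) {p : Ch T.C E k × Ser T.C.adm k}
    (hp : p ∈ T.Wd H f univ) (P : Submodule (subF T.C k H) (Ser T.C.adm k)) (hlow : T.Hi n p.1)
    (hP : ∀ a, ∀ q ∈ T.Wd H f {y | T.Sim n a y}, q.1 = Ch.rs (T.OmH H n a) p.1 → q.2 ∈ P) :
    p.2 ∈ P := by
  classical
  let cl : V → Set V := fun a => {y | ∃ h ∈ H, T.Sim n (h • a) y}
  have hcl : ∀ a b, cl a = cl b ↔ ∃ h ∈ H, T.Sim n (h • b) a := fun a b => by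
    refine ⟨fun e => ?_, fun ⟨h, hh, e⟩ => Set.ext fun y => ⟨fun ⟨g, hg, e'⟩ => ?_,
      fun ⟨g, hg, e'⟩ => ?_⟩⟩
    · have : a ∈ cl a := ⟨1, H.one_mem, by rw [one_smul]; exact Sim.refl _ _⟩
      rwa [e] at this
    · exact ⟨g * h, H.mul_mem hg hh, by rw [mul_smul]; exact (e.smul_N (hH hg)).trans e'⟩
    · refine ⟨g * h⁻¹, H.mul_mem hg (H.inv_mem hh), Sim.trans ?_ e'⟩
      have := (e.smul_N (hH (H.mul_mem hg (H.inv_mem hh)))).symm
      rwa [smul_smul, inv_mul_cancel_right] at this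
  have horb : ∀ e e' : E, Orb H {e} = Orb H {e'} ↔ ∃ h ∈ H, e = h • e' := fun e e' => by
    refine ⟨fun h => ?_, ?_⟩
    · have : e ∈ Orb H {e} := ⟨1, H.one_mem, e, rfl, (one_smul _ _).symm⟩
      rw [h] at this
      obtain ⟨g, hg, _, rfl, h2⟩ := this
      exact ⟨g, hg, h2⟩
    · rintro ⟨h, hh, rfl⟩
      refine Set.ext fun y => ⟨?_, ?_⟩
      · rintro ⟨g, hg, _, rfl, rfl⟩
        exact ⟨g * h, H.mul_mem hg hh, _, rfl, (mul_smul _ _ _).symm⟩
      · rintro ⟨g, hg, _, rfl, rfl⟩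
        exact ⟨g * h⁻¹, H.mul_mem hg (H.inv_mem hh), _, rfl, by
          rw [smul_smul, inv_mul_cancel_right]⟩
  have hle : ∀ h ∈ H, ∀ e, T.le (h • e) = T.le e := fun h hh e => by
    rw [le_smul, T.mem_N.1 (hH hh), zero_add]
  let τ : E → Set V ⊕ Set E := fun e =>
    if n < T.le e then Sum.inl (cl (T.o e)) else Sum.inr (Orb H {e})
  let B : Set V ⊕ Set E → Set (Ch T.C E k × Ser T.C.adm k) := Sum.elim
    (fun s => {q | ∃ x y, T.Sim n x y ∧ cl x = s ∧ q = T.pr f x y})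
    fun s => {q | ∃ w ∈ T.W, T.le w ≤ n ∧ Orb H {w} = s ∧ q = T.pr f (T.o w) (T.t w)}
  have hwall : ∀ w ∈ T.W, ∀ e, (T.ch (T.o w) (T.t w)).1 e ≠ 0 → e = w := fun w hw e he =>
    by_contra fun hne => (T.ch_ne_zero.1 he).2
      (T.χ_wall e (T.ch_ne_zero.1 he).1 w hw (Ne.symm hne))
  refine dec_abs τ (fun h hh e => ?_) B ?_ (Submodule.span_le.2 ?_ hp) P ?_
  · simp only [τ, hle h hh]
    rw [(hcl _ (T.o e)).2 ⟨h, hh, by rw [T.o_smul]; exact Sim.refl _ _⟩,
      (horb _ e).2 ⟨h, hh, rfl⟩]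
  · rintro (s | s) _ hb e he
    · obtain ⟨x, y, h1, rfl, rfl⟩ := hb
      have h2 := ch_om (Sim.refl n x) h1 he
      simp only [τ, if_pos h2.1]
      rw [(hcl _ x).2 ⟨1, H.one_mem, by rw [one_smul]; exact h2.2⟩]
    · obtain ⟨w, hw, h1, rfl, rfl⟩ := hb
      obtain rfl := hwall w hw e he
      simp only [τ, if_neg (not_lt.2 h1)]
  · rintro _ ⟨x, -, y, -, rfl⟩
    obtain ⟨M, hM⟩ := geo' (T := T) n x y
    have key : ∀ e ∈ T.X n M ∪ T.Sep n x y,
        T.pr f (T.o e) (T.t e) ∈ Submodule.span (subF T.C k H) (⋃ i, B i) := by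
      rintro e (he | he)
      · exact Submodule.subset_span (mem_iUnion.2 ⟨Sum.inl (cl (T.o e)), _, _,
          sim_of_cn (Conn.edge he), rfl, rfl⟩)
      · exact Submodule.subset_span (mem_iUnion.2 ⟨Sum.inr (Orb H {e}), e, he.1, he.2.1, rfl, rfl⟩)
    generalize T.X n M ∪ T.Sep n x y = S at hM key
    change T.pr f x y ∈ Submodule.span (subF T.C k H) (⋃ i, B i)
    induction hM using Conn.ind with
    | h0 => rw [pr_self]; exact zero_mem _
    | h1 e he _ ih => rw [← pr_add x (T.o e)]; exact add_mem ih (key e he)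
    | h2 e he _ ih => rw [← pr_add x (T.t e), ← pr_neg (T.o e)]; exact add_mem ih (neg_mem (key e he))
  · intro i q hq h1
    rcases (B i).eq_empty_or_nonempty with h0 | ⟨b, hb⟩
    · rw [h0, Submodule.span_empty, Submodule.mem_bot] at hq
      rw [hq]
      exact zero_mem _
    rcases i with s | s
    · obtain ⟨a, -, -, rfl, -⟩ := hb
      refine hP a q (Submodule.span_le.2 ?_ hq) (h1.trans ?_)
      · rintro _ ⟨x, y, h2, h3, rfl⟩
        obtain ⟨h, hh, h4⟩ := (hcl _ _).1 h3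
        have h5 : ∀ z, T.Sim n (h • a) z → h⁻¹ • z ∈ {y | T.Sim n a y} := fun z hz => by
          have := hz.smul_N (hH (H.inv_mem hh))
          rwa [inv_smul_smul] at this
        have := pr_smul_mem hf hh (pr_mem (H := H) (f := f) (h5 x h4) (h5 y (h4.trans h2)))
        rwa [smul_inv_smul, smul_inv_smul] at this
      · congr 2
        ext e
        simp only [τ, mem_ofPred_eq]
        split_ifs with h2
        · rw [Sum.inl.injEq, hcl]
          exact ⟨fun ⟨h, hh, h3⟩ => ⟨h, hh, h2, h3⟩, fun ⟨h, hh, h3⟩ => ⟨h, hh, h3.2⟩⟩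
        · exact ⟨fun h => by simp at h, fun ⟨_, _, h3⟩ => absurd h3.1 h2⟩
    · obtain ⟨w, hw, hn, rfl, -⟩ := hb
      have h2 : q ∈ Submodule.span (subF T.C k H) {T.pr f (T.o w) (T.t w)} := by
        refine Submodule.span_le.2 ?_ hq
        rintro _ ⟨w', -, -, h3, rfl⟩
        obtain ⟨h, hh, rfl⟩ := (horb _ _).1 h3
        rw [T.o_smul, T.t_smul]
        exact pr_smul_mem hf hh (Submodule.mem_span_singleton_self _)
      obtain ⟨c, rfl⟩ := Submodule.mem_span_singleton.1 h2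
      have h3 : c.1 • T.ch (T.o w) (T.t w) = 0 := by
        refine h1.trans (Subtype.ext (funext fun e => ?_))
        rw [Ch.rs_apply]
        split_ifs with h4
        · by_contra h5
          simp [τ, if_pos (hlow e h5)] at h4
        · rfl
      have h4 : c = 0 := Subtype.ext ((smul_eq_zero.1 h3).resolve_right fun h5 =>
        T.ch_ne_zero.2 ⟨hw, T.χ_self w hw⟩ (by rw [h5]; rfl))
      rw [h4, zero_smul]
      exact zero_mem _

theorem block {n : ℤ} {a : V} (hH : H ≤ T.N) (h : T.Inj (T.Stab H n a) f univ) :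
    T.Inj H f {y | T.Sim n a y} := by
  refine graph_block (H₁ := T.Stab H n a) (Ω := T.Om n a) om_smul (fun u hu e he he' => ?_)
    stab_le_HFF ?_ (h.mono (subset_univ _))
  · have h1 := he'.2
    rw [T.o_smul] at h1
    exact ⟨hu, hH hu, h1.trans (he.2.smul_N (hH hu)).symm⟩
  · rintro _ ⟨x, hx, y, hy, rfl⟩ e he
    exact ch_om hx hy he

variable (T) in
/-- low points are alone in their class -/
theorem sing : ∃ c : ℤ, ∀ n x y, T.lv x + c ≤ n → T.Sim n x y → x = y := by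
  obtain ⟨c, hc⟩ := (T.R_fin.image fun r => T.le r - T.lv (T.t r)).bddAbove
  refine ⟨max c 0, fun n x y hn h => ?_⟩
  obtain ⟨M, hM⟩ := h.cn
  have := hM.const (fun z => x = z) fun e he => by
    have h1 : n < T.le e := by
      rcases he.1 with h | h
      · exact h.2
      · have := h.2
        omega
    obtain ⟨g, -, r, hr, rfl⟩ := T.orb e
    have h2 : T.le r - T.lv (T.t r) ≤ c := hc ⟨r, hr, rfl⟩
    refine propext ⟨fun h3 => ?_, fun h3 => ?_⟩
    · rw [le, ← h3] at h1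
      omega
    · rw [le_smul] at h1
      rw [h3, T.t_smul, T.lv_smul] at hn
      omega
  exact this ▸ rfl

end Tr

end Pool.Agent.P.MP_a28d48_al
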