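import Pool.Agent.P.MP_a28d48_al.KDef

set_option autoImplicit false

namespace Pool.Agent.P.MP_a28d48_al

open Function Set

/-- free differential calculus with values in functions on `K` -/
lemma exists_fox {K M ι : Type*} [Group K] [AddCommGroup M] (π : FreeGroup ι →* K) (ε : ι → K → M) :
    ∃ c : FreeGroup ι → K → M, (∀ u v x, c (u * v) x = c u x + c v (x * π u)) ∧
      ∀ j, c (FreeGroup.of j) = ε j := by
  let φ : K →* MulAut (Multiplicative (K → M)) :=
    { toFun := fun g =>
        { toFun := fun f => Multiplicative.ofAdd fun x => f.toAdd (x * g)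
          invFun := fun f => Multiplicative.ofAdd fun x => f.toAdd (x * g⁻¹)
          left_inv := fun f => by simp
          right_inv := fun f => by simp
          map_mul' := fun _ _ => rfl }
      map_one' := by ext f; simp
      map_mul' := fun a b => by ext f; simp [mul_assoc] }
  let Ξ : FreeGroup ι →* Multiplicative (K → M) ⋊[φ] K :=
    FreeGroup.lift fun j => ⟨Multiplicative.ofAdd (ε j), π (FreeGroup.of j)⟩
  have h1 : SemidirectProduct.rightHom.comp Ξ = π := FreeGroup.ext_hom _ _ fun j => by simp [Ξ]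
  refine ⟨fun w => (Ξ w).left.toAdd, fun u v x => ?_, fun j => by simp [Ξ]⟩
  dsimp only
  rw [map_mul, SemidirectProduct.mul_left, ← h1]
  rfl

theorem fox_bound {K D : Type*} [Group K] [DivisionRing D] (H : Subgroup K) (σ : H →* D)
    {T : Finset K} (hT : IsTv H T) (hT1 : 1 ∈ T) {n : ℕ} (π : FreeGroup (Fin n) →* K)
    (hπ : Surjective π) (rels : Finset (FreeGroup (Fin n)))
    (hker : π.ker = Subgroup.normalClosure rels) (S : Finset H)
    (hS : ∀ δ : H → D, (∀ a b, δ (a * b) = δ a + σ a * δ b) → (∀ s ∈ S, δ s = 0) → ∀ h, δ h = 0) :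
    T.card * n + 1 ≤ T.card * rels.card + S.card + T.card := by
  classical
  choose r hr hu using hT
  have hrH : ∀ (h : H) x, r (h * x) = r x := fun h x =>
    (hu _ _ ⟨(hr x).1, by rw [mul_assoc]; exact H.mul_mem h.2 (hr x).2⟩).symm
  obtain ⟨c, hc, hε⟩ := exists_fox π fun j x =>
    (Pi.single (⟨r x, (hr x).1⟩, j) (σ ⟨_, (hr x).2⟩) : T × Fin n → D)
  have c1 : ∀ x, c 1 x = 0 := fun x => by simpa using hc 1 1 x
  have c2 : ∀ u x, c u⁻¹ x = -c u (x * (π u)⁻¹) := fun u x => by
    have := hc u⁻¹ u x
    rw [inv_mul_cancel, c1, map_inv] at this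
    exact eq_neg_of_add_eq_zero_left this.symm
  have c3 : ∀ u (h : H) x, c u (h * x) = σ h • c u x := fun u h => by
    induction u using FreeGroup.induction_on with
    | C1 => simp [c1]
    | of j =>
      intro x
      simp only [hε, hrH, ← Pi.single_smul, smul_eq_mul, ← map_mul]
      congr 2
      exact Subtype.ext (by simp [mul_assoc])
    | inv_of j ih => intro x; rw [c2, c2, mul_assoc, ih, smul_neg]
    | mul u v iu iv => intro x; rw [hc, hc, mul_assoc, iu, iv, smul_add]
  choose w hw using hπ
  let B : Finset (T × Fin n → D) := (T ×ˢ rels).image (fun q => c q.2 q.1) ∪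
    S.image (fun s : H => c (w s) 1) ∪ (T.erase 1).image fun t => c (w t) 1
  have hB : B.card + 1 ≤ T.card * rels.card + S.card + T.card := by
    have h1 := Finset.card_image_le (s := T ×ˢ rels) (f := fun q => c q.2 q.1)
    have h2 := Finset.card_image_le (s := S) (f := fun s : H => c (w s) 1)
    have h3 := Finset.card_image_le (s := T.erase 1) (f := fun t => c (w t) 1)
    have h4 := Finset.card_erase_add_one hT1
    have h5 := (Finset.card_union_le _ _).trans (add_le_add ((Finset.card_union_le _ _).trans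
      (add_le_add h1 h2)) h3)
    rw [Finset.card_product] at h5
    exact (Nat.add_le_add_right h5 1).trans (by omega)
  by_contra hlt
  obtain ⟨l, hl, hl'⟩ := Submodule.exists_le_ker_of_lt_top (Submodule.span D (B : Set (T × Fin n → D)))
    (lt_top_iff_ne_top.2 fun h => by
      have h1 := finrank_span_finset_le_card (R := D) B
      rw [Set.finrank, h, finrank_top, Module.finrank_fintype_fun_eq_card, Fintype.card_prod,
        Fintype.card_coe, Fintype.card_fin] at h1
      omega)
  have l0 : ∀ b ∈ B, l b = 0 := fun b hb => hl' (Submodule.subset_span hb)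
  have e0 : ∀ x, x = (⟨_, (hr x).2⟩ : H) * r x := fun x => by simp
  let N : Subgroup (FreeGroup (Fin n)) :=
    { carrier := {u | π u = 1 ∧ ∀ x, l (c u x) = 0}
      mul_mem' := fun {u v} hu hv => ⟨by rw [map_mul, hu.1, hv.1, mul_one], fun x => by
        rw [hc, map_add, hu.2, hv.2, add_zero]⟩
      one_mem' := ⟨map_one π, fun x => by rw [c1, map_zero]⟩
      inv_mem' := fun {u} hu => ⟨by rw [map_inv, hu.1, inv_one], fun x => by
        rw [c2, map_neg, hu.2, neg_zero]⟩ }
  have : N.Normal := ⟨fun u hu v => ⟨by simp [hu.1], fun x => by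
    rw [hc, hc, c2, map_add, map_add, hu.2, map_mul, hu.1, mul_one, mul_inv_cancel_right, map_neg,
      add_zero, add_neg_cancel]⟩⟩
  have hN : π.ker ≤ N := hker ▸ Subgroup.normalClosure_le_normal fun u hu =>
    ⟨(show u ∈ π.ker from hker ▸ Subgroup.subset_normalClosure hu), fun x => by
      rw [e0 x, c3, map_smul, l0 _ (Finset.mem_union_left _ (Finset.mem_union_left _
        (Finset.mem_image.2 ⟨(r x, u), Finset.mem_product.2 ⟨(hr x).1, hu⟩, rfl⟩))), smul_zero]⟩
  have f1 : ∀ x u, l (c (w (x * π u)) 1) = l (c (w x) 1) + l (c u x) := fun x u => by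
    have h1 := (hN (show (w x * u)⁻¹ * w (x * π u) ∈ π.ker by simp [hw])).2
    rw [← mul_inv_cancel_left (w x * u) (w (x * π u)), hc, map_add, h1, add_zero, hc, map_add, hw,
      one_mul]
  have f2 : ∀ (h : H) x, l (c (w (h * x)) 1) = l (c (w h) 1) + σ h * l (c (w x) 1) := fun h x => by
    have := f1 h (w x)
    rwa [hw, ← mul_one (h : K), c3, map_smul, mul_one] at this
  have f3 := hS (fun h => l (c (w h) 1)) (fun a b => f2 a b) fun s hs =>
    l0 _ (Finset.mem_union_left _ (Finset.mem_union_right _ (Finset.mem_image_of_mem _ hs)))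
  have f4 : ∀ x, l (c (w x) 1) = 0 := fun x => by
    rw [e0 x, f2, f3, zero_add]
    refine mul_eq_zero_of_right _ ?_
    by_cases h : r x = 1
    · rw [h]
      exact f3 1
    · exact l0 _ (Finset.mem_union_right _ (Finset.mem_image_of_mem _
        (Finset.mem_erase.2 ⟨h, (hr x).1⟩)))
  refine hl (LinearMap.pi_ext' fun q => LinearMap.ext_ring ?_)
  have h1 := f1 q.1 (FreeGroup.of q.2)
  have h2 : r q.1 = q.1 := (hu _ _ ⟨q.1.2, by simp⟩).symm
  rw [f4, f4, zero_add, hε] at h1
  simpa [h2, show (⟨1, H.one_mem⟩ : H) = 1 from rfl] using h1.symm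

end Pool.Agent.P.MP_a28d48_al
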