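import Pool.Agent.P.MP_a28d48_al.UDec

set_option autoImplicit false

namespace Pool.Agent.P.MP_a28d48_al

open Function Set Ser

namespace Tr

variable {Γ V E k : Type*} [Group Γ] [MulAction Γ V] [MulAction Γ E] [Field k] {T : Tr Γ V E k}
  {H : Subgroup Γ} {f : V → Ser T.C.adm k}

variable (T) in
/-- elements with a common formal fixed point commute -/
def Zd : Prop := ∀ s s' : Γ, s ≠ 1 → s' ≠ 1 → T.eta T.b s = T.eta T.b s' → Commute s s'

lemma exists_lv {p : Ch T.C E k × Ser T.C.adm k} (hp : p ∈ T.Wd H f univ) :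
    ∃ L, p ∈ T.Wd H f {x | T.lv x ≤ L} := by
  induction hp using Submodule.span_induction with
  | mem x hx =>
    obtain ⟨x, -, y, -, rfl⟩ := hx
    exact ⟨max (T.lv x) (T.lv y), pr_mem (le_max_left (T.lv x) (T.lv y))
      (le_max_right (T.lv x) (T.lv y))⟩
  | zero => exact ⟨0, zero_mem _⟩
  | add x y _ _ hx hy =>
    obtain ⟨L, hL⟩ := hx
    obtain ⟨L', hL'⟩ := hy
    exact ⟨max L L', add_mem (Wd_mono (fun z (h : T.lv z ≤ L) => h.trans (le_max_left L L')) hL)
      (Wd_mono (fun z (h : T.lv z ≤ L') => h.trans (le_max_right L L')) hL')⟩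
  | smul a x _ hx => exact hx.imp fun L hL => Submodule.smul_mem _ a hL

lemma exists_equiv (hc : ∀ s ∈ H, ∀ s' ∈ H, Commute s s') (hf : T.Aff H f) :
    ∃ η, ∀ h ∈ H, ∀ x, f (h • x) - η = sg h 1 * (f x - η) := by
  by_cases h0 : ∀ s ∈ H, s = 1
  · exact ⟨0, fun h hh x => by rw [h0 h hh, one_smul, ← one_def, one_mul]⟩
  push Not at h0
  obtain ⟨s, hs, hs1⟩ := h0
  refine ⟨(1 - sg s 1)⁻¹ * (f (s • T.b) - sg s 1 * f T.b), fun h hh x => ?_⟩
  set η := (1 - sg s 1 : Ser T.C.adm k)⁻¹ * (f (s • T.b) - sg s 1 * f T.b) with hη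
  have h1 : (1 - sg s 1) * η = f (s • T.b) - sg s 1 * f T.b :=
    mul_inv_cancel_left₀ (T.one_sub_ne hs1) _
  have h2 : (sg s 1 : Ser T.C.adm k) * sg h 1 = sg h 1 * sg s 1 := by
    rw [sg_mul_sg, sg_mul_sg, (hc s hs h hh).eq]
  have h3 := hf s hs x (h • x)
  have h4 := hf h hh x (s • x)
  have h5 := hf s hs x T.b
  rw [smul_smul, (hc s hs h hh).eq] at h3
  rw [smul_smul] at h4
  refine mul_left_cancel₀ (T.one_sub_ne hs1) ?_
  have h6 : (1 - sg s 1) * (sg h 1 * (f x - η)) = sg h 1 * ((1 - sg s 1) * f x - (1 - sg s 1) * η) := by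
    rw [← mul_sub, ← mul_assoc, ← mul_assoc, sub_mul, mul_sub (sg h 1), h2, one_mul, mul_one]
  have h7 : f (s • T.b) - sg s 1 * f T.b = f (s • x) - sg s 1 * f x := by
    rw [mul_sub, sub_eq_sub_iff_sub_eq_sub] at h5
    exact h5
  rw [h6, mul_sub, h1, h7]
  have h8 : sg s 1 * f (h • x) = f ((h * s) • x) - f (s • x) + sg s 1 * f x := by
    rw [h3, mul_sub, sub_add_cancel]
  have h9 : sg h 1 * ((1 - sg s 1) * f x - (f (s • x) - sg s 1 * f x)) =
      -(f ((h * s) • x) - f (h • x)) := by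
    rw [h4, ← mul_neg]
    congr 1
    rw [sub_mul, one_mul]
    abel
  rw [h9, sub_mul, one_mul, h8]
  abel

theorem inj_comm (hH : H ≤ T.N) (hc : ∀ s ∈ H, ∀ s' ∈ H, Commute s s') (hf : T.Aff H f) :
    T.Inj H f univ := by
  classical
  intro u hu
  obtain ⟨η, hη⟩ := exists_equiv hc hf
  obtain ⟨L, hL⟩ := exists_lv hu
  obtain ⟨c, hs⟩ := T.sing
  let f' : V → Ser T.C.adm k := fun x => if T.lv x ≤ L then f x - η else 0
  have h1 : ∀ h ∈ H, ∀ x, f' (h • x) = sg h 1 * f' x := fun h hh x => by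
    simp only [f', T.lv_smul, T.mem_N.1 (hH hh), zero_add]
    split_ifs
    exacts [hη h hh x, (mul_zero _).symm]
  have h2 : ((0 : Ch T.C E k), u) ∈ T.Wd H f' univ :=
    Wd_mono (subset_univ _) (Wd_congr (fun x hx y hy => by
      simp only [f', if_pos (show T.lv x ≤ L from hx), if_pos (show T.lv y ≤ L from hy)]
      abel) hL)
  refine dec hH (fun h hh x y => by rw [h1 h hh, h1 h hh, mul_sub]) (L + c) h2 ⊥
    (fun e he => absurd rfl he) fun a q hq _ => snd_span ⊥ ?_ hq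
  rintro _ ⟨x, hx, y, hy, rfl⟩
  have h3 : T.Sim (L + c) x y := Sim.trans (Sim.symm hx) hy
  change f' y - f' x = 0
  by_cases h4 : T.lv x ≤ L
  · rw [hs _ x y (by omega) h3, sub_self]
  by_cases h5 : T.lv y ≤ L
  · rw [hs _ y x (by omega) h3.symm, sub_self]
  simp only [f', if_neg h4, if_neg h5, sub_self]

theorem inj_le (hZ : T.Zd) (hH : H ≤ T.N) {d : ℕ} (hd : T.Bd H d) (hf : T.Aff H f) :
    T.Inj H f univ := by
  induction d generalizing H with
  | zero => exact (not_bd_zero H hd).elim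
  | succ d ih =>
    by_cases h : ∀ n, ∃ y, ∀ s ∈ H, T.Sim n y (s • y)
    · refine inj_comm hH (fun s hs s' hs' => ?_) hf
      by_cases h1 : s = 1
      · simp [h1]
      by_cases h2 : s' = 1
      · simp [h2]
      exact hZ s s' h1 h2 (eta_const hH h s hs s' hs' h1 h2)
    · simp only [not_forall, not_exists] at h
      obtain ⟨n, hn⟩ := h
      intro u hu
      refine dec hH hf n hu ⊥ (fun e he => absurd rfl he) fun a q hq h1 => ?_
      rw [map_zero] at h1
      refine block (n := n) (a := a) hH ?_ q.2 (by rw [← h1]; exact hq)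
      by_cases hb : ∀ s ∈ T.Stab H n a, s = 1
      · exact inj_comm (fun x hx => hx.2.1) (fun s hs s' _ => by simp [hb s hs])
          (hf.mono stab_le_HFF)
      · simp only [not_forall] at hb
        obtain ⟨s, hs, hs1⟩ := hb
        obtain ⟨g, hg, hg'⟩ := hn a
        exact ih (fun x hx => hx.2.1) (ff hH hd hs hs1 hg hg') (hf.mono stab_le_HFF)

end Tr

end Pool.Agent.P.MP_a28d48_al
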