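import Pool.Agent.P.MP_a28d48_al.UVal

set_option autoImplicit false

namespace Pool.Agent.P.MP_a28d48_al

open Function Set Ser

namespace Tr

variable {Γ V E k : Type*} [Group Γ] [MulAction Γ V] [MulAction Γ E] [Field k] {T : Tr Γ V E k}
  {H : Subgroup Γ} {f : V → Ser T.C.adm k}

/-- low parts of relations have bounded increments -/
theorem low_bound (hZ : T.Zc) (hZ' : T.Zd) {d : ℕ} (hd : T.Bd H d) {α : Γ} (hαH : α ∈ H)
    (hα : 0 < T.φ α) (hdiv : ∀ h ∈ H, T.φ α ∣ T.φ h) {x : V} (hx : T.Hi 0 (T.eta x α))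
    (hf : T.Aff H f) : ∃ (c : ℤ) (f' : V → Ser T.C.adm k), (∀ h ∈ H, f' (h • x) = f (h • x)) ∧
      ∀ p ∈ T.Wd (H ⊓ T.N) f' univ, (∀ e, p.1.1 e ≠ 0 → e ∈ T.OmH (H ⊓ T.N) 0 x) → T.Ge c p.2 := by
  classical
  obtain ⟨c, hc⟩ := uu' hZ hd hαH hα hdiv hx hf
  obtain ⟨ρ, h1, h2, h3⟩ := T.retr (H ⊓ T.N) {y | T.Sim 0 x y}
  let r : V → V := fun y => if ∃ h ∈ H, y = h • x then y else ρ y • x
  have h4 : ∀ h ∈ H ⊓ T.N, ∀ y, r (h • y) = h • r y := fun h hh y => by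
    have : (∃ g ∈ H, h • y = g • x) ↔ ∃ g ∈ H, y = g • x :=
      ⟨fun ⟨g, hg, e⟩ => ⟨h⁻¹ * g, H.mul_mem (H.inv_mem hh.1) hg, by
        rw [mul_smul, ← e, inv_smul_smul]⟩,
        fun ⟨g, hg, e⟩ => ⟨h * g, H.mul_mem hh.1 hg, by rw [mul_smul, e]⟩⟩
    simp only [r, this]
    split_ifs
    exacts [rfl, by rw [h2 h hh, mul_smul]]
  have h5 : T.Aff (H ⊓ T.N) fun y => f (r y) := fun h hh y z => by
    simp only [h4 h hh]
    exact hf h hh.1 _ _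
  have h6 : ∀ y, T.Sim 0 x y → T.Ge c (f (r y) - f x) := fun y hy => by
    simp only [r]
    split_ifs with h
    · obtain ⟨g, hg, rfl⟩ := h
      exact hc g hg hy
    · have := (h3 y hy).smul_N (h1 y).2
      rw [smul_inv_smul] at this
      exact hc _ (h1 y).1 (hy.trans this.symm)
  refine ⟨c, fun y => f (r y), fun h hh => congrArg f (if_pos ⟨h, hh, rfl⟩), fun p hp hs => ?_⟩
  refine dec inf_le_right h5 0 hp (T.GeS H c) (fun e he => ?_) fun a q hq e => ?_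
  · obtain ⟨_, -, h7⟩ := hs e he
    exact h7.1
  by_cases h7 : ∃ g ∈ H ⊓ T.N, T.Sim 0 x (g⁻¹ • a)
  · obtain ⟨g, hg, h7⟩ := h7
    refine snd_span _ ?_ hq
    rintro _ ⟨y, hy, z, hz, rfl⟩
    have h8 := h5 g hg (g⁻¹ • y) (g⁻¹ • z)
    rw [smul_inv_smul, smul_inv_smul] at h8
    change T.Ge c (f (r z) - f (r y))
    rw [h8, ← sub_sub_sub_cancel_right _ _ (f x)]
    exact ((h6 _ (h7.trans (Sim.smul_N hz (T.N.inv_mem hg.2)))).sub
      (h6 _ (h7.trans (Sim.smul_N hy (T.N.inv_mem hg.2))))).sg (T.mem_N.1 hg.2).ge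
  · have h8 : q.1 = 0 := e.trans (Subtype.ext (funext fun w => by
      rw [Ch.rs_apply]
      split_ifs with h
      · by_contra h9
        obtain ⟨g, hg, h10⟩ := hs w h9
        obtain ⟨g', hg', h11⟩ := h
        refine h7 ⟨g'⁻¹ * g, mul_mem (inv_mem hg') hg, ?_⟩
        have := (h10.2.trans h11.2.symm).smul_N (T.N.inv_mem hg.2)
        rwa [inv_smul_smul, smul_smul, ← inv_inv (g⁻¹ * g'), mul_inv_rev, inv_inv] at this
      · rfl))
    have h9 : T.Stab (H ⊓ T.N) 0 a = T.Stab H 0 a :=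
      Subgroup.ext fun g => ⟨fun h => ⟨h.1.1, h.2⟩, fun h => ⟨⟨h.1, h.2.1⟩, h.2⟩⟩
    obtain ⟨d', hd'⟩ := bd_of_fg (T := T) (h9 ▸ stab_fg hZ hd hαH hα hdiv (n := 0) (a := a)
      fun g hg h => h7 ⟨g, hg, (en_sim hα hx).1 h⟩)
    rw [block (n := 0) (a := a) inf_le_right
      (inj_le hZ' (fun g hg => hg.2.1) hd' (h5.mono stab_le_HFF)) q.2 (by rw [← h8]; exact hq)]
    exact zero_mem _

theorem inj_pos (hZ : T.Zc) (hZ' : T.Zd) {d : ℕ} (hd : T.Bd H d) {α : Γ} (hαH : α ∈ H)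
    (hα : 0 < T.φ α) (hdiv : ∀ h ∈ H, T.φ α ∣ T.φ h) {x : V} (hx : T.Hi 0 (T.eta x α))
    (hf : T.Aff H f) : T.Inj H f {y | ∃ h ∈ H, y = h • x} := by
  intro u hu
  obtain ⟨c, f', h1, h2⟩ := low_bound hZ hZ' hd hαH hα hdiv hx hf
  obtain ⟨n, μ, b, hb⟩ := Submodule.mem_span_set'.1 hu
  choose y hy z hz e using fun i => (b i).2
  choose my hmy using fun i => exists_sim (T := T) x (y i)
  choose mz hmz using fun i => exists_sim (T := T) x (z i)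
  obtain ⟨m, hm⟩ := (((finite_range my).union (finite_range mz)).insert 0).bddBelow
  obtain ⟨c', hc'⟩ := exists_ge_fin (T := T) finite_univ fun i => (b i).1.2
  have h3 : ∀ h ∈ H, -m ≤ T.φ h → ∀ i w, (T.ch (h • y i) (h • z i)).1 w ≠ 0 →
      w ∈ T.OmH (H ⊓ T.N) 0 x := fun h hh h4 i w hw => by
    have h5 : m ≤ 0 := hm (mem_insert _ _)
    obtain ⟨q, hq⟩ := hdiv h hh
    obtain ⟨j, rfl⟩ := Int.eq_ofNat_of_zero_le (a := q) (by nlinarith)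
    have h6 : h * (α ^ j)⁻¹ ∈ H ⊓ T.N := ⟨H.mul_mem hh (H.inv_mem (H.pow_mem hαH j)), T.mem_N.2 (by
      rw [T.φ_mul, φ_inv, φ_pow]; linarith)⟩
    have h7 := (en_sim_pow hα hx (Sim.refl 0 x) j).smul_N h6.2
    rw [smul_smul, inv_mul_cancel_right] at h7
    exact ⟨_, h6, ch_om
      (h7.trans ((((hmy i).mono (hm (Or.inr (Or.inl ⟨i, rfl⟩)))).smul h).mono (by omega)))
      (h7.trans ((((hmz i).mono (hm (Or.inr (Or.inr ⟨i, rfl⟩)))).smul h).mono (by omega))) hw⟩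
  have h4 : ∀ i, ∀ h ∈ H, (sg h 1 : Ser T.C.adm k) • (b i).1 ∈ T.Wd (H ⊓ T.N) f' univ := by
    intro i h hh
    obtain ⟨g, hg, e1⟩ := hy i
    obtain ⟨g', hg', e2⟩ := hz i
    rw [e i, pr_smul hf hh, e1, e2, smul_smul, smul_smul, pr, ← h1 _ (H.mul_mem hh hg),
      ← h1 _ (H.mul_mem hh hg')]
    exact pr_mem (mem_univ _) (mem_univ _)
  have key : ∀ j : ℕ, T.Ge (min c (-m + c')) (sg (α ^ j)⁻¹ 1 * u) := fun j => by
    choose ν h5 h6 h7 using fun i => trunc (T.Wd (H ⊓ T.N) f' univ) (h4 i) (-m)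
      (mul_mem (T.sg_mem_HEta (H.inv_mem (H.pow_mem hαH j))) (μ i).2)
    have h8 : ∑ i, (sg (α ^ j)⁻¹ 1 * (μ i).1 - ν i) • (b i).1 =
        (0, sg (α ^ j)⁻¹ 1 * u) - ∑ i, ν i • (b i).1 := by
      simp only [sub_smul, Finset.sum_sub_distrib, mul_smul, ← Finset.smul_sum]
      rw [show ∑ i, (μ i).1 • (b i).1 = (0, u) from hb, Prod.smul_mk, smul_zero, smul_eq_mul]
    have h9 := h2 _ (sum_mem fun i (_ : i ∈ Finset.univ) => h7 i) fun w hw => by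
      rw [h8, Prod.fst_sub, zero_sub, Prod.fst_sum] at hw
      obtain ⟨i, -, hi⟩ : ∃ i ∈ Finset.univ, (ν i • (b i).1).1.1 w ≠ 0 :=
        Finset.exists_ne_zero_of_sum_ne_zero (by simpa using hw)
      obtain ⟨g, hg, h10⟩ := Ch.exists_of_smul hi
      rw [← Ch.sg_smul_apply, e i, pr, sg_smul_ch] at h10
      exact h3 g (h5 i hg) (h6 i g hg) i w h10
    rw [h8, Prod.snd_sub, Prod.snd_sum] at h9
    rw [← sub_add_cancel (sg (α ^ j)⁻¹ 1 * u) (∑ i, (ν i • (b i).1).2)]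
    exact (h9.mono (min_le_left _ _)).add
      (Ge.sum _ fun i => ((h6 i).mul (hc' i (mem_univ _))).mono (min_le_right _ _))
  ext g
  by_contra hg
  have h5 := key (T.φ g - min c (-m + c') + 1).toNat ((α ^ _)⁻¹ * g) (by
    rwa [sg_mul_c, inv_inv, mul_inv_cancel_left, one_mul])
  rw [T.φ_mul, φ_inv, φ_pow] at h5
  have h6 := Int.self_le_toNat (T.φ g - min c (-m + c') + 1)
  have h7 := Int.natCast_nonneg (T.φ g - min c (-m + c') + 1).toNat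
  nlinarith

theorem inj_all (hZ : T.Zc) (hZ' : T.Zd) {d : ℕ} (hd : T.Bd H d) (hf : T.Aff H f) :
    T.Inj H f {y | ∃ h ∈ H, y = h • T.b} := by
  by_cases hH : H ≤ T.N
  · exact (inj_le hZ' hH hd hf).mono (subset_univ _)
  obtain ⟨p, ⟨hp, α, hαH, rfl⟩, hmin⟩ := Int.exists_least_of_bdd
    (P := fun z => 0 < z ∧ ∃ h ∈ H, T.φ h = z) ⟨0, fun z hz => hz.1.le⟩ (by
      obtain ⟨h, hh, h0⟩ := SetLike.not_le_iff_exists.1 hH
      rcases lt_or_gt_of_ne (show T.φ h ≠ 0 from h0) with h1 | h1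
      · exact ⟨_, by rw [T.φ_inv]; omega, h⁻¹, inv_mem hh, rfl⟩
      · exact ⟨_, h1, h, hh, rfl⟩)
  have hdiv : ∀ h ∈ H, T.φ α ∣ T.φ h := fun h hh => by
    refine Int.dvd_of_emod_eq_zero (by_contra fun h0 => ?_)
    have h1 := Int.emod_nonneg (T.φ h) hp.ne'
    have h2 := Int.emod_lt_of_pos (T.φ h) hp
    have h3 := hmin (T.φ h % T.φ α) ⟨by omega, h * (α ^ (T.φ h / T.φ α))⁻¹,
      mul_mem hh (inv_mem (zpow_mem hαH _)), by
        rw [T.φ_mul, T.φ_inv, T.φ_zpow, Int.emod_def, mul_comm, sub_eq_add_neg]⟩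
    omega
  obtain ⟨M, hM⟩ := en_pow hp 0 T.b
  refine (inj_pos hZ hZ' hd hαH hp hdiv (hM M le_rfl) hf).mono ?_
  rintro _ ⟨h, hh, rfl⟩
  exact ⟨h * (α ^ M)⁻¹, H.mul_mem hh (H.inv_mem (H.pow_mem hαH M)), by
    rw [smul_smul, inv_mul_cancel_right]⟩

/-- every derivation satisfies the linear relations of the chains -/
theorem inj_der (hZ : T.Zc) (hZ' : T.Zd) {d : ℕ} (hd : T.Bd H d) {δ : Γ → Ser T.C.adm k}
    (hδ : ∀ a ∈ H, ∀ b ∈ H, δ (a * b) = δ a + sg a 1 * δ b) {S : Set Γ} (hS : S ⊆ H)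
    (h0 : ∀ s ∈ S, δ s = 0) {h : Γ} (hh : h ∈ H)
    (hm : T.ch T.b (h • T.b) ∈ Submodule.span (subF T.C k H) ((fun s => T.ch T.b (s • T.b)) '' S)) :
    δ h = 0 := by
  obtain ⟨ρ, h1, h2, h3⟩ := T.retr H {T.b}
  have h4 : ρ T.b = 1 := inv_eq_one.1 (T.free _ _ (h3 _ rfl))
  have h5 : δ 1 = 0 := by simpa [← one_def] using hδ 1 H.one_mem 1 H.one_mem
  have h6 : ∀ s ∈ H, T.pr (fun y => δ (ρ y)) T.b (s • T.b) = (T.ch T.b (s • T.b), δ s) :=
    fun s hs => by simp only [pr, h2 s hs, h4, mul_one, h5, sub_zero]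
  have h7 : ∀ s ∈ H, (T.ch T.b (s • T.b), δ s) ∈
      T.Wd H (fun y => δ (ρ y)) {y | ∃ h ∈ H, y = h • T.b} := fun s hs =>
    h6 s hs ▸ pr_mem ⟨1, H.one_mem, (one_smul _ _).symm⟩ ⟨s, hs, rfl⟩
  refine inj_all hZ hZ' hd (f := fun y => δ (ρ y)) (fun g hg x y => ?_) _ ?_
  · simp only [h2 g hg, hδ g hg _ (h1 _), mul_sub, add_sub_add_left_eq_sub]
  · have h8 : ∀ σ ∈ Submodule.span (subF T.C k H) ((fun s => T.ch T.b (s • T.b)) '' S),
        (σ, (0 : Ser T.C.adm k)) ∈ T.Wd H (fun y => δ (ρ y)) {y | ∃ h ∈ H, y = h • T.b} := by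
      intro σ hσ
      induction hσ using Submodule.span_induction with
      | mem x hx =>
        obtain ⟨s, hs, rfl⟩ := hx
        exact h0 s hs ▸ h7 s (hS hs)
      | zero => exact zero_mem _
      | add x y _ _ hx hy => simpa using add_mem hx hy
      | smul a x _ hx => simpa using Submodule.smul_mem _ a hx
    simpa using sub_mem (h7 h hh) (h8 _ hm)

end Tr

end Pool.Agent.P.MP_a28d48_al
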