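import Pool.Agent.P.MP_a28d48_al.NDesc
import Pool.Agent.P.MP_a28d48_al.KTv

set_option autoImplicit false

namespace Pool.Agent.P.MP_a28d48_al

open Function Set Ser Pool.Agent.Lib.Gromov

lemma rel_of_growth {D M : Type*} [DivisionRing D] [AddCommGroup M] [Module D M]
    (V : ℕ → Submodule D M) [∀ n, FiniteDimensional D (V n)] {C d : ℕ}
    (hV : ∀ n, Module.finrank D (V n) ≤ C * (n + 1) ^ d) (h0 : 0 < Module.finrank D (V 0))
    (f g : M →ₗ[D] M) (hf : ∀ n, ∀ v ∈ V n, f v ∈ V (n + 1)) (hg : ∀ n, ∀ v ∈ V n, g v ∈ V (n + 1))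
    (hg' : Injective g) : ∃ n, ∃ a ∈ V n, ∃ b ∈ V n, b ≠ 0 ∧ f b = g a := by
  by_contra hc
  push Not at hc
  have h2 : ∀ n, 2 ^ n ≤ Module.finrank D (V n) := fun n => by
    induction n with
    | zero => exact h0
    | succ n ih =>
      have := LinearMap.finrank_le_finrank_of_injective
        (f := (f.restrict (hf n)).coprod (g.restrict (hg n))) (by
          rw [injective_iff_map_eq_zero]
          rintro ⟨b, a⟩ h
          have h1 : f b + g a = 0 := congrArg Subtype.val h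
          have h3 : (b : M) = 0 := by_contra fun h3 =>
            hc n _ (neg_mem a.2) _ b.2 h3 (by rw [map_neg, eq_neg_iff_add_eq_zero, h1])
          rw [h3, map_zero, zero_add] at h1
          exact Prod.ext (Subtype.ext h3) (Subtype.ext (hg' (h1.trans (map_zero g).symm))))
      rw [Module.finrank_prod] at this
      rw [pow_succ]
      omega
  obtain ⟨n, hn⟩ := exists_poly_lt C d
  exact absurd ((h2 n).trans (hV n)) (not_le.2 hn)

/-- a subfield acting from the right -/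
def opF {E : Type*} [DivisionRing E] (D : Subfield E) : Subfield Eᵐᵒᵖ where
  carrier := {x | x.unop ∈ D}
  mul_mem' := fun hx hy => D.mul_mem hy hx
  one_mem' := D.one_mem
  add_mem' := fun hx hy => D.add_mem hx hy
  zero_mem' := D.zero_mem
  neg_mem' := fun hx => D.neg_mem hx
  inv_mem' := fun _ hx => D.inv_mem hx

theorem ore_frac_right {E : Type*} [DivisionRing E] (R : Subring E)
    (hore : ∀ p ∈ R, ∀ q ∈ R, q ≠ 0 → ∃ a ∈ R, ∃ b ∈ R, b ≠ 0 ∧ p * b = q * a) {ι : Type*}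
    (s : Finset ι) {x : ι → E} (hx : ∀ i, x i ∈ Subfield.closure (R : Set E)) :
    ∃ q ∈ R, q ≠ 0 ∧ ∀ i ∈ s, x i * q ∈ R := by
  classical
  let Q : Subfield E :=
    { carrier := {x | ∃ q ∈ R, q ≠ 0 ∧ x * q ∈ R}
      mul_mem' := by
        rintro x y ⟨q, hq, hq0, hx⟩ ⟨r, hr, hr0, hy⟩
        obtain ⟨a, ha, b, hb, hb0, e⟩ := hore _ hy q hq hq0
        refine ⟨r * b, R.mul_mem hr hb, mul_ne_zero hr0 hb0, ?_⟩
        rw [mul_assoc, ← mul_assoc y, e, ← mul_assoc]
        exact R.mul_mem hx ha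
      one_mem' := ⟨1, R.one_mem, one_ne_zero, by simp⟩
      add_mem' := by
        rintro x y ⟨q, hq, hq0, hx⟩ ⟨r, hr, hr0, hy⟩
        obtain ⟨a, ha, b, hb, hb0, e⟩ := hore q hq r hr hr0
        refine ⟨q * b, R.mul_mem hq hb, mul_ne_zero hq0 hb0, ?_⟩
        rw [add_mul, ← mul_assoc, e, ← mul_assoc]
        exact R.add_mem (R.mul_mem hx hb) (R.mul_mem hy ha)
      zero_mem' := ⟨1, R.one_mem, one_ne_zero, by simp⟩
      neg_mem' := by
        rintro x ⟨q, hq, hq0, hx⟩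
        exact ⟨q, hq, hq0, by rw [neg_mul]; exact R.neg_mem hx⟩
      inv_mem' := by
        rintro x ⟨q, hq, hq0, hx⟩
        by_cases h0 : x = 0
        · exact ⟨1, R.one_mem, one_ne_zero, by simp [h0]⟩
        · exact ⟨x * q, hx, mul_ne_zero h0 hq0, by rwa [inv_mul_cancel_left₀ h0]⟩ }
  have h1 : ∀ y ∈ R, y ∈ Q := fun y hy => ⟨1, R.one_mem, one_ne_zero, by simpa using hy⟩
  induction s using Finset.induction_on with
  | empty => exact ⟨1, R.one_mem, one_ne_zero, by simp⟩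
  | insert i s _ ih =>
    obtain ⟨q, hq, hq0, h2⟩ := ih
    obtain ⟨r, hr, hr0, h3⟩ := Q.mul_mem ((Subfield.closure_le (t := Q)).2 h1 (hx i)) (h1 q hq)
    refine ⟨q * r, R.mul_mem hq hr, mul_ne_zero hq0 hr0, fun j hj => ?_⟩
    rw [← mul_assoc]
    rcases Finset.mem_insert.1 hj with rfl | hj
    exacts [h3, R.mul_mem (h2 j hj) hr]

variable {G : Type*} [Group G] {C : Cones G} {k : Type*} [Field k]

theorem cp_ore_right {N : Subgroup G} [hN : N.Normal] {c : ℕ}
    (hc : (⊤ : Subgroup (G ⧸ N)).lowerCentralSeries c = ⊥) :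
    ∀ p ∈ CP C k N ⊤, ∀ q ∈ CP C k N ⊤, q ≠ 0 →
      ∃ a ∈ CP C k N ⊤, ∃ b ∈ CP C k N ⊤, b ≠ 0 ∧ p * b = q * a := by
  classical
  intro p hp q hq hq0
  obtain ⟨T, -, -, h1, h2⟩ := CP_normal hN le_top hp
  obtain ⟨T', -, -, h1', h2'⟩ := CP_normal hN le_top hq
  let S : Set (G ⧸ N) := QuotientGroup.mk '' ((T ∪ T' : Finset G) : Set G)
  have hS : S.Finite := (Finset.finite_toSet _).image _
  let V : ℕ → Submodule (opF (DD C k N)) (Ser C.adm k) := fun n =>
    Submodule.span _ ((fun y : G ⧸ N => sg y.out 1) '' W S n)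
  have hfin : ∀ n, FiniteDimensional (opF (DD C k N)) (V n) := fun n =>
    FiniteDimensional.span_of_finite _ ((finite_W hS n).image _)
  have h3 : ∀ n, ∀ d ∈ DD C k N, ∀ g : G, (g : G ⧸ N) ∈ W S n → d * sg g 1 ∈ V n := by
    intro n d hd g hg
    have h4 := mul_mem (conj_mem_DD hN hd (g : G ⧸ N).out⁻¹)
      (sg_mem_DD (C := C) (QuotientGroup.eq.1 (g : G ⧸ N).out_eq) (1 : k))
    have h5 := (V n).smul_mem (⟨MulOpposite.op _, h4⟩ : opF (DD C k N))
      (Submodule.subset_span ⟨_, hg, rfl⟩)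
    rw [Subfield.smul_def, op_smul_eq_mul] at h5
    simpa [← mul_assoc, sg_mul_sg, ← one_def, mul_assoc d] using h5
  have h4 : ∀ (U : Finset G) (e : G → Ser C.adm k), U ⊆ T ∪ T' → (∀ t ∈ U, e t ∈ DD C k N) →
      ∀ n, ∀ v ∈ V n, (∑ t ∈ U, e t * sg t 1) * v ∈ V (n + 1) := by
    intro U e hU he n v hv
    induction hv using Submodule.span_induction with
    | mem x hx =>
      obtain ⟨y, hy, rfl⟩ := hx
      rw [Finset.sum_mul]
      refine sum_mem fun t ht => ?_
      rw [mul_assoc, sg_mul_sg, mul_one]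
      refine h3 _ _ (he t ht) _ ?_
      rw [QuotientGroup.mk_mul, QuotientGroup.out_eq', add_comm]
      exact mul_mem_W (mem_W_one ⟨t, hU ht, rfl⟩) hy
    | zero => rw [mul_zero]; exact zero_mem _
    | add x y _ _ hx hy => rw [mul_add]; exact add_mem hx hy
    | smul a x _ hx =>
      have := (V (n + 1)).smul_mem a hx
      rwa [Subfield.smul_def, MulOpposite.smul_eq_mul_unop, mul_assoc] at this
  let L : Ser C.adm k → Ser C.adm k →ₗ[opF (DD C k N)] Ser C.adm k := fun z =>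
    { toFun := fun v => z * v
      map_add' := mul_add z
      map_smul' := fun a v => (mul_assoc z v a.1.unop).symm }
  obtain ⟨C', d, hC⟩ := pl_of_lcs (N := (⊤ : Subgroup (G ⧸ N))) c 0 (by rwa [zero_add]) S hS
    (fun _ _ => by simp)
  obtain ⟨n, a, ha, b, hb, hb0, e⟩ := rel_of_growth V (C := C') (d := d) (fun n => by
      refine le_trans ?_ ((ncard_image_le (f := fun y : G ⧸ N => (sg y.out 1 : Ser C.adm k))
        (finite_W hS n)).trans (hC n))
      have := ((finite_W hS n).image fun y : G ⧸ N => (sg y.out 1 : Ser C.adm k)).fintype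
      rw [ncard_eq_toFinset_card']
      exact finrank_span_le_card _)
    (Module.finrank_pos_iff_exists_ne_zero.2 ⟨⟨_, h3 0 1 (one_mem _) 1 (one_mem_W _ _)⟩, fun h =>
      one_ne_zero (α := Ser C.adm k) (by simpa [← one_def] using congrArg Subtype.val h)⟩)
    (L p) (L q) (fun n v hv => by
      rw [h2]; exact h4 T _ Finset.subset_union_left (fun t ht => (h1 t ht).1) n v hv)
    (fun n v hv => by
      rw [h2']; exact h4 T' _ Finset.subset_union_right (fun t ht => (h1' t ht).1) n v hv)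
    fun _ _ h => mul_left_cancel₀ hq0 h
  have h5 : ∀ v ∈ V n, v ∈ CP C k N ⊤ := fun v hv => by
    induction hv using Submodule.span_induction with
    | mem x hx =>
      obtain ⟨y, -, rfl⟩ := hx
      exact sg_mem_CP (Subgroup.mem_top _) _
    | zero => exact zero_mem _
    | add x y _ _ hx hy => exact add_mem hx hy
    | smul a x _ hx => exact mul_mem hx (mem_CP_of_DD a.2)
  exact ⟨a, h5 a ha, b, h5 b hb, hb0, e⟩

lemma mul_c_block {K N : Subgroup G} {Ω : Set G} (h : ∀ g ∈ K, ∀ e ∈ Ω, g * e ∈ Ω → g ∈ N)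
    {y b : Ser C.adm k} (hy : y ∈ subF C k K) (hb : support b.c ⊆ Ω) {x : G} (hx : x ∈ Ω) :
    (res N y * b).c x = (y * b).c x := by
  rw [mul_c_sup y b x y.adm b.adm subset_rfl subset_rfl, mul_c_sup (res N y) b x y.adm b.adm
    (fun z hz (hf : y.c z = 0) => hz (by simp [res_c, hf])) subset_rfl]
  refine Finset.sum_congr rfl fun q hq => ?_
  rw [mem_ad] at hq
  rw [res_c, if_pos (h _ (hy hq.1) _ (hb hq.2.1) (hq.2.2 ▸ hx))]

universe u

/-- the division closure is linearly disjoint from the series of a subgroup -/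
theorem Nice.ld {p : ℕ} {G : Type u} [Group G] (Γ : Nice p G) (K : Subgroup G) {ι Y : Type*}
    [Fintype ι] [Fintype Y] {x : ι → Y → Ser Γ.C.adm k} (hx : ∀ i y, x i y ∈ DD Γ.C k ⊤)
    (hi : LinearIndependent (DD Γ.C k K) x) : LinearIndependent (subF Γ.C k K) x := by
  classical
  rw [Fintype.linearIndependent_iff] at hi ⊢
  intro μ hμ i₀
  by_contra h0
  choose lv hlv using fun i => (μ i).1.adm
  let j := Finset.univ.sup lv
  have hL : ∀ i, Lv j (μ i).1 := fun i => Cones.pwo_mono (Finset.le_sup (Finset.mem_univ i)) (hlv i)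
  have hN := Γ.normal j
  obtain ⟨n, hn⟩ := Γ.nil j
  have hm := Γ.mem j
  generalize Γ.N j = N at hN hn hm
  have hn' : (⊤ : Subgroup (G ⧸ N)).lowerCentralSeries n = ⊥ := by
    rw [← Subgroup.map_top_of_surjective _ (QuotientGroup.mk'_surjective N),
      ← Subgroup.map_lowerCentralSeries, Subgroup.map_eq_bot_iff, QuotientGroup.ker_mk']
    exact hn
  obtain ⟨q, -, hq0, hq⟩ := ore_frac_right _ (cp_ore_right (C := Γ.C) (k := k) hn') Finset.univ
    (x := fun z : ι × Y => x z.1 z.2) fun z => by rw [closure_CP le_top]; exact hx _ _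
  let t : G → G := fun g => (Quotient.mk (QuotientGroup.rightRel (K ⊔ N)) g).out
  have ht : ∀ g, g * (t g)⁻¹ ∈ K ⊔ N := fun g =>
    QuotientGroup.rightRel_apply.1 (Quotient.mk_out (s := QuotientGroup.rightRel (K ⊔ N)) g)
  let Ω : Set G := {z | ∃ g, z * (t g)⁻¹ ∈ N}
  have hΩ : ∀ g ∈ K, ∀ e ∈ Ω, g * e ∈ Ω → g ∈ N := by
    rintro g hg e ⟨a, ha⟩ ⟨b, hb⟩
    have h1 : t a = t b := congrArg Quotient.out (by
      rw [← Quotient.out_eq (Quotient.mk _ a), ← Quotient.out_eq (Quotient.mk _ b)]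
      refine Quotient.sound (QuotientGroup.rightRel_apply.2 ?_)
      have := mul_mem (mul_mem (inv_mem (Subgroup.mem_sup_right (S := K) hb))
        (Subgroup.mem_sup_left hg)) (Subgroup.mem_sup_right ha)
      simpa [mul_assoc] using this)
    rw [← h1, mul_assoc] at hb
    exact (N.mul_mem_cancel_right ha).1 hb
  obtain ⟨B, hB, hsp, hli⟩ := exists_linearIndependent (DD Γ.C k (K ⊓ N))
    {z : Ser Γ.C.adm k | ∃ d ∈ DD Γ.C k N, ∃ g, z = d * sg (t g) 1}
  have hBΩ : ∀ b : B, support b.1.c ⊆ Ω := fun b z hz => by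
    obtain ⟨d, hd, g, e⟩ := hB b.2
    rw [e, mem_support, mul_sg_c, mul_one] at hz
    exact ⟨g, DD_le_subF N hd hz⟩
  let R : AddSubgroup (Ser Γ.C.adm k) :=
    { carrier := {π | π ∈ DD Γ.C k K ∧ ∀ i, ∀ c ∈ K,
        res N (sg c 1 * ((μ i).1 * π)) ∈ DD Γ.C k (K ⊓ N)}
      add_mem' := fun ha hb => ⟨add_mem ha.1 hb.1, fun i c hc => by
        rw [mul_add, mul_add, map_add]; exact add_mem (ha.2 i c hc) (hb.2 i c hc)⟩
      zero_mem' := ⟨zero_mem _, fun i c hc => by simp⟩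
      neg_mem' := fun ha => ⟨neg_mem ha.1, fun i c hc => by
        rw [mul_neg, mul_neg, map_neg]; exact neg_mem (ha.2 i c hc)⟩ }
  have hR : ∀ c' ∈ K, ∀ δ ∈ DD Γ.C k (K ⊓ N), sg c' 1 * δ ∈ R := fun c' hc' δ hδ => by
    refine ⟨mul_mem (sg_mem_DD hc' 1) (DD_mono inf_le_left hδ), fun i c hc => ?_⟩
    rw [← mul_assoc, ← mul_assoc, res_mul_right (DD_le_subF N (DD_mono inf_le_right hδ))]
    have h1 : sg c 1 * (μ i).1 * sg c' 1 ∈ subF Γ.C k K :=
      mul_mem (mul_mem (DD_le_subF K (sg_mem_DD hc 1)) (μ i).2) (DD_le_subF K (sg_mem_DD hc' 1))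
    have h2 : Lv j (sg c 1 * (μ i).1 * sg c' 1) := by
      rw [← ofMA_single, ← ofMA_single]
      exact ((Lv.ofMA _).mul (hL i)).mul (Lv.ofMA _)
    refine mul_mem (mem_DD_of_finite ((fib_fin hm h2 1).subset fun z hz => ?_) fun z hz => ?_) hδ
    · simpa [fib, res_c] using hz
    · simp only [mem_support, res_c, ne_eq, ite_eq_right_iff, Classical.not_imp] at hz
      exact ⟨h1 hz.2, hz.1⟩
  have hA : ∀ z ∈ CP Γ.C k N ⊤, ∃ π : B →₀ Ser Γ.C.adm k, (∀ b, π b ∈ R) ∧
      Finsupp.linearCombination (Ser Γ.C.adm k) Subtype.val π = z := fun z hz => by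
    refine CP_induction hN (p := fun z => ∃ π : B →₀ Ser Γ.C.adm k, (∀ b, π b ∈ R) ∧
      Finsupp.linearCombination (Ser Γ.C.adm k) Subtype.val π = z)
      ⟨0, fun _ => zero_mem _, map_zero _⟩ (fun d hd g _ => ?_) ?_ hz
    · obtain ⟨c, hc, m, hm, e⟩ := (Subgroup.mul_normal K N).subset (ht g)
      have h1 : sg c⁻¹ 1 * d * sg c⁻¹⁻¹ 1 * sg m 1 * sg (t g) 1 ∈
          Submodule.span (DD Γ.C k (K ⊓ N)) B := hsp ▸ Submodule.subset_span
        ⟨_, mul_mem (conj_mem_DD hN hd _) (sg_mem_DD hm 1), g, rfl⟩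
      obtain ⟨δ, hδ⟩ := (Finsupp.mem_span_iff_linearCombination _ _ _).1 h1
      refine ⟨δ.mapRange (fun a => sg c 1 * a.1) (by simp),
        fun b => by rw [Finsupp.mapRange_apply]; exact hR c hc _ (δ b).2, ?_⟩
      rw [Finsupp.linearCombination_apply, Finsupp.sum_mapRange_index (by simp)]
      rw [Finsupp.linearCombination_apply] at hδ
      simp only [smul_eq_mul, mul_assoc, ← Finsupp.mul_sum]
      rw [show (δ.sum fun i a => a.1 * i.1) = _ from hδ]
      simp only [← mul_assoc, sg_mul_sg, mul_inv_cancel, mul_one, ← one_def, one_mul]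
      simp only [mul_assoc d, sg_mul_sg, inv_inv, mul_one]
      rw [show c * m = g * (t g)⁻¹ from e, inv_mul_cancel_right]
    · rintro _ _ - - ⟨π, h1, rfl⟩ ⟨π', h2, rfl⟩
      exact ⟨π + π', fun b => add_mem (h1 b) (h2 b), map_add _ _ _⟩
  choose π hπ hπ' using fun i y => hA _ (hq (i, y) (Finset.mem_univ _))
  have h1 : ∀ y b, ∑ i, (μ i).1 * π i y b = 0 := fun y b => by
    have h2 : Finsupp.linearCombination (Ser Γ.C.adm k) Subtype.val (∑ i, (μ i).1 • π i y) = 0 := by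
      simp only [map_sum, map_smul, hπ', smul_eq_mul, ← mul_assoc, ← Finset.sum_mul]
      rw [show ∑ i, (μ i).1 * x i y = 0 by
        simpa [Subfield.smul_def] using congrFun hμ y, zero_mul]
    have h3 : ∀ b, (∑ i, (μ i).1 • π i y) b = ∑ i, (μ i).1 * π i y b := fun b => by
      simp [Finsupp.finsetSum_apply]
    have h4 : ∀ b, (∑ i, (μ i).1 • π i y) b ∈ subF Γ.C k K := fun b =>
      h3 b ▸ sum_mem fun i _ => mul_mem (μ i).2 (DD_le_subF K (hπ i y b).1)
    have h5 : ∀ c ∈ K, ∀ b, res N (sg c 1 * (∑ i, (μ i).1 • π i y) b) ∈ DD Γ.C k (K ⊓ N) :=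
      fun c hc b => by
        rw [h3, Finset.mul_sum, map_sum]
        exact sum_mem fun i _ => (hπ i y b).2 i c hc
    rw [← h3]
    generalize ∑ i, (μ i).1 • π i y = ν at h2 h4 h5
    ext g
    by_contra hg
    have hK : g⁻¹ ∈ K := K.inv_mem (h4 b hg)
    have h6 := linearIndependent_iff'.1 hli ν.support (fun b => ⟨_, h5 _ hK b⟩) (by
      ext z
      rw [sum_c]
      by_cases hz : z ∈ Ω
      · have h7 := congrArg (fun w => (sg g⁻¹ 1 * w).c z) h2
        simp only [Finsupp.linearCombination_apply, Finsupp.sum, Finset.mul_sum, sum_c, smul_eq_mul,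
          ← mul_assoc, mul_zero] at h7
        exact (Finset.sum_congr rfl fun b _ => mul_c_block hΩ
          (mul_mem (DD_le_subF K (sg_mem_DD hK 1)) (h4 b)) (hBΩ b) hz).trans h7
      · refine Finset.sum_eq_zero fun b _ => by_contra fun h7 => hz ?_
        obtain ⟨a, e, ha, he, rfl⟩ := exists_of_mul_c h7
        obtain ⟨g', hg'⟩ := hBΩ b he
        exact ⟨g', by rw [mul_assoc]; exact N.mul_mem (res_mem_subF N _ ha) hg'⟩)
      b (Finsupp.mem_support_iff.2 fun h => hg (by rw [h]))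
    have h7 := congrArg (fun w : DD Γ.C k (K ⊓ N) => w.1.c 1) h6
    simp [res_c, sg_mul_c] at h7
    exact hg h7
  let U : Finset B := Finset.univ.biUnion fun z : ι × Y => (π z.1 z.2).support
  obtain ⟨κ, h2, h3⟩ := nDesc_fin (DD Γ.C k K).subtype Subtype.val_injective
    (fun a d hd => ⟨a * d⁻¹, 1, one_ne_zero, by rw [one_mul, inv_mul_cancel_right₀ hd]⟩)
    (fun i (z : Y × U) => ⟨π i z.1 z.2, (hπ _ _ _).1⟩) (fun i => (μ i).1) (fun z => h1 _ _) i₀
    fun h => h0 (Subtype.ext h)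
  refine h3 (hi κ (funext fun y => mul_right_cancel₀ hq0 ?_) i₀)
  have h4 : ∑ i, (κ i).1 • π i y = 0 := Finsupp.ext fun b => by
    by_cases hb : b ∈ U
    · simpa [Finsupp.finsetSum_apply] using congrArg Subtype.val (h2 (y, ⟨b, hb⟩))
    · have : ∀ i, π i y b = 0 := fun i => by_contra fun h => hb (Finset.mem_biUnion.2
        ⟨(i, y), Finset.mem_univ _, Finsupp.mem_support_iff.2 h⟩)
      simp [Finsupp.finsetSum_apply, this]
  have h5 := congrArg (Finsupp.linearCombination (Ser Γ.C.adm k) Subtype.val) h4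
  simpa [hπ', Finset.sum_mul, mul_assoc, Subfield.smul_def] using h5

end Pool.Agent.P.MP_a28d48_al
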