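import Pool.Agent.P.MP_a28d48_al.UTop

set_option autoImplicit false

namespace Pool.Agent.P.MP_a28d48_al

open Function Set Ser

universe u

theorem Nice.shn {p : ℕ} [Fact p.Prime] {G : Type u} [Group G] (Γ : Nice p G) (hG : Group.FG G)
    (SA SB : Finset G) {I : Type*} [Fintype I] {g : I → G}
    (hg : ∀ i j, ∀ a ∈ Subgroup.closure (SA : Set G), ∀ b ∈ Subgroup.closure (SB : Set G),
      g j = a * g i * b → i = j) {K : I → Subgroup G}
    (hK : ∀ i x, x ∈ K i ↔ x ∈ Subgroup.closure (SA : Set G) ∧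
      (g i)⁻¹ * x * g i ∈ Subgroup.closure (SB : Set G)) {n : I → ℕ}
    (π : ∀ i, FreeGroup (Fin (n i)) →* K i) (hπ : ∀ i, Surjective (π i))
    (rels : ∀ i, Finset (FreeGroup (Fin (n i))))
    (hker : ∀ i, (π i).ker = Subgroup.normalClosure (rels i)) :
    ∑ i, (n i - (rels i).card - 1) ≤ (SA.card - 1) * (SB.card - 1) := by
  obtain ⟨s, gen, hgen⟩ := exists_range hG.out
  obtain ⟨l⟩ := exists_lam Γ.C (ZMod p) gen hgen
  have der : ∀ g h, l.Λ (g * h) = l.Λ g + (sg g 1 : Ser Γ.C.adm (ZMod p)) • l.Λ h := fun g h =>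
    funext (l.der g h)
  choose f hf hi using fun i => Γ.rank_ge hG hgen l (K i) (π i) (hπ i) (rels i) (hker i)
  obtain ⟨BA, h1, h2⟩ := lsG_span der SA (subF _ _ _) fun h hh => DD_le_subF _ (sg_mem_DD hh 1)
  obtain ⟨BB, h3, h4⟩ := lsG_span der SB (subF _ _ _) fun h hh => DD_le_subF _ (sg_mem_DD hh 1)
  exact (count_ls der h2 h4 hg hK hf hi).trans (Nat.mul_le_mul h1 h3)

lemma exists_gens {P : Type*} [Group P] {A G : Subgroup P} [Group.FG A] (h : A ≤ G) :
    ∃ S : Finset G, S.card ≤ Group.rank A ∧ Subgroup.closure (S : Set G) = A.subgroupOf G := by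
  classical
  obtain ⟨S, h1, h2⟩ := Group.rank_spec A
  refine ⟨S.image (Subgroup.inclusion h), Finset.card_image_le.trans h1.le, ?_⟩
  rw [Finset.coe_image, ← MonoidHom.map_closure, h2, ← MonoidHom.range_eq_map,
    Subgroup.inclusion_range]

theorem shn_parafree {P : Type u} [Group P] (h0 : ⨅ n, lcs P n = ⊥) {X : Type u}
    (θ : ∀ n, P ⧸ lcs P n ≃* FreeGroup X ⧸ lcs (FreeGroup X) n) (A B : Subgroup P) [Group.FG A]
    [Group.FG B] {m : ℕ} (g : Fin m → P)
    (hg : Injective fun i => DoubleCoset.doubleCoset (g i) (A : Set P) (B : Set P))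
    (n : Fin m → ℕ) (rels : ∀ i, Finset (FreeGroup (Fin (n i))))
    (e : ∀ i, ↥(A ⊓ B.map (MulAut.conj (g i)).toMonoidHom) ≃*
      PresentedGroup (rels i : Set (FreeGroup (Fin (n i))))) :
    ∑ i, (n i - (rels i).card - 1) ≤ (Group.rank A - 1) * (Group.rank B - 1) := by
  have : Fact (Nat.Prime 2) := ⟨Nat.prime_two⟩
  let G := A ⊔ B ⊔ Subgroup.closure (range g)
  have hA : A ≤ G := le_sup_left.trans le_sup_left
  have hB : B ≤ G := le_sup_right.trans le_sup_left
  obtain ⟨Γ⟩ := nice_of_parafree (p := 2) h0 θ G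
  obtain ⟨SA, h1, h2⟩ := exists_gens hA
  obtain ⟨SB, h3, h4⟩ := exists_gens hB
  let ε := fun i => (e i).symm.trans (Subgroup.subgroupOfEquivOfLe (inf_le_left.trans hA)).symm
  refine (Γ.shn ((Group.fg_iff_subgroup_fg _).2 ((((Group.fg_iff_subgroup_fg A).1 ‹_›).sup
    ((Group.fg_iff_subgroup_fg B).1 ‹_›)).sup ((Subgroup.fg_iff _).2 ⟨_, rfl, finite_range g⟩)))
    SA SB (g := fun i => ⟨g i, Subgroup.mem_sup_right (Subgroup.subset_closure ⟨i, rfl⟩)⟩)
    (fun i j a ha b hb h => ?_) (fun i x => ?_)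
    (fun i => (ε i).toMonoidHom.comp (PresentedGroup.mk _))
    (fun i => (ε i).surjective.comp (PresentedGroup.mk_surjective _)) rels fun i => ?_).trans
    (Nat.mul_le_mul (Nat.sub_le_sub_right h1 1) (Nat.sub_le_sub_right h3 1))
  · rw [h2] at ha
    rw [h4] at hb
    exact hg (DoubleCoset.doubleCoset_eq_of_mem (H := A) (K := B)
      (DoubleCoset.mem_doubleCoset.2 ⟨a.1, ha, b.1, hb, congrArg Subtype.val h⟩)).symm
  · rw [h2, h4]
    refine and_congr_right fun _ => ⟨?_, fun h => ⟨_, h, by simp [mul_assoc]⟩⟩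
    rintro ⟨y, hy, h⟩
    rw [Subgroup.mem_subgroupOf]
    have h5 : g i * y * (g i)⁻¹ = x := h
    simpa [← h5, mul_assoc] using hy
  · ext w
    simp [PresentedGroup.mk_eq_one_iff]

end Pool.Agent.P.MP_a28d48_al
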