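import Pool.Agent.P.MP_a28d48_al.BTop
import Pool.Agent.P.MP_a28d48_al.UInj2
import Pool.Agent.P.MP_a28d48_al.UFox
import Pool.Agent.P.MP_a28d48_al.ULD
import Pool.Agent.P.MP_a28d48_al.UCount

set_option autoImplicit false

namespace Pool.Agent.P.MP_a28d48_al

open Function Set Ser

universe u

lemma exists_small_span {D M : Type*} [DivisionRing D] [AddCommGroup M] [Module D M] {L : Set M}
    {d : ℕ} (h : ∀ f : Fin d → M, (∀ i, f i ∈ L) → ¬ LinearIndependent D f) :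
    ∃ B : Finset M, (B : Set M) ⊆ L ∧ B.card < d ∧ L ⊆ Submodule.span D (B : Set M) := by
  obtain ⟨B, hBL, hsp, hli⟩ := exists_linearIndependent D L
  have h1 : ∀ e : Fin d ↪ B, False := fun e =>
    h (fun i => (e i : M)) (fun i => hBL (e i).2) (hli.comp e e.injective)
  have hB : B.Finite := by_contra fun hinf =>
    h1 (Fin.valEmbedding.trans (Set.Infinite.natEmbedding B hinf))
  lift B to Finset M using hB
  exact ⟨B, hBL, not_le.1 fun hd => h1 ((Fin.castLEEmb hd).trans B.equivFin.symm.toEmbedding),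
    hsp ▸ Submodule.subset_span⟩

section Xi

variable {G : Type*} [Group G] {Y : Type*} {C : Cones G} {k : Type*} [Field k] [Fintype Y]
  [DecidableEq Y] {gen : Y → G}

lemma exists_cast {Γ : Type*} [Group Γ] {D D' : Cones Γ} (hD : D = D') :
    ∃ ψ : Ser D'.adm k →+* Ser D.adm k, ∀ u, (ψ u).c = u.c := by
  subst hD
  exact ⟨RingHom.id _, fun _ => rfl⟩

/-- vectors over the division closure as chains -/
theorem Lam.exists_xi (l : Lam C k gen) (a : Dat G) (T : Tr a.Γ G (Ed G Y) k) (h1 : T.C = a.cones C)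
    (h2 : T.b = 1) (h3 : T.W = {e | e.y ∈ l.Fb}) (h4 : ∀ e x, T.χ e x = a.X C k (l.Λ x e.y) e.a) :
    ∃ Ξ : (Y → DD C k (⊤ : Subgroup G)) →+ Ch T.C (Ed G Y) k,
      (∀ M ≤ a.Γ, ∀ d : DD C k (⊤ : Subgroup G), d.1 ∈ DD C k M →
        ∃ d' : subF T.C k (M.subgroupOf a.Γ), ∀ v, Ξ (d • v) = d' • Ξ v) ∧
      ∀ (s : a.Γ) v, (∀ y, (v y).1 = (1 - sg (s : G) 1)⁻¹ * l.Λ s y) → Ξ v = T.eta T.b s := by
  classical
  obtain ⟨ψ, hψ⟩ := exists_cast (k := k) h1
  have hsg : ∀ g : G, (sg g 1 : Ser C.adm k) ∈ DD C k ⊤ := fun g => sg_mem_DD (Subgroup.mem_top g) 1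
  have h5 : ∀ (v : Y → DD C k (⊤ : Subgroup G)) (e : Ed G Y),
      (fun g : a.Γ => if (g • e).y ∈ l.Fb then a.X C k (v (g • e).y) (g • e).a else 0) =
      (if e.y ∈ l.Fb then ψ (a.Y C k ((v e.y).1 * sg e.a⁻¹ 1)) else 0).c := fun v e => by
    funext g
    rw [Ed.smul_y, Ed.smul_a]
    split_ifs
    · rw [hψ, Dat.Y_c (v _).2]
    · rfl
  let Ξ₀ : (Y → DD C k (⊤ : Subgroup G)) → Ch T.C (Ed G Y) k := fun v =>
    ⟨fun e => if e.y ∈ l.Fb then a.X C k (v e.y) e.a else 0, fun e => by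
      rw [h5]; exact Ser.adm _⟩
  have h6 : ∀ v e, Ch.cmp e (Ξ₀ v) =
      if e.y ∈ l.Fb then ψ (a.Y C k ((v e.y).1 * sg e.a⁻¹ 1)) else 0 := fun v e => Ser.ext (h5 v e)
  have h7 : ∀ d : DD C k (⊤ : Subgroup G), d.1 ∈ DD C k a.Γ → ∀ v,
      Ξ₀ (d • v) = ψ (a.e C k d) • Ξ₀ v := fun d hd v => Ch.ext_cmp fun e => by
    rw [Ch.cmp_smul, h6, h6]
    split_ifs
    · rw [← map_mul, ← Dat.Y_mul_left hd (mul_mem (v _).2 (hsg _)), ← mul_assoc]
      rfl
    · rw [mul_zero]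
  refine ⟨AddMonoidHom.mk' Ξ₀ fun v w => Ch.ext_cmp fun e => ?_, fun M hM d hd =>
    ⟨⟨ψ (a.e C k d), fun g hg => Dat.e_supp hM hd (hψ _ ▸ hg)⟩, h7 d (DD_mono hM hd)⟩,
    fun s v hv => ?_⟩
  · rw [Ch.cmp_add, h6, h6, h6]
    split_ifs
    · rw [← map_add, ← Dat.Y_add (mul_mem (v _).2 (hsg _)) (mul_mem (w _).2 (hsg _)), ← add_mul]
      rfl
    · rw [add_zero]
  · have m := (DD C k a.Γ).inv_mem (BEta_mem (C := C) (k := k) a s)
    obtain rfl : v = (⟨_, DD_mono le_top m⟩ : DD C k (⊤ : Subgroup G)) •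
      fun y => (⟨_, l.Λ_mem s y⟩ : DD C k (⊤ : Subgroup G)) := funext fun y => Subtype.ext (hv y)
    refine (h7 _ m _).trans ?_
    rw [Tr.eta, Dat.e_inv (BEta_mem a s), Dat.e_sub (one_mem _) (sg_mem_DD s.2 1), Dat.e_one,
      Dat.e_sg, map_inv₀, map_sub, map_one, show ψ (sg s 1) = sg s 1 from Ser.ext (hψ _)]
    congr 1
    refine Subtype.ext (funext fun e => ?_)
    have h0 : a.X C k 0 e.a = 0 := by rw [Dat.X, zero_mul, Dat.Y_zero, zero_c]
    simp only [Ξ₀, Tr.ch, h3, h4, h2, l.one, h0, sub_zero, mem_ofPred_eq]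
    rw [show s • (1 : G) = s from mul_one (s : G)]

end Xi

variable {p : ℕ} [hp : Fact p.Prime] {G : Type u} [Group G]

omit hp in
lemma Nice.mem_DD (Γ : Nice p G) {k : Type*} [Field k] {K : Subgroup G} {x : Ser Γ.C.adm k}
    (hx : x ∈ DD Γ.C k ⊤) (hK : x ∈ subF Γ.C k K) : x ∈ DD Γ.C k K := by
  by_contra h
  have h1 := Γ.ld K (x := ![fun _ : Unit => 1, fun _ => x]) (fun i _ => by
    fin_cases i
    exacts [one_mem _, hx]) (LinearIndependent.pair_iff.2 fun s t e => by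
      have e' : s.1 + t.1 * x = 0 := by simpa [Subfield.smul_def] using congrFun e ()
      have ht : t.1 = 0 := by_contra fun ht => h (by
        rw [← inv_mul_cancel_left₀ ht x, eq_neg_of_add_eq_zero_right e']
        exact mul_mem (inv_mem t.2) (neg_mem s.2))
      exact ⟨Subtype.ext (by simpa [ht] using e'), Subtype.ext ht⟩)
  simpa using (LinearIndependent.pair_iff.1 h1 ⟨x, hK⟩ (-1) (funext fun _ => by
    simp [Subfield.smul_def])).2

theorem Nice.rank_ge (Γ : Nice p G) (hG : Group.FG G) {s : ℕ} {gen : Fin s → G}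
    (hgen : Subgroup.closure (range gen) = ⊤) (l : Lam Γ.C (ZMod p) gen) (K : Subgroup G) {n : ℕ}
    (π : FreeGroup (Fin n) →* K) (hπ : Surjective π) (rels : Finset (FreeGroup (Fin n)))
    (hker : π.ker = Subgroup.normalClosure rels) :
    ∃ f : Fin (n - rels.card - 1) → Fin s → Ser Γ.C.adm (ZMod p),
      (∀ i, f i ∈ LsG Γ.C (ZMod p) l.Λ K) ∧ LinearIndependent (subF Γ.C (ZMod p) K) f := by
  classical
  have hsg : ∀ g : G, (sg g 1 : Ser Γ.C.adm (ZMod p)) ∈ DD Γ.C (ZMod p) ⊤ := fun g =>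
    sg_mem_DD (Subgroup.mem_top g) 1
  have hη : ∀ g y, (1 - sg g 1)⁻¹ * l.Λ g y ∈ DD Γ.C (ZMod p) ⊤ := fun g y =>
    mul_mem (inv_mem (sub_mem (one_mem _) (hsg g))) (l.Λ_mem g y)
  have hL : ∀ v ∈ LsG Γ.C (ZMod p) l.Λ K, ∀ y, v y ∈ DD Γ.C (ZMod p) ⊤ := by
    rintro _ ⟨g, -, g', -, -, -, rfl⟩ y
    exact sub_mem (hη g y) (hη g' y)
  by_contra hcon
  obtain ⟨B, hB, hBc, hsp⟩ := exists_small_span (D := DD Γ.C (ZMod p) K)
    fun f hf hi => hcon ⟨f, hf, Γ.ld K (fun i => hL _ (hf i)) hi⟩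
  obtain ⟨c⟩ := Γ.chain hG
  obtain ⟨a₀, φ, lv, hφ, h0, hlv, hnov⟩ :=
    c.novikov (fun q : Fin s × Fin l.m => l.μ q.1 q.2) fun q => l.μ_mem _ _
  obtain ⟨T, h1, h2, h3, h4⟩ := l.exists_tr hgen (a₀.cons φ hφ h0) hφ (fun g _ hg => Or.inl hg) hlv
    (l.push a₀ hlv fun y i => hnov (y, i))
  generalize a₀.cons φ hφ h0 = a at T h1 h2 h3 h4
  have hfi := a.fi
  have hZ' : T.Zd := fun x y hx _ h => Subtype.ext (Γ.commute l (fun e => hx (Subtype.ext e))
    (l.eta_eq a T h1 h2 h3 h4 h))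
  have hZ : T.Zc := fun H hH => by
    have := Γ.comm (H.map a.Γ.subtype) (by
      rintro _ ⟨x, hx, rfl⟩ _ ⟨y, hy, rfl⟩
      by_cases hx1 : x = 1
      · simp [hx1]
      by_cases hy1 : y = 1
      · simp [hy1]
      exact (hZ' x y hx1 hy1 (hH x hx y hy hx1 hy1)).map a.Γ.subtype)
    exact (Subgroup.comap_map_eq_self_of_injective a.Γ.subtype_injective H) ▸
      fg_comap this a.Γ.subtype a.Γ.subtype_injective (Subgroup.map_le_range _ _)
  obtain ⟨Ξ, hΞ, hΞ'⟩ := l.exists_xi a T h1 h2 h3 h4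
  obtain ⟨R, hR, hR1⟩ := exists_tv (a.Γ.subgroupOf K)
  set H := (K ⊓ a.Γ).subgroupOf a.Γ with hH
  let U : Finset (Ch T.C (Ed G (Fin s)) (ZMod p)) := (R ×ˢ B.attach).image fun q =>
    Ξ fun y => ⟨_, mul_mem (hsg q.1) (hL _ (hB q.2.2) y)⟩
  have h5 : ∀ v ∈ Submodule.span (DD Γ.C (ZMod p) K) (B : Set (Fin s → Ser Γ.C.adm (ZMod p))),
      (∀ y, v y ∈ DD Γ.C (ZMod p) ⊤) ∧ ∀ d ∈ DD Γ.C (ZMod p) K, ∀ w, (∀ y, (w y).1 = d * v y) →
        Ξ w ∈ Submodule.span (subF T.C (ZMod p) H) (U : Set (Ch T.C (Ed G (Fin s)) (ZMod p))) := by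
    intro v hv
    induction hv using Submodule.span_induction with
    | mem b hb =>
      refine ⟨hL b (hB hb), fun d hd w hw => ?_⟩
      have m : ∀ t : K, res a.Γ (d * sg (t : G)⁻¹ 1) ∈ DD Γ.C (ZMod p) (K ⊓ a.Γ) := fun t =>
        Γ.mem_DD (DD_mono le_top (res_mem_DD a.Γ (mul_mem (DD_mono le_top hd) (hsg _))))
          fun g hg => ⟨DD_le_subF K (mul_mem hd (sg_mem_DD (K.inv_mem t.2) 1))
            fun e => hg (by simp [res_c, e]), res_mem_subF _ _ hg⟩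
      have e : d = ∑ t ∈ R, res a.Γ (d * sg (t : G)⁻¹ 1) * sg (t : G) 1 := by
        ext g
        simp only [sum_c, mul_sg_c, res_c, inv_inv, inv_mul_cancel_right, mul_one]
        by_cases hg : d.c g = 0
        · simp [hg]
        obtain ⟨t, ⟨ht, h6⟩, hu⟩ := hR ⟨g, DD_le_subF K hd hg⟩
        exact ((Finset.sum_eq_single_of_mem t ht fun t' ht' hne =>
          if_neg fun h => hne (hu t' ⟨ht', h⟩)).trans (if_pos h6)).symm
      rw [show w = ∑ t ∈ R, (⟨_, DD_mono le_top (m t)⟩ : DD Γ.C (ZMod p) ⊤) •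
          fun y => (⟨_, mul_mem (hsg t) (hL b (hB hb) y)⟩ : DD Γ.C (ZMod p) ⊤) from
        funext fun y => Subtype.ext (by
          rw [hw]
          conv_lhs => rw [e]
          simp [Finset.sum_mul, mul_assoc]), map_sum]
      refine sum_mem fun t ht => ?_
      obtain ⟨d', hd'⟩ := hΞ _ inf_le_right ⟨_, DD_mono le_top (m t)⟩ (m t)
      rw [hd']
      exact Submodule.smul_mem _ _ (Submodule.subset_span (Finset.mem_image.2
        ⟨(t, ⟨b, hb⟩), Finset.mem_product.2 ⟨ht, Finset.mem_attach _ _⟩, rfl⟩))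
    | zero =>
      refine ⟨fun _ => zero_mem _, fun d hd w hw => ?_⟩
      rw [show w = 0 from funext fun y => Subtype.ext ((hw y).trans (mul_zero d)), map_zero]
      exact zero_mem _
    | add x y _ _ hx hy =>
      refine ⟨fun z => add_mem (hx.1 z) (hy.1 z), fun d hd w hw => ?_⟩
      rw [show w = (fun z => ⟨_, mul_mem (DD_mono le_top hd) (hx.1 z)⟩) +
        fun z => ⟨_, mul_mem (DD_mono le_top hd) (hy.1 z)⟩ from
        funext fun z => Subtype.ext ((hw z).trans (mul_add d _ _)), map_add]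
      exact add_mem (hx.2 d hd _ fun _ => rfl) (hy.2 d hd _ fun _ => rfl)
    | smul r x _ hx =>
      exact ⟨fun z => mul_mem (DD_mono le_top r.2) (hx.1 z), fun d hd w hw =>
        hx.2 _ (mul_mem hd r.2) w fun z => (hw z).trans (mul_assoc d _ _).symm⟩
  have h6 : T.Ls H ⊆
      Submodule.span (subF T.C (ZMod p) H) (U : Set (Ch T.C (Ed G (Fin s)) (ZMod p))) := by
    rintro _ ⟨x, hx, y, hy, hx1, hy1, rfl⟩
    rw [← hΞ' x (fun z => ⟨_, hη x z⟩) fun _ => rfl, ← hΞ' y (fun z => ⟨_, hη y z⟩) fun _ => rfl,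
      ← map_sub]
    exact (h5 _ (hsp ⟨x, hx.1, y, hy.1, fun e => hx1 (Subtype.ext e),
      fun e => hy1 (Subtype.ext e), rfl⟩)).2 1 (one_mem _) _ fun z => (one_mul _).symm
  obtain ⟨z, hz⟩ : ∃ z, ∀ h ∈ H, T.ch T.b (h • T.b) ∈ Submodule.span (subF T.C (ZMod p) H)
      ((insert z U : Finset _) : Set (Ch T.C (Ed G (Fin s)) (ZMod p))) := by
    by_cases h : ∀ h ∈ H, h = 1
    · exact ⟨0, fun x hx => by rw [h x hx, one_smul, T.ch_self]; exact zero_mem _⟩
    push Not at h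
    obtain ⟨x, hx, hx1⟩ := h
    refine ⟨T.eta T.b x, fun y hy => Submodule.span_le.2 ?_ (Tr.ch_mem_span hx hx1 hy _)⟩
    rw [Finset.coe_insert]
    exact insert_subset (Submodule.subset_span (mem_insert _ _))
      (h6.trans (Submodule.span_mono (subset_insert _ _)))
  let ι : a.Γ.subgroupOf K →* a.Γ :=
    { toFun := fun x => ⟨x.1.1, x.2⟩, map_one' := rfl, map_mul' := fun _ _ => rfl }
  have hι : Injective ι := fun x y e =>
    Subtype.ext (Subtype.ext (congrArg (fun z : a.Γ => z.1) e))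
  have hι' : ∀ x, ι x ∈ H := fun x => ⟨x.1.2, x.2⟩
  obtain ⟨B', hB', hc', hsp'⟩ := exists_small_span (D := subF T.C (ZMod p) H)
    (L := range fun x => T.ch T.b (ι x • T.b)) (d := (insert z U).card + 1) fun f hf hi => by
      have := linearIndependent_le_span_aux' f hi _ (by
        rintro _ ⟨i, rfl⟩
        obtain ⟨x, e⟩ := hf i
        rw [← e]
        exact hz _ (hι' x))
      simp only [Fintype.card_fin, Finset.coe_sort_coe, Fintype.card_coe] at this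
      omega
  choose w hw using fun b : B' => hB' b.2
  obtain ⟨d, hd₀⟩ := exists_bound_of_span (D := subF T.C (ZMod p) H) U.finite_toSet
  have hd : T.Bd H d := fun f hf => hd₀ f fun i => h6 (hf i)
  have h7 := fox_bound (a.Γ.subgroupOf K)
    { toFun := fun x => (sg (ι x) 1 : Ser T.C.adm (ZMod p))
      map_one' := rfl
      map_mul' := fun x y => by rw [sg_mul_sg, map_mul, mul_one] } hR hR1 π hπ rels hker
    (Finset.univ.image w) fun δ hδ h7 x => by
      rw [← hι.extend_apply δ 0 x]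
      refine Tr.inj_der hZ hZ' hd (S := range (ι ∘ w)) (fun g hg g' hg' => ?_)
        (by rintro _ ⟨b, rfl⟩; exact hι' _) ?_ (hι' x) (Submodule.span_mono ?_ (hsp' ⟨x, rfl⟩))
      · obtain ⟨g, rfl⟩ : ∃ y, ι y = g := ⟨⟨⟨g, hg.1⟩, g.2⟩, rfl⟩
        obtain ⟨g', rfl⟩ : ∃ y, ι y = g' := ⟨⟨⟨g', hg'.1⟩, g'.2⟩, rfl⟩
        rw [← map_mul, hι.extend_apply, hι.extend_apply, hι.extend_apply, hδ]
        rfl
      · rintro _ ⟨b, rfl⟩
        exact (hι.extend_apply δ 0 _).trans (h7 _ (Finset.mem_image_of_mem _ (Finset.mem_univ b)))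
      · exact fun b hb => ⟨_, ⟨⟨b, hb⟩, rfl⟩, hw ⟨b, hb⟩⟩
  have h8 : (Finset.univ.image w).card ≤ B'.card := Finset.card_image_le.trans (by simp)
  have h9 : U.card ≤ R.card * B.card := Finset.card_image_le.trans (by simp)
  have h10 := Finset.card_insert_le z U
  have h11 : R.card * n ≤ R.card * (rels.card + B.card + 1) := by
    rw [mul_add, mul_add]
    omega
  have := Nat.le_of_mul_le_mul_left h11 (Finset.card_pos.2 ⟨1, hR1⟩)
  omega

end Pool.Agent.P.MP_a28d48_al
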