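import Pool.Agent.P.MP_a28d48_al.UInj1

set_option autoImplicit false

namespace Pool.Agent.P.MP_a28d48_al

open Function Set Ser

namespace Tr

variable {Γ V E k : Type*} [Group Γ] [MulAction Γ V] [MulAction Γ E] [Field k] {T : Tr Γ V E k}
  {H : Subgroup Γ} {f : V → Ser T.C.adm k}

variable (T) in
/-- support at level at least `m` -/
def Ge (m : ℤ) (μ : Ser T.C.adm k) : Prop := ∀ g, μ.c g ≠ 0 → m ≤ T.φ g

lemma Ge.mono {m m' : ℤ} (h : m ≤ m') {μ : Ser T.C.adm k} (hμ : T.Ge m' μ) : T.Ge m μ :=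
  fun g hg => h.trans (hμ g hg)

lemma Ge.add {m : ℤ} {μ ν : Ser T.C.adm k} (hμ : T.Ge m μ) (hν : T.Ge m ν) : T.Ge m (μ + ν) :=
  fun g hg => (support_add μ.c ν.c hg).elim (hμ g) (hν g)

lemma Ge.neg {m : ℤ} {μ : Ser T.C.adm k} (hμ : T.Ge m μ) : T.Ge m (-μ) :=
  fun g hg => hμ g (by simpa using hg)

lemma Ge.sub {m : ℤ} {μ ν : Ser T.C.adm k} (hμ : T.Ge m μ) (hν : T.Ge m ν) : T.Ge m (μ - ν) := by
  rw [sub_eq_add_neg]
  exact hμ.add hν.neg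

lemma Ge.mul {m m' : ℤ} {μ ν : Ser T.C.adm k} (hμ : T.Ge m μ) (hν : T.Ge m' ν) :
    T.Ge (m + m') (μ * ν) := fun g hg => by
  obtain ⟨a, b, ha, hb, rfl⟩ := exists_of_mul_c hg
  rw [T.φ_mul]
  exact add_le_add (hμ a ha) (hν b hb)

lemma Ge.sg {m : ℤ} {ν : Ser T.C.adm k} (hν : T.Ge m ν) {g : Γ} (hg : 0 ≤ T.φ g) :
    T.Ge m (sg g 1 * ν) :=
  (Ge.mul (m := T.φ g) (fun x hx => by rw [eq_of_sg_c hx]) hν).mono (by omega)

lemma Ge.zero (m : ℤ) : T.Ge m 0 := fun _ hg => absurd rfl hg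

lemma Ge.sum {m : ℤ} {ι : Type*} (s : Finset ι) {μ : ι → Ser T.C.adm k} (h : ∀ i, T.Ge m (μ i)) :
    T.Ge m (∑ i ∈ s, μ i) :=
  Finset.sum_induction _ _ (fun _ _ => Ge.add) (Ge.zero m) fun i _ => h i

lemma exists_ge (μ : Ser T.C.adm k) : ∃ m, T.Ge m μ := by
  by_cases h : (support μ.c).Nonempty
  · obtain ⟨g, -, hg⟩ := bdd_of_adm T.C T.φ T.φ_mul T.φ_pos μ.adm h
    exact ⟨_, hg⟩
  · exact ⟨0, fun g hg => absurd ⟨g, hg⟩ h⟩

lemma exists_ge_fin {ι : Type*} {s : Set ι} (hs : s.Finite) (μ : ι → Ser T.C.adm k) :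
    ∃ m, ∀ i ∈ s, T.Ge m (μ i) := by
  choose m hm using fun i => exists_ge (μ i)
  obtain ⟨b, hb⟩ := (hs.image m).bddBelow
  exact ⟨b, fun i hi => (hm i).mono (hb ⟨i, hi, rfl⟩)⟩

variable (T) in
/-- the series of level at least `m` as a module -/
def GeS (H : Subgroup Γ) (m : ℤ) : Submodule (subF T.C k (H ⊓ T.N)) (Ser T.C.adm k) where
  carrier := {μ | T.Ge m μ}
  add_mem' := Ge.add
  zero_mem' := Ge.zero m
  smul_mem' := fun c _ hx => (Ge.mul (m := 0) (fun _ hg => (T.mem_N.1 (c.2 hg).2).ge) hx).mono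
    (by omega)

/-- cutting a series at a level -/
lemma trunc {M : Type*} [AddCommGroup M] [Module (Ser T.C.adm k) M]
    (U : Submodule (subF T.C k (H ⊓ T.N)) M) {b : M}
    (hb : ∀ h ∈ H, (sg h 1 : Ser T.C.adm k) • b ∈ U) (a : ℤ) {μ : Ser T.C.adm k}
    (hμ : μ ∈ subF T.C k H) : ∃ ν ∈ subF T.C k H, T.Ge a ν ∧ (μ - ν) • b ∈ U := by
  obtain ⟨m, hm⟩ := exists_ge μ
  have key : ∀ i : ℕ, ∃ ν ∈ subF T.C k H, T.Ge (m + i) ν ∧ (μ - ν) • b ∈ U := by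
    intro i
    induction i with
    | zero => exact ⟨μ, hμ, by simpa using hm, by simp⟩
    | succ i ih =>
      obtain ⟨ν, h1, h2, h3⟩ := ih
      by_cases h4 : ∃ h, ν.c h ≠ 0 ∧ T.φ h = m + i
      swap
      · refine ⟨ν, h1, fun g hg => ?_, h3⟩
        have h5 := h2 g hg
        have h6 : T.φ g ≠ m + i := fun e => h4 ⟨g, hg, e⟩
        push_cast
        omega
      obtain ⟨h, hh, e⟩ := h4
      have hH : h ∈ H := h1 hh
      have h5 : res T.N (ν * sg h⁻¹ 1) ∈ subF T.C k (H ⊓ T.N) := fun x hx => by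
        by_cases h' : x ∈ T.N
        · refine ⟨mul_mem h1 (T.sg_mem_HEta (H.inv_mem hH)) fun h0 => hx ?_, h'⟩
          rw [res_c, if_pos h', h0]
        · exact absurd (by rw [res_c, if_neg h']) hx
      refine ⟨ν - res T.N (ν * sg h⁻¹ 1) * sg h 1,
        sub_mem h1 (mul_mem (fun x hx => (h5 hx).1) (T.sg_mem_HEta hH)), fun g hg => ?_, ?_⟩
      · rw [sub_c, mul_sg_c, res_c, mul_sg_c, inv_inv, inv_mul_cancel_right] at hg
        split_ifs at hg with h6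
        · simp at hg
        · rw [mem_N, T.φ_mul, φ_inv] at h6
          have h7 := h2 g (by simpa using hg)
          push_cast
          omega
      · rw [← sub_add, add_smul, mul_smul]
        exact add_mem h3 (U.smul_mem ⟨_, h5⟩ (hb h hH))
  obtain ⟨ν, h1, h2, h3⟩ := key (a - m).toNat
  exact ⟨ν, h1, h2.mono (by omega), h3⟩

/-- equivariant coordinates adapted to a set -/
lemma retr (T : Tr Γ V E k) (J : Subgroup Γ) (Z : Set V) : ∃ ρ : V → Γ, (∀ y, ρ y ∈ J) ∧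
    (∀ h ∈ J, ∀ y, ρ (h • y) = h * ρ y) ∧ ∀ y ∈ Z, (ρ y)⁻¹ • y ∈ Z := by
  have h1 : ∀ s : Set V, ∃ z, (s.Nonempty → z ∈ s) ∧ ((s ∩ Z).Nonempty → z ∈ Z) := fun s => by
    by_cases h : (s ∩ Z).Nonempty
    · exact ⟨h.some, fun _ => h.some_mem.1, fun _ => h.some_mem.2⟩
    by_cases h' : s.Nonempty
    · exact ⟨h'.some, fun _ => h'.some_mem, fun h2 => absurd h2 h⟩
    · exact ⟨T.b, fun h2 => absurd h2 h', fun h2 => absurd h2 h⟩
  choose z hz hz' using h1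
  let O : V → Set V := fun y => {w | ∃ h ∈ J, y = h • w}
  have h2 : ∀ y, y ∈ O y := fun y => ⟨1, J.one_mem, (one_smul _ _).symm⟩
  choose ρ h3 h4 using fun y => hz (O y) ⟨y, h2 y⟩
  refine ⟨ρ, h3, fun h hh y => ?_, fun y hy => ?_⟩
  · have h5 : O (h • y) = O y := Set.ext fun w =>
      ⟨fun ⟨g, hg, e⟩ => ⟨h⁻¹ * g, J.mul_mem (J.inv_mem hh) hg, by rw [mul_smul, ← e, inv_smul_smul]⟩,
        fun ⟨g, hg, e⟩ => ⟨h * g, J.mul_mem hh hg, by rw [mul_smul, ← e]⟩⟩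
    have h6 := h4 (h • y)
    rw [h5] at h6
    refine inv_mul_eq_one.1 (T.free _ (z (O y)) ?_)
    rw [mul_smul, mul_smul, ← h4 y]
    exact inv_smul_eq_iff.2 h6
  · have h5 := hz' (O y) ⟨y, h2 y, hy⟩
    rwa [inv_smul_eq_iff.2 (h4 y)]

theorem phase1' (hZ : T.Zc) {d : ℕ} (hd : T.Bd H d) {α : Γ} (hαH : α ∈ H)
    (hα : 0 < T.φ α) (hdiv : ∀ h ∈ H, T.φ α ∣ T.φ h) {x : V} (hx : T.Hi 0 (T.eta x α)) :
    ∃ Q : Set Γ, Q.Finite ∧ Q ⊆ H ⊓ T.N ∧ ∃ M₁ : ℤ, ∀ (M : ℤ) (J : Subgroup Γ), Q ⊆ J →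
      (∀ s ∈ H ⊓ T.Phi 0 (max M M₁ - T.φ α) x, α * s * α⁻¹ ∈ J) → H ⊓ T.Phi 0 M x ≤ J := by
  classical
  obtain ⟨R, hR, hsep⟩ := fin_sep hd x (p := T.φ α) fun h hh h0 => Int.le_of_dvd h0 (hdiv h hh)
  have hA := T.ends_finite x hR
  have hαx : T.Hi (T.φ α) (T.eta (α • x) α) := by simpa using en_smul hα hx 1
  obtain ⟨Q₁, hQ₁, hQJ, hQ⟩ := pairs_fg (H ⊓ T.N) (T.Sim (T.φ α))
    ⟨Sim.refl _, Sim.symm, Sim.trans⟩ (fun g hg _ _ h => h.smul_N hg.2)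
    (A := {a | a ∈ T.Ends x R ∧ ∀ g ∈ H ⊓ T.N, ¬ T.Hi (T.φ α) (T.eta (g⁻¹ • a) α)})
    (hA.subset fun _ h => h.1) hA (T.Stab H (T.φ α))
    (fun a ha => ⟨fun g hg => ⟨hg.1, hg.2.1⟩, stab_fg hZ hd hαH hα hdiv ha.2⟩)
    fun a _ g hg h => ⟨hg.1, hg.2, h⟩
  have hch : ∀ a : V, ∃ (g : Γ) (m : ℤ), g ∈ H ⊓ T.N ∧
      ((∃ g' ∈ H ⊓ T.N, T.Hi (T.φ α) (T.eta (g'⁻¹ • a) α)) →
        T.Cn (T.X (T.φ α) m) (g⁻¹ • a) (α • x)) := fun a => by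
    by_cases h : ∃ g' ∈ H ⊓ T.N, T.Hi (T.φ α) (T.eta (g'⁻¹ • a) α)
    · obtain ⟨g, hg, h1⟩ := h
      obtain ⟨m, hm⟩ := ((en_sim hα h1).1 hαx).cn
      exact ⟨g, m, hg, fun _ => hm⟩
    · exact ⟨1, 0, one_mem _, fun h' => absurd h' h⟩
  choose ga ma hga hma using hch
  obtain ⟨M₀, hM₀⟩ := (hA.image ma).bddAbove
  refine ⟨Q₁ ∪ ga '' T.Ends x R, hQ₁.union (hA.image _), ?_, max M₀ (T.φ α + 2 * T.c),
    fun M J hJ hJ' s hs => ?_⟩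
  · rintro g (hg | ⟨a, -, rfl⟩)
    exacts [hQJ hg, hga a]
  set M' := max M (max M₀ (T.φ α + 2 * T.c)) with hM'
  have h1 : T.Cn (T.X (T.φ α) M' ∪ Orb (H ⊓ T.N) R) x (s • x) :=
    (geo hα.le hs.2.2).mono (union_subset_union
      (X_mono (max_le_max_left _ (le_max_right _ _))) (hsep s hs.1 (sim_of_cn hs.2.2)))
  refine (Subgroup.closure_le _).2 ?_ (gen T.o_smul T.t_smul (H ⊓ T.N)
    (fun g hg e he => smul_mem_X_N he hg.2) ⟨hs.1, hs.2.1⟩ h1)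
  rintro g ⟨hg, a, ha, a', ha', hc⟩
  by_cases he : ∃ g' ∈ H ⊓ T.N, T.Hi (T.φ α) (T.eta (g'⁻¹ • a) α)
  · have he' : ∃ g' ∈ H ⊓ T.N, T.Hi (T.φ α) (T.eta (g'⁻¹ • a') α) := by
      obtain ⟨g', hg', h2⟩ := he
      refine ⟨g⁻¹ * g', mul_mem (inv_mem hg) hg', (en_sim hα h2).2 ?_⟩
      rw [mul_inv_rev, inv_inv, mul_smul]
      exact (sim_of_cn hc).smul_N (inv_mem hg'.2)
    have hb : ∀ z ∈ T.Ends x R, T.X (T.φ α) (ma z) ⊆ T.X (T.φ α) M' := fun z hz =>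
      X_mono ((hM₀ (mem_image_of_mem _ hz)).trans ((le_max_left _ _).trans (le_max_right _ _)))
    have hu : (ga a)⁻¹ * g * ga a' ∈ H ⊓ T.N := mul_mem (mul_mem (inv_mem (hga a)) hg) (hga a')
    have h2 := cn_smul_N ((hma a' he').mono (hb a' ha')) hu.2
    rw [smul_smul, mul_inv_cancel_right, mul_smul] at h2
    have h3 := cn_smul ((((hma a he).mono (hb a ha)).symm.trans
      (cn_smul_N hc (T.N.inv_mem (hga a).2))).trans h2) α⁻¹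
    rw [T.φ_inv, add_neg_cancel, inv_smul_smul, ← sub_eq_add_neg, smul_smul, smul_smul] at h3
    have h4 : α⁻¹ * ((ga a)⁻¹ * g * ga a') * α ∈ H ⊓ T.Phi 0 (M' - T.φ α) x :=
      ⟨H.mul_mem (H.mul_mem (H.inv_mem hαH) hu.1) hαH, by simpa using T.conj_mem_N hu.2 α⁻¹, h3⟩
    have e : g = ga a * (α * (α⁻¹ * ((ga a)⁻¹ * g * ga a') * α) * α⁻¹) * (ga a')⁻¹ := by group
    have hg' : ∀ z ∈ T.Ends x R, ga z ∈ J := fun z hz => hJ (Or.inr (mem_image_of_mem _ hz))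
    rw [SetLike.mem_coe, e]
    exact mul_mem (mul_mem (hg' a ha) (hJ' _ h4)) (inv_mem (hg' a' ha'))
  · exact (Subgroup.closure_le _).2 (subset_union_left.trans hJ)
      (hQ g hg a ⟨ha, fun g' hg' h => he ⟨g', hg', h⟩⟩ a' ha' (sim_of_cn hc))

/-- the stabiliser of the class of the attracting end moves `f` boundedly -/
theorem uu (hZ : T.Zc) {d : ℕ} (hd : T.Bd H d) {α : Γ} (hαH : α ∈ H)
    (hα : 0 < T.φ α) (hdiv : ∀ h ∈ H, T.φ α ∣ T.φ h) {x : V} (hx : T.Hi 0 (T.eta x α))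
    (hf : T.Aff H f) : ∃ c, ∀ s ∈ H ⊓ T.N, T.Sim 0 x (s • x) → T.Ge c (f (s • x) - f x) := by
  obtain ⟨Q, hQ, hQH, M₁, h1⟩ := phase1' hZ hd hαH hα hdiv hx
  obtain ⟨S, hS, hS'⟩ := (Subgroup.fg_iff _).1 (phase2 hZ hd 0 M₁ x)
  obtain ⟨c, hc⟩ := exists_ge_fin ((hQ.union hS').insert α) fun s => f (s • x) - f x
  let J : Subgroup Γ :=
    { carrier := {s | s ∈ H ⊓ T.N ∧ T.Ge c (f (s • x) - f x)}
      mul_mem' := fun {a b} ha hb => ⟨mul_mem ha.1 hb.1, by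
        rw [mul_smul, ← sub_add_sub_cancel _ (f (a • x)), hf a ha.1.1]
        exact (hb.2.sg (T.mem_N.1 ha.1.2).ge).add ha.2⟩
      one_mem' := ⟨one_mem _, by rw [one_smul, sub_self]; exact Ge.zero c⟩
      inv_mem' := fun {a} ha => ⟨inv_mem ha.1, by
        have := hf a⁻¹ (inv_mem ha.1.1) (a • x) x
        rw [inv_smul_smul] at this
        rw [this, ← neg_sub]
        exact ha.2.neg.sg (T.mem_N.1 (inv_mem ha.1.2)).ge⟩ }
  have hJ : ∀ s ∈ J, α * s * α⁻¹ ∈ J := fun s hs => by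
    have h2 : α * s * α⁻¹ ∈ H ⊓ T.N :=
      ⟨H.mul_mem (H.mul_mem hαH hs.1.1) (H.inv_mem hαH), T.conj_mem_N hs.1.2 α⟩
    have h3 := hf _ h2.1 (α • x) x
    have h4 := hf α hαH x (s • x)
    rw [smul_smul, inv_mul_cancel_right] at h3
    rw [smul_smul] at h4
    have h5 := hc α (mem_insert _ _)
    refine ⟨h2, ?_⟩
    rw [← sub_add_sub_cancel _ (f ((α * s) • x)), ← sub_add_sub_cancel (f ((α * s) • x)) (f (α • x)),
      h3, h4, ← neg_sub (f (α • x))]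
    exact (h5.neg.sg (T.mem_N.1 h2.2).ge).add ((hs.2.sg hα.le).add h5)
  have h2 : ∀ (m : ℕ) (M : ℤ), M ≤ M₁ + m → H ⊓ T.Phi 0 M x ≤ J := by
    intro m
    induction m with
    | zero =>
      intro M hM s hs
      have h0 : s ∈ H ⊓ T.Phi 0 M₁ x := ⟨hs.1, hs.2.1, hs.2.2.mono (X_mono (by simpa using hM))⟩
      rw [← hS] at h0
      refine (Subgroup.closure_le J).2 (fun g hg => ⟨?_, hc g (Or.inr (Or.inr hg))⟩) h0
      have h3 : g ∈ H ⊓ T.Phi 0 M₁ x := hS ▸ Subgroup.subset_closure hg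
      exact ⟨h3.1, h3.2.1⟩
    | succ m ih =>
      refine fun M hM => h1 M J (fun g hg => ⟨hQH hg, hc g (Or.inr (Or.inl hg))⟩)
        fun s hs => hJ s (ih _ ?_ hs)
      push_cast at hM
      rcases le_total M M₁ with h | h
      · rw [max_eq_right h]; omega
      · rw [max_eq_left h]; omega
  refine ⟨c, fun s hs h => ?_⟩
  obtain ⟨M, hM⟩ := h.cn
  exact (h2 (M - M₁).toNat M (by omega) ⟨hs.1, hs.2, hM⟩).2

lemma en_sim_pow {α : Γ} (hα : 0 < T.φ α) {x : V} (hx : T.Hi 0 (T.eta x α)) {y : V}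
    (hy : T.Sim 0 x y) (i : ℕ) : T.Sim 0 x (α ^ i • y) := by
  have h1 := en_smul hα ((en_sim hα hx).2 hy) i
  rw [zpow_natCast] at h1
  exact (en_sim hα hx).1 (h1.mono (by positivity))

theorem uu' (hZ : T.Zc) {d : ℕ} (hd : T.Bd H d) {α : Γ} (hαH : α ∈ H)
    (hα : 0 < T.φ α) (hdiv : ∀ h ∈ H, T.φ α ∣ T.φ h) {x : V} (hx : T.Hi 0 (T.eta x α))
    (hf : T.Aff H f) : ∃ c, ∀ h ∈ H, T.Sim 0 x (h • x) → T.Ge c (f (h • x) - f x) := by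
  obtain ⟨c₁, h1⟩ := uu hZ hd hαH hα hdiv hx hf
  obtain ⟨c₀, hs⟩ := T.sing
  obtain ⟨z, ⟨h₀, hh₀, rfl, h2⟩, hmin⟩ := Int.exists_least_of_bdd
    (P := fun z => ∃ h ∈ H, T.φ h = z ∧ T.Sim 0 x (h • x)) ⟨-T.lv x - c₀, by
      rintro _ ⟨h, -, rfl, h2⟩
      by_contra hc
      have h3 : T.lv (h • x) + c₀ ≤ 0 := by rw [T.lv_smul]; omega
      have h4 := en_sim_pow hα hx (Sim.refl 0 x) 1
      rw [pow_one] at h4
      exact ne_one_HT2 hα (T.free α x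
        ((hs 0 _ _ h3 (h2.symm.trans h4)).symm.trans (hs 0 _ _ h3 h2.symm)))⟩
    ⟨_, 1, one_mem _, rfl, by rw [one_smul]; exact Sim.refl _ _⟩
  obtain ⟨c₂, h3⟩ := exists_ge (f (h₀ • x) - f x)
  obtain ⟨c₃, h4⟩ := exists_ge (f (α • x) - f x)
  have h5 : ∀ i : ℕ, T.Ge (min c₂ c₃) (f (α ^ i • h₀ • x) - f x) := fun i => by
    induction i with
    | zero => rw [pow_zero, one_smul]; exact h3.mono (min_le_left _ _)
    | succ i ih =>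
      rw [pow_succ', mul_smul, ← sub_add_sub_cancel _ (f (α • x)), hf α hαH]
      exact (ih.sg hα.le).add (h4.mono (min_le_right _ _))
  refine ⟨min c₁ (min c₂ c₃), fun h hh h6 => ?_⟩
  obtain ⟨q, hq⟩ := (hdiv h hh).sub (hdiv h₀ hh₀)
  have h7 := hmin _ ⟨h, hh, rfl, h6⟩
  obtain ⟨i, rfl⟩ := Int.eq_ofNat_of_zero_le (a := q) (by nlinarith)
  have h8 : h * (α ^ i * h₀)⁻¹ ∈ H ⊓ T.N :=
    ⟨H.mul_mem hh (H.inv_mem (H.mul_mem (H.pow_mem hαH i) hh₀)), T.mem_N.2 (by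
      rw [T.φ_mul, φ_inv, T.φ_mul, φ_pow]; linarith)⟩
  have e : h • x = (h * (α ^ i * h₀)⁻¹) • α ^ i • h₀ • x := by
    rw [smul_smul, smul_smul, mul_assoc, inv_mul_cancel_right]
  have h9 := (en_sim_pow hα hx h2 i).smul_N h8.2
  rw [← e] at h9
  rw [← sub_add_sub_cancel _ (f ((h * (α ^ i * h₀)⁻¹) • x))]
  refine Ge.add ?_ ((h1 _ h8 (h6.trans h9.symm)).mono (min_le_left _ _))
  have h10 := hf _ h8.1 x (α ^ i • h₀ • x)
  rw [← e] at h10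
  rw [h10]
  exact ((h5 i).mono (min_le_right _ _)).sg (T.mem_N.1 h8.2).ge

end Tr

end Pool.Agent.P.MP_a28d48_al
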